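import Pool.Agent.Helper55.KE.CaseB

set_option autoImplicit false
set_option linter.unusedSectionVars false

/-!
# No overlaps

A flat progression whose overlap vectors are as described in `L0` has no overlapping boxes.
-/

namespace Helper55.KE

open Helper11.N1

section

variable {p q a b : ℕ} [NeZero p] [NeZero q] {z : ZMod p → ZMod (p * q)} {i0 ρ : ZMod p}
  {θ : ZMod (p * q)}

theorem l0_rev' {a b : ℕ} {ρ : ZMod p} {θ : ZMod (p * q)} (h : L0 p q a b θ (θ + e p q ρ)) :
    L0 p q a b (-θ) (-θ + e p q (-ρ)) := by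
  rw [phi_rev]
  exact l0_rev h

theorem neg_case (hP : Par p q a b) (hbp : b.Coprime p) (hG : Gen q z) (hAP : AP q z i0 ρ θ)
    (hF : ∀ X W S, |FF q a b z X W S| ≤ 1) (hL : L0 p q a b θ (θ + e p q ρ))
    {k : ℕ} {x y : ℤ} (hK : KK p q a b θ (θ + e p q ρ) k x y) (hy : y < 0) : False := by
  have hq1 := hP.hq
  have hhpq : ((p * q : ℕ) : ℤ) = (p : ℤ) * q := by push_cast; ring
  obtain ⟨haq, hbq, habq, h2a, h2b⟩ := lt_mul_of hP
  have hhaq : ((a * q : ℕ) : ℤ) = (a : ℤ) * q := by push_cast; ring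
  rcases hL k x y hK with ⟨h1, h2, h3⟩ | ⟨h1, h2, h3⟩ | ⟨h1, h2⟩
  · exact corner hP hG hAP hF hL hK h1 h2 h3
  · omega
  · obtain ⟨n, x', y', hK', hy', m, g2, hm0, hm, hmφ, hg20, hg2q⟩ :=
      caseB hP hbp hG hAP hF hK hy h1 h2
    have hmφ' : (m : ZMod (p * q)) * (θ + e p q ρ) = ((g2 : ℤ) : ZMod (p * q)) := by
      rw [hmφ, Int.cast_natCast]
    rcases hL n x' y' hK' with ⟨h3, h4, h5⟩ | ⟨h3, h4, h5⟩ | ⟨h3, h4⟩
    · omega
    · -- the square is a corner of the reversed progression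
      have hL' := l0_rev' hL
      have hK'' := kk_rev hK'
      rw [← phi_rev] at hK''
      exact corner hP hG (ap_rev hAP) hF hL' hK'' (by omega) (by omega) (by linarith)
    · rw [abs_of_pos hy'] at h3
      obtain ⟨hn0, hn, hnx, hny, hxb, hya⟩ := hK'
      rw [abs_lt] at hya
      have hmn : m ≠ n := by
        rintro rfl
        rw [hny] at hmφ'
        have h5 : ((y' - g2 : ℤ) : ZMod (p * q)) = 0 := by
          rw [Int.cast_sub, hmφ', sub_self]
        have h6 := int_zero h5 (by omega) (by omega)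
        omega
      exact (h4 m hm0 hm hmn g2 hmφ').2 hy' ⟨by omega, by omega⟩

/-- no overlap vectors -/
theorem kempty (hP : Par p q a b) (hbp : b.Coprime p) (hG : Gen q z) (hAP : AP q z i0 ρ θ)
    (hF : ∀ X W S, |FF q a b z X W S| ≤ 1) (hL : L0 p q a b θ (θ + e p q ρ))
    (k : ℕ) (x y : ℤ) : ¬ KK p q a b θ (θ + e p q ρ) k x y := by
  intro hK
  have hq1 := hP.hq
  rcases lt_trichotomy y 0 with h | h | h
  · exact neg_case hP hbp hG hAP hF hL hK h
  · rw [h] at hK
    apply ap_ndvd hAP hG hK.1 hK.2.1 hK.2.2.2.1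
    exact ⟨0, by ring⟩
  · have hL' := l0_rev' hL
    have hK'' := kk_rev hK
    rw [← phi_rev] at hK''
    exact neg_case hP hbp hG (ap_rev hAP) hF hL' hK'' (by omega)

/-- the boxes are disjoint -/
theorem disj (hP : Par p q a b) (hbp : b.Coprime p) (hG : Gen q z) (hAP : AP q z i0 ρ θ)
    (hF : ∀ X W S, |FF q a b z X W S| ≤ 1) (hL : L0 p q a b θ (θ + e p q ρ)) :
    Disj q a b z := by
  have hq1 := hP.hq
  obtain ⟨haq, hbq, habq, h2a, h2b⟩ := lt_mul_of hP
  have hhaq : ((a * q : ℕ) : ℤ) = (a : ℤ) * q := by push_cast; ring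
  have hhbq : ((b * q : ℕ) : ℤ) = (b : ℤ) * q := by push_cast; ring
  have key : ∀ (n m : ℕ) (X S : ZMod (p * q)), n < p → m < p → n < m →
      box q a b z (i0 + (n : ZMod p) * ρ) X S → box q a b z (i0 + (m : ZMod p) * ρ) X S →
      False := by
    intro n m X S hn hm hnm h1 h2
    obtain ⟨h3, h4⟩ := h1
    obtain ⟨h5, h6⟩ := h2
    set zn := z (i0 + (n : ZMod p) * ρ) with hzn
    set zm := z (i0 + (m : ZMod p) * ρ) with hzm
    set sn := sc q z (i0 + (n : ZMod p) * ρ) with hsn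
    set sm := sc q z (i0 + (m : ZMod p) * ρ) with hsm
    have e1 : zn = X + (off X zn : ZMod (p * q)) := (off_spec _ _).symm
    have e2 : zm = X + (off X zm : ZMod (p * q)) := (off_spec _ _).symm
    have e3 : sn + 1 + (off (sn + 1) S : ZMod (p * q)) = S := off_spec _ _
    have e4 : sm + 1 + (off (sm + 1) S : ZMod (p * q)) = S := off_spec _ _
    set tn := off X zn
    set tm := off X zm
    set un := off (sn + 1) S
    set um := off (sm + 1) S
    have f1 : zn = z i0 + (n : ZMod (p * q)) * θ := hAP.2 n hn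
    have f2 : zm = z i0 + (m : ZMod (p * q)) * θ := hAP.2 m hm
    have f3 : sn = sc q z i0 + (n : ZMod (p * q)) * (θ + e p q ρ) := ap_sc hAP hn
    have f4 : sm = sc q z i0 + (m : ZMod (p * q)) * (θ + e p q ρ) := ap_sc hAP hm
    refine kempty hP hbp hG hAP hF hL (m - n) ((tm : ℤ) - tn) ((un : ℤ) - um)
      ⟨by omega, by omega, ?_, ?_, ?_, ?_⟩
    · rw [Nat.cast_sub hnm.le]
      push_cast
      linear_combination -f2 + f1 + e2 - e1
    · rw [Nat.cast_sub hnm.le]
      push_cast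
      linear_combination -f4 + f3 + e4 - e3
    · rw [abs_lt]; constructor <;> omega
    · rw [abs_lt]; constructor <;> omega
  intro i j X S hi hj
  obtain ⟨n, hn, rfl⟩ := ap_row hAP i
  obtain ⟨m, hm, rfl⟩ := ap_row hAP j
  rcases lt_trichotomy n m with h | h | h
  · exact (key n m X S hn hm h hi hj).elim
  · rw [h]
  · exact (key m n X S hm hn h hj hi).elim

end

end Helper55.KE
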