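import Pool.Agent.Helper55.KE.Cross
import Pool.Agent.Helper10.KE.Base

set_option autoImplicit false
set_option linter.unusedSectionVars false

/-!
# The three jump rule, real form
-/

namespace Helper55.KE

open Helper11.N1
open Helper11.N1.DECaux (ind ite_ind ind_and ind_congr ind_pos ind_neg)

section num

/-- residues in an arc -/
theorem val_lt_iff {M : ℕ} [NeZero M] (x k : ℤ) (L : ℕ) (hL : L ≤ M) :
    ((x - k - 1 : ℤ) : ZMod M).val < L ↔ ∃ m : ℤ, k < x + m * M ∧ x + m * M ≤ k + L := by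
  have hM : (0 : ℤ) < M := by
    have := Nat.pos_of_ne_zero (NeZero.ne M)
    exact_mod_cast this
  have h1 : ((((x - k - 1 : ℤ) : ZMod M).val : ℕ) : ℤ) = (x - k - 1) % M := ZMod.val_intCast _
  have h2 := Int.emod_nonneg (x - k - 1) (ne_of_gt hM)
  have h3 := Int.emod_lt_of_pos (x - k - 1) hM
  constructor
  · intro h
    refine ⟨-((x - k - 1) / M), ?_⟩
    have h4 := Int.emod_add_mul_ediv (x - k - 1) M
    have h5 : -((x - k - 1) / (M : ℤ)) * M = (x - k - 1) % M - (x - k - 1) := by linarith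
    rw [h5]
    constructor <;> omega
  · rintro ⟨m, h4, h5⟩
    have h6 : (x - k - 1) % M = x - k - 1 + m * M := by
      have h7 : (x - k - 1) % M = (x - k - 1 + m * M) % M := by
        rw [Int.add_mul_emod_self_right]
      rw [h7]
      exact Int.emod_eq_of_lt (by omega) (by omega)
    omega

theorem hind_int {p : ℕ} [NeZero p] (k w : ℤ) (L : ℕ) (hL : L ≤ p) :
    Helper10.KE.ind (p : ℝ) (k : ℝ) (L : ℝ) (w : ℝ) =
      ind (((w - k - 1 : ℤ) : ZMod p).val < L) := by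
  unfold Helper10.KE.ind
  rw [ite_ind]
  apply ind_congr
  rw [val_lt_iff w k L hL]
  constructor
  · rintro ⟨m, h1, h2⟩
    exact ⟨m, by exact_mod_cast h1, by exact_mod_cast h2⟩
  · rintro ⟨m, h1, h2⟩
    exact ⟨m, by exact_mod_cast h1, by exact_mod_cast h2⟩

theorem hind_ceil {p : ℕ} (k : ℤ) (L : ℕ) (t : ℝ) :
    Helper10.KE.ind (p : ℝ) (k : ℝ) (L : ℝ) t =
      Helper10.KE.ind (p : ℝ) (k : ℝ) (L : ℝ) ((⌈t⌉ : ℤ) : ℝ) := by
  unfold Helper10.KE.ind
  rw [ite_ind, ite_ind]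
  apply ind_congr
  constructor
  · rintro ⟨m, h1, h2⟩
    refine ⟨m, ?_, ?_⟩
    · have := Int.le_ceil t
      linarith
    · have h3 : t ≤ ((k + L - m * p : ℤ) : ℝ) := by push_cast; linarith
      have h4 := Int.ceil_le.2 h3
      have h5 : ((⌈t⌉ : ℤ) : ℝ) ≤ ((k + L - m * p : ℤ) : ℝ) := by exact_mod_cast h4
      push_cast at h5
      linarith
  · rintro ⟨m, h1, h2⟩
    refine ⟨m, ?_, ?_⟩
    · have h3 : k < ⌈t⌉ + m * p := by exact_mod_cast h1
      have h4 : ((k - m * p : ℤ)) < ⌈t⌉ := by linarith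
      have h5 := Int.lt_ceil.1 h4
      push_cast at h5
      linarith
    · have := Int.le_ceil t
      linarith

theorem hind_q {p q : ℕ} [NeZero p] [NeZero q] (k x : ℤ) (L : ℕ) (hL : L ≤ p * q) :
    Helper10.KE.ind (p : ℝ) ((k : ℝ) / q) ((L : ℝ) / q) ((x : ℝ) / q) =
      ind (((x - k - 1 : ℤ) : ZMod (p * q)).val < L) := by
  have hq : (0 : ℝ) < q := by
    have := Nat.pos_of_ne_zero (NeZero.ne q)
    exact_mod_cast this
  unfold Helper10.KE.ind
  rw [ite_ind]
  apply ind_congr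
  rw [val_lt_iff x k L hL]
  have e1 : ∀ m : ℤ, (x : ℝ) / q + m * p = (x + m * p * q) / q := by
    intro m
    field_simp
  have e2 : (k : ℝ) / q + L / q = (k + L) / q := by field_simp
  constructor
  · rintro ⟨m, h1, h2⟩
    rw [e1, div_lt_div_iff_of_pos_right hq] at h1
    rw [e1, e2, div_le_div_iff_of_pos_right hq] at h2
    refine ⟨m, ?_, ?_⟩
    · have h3 : (k : ℤ) < x + m * p * q := by exact_mod_cast h1
      push_cast
      linarith
    · have h3 : x + m * p * q ≤ k + L := by exact_mod_cast h2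
      push_cast
      linarith
  · rintro ⟨m, h1, h2⟩
    refine ⟨m, ?_, ?_⟩
    · rw [e1, div_lt_div_iff_of_pos_right hq]
      push_cast at h1
      have h3 : (k : ℤ) < x + m * p * q := by linarith
      exact_mod_cast h3
    · rw [e1, e2, div_le_div_iff_of_pos_right hq]
      push_cast at h2
      have h3 : x + m * p * q ≤ k + L := by linarith
      exact_mod_cast h3

end num

section

variable {p q a b : ℕ} [NeZero p] [NeZero q] {z : ZMod p → ZMod (p * q)} {i0 ρ : ZMod p}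
  {θ : ZMod (p * q)}

/-- the window moved by one step -/
theorem update_eq (hAP : AP q z i0 ρ θ) :
    Function.update z i0 (z i0 + (p : ZMod (p * q)) * θ) = fun j => z (j - ρ) + θ := by
  have hp : 0 < p := Nat.pos_of_ne_zero (NeZero.ne p)
  funext j
  by_cases hj : j = i0
  · rw [hj, Function.update_self]
    have h1 := hAP.2 (p - 1) (by omega)
    have h2 : i0 + ((p - 1 : ℕ) : ZMod p) * ρ = i0 - ρ := by
      rw [Nat.cast_sub (by omega), ZMod.natCast_self]
      push_cast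
      ring
    rw [h2, Nat.cast_sub (by omega)] at h1
    rw [h1]
    push_cast
    ring
  · rw [Function.update_of_ne hj]
    obtain ⟨n, hn, hjn⟩ := ap_row hAP j
    have hn0 : n ≠ 0 := by
      intro h
      apply hj
      rw [hjn, h, Nat.cast_zero, zero_mul, add_zero]
    have h1 := hAP.2 n hn
    have h2 := hAP.2 (n - 1) (by omega)
    have h3 : i0 + ((n - 1 : ℕ) : ZMod p) * ρ = j - ρ := by
      rw [hjn, Nat.cast_sub (by omega)]
      push_cast
      ring
    rw [h3, Nat.cast_sub (by omega)] at h2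
    rw [← hjn] at h1
    rw [h1, h2]
    push_cast
    ring

theorem gen_update (hAP : AP q z i0 ρ θ) (hG : Gen q z) :
    Gen q (Function.update z i0 (z i0 + (p : ZMod (p * q)) * θ)) := by
  rw [update_eq hAP]
  intro i j h
  have h1 : z (i - ρ) + θ - (z (j - ρ) + θ) = z (i - ρ) - z (j - ρ) := by ring
  simp only [h1] at h
  have h2 := hG _ _ h
  exact sub_left_injective h2

theorem flat_update (hAP : AP q z i0 ρ θ) (hF : ∀ X W S, |FF q a b z X W S| ≤ 1) :
    ∀ X W S, |FF q a b (Function.update z i0 (z i0 + (p : ZMod (p * q)) * θ)) X W S| ≤ 1 := by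
  intro X W S
  rw [update_eq hAP, ff_translate]
  exact hF _ _ _

theorem vl_update {i0 j : ZMod p} {c : ZMod (p * q)} (hj : j ≠ i0) {v : ZMod (p * q)}
    {kv : ZMod p → Prop} {sv : ℤ} (hV : VL q a b z j v kv sv) :
    VL q a b (Function.update z i0 c) j v kv sv := by
  unfold VL at hV ⊢
  rw [Function.update_of_ne hj]
  exact hV

theorem dl_update {i0 j : ZMod p} {c : ZMod (p * q)} (hj : j ≠ i0) {d : ZMod (p * q)}
    {kd : ZMod p → Prop} {sd : ℤ} (hD : DL q a b z j d kd sd) :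
    DL q a b (Function.update z i0 c) j d kd sd := by
  unfold DL sc at hD ⊢
  rw [Function.update_of_ne hj]
  exact hD

/-- the jump function, discrete form -/
noncomputable def GG (q a b : ℕ) (z : ZMod p → ZMod (p * q)) (i0 : ZMod p) (δ : ℕ)
    (v d : ZMod (p * q)) (W : ZMod p) : ℤ :=
  ind (off (sc q z i0 + 1) d < δ) * ind (aB b W i0) -
    ind (off (sc q z i0 + (a : ZMod (p * q)) * (q : ZMod (p * q)) + 1) d < δ) *
      ind (aT a b W i0) -
    ind (off (z i0 + 1) v < δ) * ind (aR a W i0) +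
    ind (off (z i0 - (b : ZMod (p * q)) * (q : ZMod (p * q)) + 1) v < δ) * ind (aL a b W i0)

/-- the three jump rule, discrete form -/
theorem frd (hP : Par p q a b) (hG : Gen q z) (hAP : AP q z i0 ρ θ)
    (hF : ∀ X W S, |FF q a b z X W S| ≤ 1) {δ : ℕ} (hδ0 : 0 < δ) (hδM : δ < p * q)
    (hδ : (δ : ZMod (p * q)) = (p : ZMod (p * q)) * θ) {i j : ZMod p} (hij : i ≠ j)
    (hi : i ≠ i0) (hj : j ≠ i0)
    {v : ZMod (p * q)} {kv : ZMod p → Prop} {sv : ℤ} (hV : VL q a b z i v kv sv)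
    {d : ZMod (p * q)} {kd : ZMod p → Prop} {sd : ℤ} (hD : DL q a b z j d kd sd)
    (W0 W : ZMod p) {r : ℕ} (hr : r < q) (hW0 : d + (r : ZMod (p * q)) = v + e p q W0)
    (hv : ¬ (kv W ↔ kv W0)) (hd : ¬ (kd W ↔ kd W0)) :
    GG q a b z i0 δ v d W = GG q a b z i0 δ v d W0 := by
  have h1 := cross_val hP hG hF hij hV hD W0 W hr hW0 hv hd
  have h2 := cross_val hP (gen_update hAP hG) (flat_update hAP hF) hij
    (vl_update hi hV) (dl_update hj hD) W0 W hr hW0 hv hd
  have h3 := move hP z i0 hδ0 hδM v W d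
  have h4 := move hP z i0 hδ0 hδM v W0 d
  rw [hδ] at h3 h4
  rw [band hP _ v W0 r hr d hW0, band hP _ v W0 r hr d hW0] at h4
  unfold RR at h3 h4
  unfold GG
  linarith

/-- the jump function in real form -/
theorem gg_eq (hP : Par p q a b) (z : ZMod p → ZMod (p * q)) (i0 : ZMod p) {δ : ℕ}
    (hδM : δ < p * q) (vX dX W : ℤ) :
    Helper10.KE.gg p a b ((δ : ℝ) / q) ((vX : ℝ) / q) ((dX : ℝ) / q) (W : ℝ) =
      GG q a b z i0 δ (z i0 + (vX : ZMod (p * q))) (sc q z i0 + (dX : ZMod (p * q)))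
        (i0 + (W : ZMod p)) := by
  have hab := hP.hab
  have hq : (q : ℝ) ≠ 0 := by
    have := NeZero.ne q
    exact_mod_cast this
  unfold Helper10.KE.gg GG
  have e1 : Helper10.KE.ind (p : ℝ) 0 ((δ : ℝ) / q) ((dX : ℝ) / q) =
      ind (off (sc q z i0 + 1) (sc q z i0 + (dX : ZMod (p * q))) < δ) := by
    have h := hind_q (p := p) (q := q) 0 dX δ hδM.le
    rw [Int.cast_zero, zero_div] at h
    rw [h]
    apply ind_congr
    unfold off
    have : sc q z i0 + (dX : ZMod (p * q)) - (sc q z i0 + 1) =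
        ((dX - 0 - 1 : ℤ) : ZMod (p * q)) := by push_cast; ring
    rw [this]
  have e2 : Helper10.KE.ind (p : ℝ) (a : ℝ) ((δ : ℝ) / q) ((dX : ℝ) / q) =
      ind (off (sc q z i0 + (a : ZMod (p * q)) * (q : ZMod (p * q)) + 1)
        (sc q z i0 + (dX : ZMod (p * q))) < δ) := by
    have h := hind_q (p := p) (q := q) (a * q) dX δ hδM.le
    have h' : (((a * q : ℤ) : ℝ)) / q = a := by push_cast; field_simp
    rw [h'] at h
    rw [h]
    apply ind_congr
    unfold off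
    have : sc q z i0 + (dX : ZMod (p * q)) -
        (sc q z i0 + (a : ZMod (p * q)) * (q : ZMod (p * q)) + 1) =
        ((dX - a * q - 1 : ℤ) : ZMod (p * q)) := by push_cast; ring
    rw [this]
  have e3 : Helper10.KE.ind (p : ℝ) 0 ((δ : ℝ) / q) ((vX : ℝ) / q) =
      ind (off (z i0 + 1) (z i0 + (vX : ZMod (p * q))) < δ) := by
    have h := hind_q (p := p) (q := q) 0 vX δ hδM.le
    rw [Int.cast_zero, zero_div] at h
    rw [h]
    apply ind_congr
    unfold off
    have : z i0 + (vX : ZMod (p * q)) - (z i0 + 1) =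
        ((vX - 0 - 1 : ℤ) : ZMod (p * q)) := by push_cast; ring
    rw [this]
  have e4 : Helper10.KE.ind (p : ℝ) (-(b : ℝ)) ((δ : ℝ) / q) ((vX : ℝ) / q) =
      ind (off (z i0 - (b : ZMod (p * q)) * (q : ZMod (p * q)) + 1)
        (z i0 + (vX : ZMod (p * q))) < δ) := by
    have h := hind_q (p := p) (q := q) (-(b * q)) vX δ hδM.le
    have h' : (((-(b * q) : ℤ) : ℝ)) / q = -b := by push_cast; field_simp
    rw [h'] at h
    rw [h]
    apply ind_congr
    unfold off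
    have : z i0 + (vX : ZMod (p * q)) -
        (z i0 - (b : ZMod (p * q)) * (q : ZMod (p * q)) + 1) =
        ((vX - -(b * q) - 1 : ℤ) : ZMod (p * q)) := by push_cast; ring
    rw [this]
  have g1 : Helper10.KE.ind (p : ℝ) 0 (b : ℝ) (W : ℝ) = ind (aB b (i0 + (W : ZMod p)) i0) := by
    have h := hind_int (p := p) 0 W b (by omega)
    rw [Int.cast_zero] at h
    rw [h]
    apply ind_congr
    unfold aB
    have : i0 + (W : ZMod p) - 1 - i0 = ((W - 0 - 1 : ℤ) : ZMod p) := by push_cast; ring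
    rw [this]
  have g2 : Helper10.KE.ind (p : ℝ) (a : ℝ) (b : ℝ) (W : ℝ) =
      ind (aT a b (i0 + (W : ZMod p)) i0) := by
    have h := hind_int (p := p) a W b (by omega)
    rw [Int.cast_natCast] at h
    rw [h]
    apply ind_congr
    unfold aT
    have : i0 + (W : ZMod p) - a - 1 - i0 = ((W - a - 1 : ℤ) : ZMod p) := by push_cast; ring
    rw [this]
  have g3 : Helper10.KE.ind (p : ℝ) 0 (a : ℝ) (W : ℝ) = ind (aR a (i0 + (W : ZMod p)) i0) := by
    have h := hind_int (p := p) 0 W a (by omega)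
    rw [Int.cast_zero] at h
    rw [h]
    apply ind_congr
    unfold aR
    have : i0 + (W : ZMod p) - 1 - i0 = ((W - 0 - 1 : ℤ) : ZMod p) := by push_cast; ring
    rw [this]
  have g4 : Helper10.KE.ind (p : ℝ) (b : ℝ) (a : ℝ) (W : ℝ) =
      ind (aL a b (i0 + (W : ZMod p)) i0) := by
    have h := hind_int (p := p) b W a (by omega)
    rw [Int.cast_natCast] at h
    rw [h]
    apply ind_congr
    unfold aL
    have : i0 + (W : ZMod p) - b - 1 - i0 = ((W - b - 1 : ℤ) : ZMod p) := by push_cast; ring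
    rw [this]
  rw [e1, e2, e3, e4, g1, g2, g3, g4]

theorem gg_ceil (a b : ℕ) (δ v d t : ℝ) :
    Helper10.KE.gg (p : ℝ) a b δ v d t = Helper10.KE.gg (p : ℝ) a b δ v d ((⌈t⌉ : ℤ) : ℝ) := by
  unfold Helper10.KE.gg
  have h1 := hind_ceil (p := p) 0 b t
  have h2 := hind_ceil (p := p) a b t
  have h3 := hind_ceil (p := p) 0 a t
  have h4 := hind_ceil (p := p) b a t
  rw [Int.cast_zero] at h1 h3
  rw [Int.cast_natCast] at h2 h4
  rw [h1, h2, h3, h4]

/-- the three jump rule for two lines, real form -/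
theorem frl (hP : Par p q a b) (hG : Gen q z) (hAP : AP q z i0 ρ θ)
    (hF : ∀ X W S, |FF q a b z X W S| ≤ 1) {δ : ℕ} (hδ0 : 0 < δ) (hδM : δ < p * q)
    (hδ : (δ : ZMod (p * q)) = (p : ZMod (p * q)) * θ) {i j : ZMod p} (hij : i ≠ j)
    (hi : i ≠ i0) (hj : j ≠ i0) (vX dX kvI kdI : ℤ)
    {kv : ZMod p → Prop} {sv : ℤ} (hV : VL q a b z i (z i0 + (vX : ZMod (p * q))) kv sv)
    {kd : ZMod p → Prop} {sd : ℤ} (hD : DL q a b z j (sc q z i0 + (dX : ZMod (p * q))) kd sd)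
    (hkv : ∀ W : ℤ, kv (i0 + (W : ZMod p)) ↔ ((W - kvI - 1 : ℤ) : ZMod p).val < a)
    (hkd : ∀ W : ℤ, kd (i0 + (W : ZMod p)) ↔ ((W - kdI - 1 : ℤ) : ZMod p).val < b) :
    Helper10.KE.FRl p a b ((δ : ℝ) / q) ((vX : ℝ) / q) kvI ((dX : ℝ) / q) kdI := by
  have hab := hP.hab
  have hq0 : (0 : ℝ) < q := by
    have := Nat.pos_of_ne_zero (NeZero.ne q)
    exact_mod_cast this
  intro W hW1 hW2
  set t : ℝ := (dX : ℝ) / q - (vX : ℝ) / q with ht
  rw [hind_ceil kvI a t, hind_int kvI W a (by omega), hind_int kvI ⌈t⌉ a (by omega)] at hW1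
  rw [hind_ceil kdI b t, hind_int kdI W b (by omega), hind_int kdI ⌈t⌉ b (by omega)] at hW2
  rw [gg_ceil a b _ _ _ t, gg_eq hP z i0 hδM vX dX W, gg_eq hP z i0 hδM vX dX ⌈t⌉]
  -- the level of the crossing
  have ht' : t * q = dX - vX := by
    rw [ht]
    field_simp
  have h1 : (dX - vX : ℤ) ≤ ⌈t⌉ * q := by
    have h2 := Int.le_ceil t
    have h3 : t * q ≤ (⌈t⌉ : ℝ) * q := mul_le_mul_of_nonneg_right h2 hq0.le
    rw [ht'] at h3
    exact_mod_cast h3
  have h2 : ⌈t⌉ * q < (dX - vX : ℤ) + q := by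
    have h3 := Int.ceil_lt_add_one t
    have h4 : (⌈t⌉ : ℝ) * q < (t + 1) * q := mul_lt_mul_of_pos_right h3 hq0
    have h5 : (t + 1) * q = dX - vX + q := by rw [add_mul, ht', one_mul]
    rw [h5] at h4
    exact_mod_cast h4
  obtain ⟨r, hr⟩ : ∃ r : ℕ, (r : ℤ) = ⌈t⌉ * q - (dX - vX) :=
    ⟨(⌈t⌉ * q - (dX - vX)).toNat, Int.toNat_of_nonneg (by linarith)⟩
  have hrq : r < q := by
    have : (r : ℤ) < q := by linarith
    exact_mod_cast this
  have he : e p q ((⌈t⌉ : ℤ) : ZMod p) = ((⌈t⌉ * q : ℤ) : ZMod (p * q)) := by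
    have h3 : ∀ n : ℤ, e p q (n : ZMod p) = ((n * q : ℤ) : ZMod (p * q)) := by
      intro n
      obtain ⟨k, hk | hk⟩ := Int.eq_nat_or_neg n
      · rw [hk, Int.cast_natCast, e_ab]
        push_cast
        ring
      · rw [hk, Int.cast_neg, Int.cast_natCast, e_neg, e_ab]
        push_cast
        ring
    exact h3 _
  have hW0 : sc q z i0 + (dX : ZMod (p * q)) + (r : ZMod (p * q)) =
      z i0 + (vX : ZMod (p * q)) + e p q (i0 + ((⌈t⌉ : ℤ) : ZMod p)) := by
    have h3 : (r : ZMod (p * q)) = ((⌈t⌉ * q - (dX - vX) : ℤ) : ZMod (p * q)) := by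
      rw [← hr, Int.cast_natCast]
    rw [h3, e_add, he]
    unfold sc
    push_cast
    ring
  have hopp : ∀ P Q : Prop, ind P + ind Q = 1 → ¬ (P ↔ Q) := by
    intro P Q h h'
    rw [ind_congr h'] at h
    omega
  refine frd hP hG hAP hF hδ0 hδM hδ hij hi hj hV hD _ _ hrq hW0 ?_ ?_
  · rw [hkv, hkv]
    exact hopp _ _ hW1
  · rw [hkd, hkd]
    exact hopp _ _ hW2

/-- the three jump rule for two clusters, real form -/
theorem frc (hP : Par p q a b) (hG : Gen q z) (hAP : AP q z i0 ρ θ)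
    (hF : ∀ X W S, |FF q a b z X W S| ≤ 1) {δ : ℕ} (hδ0 : 0 < δ) (hδM : δ < p * q)
    (hδ : (δ : ZMod (p * q)) = (p : ZMod (p * q)) * θ) {n m : ℕ} (hn0 : 0 < n) (hn : n < p)
    (hm0 : 0 < m) (hm : m < p) (hnm : n ≠ m) {x1 x2 r1 r2 : ℤ}
    (hx1 : (n : ZMod (p * q)) * θ = (x1 : ZMod (p * q))) (hr1 : (n : ZMod p) * ρ = (r1 : ZMod p))
    (hx2 : (m : ZMod (p * q)) * θ = (x2 : ZMod (p * q))) (hr2 : (m : ZMod p) * ρ = (r2 : ZMod p)) :
    Helper10.KE.FRc p a b ((δ : ℝ) / q) ((x1 : ℝ) / q) r1 ((x2 : ℝ) / q) r2 := by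
  have hq0 : (q : ℝ) ≠ 0 := by
    have := NeZero.ne q
    exact_mod_cast this
  have hij := ap_ne hAP hn hm hnm
  have hi : i0 + (n : ZMod p) * ρ ≠ i0 := by
    intro h
    have h1 : i0 + (n : ZMod p) * ρ = i0 + ((0 : ℕ) : ZMod p) * ρ := by
      rw [h, Nat.cast_zero, zero_mul, add_zero]
    have h2 := ap_inj hAP hn (by omega) h1
    omega
  have hj : i0 + (m : ZMod p) * ρ ≠ i0 := by
    intro h
    have h1 : i0 + (m : ZMod p) * ρ = i0 + ((0 : ℕ) : ZMod p) * ρ := by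
      rw [h, Nat.cast_zero, zero_mul, add_zero]
    have h2 := ap_inj hAP hm (by omega) h1
    omega
  have hz1 : z (i0 + (n : ZMod p) * ρ) = z i0 + (x1 : ZMod (p * q)) := by
    rw [hAP.2 n hn, hx1]
  have hs2 : sc q z (i0 + (m : ZMod p) * ρ) = sc q z i0 + ((x2 + r2 * q : ℤ) : ZMod (p * q)) := by
    rw [ap_sc hAP hm, mul_add, hx2, ← e_mul, hr2]
    have h3 : e p q (r2 : ZMod p) = ((r2 * q : ℤ) : ZMod (p * q)) := by
      obtain ⟨k, hk | hk⟩ := Int.eq_nat_or_neg r2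
      · rw [hk, Int.cast_natCast, e_ab]
        push_cast
        ring
      · rw [hk, Int.cast_neg, Int.cast_natCast, e_neg, e_ab]
        push_cast
        ring
    rw [h3]
    push_cast
    ring
  have hVR : VL q a b z (i0 + (n : ZMod p) * ρ) (z i0 + (x1 : ZMod (p * q)))
      (fun W => aR a W (i0 + (n : ZMod p) * ρ)) 1 := Or.inl ⟨hz1.symm, rfl, rfl⟩
  have hVL : VL q a b z (i0 + (n : ZMod p) * ρ)
      (z i0 + ((x1 - b * q : ℤ) : ZMod (p * q)))
      (fun W => aL a b W (i0 + (n : ZMod p) * ρ)) (-1) := by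
    refine Or.inr ⟨?_, rfl, rfl⟩
    rw [hz1]
    push_cast
    ring
  have hDB : DL q a b z (i0 + (m : ZMod p) * ρ) (sc q z i0 + ((x2 + r2 * q : ℤ) : ZMod (p * q)))
      (fun W => aB b W (i0 + (m : ZMod p) * ρ)) (-1) := Or.inl ⟨hs2.symm, rfl, rfl⟩
  have hDT : DL q a b z (i0 + (m : ZMod p) * ρ)
      (sc q z i0 + ((x2 + r2 * q + a * q : ℤ) : ZMod (p * q)))
      (fun W => aT a b W (i0 + (m : ZMod p) * ρ)) 1 := by
    refine Or.inr ⟨?_, rfl, rfl⟩
    rw [hs2]
    push_cast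
    ring
  have hkR : ∀ W : ℤ, aR a (i0 + (W : ZMod p)) (i0 + (n : ZMod p) * ρ) ↔
      ((W - r1 - 1 : ℤ) : ZMod p).val < a := by
    intro W
    unfold aR
    have : i0 + (W : ZMod p) - 1 - (i0 + (n : ZMod p) * ρ) = ((W - r1 - 1 : ℤ) : ZMod p) := by
      rw [hr1]
      push_cast
      ring
    rw [this]
  have hkL : ∀ W : ℤ, aL a b (i0 + (W : ZMod p)) (i0 + (n : ZMod p) * ρ) ↔
      ((W - (r1 + b) - 1 : ℤ) : ZMod p).val < a := by
    intro W
    unfold aL
    have : i0 + (W : ZMod p) - b - 1 - (i0 + (n : ZMod p) * ρ) =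
        ((W - (r1 + b) - 1 : ℤ) : ZMod p) := by
      rw [hr1]
      push_cast
      ring
    rw [this]
  have hkB : ∀ W : ℤ, aB b (i0 + (W : ZMod p)) (i0 + (m : ZMod p) * ρ) ↔
      ((W - r2 - 1 : ℤ) : ZMod p).val < b := by
    intro W
    unfold aB
    have : i0 + (W : ZMod p) - 1 - (i0 + (m : ZMod p) * ρ) = ((W - r2 - 1 : ℤ) : ZMod p) := by
      rw [hr2]
      push_cast
      ring
    rw [this]
  have hkT : ∀ W : ℤ, aT a b (i0 + (W : ZMod p)) (i0 + (m : ZMod p) * ρ) ↔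
      ((W - (r2 + a) - 1 : ℤ) : ZMod p).val < b := by
    intro W
    unfold aT
    have : i0 + (W : ZMod p) - a - 1 - (i0 + (m : ZMod p) * ρ) =
        ((W - (r2 + a) - 1 : ℤ) : ZMod p) := by
      rw [hr2]
      push_cast
      ring
    rw [this]
  have c1 : ((x1 - b * q : ℤ) : ℝ) / q = (x1 : ℝ) / q - b := by push_cast; field_simp
  have c2 : ((x2 + r2 * q : ℤ) : ℝ) / q = (x2 : ℝ) / q + r2 := by push_cast; field_simp
  have c3 : ((x2 + r2 * q + a * q : ℤ) : ℝ) / q = (x2 : ℝ) / q + r2 + a := by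
    push_cast; field_simp
  have c4 : ((r1 + b : ℤ) : ℝ) = (r1 : ℝ) + b := by push_cast; ring
  have c5 : ((r2 + a : ℤ) : ℝ) = (r2 : ℝ) + a := by push_cast; ring
  constructor
  · have h := frl hP hG hAP hF hδ0 hδM hδ hij hi hj _ _ _ _ hVR hDB hkR hkB
    rw [c2] at h
    exact h
  · have h := frl hP hG hAP hF hδ0 hδM hδ hij hi hj _ _ _ _ hVR hDT hkR hkT
    rw [c3, c5] at h
    exact h
  · have h := frl hP hG hAP hF hδ0 hδM hδ hij hi hj _ _ _ _ hVL hDB hkL hkB
    rw [c1, c2, c4] at h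
    exact h
  · have h := frl hP hG hAP hF hδ0 hδM hδ hij hi hj _ _ _ _ hVL hDT hkL hkT
    rw [c1, c3, c4, c5] at h
    exact h

end

end Helper55.KE
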