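import Pool.Agent.Helper55.KE.CaseB
import Pool.Agent.Helper55.KE.FR

set_option autoImplicit false
set_option linter.unusedSectionVars false

/-!
# A cluster at distance less than `1` with empty strip has an index below `p / 2`
-/

namespace Helper55.KE

open Helper11.N1

section

variable {p q a b : ℕ} [NeZero p] [NeZero q] {z : ZMod p → ZMod (p * q)} {i0 ρ : ZMod p}
  {θ : ZMod (p * q)}

theorem half_neg (hP : Par p q a b) (hG : Gen q z) (hAP : AP q z i0 ρ θ)
    {k g1 : ℕ} (hk0 : 0 < k) (hk : k < p)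
    (hky : (k : ZMod (p * q)) * (θ + e p q ρ) = ((-(g1 : ℤ) : ℤ) : ZMod (p * q)))
    (hqg : g1 < q) (hS : Strip p q a (θ + e p q ρ) k (-(g1 : ℤ))) : 2 * k < p := by
  classical
  obtain ⟨haq, hbq, habq, h2a, h2b⟩ := lt_mul_of hP
  have ha2 := hP.ha
  have hb2 := hP.hb
  have hab := hP.hab
  have hq1 := hP.hq
  have hhaq : ((a * q : ℕ) : ℤ) = (a : ℤ) * q := by push_cast; ring
  have hhpq : ((p * q : ℕ) : ℤ) = (p : ℤ) * q := by push_cast; ring
  set φ : ZMod (p * q) := θ + e p q ρ with hφ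
  have hg10 : 0 < g1 := by
    rcases Nat.eq_zero_or_pos g1 with h | h
    · exfalso
      apply ap_ndvd hAP hG hk0 hk hky
      rw [h]
      exact ⟨0, by push_cast; ring⟩
    · exact h
  obtain ⟨m, hm, hmin⟩ := Finset.exists_min_image ((Finset.Ico 1 p).erase k)
    (fun n : ℕ => ((n : ZMod (p * q)) * φ).val) (by
      by_cases h : k = 1
      · exact ⟨2, by rw [Finset.mem_erase, Finset.mem_Ico]; omega⟩
      · exact ⟨1, by rw [Finset.mem_erase, Finset.mem_Ico]; omega⟩)
  rw [Finset.mem_erase, Finset.mem_Ico] at hm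
  obtain ⟨hmk, hm0, hmp⟩ := hm
  set g2 := ((m : ZMod (p * q)) * φ).val with hg2
  have hmφ : (m : ZMod (p * q)) * φ = (g2 : ZMod (p * q)) := by
    rw [hg2, ZMod.natCast_zmod_val]
  have hmφ' : (m : ZMod (p * q)) * φ = ((g2 : ℤ) : ZMod (p * q)) := by
    rw [hmφ, Int.cast_natCast]
  have hg2M : g2 < p * q := ZMod.val_lt _
  have hg20 : 0 < g2 := by
    rcases Nat.eq_zero_or_pos g2 with h | h
    · exfalso
      apply ap_ndvd hAP hG hm0 hmp hmφ'
      rw [h]
      exact ⟨0, by push_cast; ring⟩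
    · exact h
  have h2q : 2 * q ≤ a * q := Nat.mul_le_mul_right q ha2
  have hstrip : ∀ n : ℕ, 0 < n → n < p → n ≠ k → ∀ s : ℤ,
      (n : ZMod (p * q)) * φ = (s : ZMod (p * q)) → -(g1 : ℤ) < s → s < -(g1 : ℤ) + a * q →
      False := by
    intro n hn0 hn hnk s hs h1 h2
    exact (hS n hn0 hn hnk s hs).1 (by omega) ⟨h1, h2⟩
  have hlow : a * q ≤ g1 + g2 := by
    by_contra h
    exact hstrip m hm0 hmp hmk g2 hmφ' (by omega) (by omega)
  have hup : g1 + g2 ≤ p * q := by
    by_contra h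
    refine hstrip m hm0 hmp hmk ((g2 : ℤ) - p * q) ?_ (by omega) (by omega)
    rw [hmφ]
    have : ((p : ZMod (p * q)) * (q : ZMod (p * q))) = 0 := by
      have h1 := ZMod.natCast_self (p * q)
      push_cast at h1
      exact h1
    push_cast
    rw [this, sub_zero]
  have hno : ∀ n : ℕ, 0 < n → n < p → ∀ t : ℤ, (n : ZMod (p * q)) * φ = (t : ZMod (p * q)) →
      -(g1 : ℤ) < t → t < g2 → False := by
    intro n hn0 hn t ht h1 h2
    by_cases hnk : n = k
    · subst hnk
      rw [hky] at ht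
      have h3 : ((t + g1 : ℤ) : ZMod (p * q)) = 0 := by
        rw [Int.cast_add, ← ht]
        push_cast
        ring
      have h4 := int_zero h3 (by omega) (by omega)
      omega
    · have h3 : -(g1 : ℤ) + a * q ≤ t := by
        by_contra h4
        exact hstrip n hn0 hn hnk t ht h1 (by omega)
      have h4 := hmin n (by rw [Finset.mem_erase, Finset.mem_Ico]; omega)
      have h5 : ((n : ZMod (p * q)) * φ).val = t.toNat := by
        have h6 : ((t : ℤ) : ZMod (p * q)) = ((t.toNat : ℕ) : ZMod (p * q)) := by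
          conv_lhs => rw [← Int.toNat_of_nonneg (show 0 ≤ t by omega)]
          rw [Int.cast_natCast]
        rw [ht, h6, ZMod.val_natCast, Nat.mod_eq_of_lt (by omega)]
      have h7 : g2 ≤ t.toNat := by
        rw [← h5]
        exact h4
      omega
  have hkφ : (k : ZMod (p * q)) * φ = -(g1 : ZMod (p * q)) := by
    rw [hky]
    push_cast
    ring
  obtain ⟨hpk, hgap⟩ := gap φ hk0 hk hm0 hmp (by omega) hg20 hup hmφ hkφ hno
  have h6 : ((k * g2 + m * g1 : ℕ) : ℤ) ≤ ((p * q : ℕ) : ℤ) := by exact_mod_cast hgap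
  push_cast at h6
  by_contra hcon
  have h7 : (p : ℤ) ≤ 2 * k := by omega
  have h8 : (2 : ℤ) * q - g1 ≤ g2 := by omega
  have h9 : (k : ℤ) * (2 * q - g1) ≤ k * g2 := mul_le_mul_of_nonneg_left h8 (by omega)
  have h10 : (p : ℤ) * q ≤ 2 * k * q := mul_le_mul_of_nonneg_right h7 (by omega)
  have h11 : (m : ℤ) * g1 ≤ k * g1 := by
    have e1 : (k : ℤ) * (2 * q - g1) = 2 * k * q - k * g1 := by ring
    linarith
  have h12 : (m : ℤ) ≤ k := le_of_mul_le_mul_right h11 (by omega)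
  have h13 : ((p : ℤ) - k) * g1 ≤ m * g1 := mul_le_mul_of_nonneg_right (by omega) (by omega)
  have h14 : (2 * (k : ℤ) - p) * (q - g1) ≤ 0 := by
    have e1 : (k : ℤ) * (2 * q - g1) = 2 * k * q - k * g1 := by ring
    have e2 : (2 * (k : ℤ) - p) * (q - g1) = 2 * k * q - p * q - 2 * (k * g1) + p * g1 := by ring
    have e3 : ((p : ℤ) - k) * g1 = p * g1 - k * g1 := by ring
    linarith
  have h15 : 2 * (k : ℤ) - p ≤ 0 := by
    by_contra h
    have : 0 < (2 * (k : ℤ) - p) * (q - g1) := mul_pos (by omega) (by omega)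
    linarith
  omega

theorem strip_neg {k : ℕ} {y : ℤ} {φ : ZMod (p * q)} (h : Strip p q a φ k y) :
    Strip p q a (-φ) k (-y) := by
  intro m hm0 hm hmn s hs
  have h3 : (m : ZMod (p * q)) * φ = ((-s : ℤ) : ZMod (p * q)) := by
    rw [Int.cast_neg, ← hs]
    ring
  obtain ⟨h4, h5⟩ := h m hm0 hm hmn (-s) h3
  constructor
  · intro hy h6
    exact h5 (by omega) ⟨by linarith [h6.2], by linarith [h6.1]⟩
  · intro hy h6
    exact h4 (by omega) ⟨by linarith [h6.2], by linarith [h6.1]⟩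

/-- integer form -/
theorem half_int (hP : Par p q a b) (hG : Gen q z) (hAP : AP q z i0 ρ θ)
    {k : ℕ} {y : ℤ} (hk0 : 0 < k) (hk : k < p)
    (hky : (k : ZMod (p * q)) * (θ + e p q ρ) = (y : ZMod (p * q)))
    (hqg : |y| < q) (hS : Strip p q a (θ + e p q ρ) k y) : 2 * k < p := by
  rw [abs_lt] at hqg
  rcases le_total y 0 with h | h
  · obtain ⟨g, hg⟩ := Int.eq_ofNat_of_zero_le (show 0 ≤ -y by omega)
    have hy : y = -(g : ℤ) := by omega
    rw [hy] at hky hS
    exact half_neg hP hG hAP hk0 hk hky (by omega) hS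
  · obtain ⟨g, hg⟩ := Int.eq_ofNat_of_zero_le h
    have hy : -y = -(g : ℤ) := by omega
    have hS' := strip_neg hS
    rw [hy, ← phi_rev] at hS'
    refine half_neg hP hG (ap_rev hAP) hk0 hk ?_ (by omega) hS'
    rw [phi_rev, ← hy, mul_neg, hky, Int.cast_neg]

/-- real form -/
theorem half_real (hP : Par p q a b) (hG : Gen q z) (hAP : AP q z i0 ρ θ)
    {k : ℕ} {x r : ℤ} (hk0 : 0 < k) (hk : k < p)
    (hx : (k : ZMod (p * q)) * θ = (x : ZMod (p * q))) (hr : (k : ZMod p) * ρ = (r : ZMod p))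
    (h1 : |(x : ℝ) / q + r| < 1)
    (hS : ∀ m : ℕ, 0 < m → m < p → m ≠ k → ∀ x' r' : ℤ,
      (m : ZMod (p * q)) * θ = (x' : ZMod (p * q)) → (m : ZMod p) * ρ = (r' : ZMod p) →
      ((x : ℝ) / q + r < 0 → ¬ ((x : ℝ) / q + r < (x' : ℝ) / q + r' ∧
        (x' : ℝ) / q + r' < (x : ℝ) / q + r + a)) ∧
      (0 < (x : ℝ) / q + r → ¬ ((x : ℝ) / q + r - a < (x' : ℝ) / q + r' ∧
        (x' : ℝ) / q + r' < (x : ℝ) / q + r))) : 2 * k < p := by
  have hq0 : (0 : ℝ) < q := by
    have := Nat.pos_of_ne_zero (NeZero.ne q)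
    exact_mod_cast this
  have he : ∀ n : ℤ, e p q (n : ZMod p) = ((n * q : ℤ) : ZMod (p * q)) := by
    intro n
    obtain ⟨k, hk | hk⟩ := Int.eq_nat_or_neg n
    · rw [hk, Int.cast_natCast, e_ab]
      push_cast
      ring
    · rw [hk, Int.cast_neg, Int.cast_natCast, e_neg, e_ab]
      push_cast
      ring
  have hy : (k : ZMod (p * q)) * (θ + e p q ρ) = ((x + r * q : ℤ) : ZMod (p * q)) := by
    rw [mul_add, hx, ← e_mul, hr, he]
    push_cast
    ring
  have hval : ∀ x r : ℤ, (x : ℝ) / q + r = ((x + r * q : ℤ) : ℝ) / q := by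
    intro x r
    push_cast
    field_simp
  have hlt : ∀ u v : ℤ, (u : ℝ) / q < (v : ℝ) / q ↔ u < v := by
    intro u v
    rw [div_lt_div_iff_of_pos_right hq0]
    exact_mod_cast Iff.rfl
  have hadd : ∀ u : ℤ, (u : ℝ) / q + a = ((u + a * q : ℤ) : ℝ) / q := by
    intro u
    push_cast
    field_simp
  have hsub : ∀ u : ℤ, (u : ℝ) / q - a = ((u - a * q : ℤ) : ℝ) / q := by
    intro u
    push_cast
    field_simp
  refine half_int hP hG hAP hk0 hk hy ?_ ?_
  · rw [hval, abs_div, abs_of_pos hq0, div_lt_one hq0] at h1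
    exact_mod_cast h1
  · intro m hm0 hm hmk s hs
    have hr' : (m : ZMod p) * ρ = ((((m : ZMod p) * ρ).val : ℤ) : ZMod p) := by
      rw [Int.cast_natCast, ZMod.natCast_zmod_val]
    have hx' : (m : ZMod (p * q)) * θ =
        ((s - (((m : ZMod p) * ρ).val : ℤ) * q : ℤ) : ZMod (p * q)) := by
      have h2 : (m : ZMod (p * q)) * θ =
          (m : ZMod (p * q)) * (θ + e p q ρ) - e p q ((m : ZMod p) * ρ) := by
        rw [e_mul]
        ring
      rw [h2, hs]
      conv_lhs => rw [hr', he]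
      push_cast
      ring
    obtain ⟨h3, h4⟩ := hS m hm0 hm hmk _ _ hx' hr'
    have e1 : s - (((m : ZMod p) * ρ).val : ℤ) * q + (((m : ZMod p) * ρ).val : ℤ) * q = s := by
      ring
    rw [hval, hval, e1, hadd, hlt, hlt] at h3
    rw [hval, hval, e1, hsub, hlt, hlt] at h4
    have h5 : (((x + r * q : ℤ) : ℝ) / q < 0) ↔ x + r * q < 0 := by
      have := hlt (x + r * q) 0
      rwa [Int.cast_zero, zero_div] at this
    have h6 : (0 < ((x + r * q : ℤ) : ℝ) / q) ↔ 0 < x + r * q := by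
      have := hlt 0 (x + r * q)
      rwa [Int.cast_zero, zero_div] at this
    rw [h5] at h3
    rw [h6] at h4
    exact ⟨h3, h4⟩

end

end Helper55.KE
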