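import Pool.Agent.Helper55.KE.Def

set_option autoImplicit false

/-!
# Progressions: basic facts
-/

namespace Helper55.KE

open Helper11.N1

section

variable {p q : ℕ} [NeZero p] [NeZero q] {z : ZMod p → ZMod (p * q)} {i0 ρ : ZMod p}
  {θ : ZMod (p * q)}

theorem e_mul (n : ℕ) (i : ZMod p) :
    e p q ((n : ZMod p) * i) = (n : ZMod (p * q)) * e p q i := by
  induction n with
  | zero => rw [Nat.cast_zero, zero_mul, e_zero, Nat.cast_zero, zero_mul]
  | succ n ih =>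
    rw [Nat.cast_succ, add_mul, one_mul, e_add, ih]
    push_cast
    ring

theorem ap_sc (h : AP q z i0 ρ θ) {n : ℕ} (hn : n < p) :
    sc q z (i0 + (n : ZMod p) * ρ) = sc q z i0 + (n : ZMod (p * q)) * (θ + e p q ρ) := by
  unfold sc
  rw [h.2 n hn, e_add, e_mul]
  ring

theorem ap_row (h : AP q z i0 ρ θ) (j : ZMod p) :
    ∃ n : ℕ, n < p ∧ j = i0 + (n : ZMod p) * ρ := by
  obtain ⟨u, hu⟩ := h.1
  refine ⟨((j - i0) * (↑u⁻¹ : ZMod p)).val, ZMod.val_lt _, ?_⟩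
  rw [ZMod.natCast_zmod_val, mul_assoc, ← hu, Units.inv_mul, mul_one]
  ring

theorem ap_inj (h : AP q z i0 ρ θ) {n m : ℕ} (hn : n < p) (hm : m < p)
    (hnm : i0 + (n : ZMod p) * ρ = i0 + (m : ZMod p) * ρ) : n = m := by
  have h1 : (n : ZMod p) * ρ = (m : ZMod p) * ρ := add_left_cancel hnm
  have h2 : (n : ZMod p) = (m : ZMod p) := h.1.mul_right_cancel h1
  have h3 := (ZMod.natCast_eq_natCast_iff n m p).1 h2
  exact Nat.ModEq.eq_of_lt_of_lt h3 hn hm

theorem ap_ne (h : AP q z i0 ρ θ) {n m : ℕ} (hn : n < p) (hm : m < p) (hnm : n ≠ m) :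
    i0 + (n : ZMod p) * ρ ≠ i0 + (m : ZMod p) * ρ := fun h1 => hnm (ap_inj h hn hm h1)

/-- multiples of `φ` are not divisible by `q` -/
theorem ap_res (h : AP q z i0 ρ θ) (hG : Gen q z) {n : ℕ} (hn0 : 0 < n) (hn : n < p) :
    res p q ((n : ZMod (p * q)) * θ) ≠ 0 ∧
      res p q ((n : ZMod (p * q)) * (θ + e p q ρ)) ≠ 0 := by
  have h1 : res p q ((n : ZMod (p * q)) * θ) ≠ 0 := by
    intro h2
    have h3 : res p q (z (i0 + (n : ZMod p) * ρ)) = res p q (z i0) := by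
      rw [h.2 n hn, map_add, h2, add_zero]
    have h4 := gen_res p q hG h3
    have h5 : i0 + (n : ZMod p) * ρ = i0 + ((0 : ℕ) : ZMod p) * ρ := by
      rw [h4, Nat.cast_zero, zero_mul, add_zero]
    have h6 := ap_inj h hn (by omega) h5
    omega
  refine ⟨h1, ?_⟩
  rw [mul_add, map_add, map_mul _ _ (e p q ρ), res_e, mul_zero, add_zero]
  exact h1

theorem int_res (s : ℤ) (hs : (q : ℤ) ∣ s) : res p q ((s : ℤ) : ZMod (p * q)) = 0 := by
  rw [map_intCast]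
  exact (ZMod.intCast_zmod_eq_zero_iff_dvd s q).2 hs

theorem ap_ndvd (h : AP q z i0 ρ θ) (hG : Gen q z) {n : ℕ} (hn0 : 0 < n) (hn : n < p) {s : ℤ}
    (hs : (n : ZMod (p * q)) * (θ + e p q ρ) = (s : ZMod (p * q))) : ¬ (q : ℤ) ∣ s := by
  intro h1
  have h2 := (ap_res h hG hn0 hn).2
  rw [hs] at h2
  exact h2 (int_res s h1)

theorem ap_ndvd' (h : AP q z i0 ρ θ) (hG : Gen q z) {n : ℕ} (hn0 : 0 < n) (hn : n < p) {s : ℤ}
    (hs : (n : ZMod (p * q)) * θ = (s : ZMod (p * q))) : ¬ (q : ℤ) ∣ s := by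
  intro h1
  have h2 := (ap_res h hG hn0 hn).1
  rw [hs] at h2
  exact h2 (int_res s h1)

/-- different clusters have different residues -/
theorem ap_ndvd_sub (h : AP q z i0 ρ θ) (hG : Gen q z) {n m : ℕ} (hn : n < p) (hm : m < p)
    (hnm : n ≠ m) {s t : ℤ}
    (hs : (n : ZMod (p * q)) * (θ + e p q ρ) = (s : ZMod (p * q)))
    (ht : (m : ZMod (p * q)) * (θ + e p q ρ) = (t : ZMod (p * q))) : ¬ (q : ℤ) ∣ s - t := by
  intro h1
  have h2 : res p q (sc q z (i0 + (n : ZMod p) * ρ)) = res p q (sc q z (i0 + (m : ZMod p) * ρ)) := by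
    rw [ap_sc h hn, ap_sc h hm, map_add, map_add, hs, ht, ← sub_eq_zero]
    have : res p q (sc q z i0) + res p q ((s : ℤ) : ZMod (p * q)) -
        (res p q (sc q z i0) + res p q ((t : ℤ) : ZMod (p * q))) =
        res p q (((s - t : ℤ)) : ZMod (p * q)) := by
      push_cast
      rw [map_sub]
      ring
    rw [this]
    exact int_res _ h1
  rw [res_sc, res_sc] at h2
  exact hnm (ap_inj h hn hm (gen_res p q hG h2))

/-- reversal -/
theorem ap_rev (h : AP q z i0 ρ θ) : AP q z (i0 - ρ) (-ρ) (-θ) := by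
  refine ⟨h.1.neg, ?_⟩
  intro n hn
  have h1 : p - 1 - n < p := by omega
  have h2 : (p - 1 : ℕ) < p := by omega
  have e1 : i0 - ρ = i0 + ((p - 1 : ℕ) : ZMod p) * ρ := by
    rw [Nat.cast_sub (by omega), ZMod.natCast_self]
    push_cast
    ring
  have e2 : i0 - ρ + (n : ZMod p) * -ρ = i0 + ((p - 1 - n : ℕ) : ZMod p) * ρ := by
    rw [e1, Nat.cast_sub (by omega : n ≤ p - 1)]
    ring
  rw [e2, h.2 _ h1, e1, h.2 _ h2, Nat.cast_sub (by omega : n ≤ p - 1)]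
  ring

theorem phi_rev (ρ : ZMod p) (θ : ZMod (p * q)) : -θ + e p q (-ρ) = -(θ + e p q ρ) := by
  rw [e_neg]
  ring

theorem kk_rev {a b : ℕ} {θ φ : ZMod (p * q)} {n : ℕ} {x y : ℤ} (h : KK p q a b θ φ n x y) :
    KK p q a b (-θ) (-φ) n (-x) (-y) := by
  obtain ⟨h1, h2, h3, h4, h5, h6⟩ := h
  refine ⟨h1, h2, ?_, ?_, ?_, ?_⟩
  · rw [mul_neg, h3, Int.cast_neg]
  · rw [mul_neg, h4, Int.cast_neg]
  · rwa [abs_neg]
  · rwa [abs_neg]

theorem kk_rev' {a b : ℕ} {θ φ : ZMod (p * q)} {n : ℕ} {x y : ℤ}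
    (h : KK p q a b (-θ) (-φ) n x y) : KK p q a b θ φ n (-x) (-y) := by
  have h1 := kk_rev h
  rwa [neg_neg, neg_neg] at h1

theorem l0_rev {a b : ℕ} {θ φ : ZMod (p * q)} (h : L0 p q a b θ φ) :
    L0 p q a b (-θ) (-φ) := by
  intro n x y hK
  rcases h n (-x) (-y) (kk_rev' hK) with ⟨h1, h2, h3⟩ | ⟨h1, h2, h3⟩ | ⟨h1, h2⟩
  · right; left
    exact ⟨by omega, by omega, by linarith⟩
  · left
    exact ⟨by omega, by omega, by linarith⟩
  · right; right
    refine ⟨by rwa [abs_neg] at h1, ?_⟩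
    intro m hm0 hm hmn s hs
    have h3 : (m : ZMod (p * q)) * φ = ((-s : ℤ) : ZMod (p * q)) := by
      rw [Int.cast_neg, ← hs]
      ring
    obtain ⟨h4, h5⟩ := h2 m hm0 hm hmn (-s) h3
    constructor
    · intro hy h6
      exact h5 (by omega) ⟨by linarith [h6.2], by linarith [h6.1]⟩
    · intro hy h6
      exact h4 (by omega) ⟨by linarith [h6.2], by linarith [h6.1]⟩

/-- the position as a distance -/
theorem off_sc_of (h : AP q z i0 ρ θ) {n m : ℕ} (hn : n < p) (hm : m < p) {s t : ℤ}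
    (hs : (n : ZMod (p * q)) * (θ + e p q ρ) = (s : ZMod (p * q)))
    (ht : (m : ZMod (p * q)) * (θ + e p q ρ) = (t : ZMod (p * q))) {d : ℕ} (hd : d < p * q)
    (hst : t = s + d) :
    off (sc q z (i0 + (n : ZMod p) * ρ)) (sc q z (i0 + (m : ZMod p) * ρ)) = d := by
  have h1 : sc q z (i0 + (m : ZMod p) * ρ) = sc q z (i0 + (n : ZMod p) * ρ) + (d : ℕ) := by
    rw [ap_sc h hn, ap_sc h hm, hs, ht, hst]
    push_cast
    ring
  rw [h1, off_nat _ hd]

end

end Helper55.KE
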