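import Pool.Agent.Helper55.KE.MTr

set_option autoImplicit false
set_option linter.unusedSectionVars false

/-!
# Progressions with a tie vector

`l θ = -b q - ε`, so the right side of `n` and the left side of `n - l` lie in the same block.
Rules at formal positions.
-/

namespace Helper55.KE

open Helper11.N1
open Helper11.N1.DECaux (ind ite_ind ind_and ind_congr ind_pos ind_neg)

/-- a block flat progression with tie index `l` -/
structure LS (p q a b c : ℕ) [NeZero p] [NeZero q] (z : ZMod p → ZMod (p * q)) (i0 ρ : ZMod p)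
    (θ : ZMod (p * q)) (δ l : ℕ) (k : ℤ) : Prop extends MS p q a b c z i0 ρ θ δ where
  hl0 : 0 < l
  hl : l < p
  hpq : p < q
  hxl : (l : ZMod (p * q)) * θ = ((-(b * q) - (1 - 2 * c) : ℤ) : ZMod (p * q))
  hrl : (l : ZMod p) * ρ = ((k + b : ℤ) : ZMod p)

/-- formal coordinates `(x, r)` of the cluster `n`; the exact abscissa is `x - τ ε` -/
structure FC {p q : ℕ} (c : ℕ) (ρ : ZMod p) (θ : ZMod (p * q)) (n : ℕ) (τ x r : ℤ) : Prop where
  hx : (n : ZMod (p * q)) * θ = ((x - τ * (1 - 2 * c) : ℤ) : ZMod (p * q))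
  hr : (n : ZMod p) * ρ = (r : ZMod p)

section

variable {p q a b c : ℕ} [NeZero p] [NeZero q] {z : ZMod p → ZMod (p * q)} {i0 ρ : ZMod p}
  {θ : ZMod (p * q)} {δ l : ℕ} {k : ℤ}

theorem FC.at {n : ℕ} {τ x r : ℤ} (h : FC c ρ θ n τ x r) :
    At ρ θ n (x - τ * (1 - 2 * c)) r := ⟨h.hx, h.hr⟩

theorem LS.eps (h : LS p q a b c z i0 ρ θ δ l k) :
    (1 - 2 * (c : ℤ)) = 1 ∧ c = 0 ∨ (1 - 2 * (c : ℤ)) = -1 ∧ c = 1 := by
  have := h.hB.hc
  omega

theorem LS.castc (h : LS p q a b c z i0 ρ θ δ l k) :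
    (((1 - 2 * (c : ℤ) : ℤ)) : ZMod (p * q)) = ((1 - c : ℕ) : ZMod (p * q)) - (c : ZMod (p * q)) := by
  rcases h.eps with ⟨_, rfl⟩ | ⟨_, rfl⟩ <;> norm_num

theorem LS.mgl (h : LS p q a b c z i0 ρ θ δ l k) {n : ℕ} (hn : l ≤ n) : Mg b c θ n (n - l) := by
  unfold Mg
  have h1 := h.hxl
  have h2 := h.castc
  rw [Nat.cast_sub hn, sub_mul, h1]
  push_cast at h2 ⊢
  linear_combination h2

/-- residues -/
theorem res_int (X : ℤ) : res p q (X : ZMod (p * q)) = (X : ZMod q) := map_intCast _ _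

theorem LS.lθ (h : LS p q a b c z i0 ρ θ δ l k) :
    (l : ZMod q) * res p q θ = ((-(1 - 2 * c) : ℤ) : ZMod q) := by
  have h1 := congrArg (res p q) h.hxl
  rw [map_mul, map_natCast, res_int] at h1
  rw [h1]
  push_cast
  rw [ZMod.natCast_self]
  ring

theorem LS.unit (h : LS p q a b c z i0 ρ θ δ l k) : IsUnit (res p q θ) := by
  have h1 := h.lθ
  rcases h.eps with ⟨h2, _⟩ | ⟨h2, _⟩
  · rw [h2] at h1
    push_cast at h1
    exact IsUnit.of_mul_eq_one (-(l : ZMod q)) (by linear_combination -h1)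
  · rw [h2] at h1
    push_cast at h1
    exact IsUnit.of_mul_eq_one ((l : ZMod q)) (by linear_combination h1)

/-- an integer whose residue belongs to an index which is not divisible by `q` -/
theorem LS.ndvd (h : LS p q a b c z i0 ρ θ δ l k) {X m : ℤ}
    (hX : (X : ZMod q) = (m : ZMod q) * res p q θ) (hm : ¬ (q : ℤ) ∣ m) : ¬ (q : ℤ) ∣ X := by
  intro h1
  apply hm
  rw [← ZMod.intCast_zmod_eq_zero_iff_dvd] at h1 ⊢
  rw [h1] at hX
  obtain ⟨u, hu⟩ := h.unit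
  rw [← hu] at hX
  have := congrArg (· * (↑u⁻¹ : ZMod q)) hX
  simpa [mul_assoc] using this.symm

theorem LS.fcres (_h : LS p q a b c z i0 ρ θ δ l k) {n : ℕ} {τ x r : ℤ}
    (hA : FC c ρ θ n τ x r) :
    ((x - τ * (1 - 2 * c) : ℤ) : ZMod q) = ((n : ℤ) : ZMod q) * res p q θ := by
  have h1 := congrArg (res p q) hA.hx
  rw [map_mul, map_natCast, res_int] at h1
  rw [← h1]
  push_cast
  ring

/-- residue of `x - τ ε + j ε` -/
theorem LS.fcres' (h : LS p q a b c z i0 ρ θ δ l k) {n : ℕ} {τ x r : ℤ}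
    (hA : FC c ρ θ n τ x r) (j : ℤ) :
    ((x - τ * (1 - 2 * c) + j * (1 - 2 * c) : ℤ) : ZMod q) =
      ((n - j * l : ℤ) : ZMod q) * res p q θ := by
  have h1 := h.fcres hA
  have h2 := h.lθ
  push_cast at h1 h2 ⊢
  linear_combination h1 + (j : ZMod q) * h2

theorem LS.δres (h : LS p q a b c z i0 ρ θ δ l k) :
    ((δ : ℤ) : ZMod q) = ((p : ℤ) : ZMod q) * res p q θ := by
  have h1 := congrArg (res p q) h.hδ
  rw [map_natCast, map_mul, map_natCast] at h1
  push_cast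
  exact h1

/-- integers between the two ends are of the form `x - τ ε + j ε` -/
theorem LS.btw (h : LS p q a b c z i0 ρ θ δ l k) {E J t : ℤ}
    (ht : Btw E (E + J * (1 - 2 * c)) t) : ∃ j : ℤ, Btw 0 J j ∧ t = E + j * (1 - 2 * c) := by
  rcases h.eps with ⟨h2, _⟩ | ⟨h2, _⟩
  · rw [h2] at ht ⊢
    refine ⟨t - E, ?_, by ring⟩
    rcases ht with ht | ht
    · left; constructor <;> omega
    · right; constructor <;> omega
  · rw [h2] at ht ⊢
    refine ⟨E - t, ?_, by ring⟩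
    rcases ht with ht | ht
    · right; constructor <;> omega
    · left; constructor <;> omega

/-- an end of the moved interval: either its residue is not the one of the boundary, or it differs
from the boundary by a multiple `u q` -/
def End (p q : ℕ) (a : ℤ) (m X : ℤ) : Prop :=
  ¬ (q : ℤ) ∣ m ∨ ∃ u : ℤ, X = u * q ∧ ¬ (p : ℤ) ∣ u ∧ ¬ (p : ℤ) ∣ u + a

theorem LS.zgen (h : LS p q a b c z i0 ρ θ δ l k) {X m a' : ℤ}
    (hX : (X : ZMod q) = (m : ZMod q) * res p q θ) (hE : End p q a' m X) :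
    ¬ ((p * q : ℕ) : ℤ) ∣ X ∧ ¬ ((p * q : ℕ) : ℤ) ∣ X + a' * q := by
  have hq : ((q : ℕ) : ℤ) ∣ ((p * q : ℕ) : ℤ) := ⟨p, by push_cast; ring⟩
  have hq0 : (q : ℤ) ≠ 0 := by
    have := NeZero.ne q
    exact_mod_cast this
  rcases hE with hE | ⟨u, rfl, hu, hua⟩
  · have g := h.ndvd hX hE
    refine ⟨fun h1 => g (hq.trans h1), fun h1 => g ?_⟩
    have h2 := hq.trans h1
    rwa [dvd_add_left ⟨a', by ring⟩] at h2
  · refine ⟨fun h1 => hu ?_, fun h1 => hua ?_⟩
    · push_cast at h1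
      exact (mul_dvd_mul_iff_right hq0).1 h1
    · push_cast at h1
      rw [← add_mul] at h1
      exact (mul_dvd_mul_iff_right hq0).1 h1

/-- zone conditions of a diagonal position -/
theorem LS.zd (h : LS p q a b c z i0 ρ θ δ l k) {f : ℕ} {τ x r : ℤ} (hA : FC c ρ θ f τ x r)
    (s : ℤ)
    (h0 : ∀ j : ℤ, Btw 0 τ j → End p q (-a) (f - j * l)
      (x - τ * (1 - 2 * c) + s * q + j * (1 - 2 * c)))
    (hp : ∀ j : ℤ, Btw 0 τ j → End p q (-a) (f - p - j * l)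
      (x - τ * (1 - 2 * c) + s * q + j * (1 - 2 * c) - δ)) :
    EqD p q a δ (x - τ * (1 - 2 * c) + s * q) (x + s * q) := by
  apply eqD_of h.hδM.le
  intro t ht
  have e1 : x + s * q = x - τ * (1 - 2 * c) + s * q + τ * (1 - 2 * c) := by ring
  rw [e1] at ht
  obtain ⟨j, hj, rfl⟩ := h.btw ht
  have h1 := h.fcres' hA j
  have h2 := h.δres
  obtain ⟨g1, g2⟩ := h.zgen (by
    rw [← h1]
    push_cast
    rw [ZMod.natCast_self]
    ring) (h0 j hj)
  obtain ⟨g3, g4⟩ := h.zgen (by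
    push_cast at h1 h2 ⊢
    rw [ZMod.natCast_self]
    linear_combination h1 - h2) (hp j hj)
  refine ⟨g1, g3, ?_, ?_⟩
  · have e2 : x - τ * (1 - 2 * c) + s * q + j * (1 - 2 * c) - a * q =
      x - τ * (1 - 2 * c) + s * q + j * (1 - 2 * c) + (-a) * q := by ring
    rwa [e2]
  · have e2 : x - τ * (1 - 2 * c) + s * q + j * (1 - 2 * c) - a * q - δ =
      x - τ * (1 - 2 * c) + s * q + j * (1 - 2 * c) - δ + (-a) * q := by ring
    rwa [e2]

/-- zone conditions of a vertical position -/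
theorem LS.zv (h : LS p q a b c z i0 ρ θ δ l k) {f : ℕ} {τ x r : ℤ} (hA : FC c ρ θ f τ x r)
    (s : ℤ)
    (h0 : ∀ j : ℤ, Btw 0 τ j → End p q b (f - j * l)
      (x - τ * (1 - 2 * c) + s * q + j * (1 - 2 * c)))
    (hp : ∀ j : ℤ, Btw 0 τ j → End p q b (f - p - j * l)
      (x - τ * (1 - 2 * c) + s * q + j * (1 - 2 * c) - δ)) :
    EqV p q b δ (x - τ * (1 - 2 * c) + s * q) (x + s * q) := by
  apply eqV_of h.hδM.le
  intro t ht
  have e1 : x + s * q = x - τ * (1 - 2 * c) + s * q + τ * (1 - 2 * c) := by ring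
  rw [e1] at ht
  obtain ⟨j, hj, rfl⟩ := h.btw ht
  have h1 := h.fcres' hA j
  have h2 := h.δres
  obtain ⟨g1, g2⟩ := h.zgen (by
    rw [← h1]
    push_cast
    rw [ZMod.natCast_self]
    ring) (h0 j hj)
  obtain ⟨g3, g4⟩ := h.zgen (by
    push_cast at h1 h2 ⊢
    rw [ZMod.natCast_self]
    linear_combination h1 - h2) (hp j hj)
  refine ⟨g1, g3, g2, ?_⟩
  have e2 : x - τ * (1 - 2 * c) + s * q + j * (1 - 2 * c) + b * q - δ =
    x - τ * (1 - 2 * c) + s * q + j * (1 - 2 * c) - δ + b * q := by ring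
  rwa [e2]

/-- the indices of the differences between the exact and the formal crossing -/
def NI (q l : ℕ) (m J : ℤ) : Prop := ∀ j : ℤ, Btw 0 J j → ¬ (q : ℤ) ∣ m + j * l

/-- crossing condition: vertical position with exact residue index `n` -/
theorem LS.hN (h : LS p q a b c z i0 ρ θ δ l k) {f : ℕ} {τ x r : ℤ} (hA : FC c ρ θ f τ x r)
    (s : ℤ) {vX vY n J : ℤ} (hv : (vX : ZMod q) = (n : ZMod q) * res p q θ)
    (hJ : vY = vX + J * (1 - 2 * c)) (hNI : NI q l (f - n) (J - τ)) :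
    ∀ t : ℤ, Btw (x - τ * (1 - 2 * c) + s * q - vX) (x + s * q - vY) t → ¬ (q : ℤ) ∣ t := by
  intro t ht
  have e1 : x + s * q - vY = x - τ * (1 - 2 * c) + s * q - vX + (τ - J) * (1 - 2 * c) := by
    rw [hJ]
    ring
  rw [e1] at ht
  obtain ⟨j, hj, rfl⟩ := h.btw ht
  refine h.ndvd (m := f - n + (-j) * l) ?_ (hNI (-j) ?_)
  · have h1 := h.fcres' hA j
    push_cast at h1 hv ⊢
    rw [ZMod.natCast_self]
    linear_combination h1 - hv
  · rcases hj with hj | hj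
    · right; constructor <;> omega
    · left; constructor <;> omega

theorem cI_hh (a : ℕ) (kap k : ℤ) : CI (hh (p : ℝ) a kap k) := hh_ceil a kap k

theorem cI_ind (a : ℕ) (s : ℤ) (k : ℤ) :
    CI (fun t => s * Helper10.KE.ind (p : ℝ) (k : ℝ) (a : ℝ) t) := ind_ceil' a s k

theorem q_ne : (q : ℝ) ≠ 0 := by
  have := NeZero.ne q
  exact_mod_cast this

theorem cdB (x r : ℤ) : ((x + r * q : ℤ) : ℝ) / q = (x : ℝ) / q + r := by
  have := q_ne (q := q)
  push_cast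
  field_simp

theorem cdT (x r : ℤ) (a : ℕ) : ((x + (r + a) * q : ℤ) : ℝ) / q = (x : ℝ) / q + r + a := by
  have := q_ne (q := q)
  push_cast
  field_simp
  ring

/-- transfer of a pair of rules (bottom and top line) of one cluster -/
theorem LS.pair (h : LS p q a b c z i0 ρ θ δ l k) {f : ℕ} {τ x r : ℤ} (hA : FC c ρ θ f τ x r)
    {hv hv' : ℝ → ℤ} (c1 : CI hv) (c2 : CI hv') {vX vY n J : ℤ}
    (H : RUq p a b ((δ : ℝ) / q) hv hv' ((vX : ℝ) / q)
        (((x - τ * (1 - 2 * c) : ℤ) : ℝ) / q + r) r (-1) ∧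
      RUq p a b ((δ : ℝ) / q) hv hv' ((vX : ℝ) / q)
        (((x - τ * (1 - 2 * c) : ℤ) : ℝ) / q + r + a) (r + a) 1)
    (hvr : (vX : ZMod q) = (n : ZMod q) * res p q θ)
    (hJ : vY = vX + J * (1 - 2 * c)) (hNI : NI q l (f - n) (J - τ))
    (hV : EqV p q b δ vX vY)
    (hDB : EqD p q a δ (x - τ * (1 - 2 * c) + r * q) (x + r * q))
    (hDT : EqD p q a δ (x - τ * (1 - 2 * c) + (r + a) * q) (x + (r + a) * q)) :
    RUq p a b ((δ : ℝ) / q) hv hv' ((vY : ℝ) / q) ((x : ℝ) / q + r) r (-1) ∧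
      RUq p a b ((δ : ℝ) / q) hv hv' ((vY : ℝ) / q) ((x : ℝ) / q + r + a) (r + a) 1 := by
  obtain ⟨H1, H2⟩ := H
  have c5 : ((r + a : ℤ) : ℝ) = (r : ℝ) + a := by push_cast; ring
  constructor
  · rw [← cdB] at H1 ⊢
    exact H1.tr c1 c2 (h.hN hA r hvr hJ hNI) hV hDB
  · rw [← cdT, ← c5] at H2 ⊢
    exact H2.tr c1 c2 (h.hN hA (r + a) hvr hJ hNI) hV hDT

/-- merged static line of `n` and `n - l` against the diagonal lines of `f`, formal positions -/
theorem LS.rMg (h : LS p q a b c z i0 ρ θ δ l k) {n f : ℕ} (hln : l < n) (hn : n < p)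
    (hf0 : 0 < f) (hf : f < p) (hfn : f ≠ n) (hfl : f + l ≠ n) {τ x r τ' x' r' : ℤ}
    (hA : FC c ρ θ n τ x r) (hA' : FC c ρ θ f τ' x' r') (hNI : NI q l (f - n) (τ - τ'))
    (hV : EqV p q b δ (x - τ * (1 - 2 * c)) x)
    (hDB : EqD p q a δ (x' - τ' * (1 - 2 * c) + r' * q) (x' + r' * q))
    (hDT : EqD p q a δ (x' - τ' * (1 - 2 * c) + (r' + a) * q) (x' + (r' + a) * q)) :
    RUq p a b ((δ : ℝ) / q) (hh p a ((-k : ℤ) : ℝ) r) (hh p a ((-k : ℤ) : ℝ) r) ((x : ℝ) / q)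
        ((x' : ℝ) / q + r') r' (-1) ∧
      RUq p a b ((δ : ℝ) / q) (hh p a ((-k : ℤ) : ℝ) r) (hh p a ((-k : ℤ) : ℝ) r) ((x : ℝ) / q)
        ((x' : ℝ) / q + r' + a) (r' + a) 1 := by
  have hl0 := h.hl0
  have H := h.rq_mg (n := n) (m := n - l) (f := f) (by omega) hn (by omega) (by omega) hf0 hf hfn
    (by omega) (h.mgl hln.le) hA.at hA'.at (kap := -k) (by
      have h1 := h.hrl
      have h2 := hA.hr
      rw [Nat.cast_sub hln.le, sub_mul, h1, h2]
      push_cast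
      ring)
  have hr := h.fcres hA
  exact h.pair hA' (cI_hh a (-k) r) (cI_hh a (-k) r) H hr (J := τ) (by ring) hNI hV hDB hDT

/-- merged pair in one window against the diagonal lines of `f`, formal positions; the clusters
`0` are allowed -/
theorem LS.jMg (h : LS p q a b c z i0 ρ θ δ l k) {n f : ℕ} (hln : l ≤ n) (hn : n < p)
    (hf : f < p) (hfn : f ≠ n) (hfl : f + l ≠ n) {τ x r τ' x' r' : ℤ}
    (hA : FC c ρ θ n τ x r) (hA' : FC c ρ θ f τ' x' r') (hNI : NI q l (f - n) (τ - τ')) :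
    J2c p a b ((-k : ℤ) : ℝ) ((x : ℝ) / q) r ((x' : ℝ) / q) r' := by
  have H := h.j2c (n := n) (m := n - l) (f := f) hn (by omega) hf hfn
    (by omega) (h.mgl hln) hA.at hA'.at (kap := -k) (by
      have h1 := h.hrl
      have h2 := hA.hr
      rw [Nat.cast_sub hln, sub_mul, h1, h2]
      push_cast
      ring)
  have hr := h.fcres hA
  have c5 : ((r' + a : ℤ) : ℝ) = (r' : ℝ) + a := by push_cast; ring
  obtain ⟨H1, H2⟩ := H
  constructor
  · rw [← cdB] at H1 ⊢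
    exact H1.tr (h.hN hA' r' hr (J := τ) (vY := x) (by ring) hNI)
  · rw [← cdT, ← c5] at H2 ⊢
    exact H2.tr (h.hN hA' (r' + a) hr (J := τ) (vY := x) (by ring) hNI)

/-- no tie of the second kind for a right side -/
theorem LS.noR (h : LS p q a b c z i0 ρ θ δ l k) {n : ℕ} (hn : n < l) (hq : p + l < q + n) :
    ∀ m : ℕ, m ≤ p → ¬ Mg b c θ n m := by
  intro m hm hM
  have h1 : Mg b c θ n m → ((m + l - n : ℤ) : ZMod (p * q)) * θ = 0 := by
    intro h2
    unfold Mg at h2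
    have h3 := h.hxl
    have h4 := h.castc
    push_cast at h3 h4 ⊢
    linear_combination h2 + h3 - h4
  have h2 := congrArg (res p q) (h1 hM)
  have h3 : ¬ (q : ℤ) ∣ (m + l - n : ℤ) := by
    intro h4
    have := Int.le_of_dvd (by omega) h4
    omega
  have h4 := h.ndvd (X := 0) (m := (m + l - n : ℤ)) (by
    rw [map_zero, map_mul] at h2
    rw [Int.cast_zero, ← h2]
    push_cast
    rw [map_sub, map_add, map_natCast, map_natCast, map_natCast]) h3
  exact h4 ⟨0, by ring⟩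

/-- no tie of the second kind for a left side -/
theorem LS.noL (h : LS p q a b c z i0 ρ θ δ l k) {m : ℕ} (hm : p < m + l) (hq : m + l < q) :
    ∀ n : ℕ, n ≤ p → ¬ Mg b c θ n m := by
  intro n hn hM
  have h1 : Mg b c θ n m → ((m + l - n : ℤ) : ZMod (p * q)) * θ = 0 := by
    intro h2
    unfold Mg at h2
    have h3 := h.hxl
    have h4 := h.castc
    push_cast at h3 h4 ⊢
    linear_combination h2 + h3 - h4
  have h2 := congrArg (res p q) (h1 hM)
  have h3 : ¬ (q : ℤ) ∣ (m + l - n : ℤ) := by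
    intro h4
    have := Int.le_of_dvd (by omega) h4
    omega
  have h4 := h.ndvd (X := 0) (m := (m + l - n : ℤ)) (by
    rw [map_zero, map_mul] at h2
    rw [Int.cast_zero, ← h2]
    push_cast
    rw [map_sub, map_add, map_natCast, map_natCast, map_natCast]) h3
  exact h4 ⟨0, by ring⟩

/-- right side which is not merged, formal positions -/
theorem LS.rR (h : LS p q a b c z i0 ρ θ δ l k) {n f : ℕ} (hn0 : 0 < n) (hn : n < p)
    (hf0 : 0 < f) (hf : f < p) (hfn : f ≠ n) (hU : ∀ m : ℕ, m ≤ p → ¬ Mg b c θ n m)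
    {τ x r τ' x' r' : ℤ}
    (hA : FC c ρ θ n τ x r) (hA' : FC c ρ θ f τ' x' r') (hNI : NI q l (f - n) (τ - τ'))
    (hV : EqV p q b δ (x - τ * (1 - 2 * c)) x)
    (hDB : EqD p q a δ (x' - τ' * (1 - 2 * c) + r' * q) (x' + r' * q))
    (hDT : EqD p q a δ (x' - τ' * (1 - 2 * c) + (r' + a) * q) (x' + (r' + a) * q)) :
    RUq p a b ((δ : ℝ) / q) (fun w => 1 * Helper10.KE.ind p r a w)
        (fun w => 1 * Helper10.KE.ind p r a w) ((x : ℝ) / q) ((x' : ℝ) / q + r') r' (-1) ∧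
      RUq p a b ((δ : ℝ) / q) (fun w => 1 * Helper10.KE.ind p r a w)
        (fun w => 1 * Helper10.KE.ind p r a w) ((x : ℝ) / q)
        ((x' : ℝ) / q + r' + a) (r' + a) 1 := by
  have H := h.rq_R hn0 hn hf0 hf hfn hU hA.at hA'.at
  have hr := h.fcres hA
  exact h.pair hA' (cI_ind a 1 r) (cI_ind a 1 r) H hr (J := τ) (by ring) hNI hV hDB hDT

/-- left side which is not merged, formal positions -/
theorem LS.rL (h : LS p q a b c z i0 ρ θ δ l k) {n f : ℕ} (hn0 : 0 < n) (hn : n < p)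
    (hf0 : 0 < f) (hf : f < p) (hfn : f ≠ n) (hU : ∀ m : ℕ, m ≤ p → ¬ Mg b c θ m n)
    {τ x r τ' x' r' : ℤ}
    (hA : FC c ρ θ n τ x r) (hA' : FC c ρ θ f τ' x' r') (hNI : NI q l (f - n) (τ - τ'))
    (hV : EqV p q b δ (x - τ * (1 - 2 * c) - b * q) (x - b * q))
    (hDB : EqD p q a δ (x' - τ' * (1 - 2 * c) + r' * q) (x' + r' * q))
    (hDT : EqD p q a δ (x' - τ' * (1 - 2 * c) + (r' + a) * q) (x' + (r' + a) * q)) :
    RUq p a b ((δ : ℝ) / q) (fun w => (-1) * Helper10.KE.ind p (r + b) a w)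
        (fun w => (-1) * Helper10.KE.ind p (r + b) a w) ((x : ℝ) / q - b)
        ((x' : ℝ) / q + r') r' (-1) ∧
      RUq p a b ((δ : ℝ) / q) (fun w => (-1) * Helper10.KE.ind p (r + b) a w)
        (fun w => (-1) * Helper10.KE.ind p (r + b) a w) ((x : ℝ) / q - b)
        ((x' : ℝ) / q + r' + a) (r' + a) 1 := by
  have H := h.rq_L hn0 hn hf0 hf hfn hU hA.at hA'.at
  have hr := h.fcres hA
  have e1 : ((x - τ * (1 - 2 * c) : ℤ) : ℝ) / q - b =
      ((x - τ * (1 - 2 * c) - b * q : ℤ) : ℝ) / q := by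
    have := q_ne (q := q)
    push_cast
    field_simp
  have e2 : (x : ℝ) / q - b = ((x - b * q : ℤ) : ℝ) / q := by
    have := q_ne (q := q)
    push_cast
    field_simp
  have c4 : ((r + b : ℤ) : ℝ) = (r : ℝ) + b := by push_cast; ring
  rw [e1] at H
  rw [e2]
  have g1 := cI_ind (p := p) a (-1) (r + b)
  rw [c4] at g1
  refine h.pair hA' g1 g1 H (n := n) ?_ (J := τ) (by ring) hNI hV hDB hDT
  push_cast at hr ⊢
  rw [ZMod.natCast_self]
  linear_combination hr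

/-- the right side of `l` at `- b`, merged with the left side of `0` before the move -/
theorem LS.rRl (h : LS p q a b c z i0 ρ θ δ l k) {f : ℕ} (hf0 : 0 < f) (hf : f < p)
    (hfn : f ≠ l) {τ' x' r' : ℤ} (hA' : FC c ρ θ f τ' x' r') (hNI : NI q l f (-τ'))
    (hDB : EqD p q a δ (x' - τ' * (1 - 2 * c) + r' * q) (x' + r' * q))
    (hDT : EqD p q a δ (x' - τ' * (1 - 2 * c) + (r' + a) * q) (x' + (r' + a) * q)) :
    RUq p a b ((δ : ℝ) / q) (hh p a ((-k : ℤ) : ℝ) ((k + b : ℤ) : ℝ))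
        (fun w => 1 * Helper10.KE.ind p ((k + b : ℤ) : ℝ) a w) (-b)
        ((x' : ℝ) / q + r') r' (-1) ∧
      RUq p a b ((δ : ℝ) / q) (hh p a ((-k : ℤ) : ℝ) ((k + b : ℤ) : ℝ))
        (fun w => 1 * Helper10.KE.ind p ((k + b : ℤ) : ℝ) a w) (-b)
        ((x' : ℝ) / q + r' + a) (r' + a) 1 := by
  have hM : Mg b c θ l 0 := by
    have := h.mgl (le_refl l)
    rwa [Nat.sub_self] at this
  have hAl : At ρ θ l (-(b * q) - (1 - 2 * c)) (k + b) := ⟨h.hxl, h.hrl⟩
  have H := h.rq_R0 h.hl0 h.hl hf0 hf hfn hM hAl hA'.at (kap := -k) (by push_cast; ring)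
  have e1 : (-b : ℝ) = ((-(b * q) : ℤ) : ℝ) / q := by
    have := q_ne (q := q)
    push_cast
    field_simp
  rw [e1] at H ⊢
  refine h.pair hA' (cI_hh a (-k) (k + b)) (cI_ind a 1 (k + b)) H (n := 0) ?_ (J := 0) (by ring)
    ?_ (eqV_refl _ _) hDB hDT
  · push_cast
    rw [ZMod.natCast_self]
    ring
  · rw [zero_sub, sub_zero]
    exact hNI

/-- the left side of `p - l` at `δ`, merged with the right side of `p` after the move -/
theorem LS.rLpl (h : LS p q a b c z i0 ρ θ δ l k) {f : ℕ} (hf0 : 0 < f) (hf : f < p)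
    (hfn : f + l ≠ p) {τ' x' r' : ℤ} (hA' : FC c ρ θ f τ' x' r') (hNI : NI q l (f - p) (-τ'))
    (hDB : EqD p q a δ (x' - τ' * (1 - 2 * c) + r' * q) (x' + r' * q))
    (hDT : EqD p q a δ (x' - τ' * (1 - 2 * c) + (r' + a) * q) (x' + (r' + a) * q)) :
    RUq p a b ((δ : ℝ) / q) (fun w => (-1) * Helper10.KE.ind p ((-k : ℤ) : ℝ) a w)
        (hh p a ((-k : ℤ) : ℝ) 0) ((δ : ℝ) / q) ((x' : ℝ) / q + r') r' (-1) ∧
      RUq p a b ((δ : ℝ) / q) (fun w => (-1) * Helper10.KE.ind p ((-k : ℤ) : ℝ) a w)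
        (hh p a ((-k : ℤ) : ℝ) 0) ((δ : ℝ) / q) ((x' : ℝ) / q + r' + a) (r' + a) 1 := by
  have hl0 := h.hl0
  have hl := h.hl
  have hM : Mg b c θ p (p - l) := h.mgl hl.le
  have hAl : At ρ θ (p - l) (δ + b * q + (1 - 2 * c)) (-(k + b)) := by
    constructor
    · rw [Nat.cast_sub hl.le, sub_mul, h.hxl, ← h.hδ]
      push_cast
      ring
    · rw [Nat.cast_sub hl.le, sub_mul, h.hrl, ZMod.natCast_self]
      push_cast
      ring
  have H := h.rq_Lp (n := p - l) (by omega) (by omega) hf0 hf (by omega) hM hAl hA'.at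
    (kap := -k) (by push_cast; ring)
  have e1 : (δ : ℝ) / q = (((δ : ℤ)) : ℝ) / q := by rw [Int.cast_natCast]
  have H' : RUq p a b ((δ : ℝ) / q) (fun w => (-1) * Helper10.KE.ind p ((-k : ℤ) : ℝ) a w)
        (hh p a ((-k : ℤ) : ℝ) ((0 : ℤ) : ℝ)) (((δ : ℤ) : ℝ) / q)
        (((x' - τ' * (1 - 2 * c) : ℤ) : ℝ) / q + r') r' (-1) ∧
      RUq p a b ((δ : ℝ) / q) (fun w => (-1) * Helper10.KE.ind p ((-k : ℤ) : ℝ) a w)
        (hh p a ((-k : ℤ) : ℝ) ((0 : ℤ) : ℝ)) (((δ : ℤ) : ℝ) / q)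
        (((x' - τ' * (1 - 2 * c) : ℤ) : ℝ) / q + r' + a) (r' + a) 1 := by
    rw [← e1, Int.cast_zero]
    exact H
  have H2 := h.pair hA' (cI_ind a (-1) (-k)) (cI_hh a (-k) 0) H' (n := p) h.δres (J := 0)
    (vY := δ) (by ring) (by rw [zero_sub]; exact hNI) (eqV_refl _ _) hDB hDT
  rw [← e1, Int.cast_zero] at H2
  exact H2

end

end Helper55.KE
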