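import Pool.Agent.Helper55.KE.Def

set_option autoImplicit false
set_option linter.unusedSectionVars false

/-!
# Arcs of active levels
-/

namespace Helper55.KE

open Helper11.N1

section

variable {p : ℕ} [NeZero p]

theorem sum_val_lt {b : ℕ} (hb : b ≤ p) : open Classical in
    ∑ v : ZMod p, (if v.val < b then (1 : ℤ) else 0) = b := by
  classical
  rw [Finset.sum_boole]
  have h : (Finset.univ.filter fun v : ZMod p => v.val < b).card = (Finset.range b).card := by
    symm
    refine Finset.card_bij (s := Finset.range b) (fun (n : ℕ) _ => ((n : ℕ) : ZMod p)) ?_ ?_ ?_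
    · intro n hn
      rw [Finset.mem_range] at hn
      rw [Finset.mem_filter]
      refine ⟨Finset.mem_univ _, ?_⟩
      rw [ZMod.val_natCast, Nat.mod_eq_of_lt (by omega)]
      exact hn
    · intro n hn m hm hnm
      rw [Finset.mem_range] at hn hm
      exact Nat.ModEq.eq_of_lt_of_lt ((ZMod.natCast_eq_natCast_iff n m p).1 hnm)
        (by omega) (by omega)
    · intro v hv
      rw [Finset.mem_filter] at hv
      exact ⟨v.val, Finset.mem_range.2 hv.2, ZMod.natCast_zmod_val v⟩
  rw [h, Finset.card_range]

theorem sum_aB {b : ℕ} (hb : b ≤ p) (j : ZMod p) : open Classical in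
    ∑ W : ZMod p, (if aB b W j then (1 : ℤ) else 0) = b := by
  classical
  rw [← sum_val_lt hb]
  refine Fintype.sum_equiv (Equiv.subRight (1 + j)) _ _ fun W => ?_
  have h : W - 1 - j = W - (1 + j) := by ring
  have h2 : aB b W j ↔ (Equiv.subRight (1 + j) W).val < b := by
    unfold aB
    rw [Equiv.subRight_apply, h]
  exact if_congr h2 rfl rfl

theorem aT_iff (a b : ℕ) (W j : ZMod p) : aT a b W j ↔ aB b W (j + a) := by
  unfold aT aB
  have h : W - a - 1 - j = W - 1 - (j + a) := by ring
  rw [h]

theorem sum_aT {a b : ℕ} (hb : b ≤ p) (j : ZMod p) : open Classical in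
    ∑ W : ZMod p, (if aT a b W j then (1 : ℤ) else 0) = b := by
  classical
  rw [← sum_aB hb (j + a)]
  apply Finset.sum_congr rfl
  intro W _
  exact if_congr (aT_iff a b W j) rfl rfl

/-- the change of an arc indicator -/
theorem aB_step {b : ℕ} (hb0 : 0 < b) (hb : b < p) (W j : ZMod p) : open Classical in
    (if aB b (W + 1) j then (1 : ℤ) else 0) - (if aB b W j then 1 else 0) =
      (if W = j then 1 else 0) - (if W - b = j then 1 else 0) := by
  classical
  unfold aB
  have h1 : W + 1 - 1 - j = W - j := by ring
  rw [h1]
  by_cases h0 : W = j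
  · have h2 : (W - j).val = 0 := by rw [h0, sub_self, ZMod.val_zero]
    have h3 : (W - 1 - j).val = p - 1 := by
      have h4 : W - 1 - j = ((p - 1 : ℕ) : ZMod p) := by
        rw [h0, Nat.cast_sub (by omega), ZMod.natCast_self]
        push_cast
        ring
      rw [h4, ZMod.val_natCast, Nat.mod_eq_of_lt (by omega)]
    have h5 : ¬ (W - b = j) := by
      intro h6
      have h7 : (b : ZMod p) = 0 := by rw [h0] at h6; linear_combination -h6
      have h8 := (ZMod.natCast_eq_zero_iff b p).1 h7
      exact absurd (Nat.le_of_dvd hb0 h8) (by omega)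
    rw [h2, h3, if_pos hb0, if_neg (by omega), if_pos h0, if_neg h5]
  · have h2 : (W - j).val ≠ 0 := by
      rw [ne_eq, ZMod.val_eq_zero, sub_eq_zero]
      exact h0
    have h3 : (W - 1 - j).val = (W - j).val - 1 := by
      have h4 : W - 1 - j = (((W - j).val - 1 : ℕ) : ZMod p) := by
        rw [Nat.cast_sub (by omega), ZMod.natCast_zmod_val]
        push_cast
        ring
      have h5 := ZMod.val_lt (W - j)
      conv_lhs => rw [h4]
      rw [ZMod.val_natCast, Nat.mod_eq_of_lt (by omega)]
    have h6 : W - b = j ↔ (W - j).val = b := by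
      constructor
      · intro h7
        have h8 : W - j = (b : ZMod p) := by rw [← h7]; ring
        rw [h8, ZMod.val_natCast, Nat.mod_eq_of_lt hb]
      · intro h7
        have h8 : W - j = (b : ZMod p) := by rw [← h7, ZMod.natCast_zmod_val]
        linear_combination h8
    rw [h3, if_neg h0]
    by_cases h7 : (W - j).val = b
    · rw [if_neg (by omega), if_pos (by omega), if_pos (h6.2 h7)]
    · rw [if_neg (fun h => h7 (h6.1 h))]
      by_cases h8 : (W - j).val < b
      · rw [if_pos h8, if_pos (by omega)]
        norm_num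
      · rw [if_neg h8, if_neg (by omega)]

/-- equality of two sums of two arcs -/
theorem arc_eq {b : ℕ} (hb0 : 0 < b) (hb : b < p) (hbp : b.Coprime p) (u v c d : ZMod p)
    (h : ∀ W : ZMod p, open Classical in
      (if aB b W u then (1 : ℤ) else 0) + (if aB b W v then 1 else 0) =
      (if aB b W c then 1 else 0) + (if aB b W d then 1 else 0)) : u = c ∨ u = d := by
  classical
  let f : ZMod p → ℤ := fun j => (if j = u then (1 : ℤ) else 0) + (if j = v then 1 else 0) -
    (if j = c then 1 else 0) - (if j = d then 1 else 0)
  have hstep : ∀ W, f W = f (W - b) := by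
    intro W
    have h1 := h (W + 1)
    have h2 := h W
    have h3 := aB_step hb0 hb W u
    have h4 := aB_step hb0 hb W v
    have h5 := aB_step hb0 hb W c
    have h6 := aB_step hb0 hb W d
    simp only [f]
    linarith
  have hiter : ∀ (n : ℕ) (W : ZMod p), f W = f (W - n * b) := by
    intro n
    induction n with
    | zero => intro W; simp
    | succ n ih =>
      intro W
      rw [ih W, hstep]
      congr 1
      push_cast
      ring
  have hconst : ∀ W, f W = f 0 := by
    intro W
    have hu : IsUnit (b : ZMod p) := (ZMod.isUnit_iff_coprime b p).2 hbp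
    obtain ⟨w, hw⟩ := hu.exists_left_inv
    have h1 := hiter (W * w).val W
    rw [ZMod.natCast_zmod_val, mul_assoc, hw, mul_one, sub_self] at h1
    exact h1
  have hsum : ∑ j, f j = 0 := by
    simp only [f]
    rw [Finset.sum_sub_distrib, Finset.sum_sub_distrib, Finset.sum_add_distrib,
      Finset.sum_ite_eq' Finset.univ, Finset.sum_ite_eq' Finset.univ,
      Finset.sum_ite_eq' Finset.univ, Finset.sum_ite_eq' Finset.univ,
      if_pos (Finset.mem_univ _), if_pos (Finset.mem_univ _), if_pos (Finset.mem_univ _),
      if_pos (Finset.mem_univ _)]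
    norm_num
  have h0 : f 0 = 0 := by
    rw [Finset.sum_congr rfl (fun j _ => hconst j), Finset.sum_const, Finset.card_univ,
      ZMod.card, nsmul_eq_mul] at hsum
    rcases mul_eq_zero.1 hsum with h1 | h1
    · exfalso
      have := NeZero.ne p
      exact this (by exact_mod_cast h1)
    · exact h1
  have h1 := hconst u
  rw [h0] at h1
  simp only [f, if_true] at h1
  by_contra h2
  rw [not_or] at h2
  rw [if_neg h2.1, if_neg h2.2] at h1
  split_ifs at h1 <;> omega

end

end Helper55.KE
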