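import Pool.Agent.Helper55.KE.Corner
import Pool.Agent.Helper55.KE.Arc

set_option autoImplicit false
set_option linter.unusedSectionVars false

/-!
# The column argument

An overlap vector `(x, y)` with `y < 0`, `q ≤ |y|` and empty strip gives an overlap vector with
positive ordinate and a cluster at distance less than `q` above.
-/

namespace Helper55.KE

open Helper11.N1

section

variable {p q a b : ℕ} [NeZero p] [NeZero q] {z : ZMod p → ZMod (p * q)} {i0 ρ : ZMod p}
  {θ : ZMod (p * q)}

/-- the next cluster above and the three gap inequality -/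
theorem next_above (hP : Par p q a b) (hG : Gen q z) (hAP : AP q z i0 ρ θ)
    {k g1 : ℕ} (hk0 : 0 < k) (hk : k < p)
    (hky : (k : ZMod (p * q)) * (θ + e p q ρ) = ((-(g1 : ℤ) : ℤ) : ZMod (p * q)))
    (hqg : q ≤ g1) (hga : g1 < a * q)
    (hS : Strip p q a (θ + e p q ρ) k (-(g1 : ℤ))) :
    ∃ m g2 : ℕ, 0 < m ∧ m < p ∧ m ≠ k ∧ (m : ZMod (p * q)) * (θ + e p q ρ) = (g2 : ZMod (p * q)) ∧
      0 < g2 ∧ g2 < q ∧ a * q ≤ g1 + g2 ∧ (3 ≤ a → 3 * m < p) ∧ 2 * m < p := by
  classical
  obtain ⟨haq, hbq, habq, h2a, h2b⟩ := lt_mul_of hP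
  have ha2 := hP.ha
  have hb2 := hP.hb
  have hab := hP.hab
  have hq1 := hP.hq
  have hhaq : ((a * q : ℕ) : ℤ) = (a : ℤ) * q := by push_cast; ring
  have hhpq : ((p * q : ℕ) : ℤ) = (p : ℤ) * q := by push_cast; ring
  set φ : ZMod (p * q) := θ + e p q ρ with hφ
  obtain ⟨m, hm, hmin⟩ := Finset.exists_min_image ((Finset.Ico 1 p).erase k)
    (fun n : ℕ => ((n : ZMod (p * q)) * φ).val) (by
      by_cases h : k = 1
      · exact ⟨2, by rw [Finset.mem_erase, Finset.mem_Ico]; omega⟩
      · exact ⟨1, by rw [Finset.mem_erase, Finset.mem_Ico]; omega⟩)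
  rw [Finset.mem_erase, Finset.mem_Ico] at hm
  obtain ⟨hmk, hm0, hmp⟩ := hm
  set g2 := ((m : ZMod (p * q)) * φ).val with hg2
  have hmφ : (m : ZMod (p * q)) * φ = (g2 : ZMod (p * q)) := by
    rw [hg2, ZMod.natCast_zmod_val]
  have hmφ' : (m : ZMod (p * q)) * φ = ((g2 : ℤ) : ZMod (p * q)) := by
    rw [hmφ, Int.cast_natCast]
  have hg2M : g2 < p * q := ZMod.val_lt _
  have hg20 : 0 < g2 := by
    rcases Nat.eq_zero_or_pos g2 with h | h
    · exfalso
      apply ap_ndvd hAP hG hm0 hmp hmφ'
      rw [h]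
      exact ⟨0, by push_cast; ring⟩
    · exact h
  have hstrip : ∀ n : ℕ, 0 < n → n < p → n ≠ k → ∀ s : ℤ,
      (n : ZMod (p * q)) * φ = (s : ZMod (p * q)) → -(g1 : ℤ) < s → s < -(g1 : ℤ) + a * q →
      False := by
    intro n hn0 hn hnk s hs h1 h2
    exact (hS n hn0 hn hnk s hs).1 (by omega) ⟨h1, h2⟩
  have hlow : a * q ≤ g1 + g2 := by
    by_contra h
    exact hstrip m hm0 hmp hmk g2 hmφ' (by omega) (by omega)
  have hup : g1 + g2 ≤ p * q := by
    by_contra h
    refine hstrip m hm0 hmp hmk ((g2 : ℤ) - p * q) ?_ (by omega) (by omega)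
    rw [hmφ]
    have : ((p : ZMod (p * q)) * (q : ZMod (p * q))) = 0 := by
      have h1 := ZMod.natCast_self (p * q)
      push_cast at h1
      exact h1
    push_cast
    rw [this, sub_zero]
  have hno : ∀ n : ℕ, 0 < n → n < p → ∀ t : ℤ, (n : ZMod (p * q)) * φ = (t : ZMod (p * q)) →
      -(g1 : ℤ) < t → t < g2 → False := by
    intro n hn0 hn t ht h1 h2
    by_cases hnk : n = k
    · subst hnk
      rw [hky] at ht
      have h3 : ((t + g1 : ℤ) : ZMod (p * q)) = 0 := by
        rw [Int.cast_add, ← ht]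
        push_cast
        ring
      have h4 := int_zero h3 (by omega) (by omega)
      omega
    · have h3 : -(g1 : ℤ) + a * q ≤ t := by
        by_contra h4
        exact hstrip n hn0 hn hnk t ht h1 (by omega)
      have h4 := hmin n (by rw [Finset.mem_erase, Finset.mem_Ico]; omega)
      have h5 : ((n : ZMod (p * q)) * φ).val = t.toNat := by
        have h6 : ((t : ℤ) : ZMod (p * q)) = ((t.toNat : ℕ) : ZMod (p * q)) := by
          conv_lhs => rw [← Int.toNat_of_nonneg (show 0 ≤ t by omega)]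
          rw [Int.cast_natCast]
        rw [ht, h6, ZMod.val_natCast, Nat.mod_eq_of_lt (by omega)]
      have h7 : g2 ≤ t.toNat := by
        rw [← h5]
        exact h4
      omega
  have hkφ : (k : ZMod (p * q)) * φ = -(g1 : ZMod (p * q)) := by
    rw [hky]
    push_cast
    ring
  obtain ⟨hpk, hgap⟩ := gap φ hk0 hk hm0 hmp (by omega) hg20 hup hmφ hkφ hno
  have hg1q : g1 ≠ q := by
    intro h
    apply ap_ndvd hAP hG hk0 hk hky
    rw [h]
    exact ⟨-1, by ring⟩
  have hg2q : g2 < q := by
    by_contra h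
    have h1 : k * q ≤ k * g2 := Nat.mul_le_mul_left k (by omega)
    have h2 : m * (q + 1) ≤ m * g1 := Nat.mul_le_mul_left m (by omega)
    have h3 : p * q ≤ (k + m) * q := Nat.mul_le_mul_right q hpk
    nlinarith
  have hkge : p - m ≤ k := by omega
  -- m g1 + (p - m) g2 ≤ p q
  have h4 : ((p : ℤ) - m) * g2 + m * g1 ≤ p * q := by
    have h5 : ((p : ℤ) - m) * g2 ≤ (k : ℤ) * g2 := by
      apply mul_le_mul_of_nonneg_right (by omega) (by omega)
    have h6 : ((k * g2 + m * g1 : ℕ) : ℤ) ≤ ((p * q : ℕ) : ℤ) := by exact_mod_cast hgap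
    push_cast at h6
    linarith
  refine ⟨m, g2, hm0, hmp, hmk, hmφ, hg20, hg2q, hlow, ?_, ?_⟩
  · intro ha3
    by_contra h
    have h7 : (p : ℤ) ≤ 3 * m := by omega
    have h8 : (3 : ℤ) * q ≤ g1 + g2 := by
      have : 3 * q ≤ a * q := Nat.mul_le_mul_right q ha3
      omega
    -- m (3 q - g2) ≤ p q - (p - m) g2
    have h9 : (m : ℤ) * (3 * q - g2) ≤ m * g1 := by
      apply mul_le_mul_of_nonneg_left (by omega) (by omega)
    have h10 : (m : ℤ) * (3 * q - 2 * g2) ≤ p * (q - g2) := by
      have e1 : (m : ℤ) * (3 * q - 2 * g2) = m * (3 * q - g2) - m * g2 := by ring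
      have e2 : ((p : ℤ) - m) * g2 = p * g2 - m * g2 := by ring
      have e3 : (p : ℤ) * (q - g2) = p * q - p * g2 := by ring
      linarith
    have h11 : (p : ℤ) * (3 * q - 2 * g2) ≤ 3 * m * (3 * q - 2 * g2) := by
      apply mul_le_mul_of_nonneg_right h7 (by omega)
    have h12 : (0 : ℤ) < p * g2 := by
      apply mul_pos <;> omega
    have e4 : (p : ℤ) * (3 * q - 2 * g2) = 3 * (p * (q - g2)) + p * g2 := by ring
    have e5 : 3 * (m : ℤ) * (3 * q - 2 * g2) = 3 * (m * (3 * q - 2 * g2)) := by ring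
    linarith
  · by_contra h
    have h7 : (p : ℤ) ≤ 2 * m := by omega
    have h8 : (2 : ℤ) * q ≤ g1 + g2 := by omega
    have h9 : (m : ℤ) * (2 * q - g2) ≤ m * g1 := by
      apply mul_le_mul_of_nonneg_left (by omega) (by omega)
    -- k g2 + m (2 q - g2) ≤ p q ≤ 2 m q
    have h6 : ((k * g2 + m * g1 : ℕ) : ℤ) ≤ ((p * q : ℕ) : ℤ) := by exact_mod_cast hgap
    push_cast at h6
    have h10 : (p : ℤ) * q ≤ 2 * m * q := by
      apply mul_le_mul_of_nonneg_right h7 (by omega)
    have h11 : (k : ℤ) * g2 ≤ m * g2 := by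
      have e1 : (m : ℤ) * (2 * q - g2) = 2 * m * q - m * g2 := by ring
      linarith
    have h12 : (k : ℤ) ≤ m := le_of_mul_le_mul_right h11 (by omega)
    -- 2 m (q - g2) ≤ p (q - g2)
    have h14 : 2 * (m : ℤ) ≤ p := by
      have h15 : (2 * (m : ℤ)) * (q - g2) ≤ p * (q - g2) := by
        have e1 : (m : ℤ) * (2 * q - g2) = 2 * m * q - m * g2 := by ring
        have e2 : ((p : ℤ) - m) * g2 = p * g2 - m * g2 := by ring
        have e3 : (p : ℤ) * (q - g2) = p * q - p * g2 := by ring
        have e4 : (2 * (m : ℤ)) * (q - g2) = 2 * m * q - 2 * (m * g2) := by ring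
        linarith
      exact le_of_mul_le_mul_right h15 (by omega)
    omega

theorem caseB (hP : Par p q a b) (hbp : b.Coprime p) (hG : Gen q z) (hAP : AP q z i0 ρ θ)
    (hF : ∀ X W S, |FF q a b z X W S| ≤ 1)
    {k : ℕ} {x y : ℤ} (hK : KK p q a b θ (θ + e p q ρ) k x y) (hy : y < 0)
    (hyq : (q : ℤ) ≤ |y|) (hS : Strip p q a (θ + e p q ρ) k y) :
    ∃ (n : ℕ) (x' y' : ℤ), KK p q a b θ (θ + e p q ρ) n x' y' ∧ 0 < y' ∧
      ∃ m g2 : ℕ, 0 < m ∧ m < p ∧ (m : ZMod (p * q)) * (θ + e p q ρ) = (g2 : ZMod (p * q)) ∧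
        0 < g2 ∧ g2 < q := by
  classical
  obtain ⟨hk0, hk, hkx, hky, hxb, hya⟩ := hK
  obtain ⟨haq, hbq, habq, h2a, h2b⟩ := lt_mul_of hP
  have ha2 := hP.ha
  have hb2 := hP.hb
  have hab := hP.hab
  have hq1 := hP.hq
  rw [abs_lt] at hxb hya
  have hhaq : ((a * q : ℕ) : ℤ) = (a : ℤ) * q := by push_cast; ring
  have hhbq : ((b * q : ℕ) : ℤ) = (b : ℤ) * q := by push_cast; ring
  have hhpq : ((p * q : ℕ) : ℤ) = (p : ℤ) * q := by push_cast; ring
  obtain ⟨g1, hg1⟩ : ∃ g1 : ℕ, (g1 : ℤ) = -y := ⟨(-y).toNat, Int.toNat_of_nonneg (by omega)⟩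
  have hyg : y = -(g1 : ℤ) := by omega
  rw [hyg] at hky hS hyq
  rw [abs_neg, Nat.abs_cast] at hyq
  obtain ⟨m, g2, hm0, hmp, hmk, hmφ, hg20, hg2q, hlow, h3m, h2m⟩ :=
    next_above hP hG hAP hk0 hk hky (by omega) (by omega) hS
  have hmφ' : (m : ZMod (p * q)) * (θ + e p q ρ) = ((g2 : ℤ) : ZMod (p * q)) := by
    rw [hmφ, Int.cast_natCast]
  by_contra hne
  have hneg : ∀ (n : ℕ) (x' y' : ℤ), KK p q a b θ (θ + e p q ρ) n x' y' → ¬ 0 < y' := by
    intro n x' y' h1 h2
    exact hne ⟨n, x', y', h1, h2, m, g2, hm0, hmp, hmφ, hg20, hg2q⟩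
  have hzk := hAP.2 k hk
  have hsk := ap_sc hAP hk
  rw [hkx] at hzk
  rw [hky] at hsk
  set kk := i0 + (k : ZMod p) * ρ with hkk
  -- the column
  obtain ⟨X, hX0, hXk⟩ : ∃ X : ZMod (p * q), off X (z i0) < b * q ∧ off X (z kk) < b * q := by
    rcases le_or_gt 0 x with h | h
    · refine ⟨z i0, by rw [off_self]; omega, ?_⟩
      have h1 : z kk = z i0 + ((x.toNat : ℕ) : ZMod (p * q)) := by
        rw [hzk]
        congr 1
        conv_lhs => rw [← Int.toNat_of_nonneg h]
        rw [Int.cast_natCast]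
      rw [h1, off_nat _ (by omega)]
      omega
    · refine ⟨z kk, ?_, by rw [off_self]; omega⟩
      have h1 : z i0 = z kk + (((-x).toNat : ℕ) : ZMod (p * q)) := by
        rw [hzk]
        have h2 : (((-x).toNat : ℕ) : ZMod (p * q)) = ((-x : ℤ) : ZMod (p * q)) := by
          conv_rhs => rw [← Int.toNat_of_nonneg (show 0 ≤ -x by omega)]
          rw [Int.cast_natCast]
        rw [h2]
        push_cast
        ring
      rw [h1, off_nat _ (by omega)]
      omega
  have hik : sc q z i0 = sc q z kk + (g1 : ZMod (p * q)) := by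
    rw [hsk]
    push_cast
    ring
  have hs : ∀ j, off (sc q z kk) (sc q z j) ≤ g1 → j = i0 ∨ j = kk := by
    intro j hj
    obtain ⟨n, hn, hjn⟩ := ap_row hAP j
    by_cases hn0 : n = 0
    · left
      rw [hjn, hn0, Nat.cast_zero, zero_mul, add_zero]
    by_cases hnk : n = k
    · right
      rw [hjn, hnk]
    exfalso
    set d := off (sc q z kk) (sc q z j) with hd
    have h1 : sc q z j = sc q z kk + (d : ZMod (p * q)) := (off_spec _ _).symm
    have h2 : (n : ZMod (p * q)) * (θ + e p q ρ) = ((-(g1 : ℤ) + d : ℤ) : ZMod (p * q)) := by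
      have h3 := ap_sc hAP hn
      rw [← hjn, h1, hsk] at h3
      push_cast at h3 ⊢
      linear_combination -h3
    rcases Nat.eq_zero_or_pos d with h4 | h4
    · apply ap_ndvd_sub hAP hG hn hk hnk h2 hky
      rw [h4]
      exact ⟨0, by push_cast; ring⟩
    · exact (hS n (by omega) hn hnk _ h2).1 (by omega) ⟨by omega, by omega⟩
  have hcol := colup hP z hF i0 kk X g1 (by omega) (by omega) hik hX0 hXk hs
  -- no box at the outer point
  have hNN : NN q a b z X (sc q z i0 + a * q + 1) = 0 := by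
    unfold NN
    apply Finset.sum_eq_zero
    intro j _
    rw [if_neg]
    rintro ⟨hj1, hj2⟩
    obtain ⟨n, hn, hjn⟩ := ap_row hAP j
    set v := off (sc q z j + 1) (sc q z i0 + (a : ZMod (p * q)) * (q : ZMod (p * q)) + 1) with hv
    have h1 : sc q z j + 1 + (v : ZMod (p * q)) = sc q z i0 + a * q + 1 := off_spec _ _
    have h2 : (n : ZMod (p * q)) * (θ + e p q ρ) = ((a * q - v : ℤ) : ZMod (p * q)) := by
      have h3 := ap_sc hAP hn
      rw [← hjn] at h3
      push_cast
      linear_combination -h3 + h1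
    rcases Nat.eq_zero_or_pos n with hn0 | hn0
    · rw [hn0, Nat.cast_zero, zero_mul] at h2
      have h3 := int_zero h2.symm (by omega) (by omega)
      omega
    have hv0 : 0 < v := by
      rcases Nat.eq_zero_or_pos v with h | h
      · exfalso
        apply ap_ndvd hAP hG hn0 hn h2
        rw [h]
        exact ⟨a, by push_cast; ring⟩
      · exact h
    set t := off X (z j) with ht
    set u := off X (z i0) with hu
    have h4 : z j = X + (t : ZMod (p * q)) := (off_spec _ _).symm
    have h5 : z i0 = X + (u : ZMod (p * q)) := (off_spec _ _).symm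
    have h6 : (n : ZMod (p * q)) * θ = ((t - u : ℤ) : ZMod (p * q)) := by
      have h7 := hAP.2 n hn
      rw [← hjn, h4, h5] at h7
      push_cast
      linear_combination -h7
    refine hneg n _ _ ⟨hn0, hn, h6, h2, ?_, ?_⟩ (by omega)
    · rw [abs_lt]; constructor <;> omega
    · rw [abs_lt]; constructor <;> omega
  -- rows of the multiples of m
  have hrow : ∀ c : ℕ, 0 < c → c * m < p → c * g2 ≤ a * q →
      off (sc q z kk + (a : ZMod (p * q)) * (q : ZMod (p * q)))
        (sc q z (i0 + ((c * m : ℕ) : ZMod p) * ρ)) ≤ g1 := by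
    intro c hc hcm hcg
    have h1 : g2 ≤ c * g2 := Nat.le_mul_of_pos_left g2 hc
    have h2 : sc q z (i0 + ((c * m : ℕ) : ZMod p) * ρ) =
        sc q z kk + (a : ZMod (p * q)) * (q : ZMod (p * q)) +
          ((c * g2 + g1 - a * q : ℕ) : ZMod (p * q)) := by
      rw [ap_sc hAP hcm, hsk, Nat.cast_sub (by omega)]
      have h3 : ((c * m : ℕ) : ZMod (p * q)) * (θ + e p q ρ) = (c : ZMod (p * q)) * g2 := by
        rw [← hmφ]
        push_cast
        ring
      rw [h3]
      push_cast
      ring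
    rw [h2, off_nat _ (by omega)]
    omega
  have hcast : ∀ W : ZMod p, ∀ J : Finset (ZMod p),
      (∀ j ∈ J, off (sc q z kk + (a : ZMod (p * q)) * (q : ZMod (p * q))) (sc q z j) ≤ g1) →
      ∑ j ∈ J, (if aB b W j then (1 : ℤ) else 0) ≤
        (if aT a b W kk then 1 else 0) + (if aT a b W i0 then 1 else 0) := by
    intro W J hJ
    have h1 := hcol W
    rw [hNN, zero_add] at h1
    refine le_trans ?_ h1
    calc ∑ j ∈ J, (if aB b W j then (1 : ℤ) else 0)
        = ∑ j ∈ J, (if aB b W j ∧ off (sc q z kk + (a : ZMod (p * q)) * (q : ZMod (p * q)))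
            (sc q z j) ≤ g1 then (1 : ℤ) else 0) := by
          apply Finset.sum_congr rfl
          intro j hj
          have h2 := hJ j hj
          by_cases h3 : aB b W j
          · rw [if_pos h3, if_pos ⟨h3, h2⟩]
          · rw [if_neg h3, if_neg (fun h => h3 h.1)]
      _ ≤ _ := by
          apply Finset.sum_le_sum_of_subset_of_nonneg (Finset.subset_univ _)
          intro j _ _
          split_ifs <;> norm_num
  have hsumR : ∑ W : ZMod p, ((if aT a b W kk then (1 : ℤ) else 0) +
      (if aT a b W i0 then 1 else 0)) = 2 * b := by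
    rw [Finset.sum_add_distrib, sum_aT (by omega), sum_aT (by omega)]
    ring
  have hsumL : ∀ J : Finset (ZMod p), ∑ W : ZMod p, ∑ j ∈ J, (if aB b W j then (1 : ℤ) else 0) =
      J.card * b := by
    intro J
    rw [Finset.sum_comm, Finset.sum_congr rfl (fun j _ => sum_aB (by omega) j),
      Finset.sum_const, nsmul_eq_mul]
  rcases Nat.lt_or_ge 2 a with ha3 | ha3
  · -- three clusters
    have h3 := h3m (by omega)
    have h3q : 3 * q ≤ a * q := Nat.mul_le_mul_right q ha3
    have hne1 : ∀ c d : ℕ, c * m < p → d * m < p → c ≠ d →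
        i0 + ((c * m : ℕ) : ZMod p) * ρ ≠ i0 + ((d * m : ℕ) : ZMod p) * ρ := by
      intro c d hc hd hcd
      apply ap_ne hAP hc hd
      intro h
      exact hcd (Nat.eq_of_mul_eq_mul_right (by omega) h)
    set J : Finset (ZMod p) := {i0 + ((1 * m : ℕ) : ZMod p) * ρ, i0 + ((2 * m : ℕ) : ZMod p) * ρ,
      i0 + ((3 * m : ℕ) : ZMod p) * ρ} with hJ
    have hcard : J.card = 3 := by
      rw [hJ, Finset.card_eq_three]
      exact ⟨_, _, _, hne1 1 2 (by omega) (by omega) (by omega),
        hne1 1 3 (by omega) (by omega) (by omega), hne1 2 3 (by omega) (by omega) (by omega), rfl⟩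
    have hJr : ∀ j ∈ J, off (sc q z kk + (a : ZMod (p * q)) * (q : ZMod (p * q))) (sc q z j) ≤ g1 := by
      intro j hj
      rw [hJ, Finset.mem_insert, Finset.mem_insert, Finset.mem_singleton] at hj
      rcases hj with h | h | h
      · rw [h]; exact hrow 1 (by omega) (by omega) (by omega)
      · rw [h]; exact hrow 2 (by omega) (by omega) (by omega)
      · rw [h]; exact hrow 3 (by omega) (by omega) (by omega)
    have h4 := Finset.sum_le_sum (fun (W : ZMod p) (_ : W ∈ Finset.univ) => hcast W J hJr)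
    rw [hsumL, hsumR, hcard] at h4
    push_cast at h4
    omega
  · -- two clusters, equality
    have ha : a = 2 := by omega
    have hga' : (g1 : ℤ) < ((a * q : ℕ) : ℤ) := by omega
    have hlow' : ((a * q : ℕ) : ℤ) ≤ g1 + g2 := by exact_mod_cast hlow
    have hne1 : i0 + ((1 * m : ℕ) : ZMod p) * ρ ≠ i0 + ((2 * m : ℕ) : ZMod p) * ρ :=
      ap_ne hAP (by omega) (by omega) (by omega)
    set J : Finset (ZMod p) := {i0 + ((1 * m : ℕ) : ZMod p) * ρ,
      i0 + ((2 * m : ℕ) : ZMod p) * ρ} with hJ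
    have hcard : J.card = 2 := Finset.card_pair hne1
    have hJr : ∀ j ∈ J, off (sc q z kk + (a : ZMod (p * q)) * (q : ZMod (p * q))) (sc q z j) ≤ g1 := by
      intro j hj
      rw [hJ, Finset.mem_insert, Finset.mem_singleton] at hj
      rcases hj with h | h
      · rw [h]; exact hrow 1 (by omega) (by omega) (by omega)
      · rw [h]; exact hrow 2 (by omega) (by omega) (by omega)
    have h4 : ∑ W : ZMod p, (((if aT a b W kk then (1 : ℤ) else 0) +
        (if aT a b W i0 then 1 else 0)) - ∑ j ∈ J, (if aB b W j then (1 : ℤ) else 0)) = 0 := by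
      rw [Finset.sum_sub_distrib, hsumL, hsumR, hcard]
      push_cast
      ring
    have h5 := (Finset.sum_eq_zero_iff_of_nonneg (fun (W : ZMod p) _ =>
      sub_nonneg.2 (hcast W J hJr))).1 h4
    have h6 : ∀ W : ZMod p,
        (if aB b W (i0 + ((1 * m : ℕ) : ZMod p) * ρ) then (1 : ℤ) else 0) +
        (if aB b W (i0 + ((2 * m : ℕ) : ZMod p) * ρ) then 1 else 0) =
        (if aB b W (kk + (a : ZMod p)) then 1 else 0) +
        (if aB b W (i0 + (a : ZMod p)) then 1 else 0) := by
      intro W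
      have h7 := h5 W (Finset.mem_univ _)
      rw [hJ, Finset.sum_pair hne1] at h7
      have h8 : (if aT a b W kk then (1 : ℤ) else 0) =
          (if aB b W (kk + (a : ZMod p)) then (1 : ℤ) else 0) := if_congr (aT_iff a b W kk) rfl rfl
      have h9 : (if aT a b W i0 then (1 : ℤ) else 0) =
          (if aB b W (i0 + (a : ZMod p)) then (1 : ℤ) else 0) := if_congr (aT_iff a b W i0) rfl rfl
      rw [h8, h9] at h7
      linarith
    have hmθ : ∀ r : ZMod p, i0 + ((1 * m : ℕ) : ZMod p) * ρ = r →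
        (m : ZMod (p * q)) * θ = (g2 : ZMod (p * q)) - e p q (r - i0) := by
      intro r hr
      have h7 : (m : ZMod p) * ρ = r - i0 := by
        rw [← hr, one_mul]
        ring
      rw [← h7, e_mul, ← hmφ]
      ring
    rcases arc_eq (by omega) (by omega) hbp _ _ _ _ h6 with h7 | h7
    · -- the row of m is the row of k plus 2
      have h8 := hmθ _ h7
      have h9 : e p q (kk + (a : ZMod p) - i0) = ((-(g1 : ℤ) - x + a * q : ℤ) : ZMod (p * q)) := by
        have h10 : kk + (a : ZMod p) - i0 = (k : ZMod p) * ρ + (a : ZMod p) := by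
          rw [hkk]
          ring
        rw [h10, e_add, e_ab, e_mul]
        have h11 : (k : ZMod (p * q)) * e p q ρ =
            (k : ZMod (p * q)) * (θ + e p q ρ) - (k : ZMod (p * q)) * θ := by ring
        rw [h11, hkx, hky]
        push_cast
        ring
      have hdvd : (q : ℤ) ∣ x + g1 := by
        have h10 := e_val p q hq1 (kk + (a : ZMod p) - i0)
        have h11 : ((q * (kk + (a : ZMod p) - i0).val : ℕ) : ZMod (p * q)) =
            ((-(g1 : ℤ) - x + a * q : ℤ) : ZMod (p * q)) := by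
          rw [← h9, ← h10, ZMod.natCast_zmod_val]
        have h12 : ((q * ((kk + (a : ZMod p) - i0).val : ℤ) - (-(g1 : ℤ) - x + a * q) : ℤ) :
            ZMod (p * q)) = 0 := by
          rw [Int.cast_sub, ← h11]
          push_cast
          ring
        have h13 := (ZMod.intCast_zmod_eq_zero_iff_dvd _ (p * q)).1 h12
        have h14 : (q : ℤ) ∣ ((p * q : ℕ) : ℤ) := ⟨p, by push_cast; ring⟩
        have h15 := h14.trans h13
        have h16 : x + (g1 : ℤ) = (q * ((kk + (a : ZMod p) - i0).val : ℤ) -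
            (-(g1 : ℤ) - x + a * q)) - q * ((kk + (a : ZMod p) - i0).val - a) := by ring
        rw [h16]
        exact dvd_sub h15 ⟨_, rfl⟩
      obtain ⟨c, hc⟩ := hdvd
      have hb1 : x + g1 - 2 * q ≤ b * q - q := by
        have h10 : (q : ℤ) * (c - 2) < q * b := by
          have e1 : (q : ℤ) * (c - 2) = q * c - 2 * q := by ring
          have e2 : (q : ℤ) * b = b * q := by ring
          rw [e1, e2, ← hc]
          rw [ha] at hga'
          push_cast at hga'
          linarith
        have h11 : c - 2 < b := lt_of_mul_lt_mul_left h10 (by omega)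
        have h12 : (c - 2) * (q : ℤ) ≤ (b - 1) * q := by
          apply mul_le_mul_of_nonneg_right (by omega) (by omega)
        have e1 : (c - 2) * (q : ℤ) = q * c - 2 * q := by ring
        have e2 : ((b : ℤ) - 1) * q = b * q - q := by ring
        linarith
      rw [ha] at h9
      have h17 : (m : ZMod (p * q)) * θ = ((x + g1 + g2 - 2 * q : ℤ) : ZMod (p * q)) := by
        rw [h8, ha, h9]
        push_cast
        ring
      refine hneg m _ _ ⟨hm0, hmp, h17, hmφ', ?_, ?_⟩ (by omega)
      · rw [abs_lt]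
        rw [ha] at hlow' hga'
        push_cast at hlow' hga'
        constructor
        · linarith [hxb.1]
        · have h18 : (g2 : ℤ) < q := by exact_mod_cast hg2q
          linarith
      · rw [abs_lt]
        constructor
        · have : (0 : ℤ) ≤ a * q := by positivity
          omega
        · omega
    · have h8 := hmθ _ h7
      have h9 : i0 + (a : ZMod p) - i0 = (a : ZMod p) := by ring
      rw [h9, e_ab] at h8
      have h17 : (m : ZMod (p * q)) * θ = ((g2 - 2 * q : ℤ) : ZMod (p * q)) := by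
        rw [h8, ha]
        push_cast
        ring
      refine hneg m _ _ ⟨hm0, hmp, h17, hmφ', ?_, ?_⟩ (by omega)
      · rw [abs_lt]
        constructor <;> omega
      · rw [abs_lt]
        constructor
        · have : (0 : ℤ) ≤ a * q := by positivity
          omega
        · omega

end

end Helper55.KE
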