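import Pool.Agent.Helper55.KE.Def
import Pool.Agent.Helper11.N1.M_DEC
import Pool.Agent.Helper11.N1.M_LDX

set_option autoImplicit false

/-!
# Column inequality

Two boxes `i`, `k` with `sc i = sc k + g1`, `0 < g1 < a q`, no other cluster between `sc k` and
`sc i`.  Going up from the top of the common part to just above the box `i` the triangle count
changes by at least `-2`.
-/

namespace Helper55.KE

open Helper11.N1

section

variable {p q a b : ℕ} [NeZero p] [NeZero q]

theorem one_lt_mul (hP : Par p q a b) : 1 < p * q := by
  have h1 := hP.ha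
  have h2 := hP.hb
  have h3 := hP.hab
  have h4 := hP.hq
  calc 1 < p * 1 := by omega
    _ ≤ p * q := Nat.mul_le_mul_left p h4

theorem off_eq_iff {M : ℕ} [NeZero M] (x y : ZMod M) {n : ℕ} (hn : n < M) :
    off x y = n ↔ y = x + (n : ZMod M) := by
  constructor
  · intro h
    rw [← h, off_spec]
  · intro h
    rw [h, off_nat x hn]

/-- the change of `rhoS` along an arc -/
theorem rho_arc (hM : 1 < p * q) (z : ZMod p → ZMod (p * q)) (W : ZMod p) (S : ZMod (p * q))
    (n : ℕ) (hn : n ≤ p * q) : open Classical in
    rhoS q a b z W (S + (n : ZMod (p * q))) - rhoS q a b z W S =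
      ∑ j : ZMod p, ((if aT a b W j ∧ off S (sc q z j + a * q) < n then (1 : ℤ) else 0) -
        (if aB b W j ∧ off S (sc q z j) < n then 1 else 0)) := by
  classical
  induction n with
  | zero => simp
  | succ n ih =>
    have ih' := ih (by omega)
    have h1 := LDXaux.rj (a := a) (b := b) hM z W (S + (n : ZMod (p * q)))
    have h2 : S + ((n + 1 : ℕ) : ZMod (p * q)) = S + (n : ZMod (p * q)) + 1 := by
      push_cast
      ring
    rw [h2]
    have h3 : rhoS q a b z W (S + (n : ZMod (p * q)) + 1) - rhoS q a b z W S =
        (rhoS q a b z W (S + (n : ZMod (p * q)) + 1) -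
          rhoS q a b z W (S + (n : ZMod (p * q)))) +
        (rhoS q a b z W (S + (n : ZMod (p * q))) - rhoS q a b z W S) := by ring
    rw [h3, h1, ih', ← Finset.sum_sub_distrib, ← Finset.sum_add_distrib]
    apply Finset.sum_congr rfl
    intro j _
    have key : ∀ (P : Prop) (x : ZMod (p * q)),
        (if P ∧ off S x < n + 1 then (1 : ℤ) else 0) =
          (if P ∧ x = S + (n : ZMod (p * q)) then (1 : ℤ) else 0) +
          (if P ∧ off S x < n then (1 : ℤ) else 0) := by
      intro P x
      have h4 := off_eq_iff S x (n := n) (by omega)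
      by_cases hP : P
      · by_cases h5 : off S x = n
        · have h6 := h4.1 h5
          have h7 : off S x < n + 1 := by omega
          have h8 : ¬ off S x < n := by omega
          rw [if_pos ⟨hP, h7⟩, if_pos ⟨hP, h6⟩, if_neg (fun h => h8 h.2)]
          norm_num
        · have h6 : ¬ (x = S + (n : ZMod (p * q))) := fun h => h5 (h4.2 h)
          have h7 : (off S x < n + 1) ↔ (off S x < n) := by omega
          rw [if_neg (fun h : P ∧ x = S + (n : ZMod (p * q)) => h6 h.2), zero_add]
          exact if_congr (and_congr Iff.rfl h7) rfl rfl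
      · rw [if_neg (fun h => hP h.1), if_neg (fun h => hP h.1), if_neg (fun h => hP h.1)]
        norm_num
    rw [key, key]
    ring

/-- the column inequality -/
theorem colup (hP : Par p q a b) (z : ZMod p → ZMod (p * q))
    (hF : ∀ X W S, |FF q a b z X W S| ≤ 1) (i k : ZMod p) (X : ZMod (p * q)) (g1 : ℕ)
    (hg : 0 < g1) (hga : g1 < a * q) (hik : sc q z i = sc q z k + (g1 : ZMod (p * q)))
    (hXi : off X (z i) < b * q) (hXk : off X (z k) < b * q)
    (hs : ∀ j, off (sc q z k) (sc q z j) ≤ g1 → j = i ∨ j = k) (W : ZMod p) :
    open Classical in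
    ∑ j : ZMod p, (if aB b W j ∧ off (sc q z k + (a : ZMod (p * q)) * (q : ZMod (p * q))) (sc q z j) ≤ g1 then (1 : ℤ) else 0) ≤
      NN q a b z X (sc q z i + a * q + 1) + (if aT a b W k then 1 else 0) +
        (if aT a b W i then 1 else 0) := by
  classical
  have hM := one_lt_mul hP
  have hab := hP.hab
  have ha2 := hP.ha
  have hq := hP.hq
  have haq : a * q < p * q := Nat.mul_lt_mul_of_pos_right (by omega) (by omega)
  have hki : k ≠ i := by
    rintro rfl
    have h1 : off (sc q z k) (sc q z k) = g1 := by
      rw [off_eq_iff _ _ (by omega)]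
      exact hik
    rw [off_self] at h1
    omega
  have e1 : sc q z k + a * q + ((g1 + 1 : ℕ) : ZMod (p * q)) = sc q z i + a * q + 1 := by
    rw [hik]
    push_cast
    ring
  have h1 := rho_arc (a := a) (b := b) hM z W (sc q z k + a * q) (g1 + 1) (by omega)
  rw [e1, Finset.sum_sub_distrib] at h1
  have h2 := hF X W (sc q z k + a * q)
  have h3 := hF X W (sc q z i + a * q + 1)
  rw [dec p q a b hP z X W] at h2 h3
  rw [abs_le] at h2 h3
  -- both boxes contain the lower point
  have hNN : (2 : ℤ) ≤ NN q a b z X (sc q z k + a * q) := by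
    have hbi : box q a b z i X (sc q z k + a * q) := by
      refine ⟨hXi, ?_⟩
      have : off (sc q z i + 1) (sc q z k + (a : ZMod (p * q)) * (q : ZMod (p * q))) = a * q - g1 - 1 := by
        rw [off_eq_iff _ _ (by omega), hik]
        have h5 : a * q - g1 - 1 = a * q - (g1 + 1) := by omega
        rw [h5, Nat.cast_sub (by omega)]
        push_cast
        ring
      omega
    have hbk : box q a b z k X (sc q z k + a * q) := by
      refine ⟨hXk, ?_⟩
      have : off (sc q z k + 1) (sc q z k + (a : ZMod (p * q)) * (q : ZMod (p * q))) = a * q - 1 := by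
        rw [off_eq_iff _ _ (by omega), Nat.cast_sub (by omega)]
        push_cast
        ring
      omega
    unfold NN
    calc (2 : ℤ) = ∑ j ∈ ({k, i} : Finset (ZMod p)),
          (if box q a b z j X (sc q z k + a * q) then (1 : ℤ) else 0) := by
          rw [Finset.sum_pair hki, if_pos hbi, if_pos hbk]
          norm_num
      _ ≤ _ := by
          apply Finset.sum_le_sum_of_subset_of_nonneg (Finset.subset_univ _)
          intro j _ _
          split_ifs <;> norm_num
  have hT : ∑ j : ZMod p, (if aT a b W j ∧ off (sc q z k + (a : ZMod (p * q)) * (q : ZMod (p * q))) (sc q z j + (a : ZMod (p * q)) * (q : ZMod (p * q))) < g1 + 1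
      then (1 : ℤ) else 0) ≤ (if aT a b W k then 1 else 0) + (if aT a b W i then 1 else 0) := by
    calc _ ≤ ∑ j : ZMod p, ((if j = k then (if aT a b W k then (1 : ℤ) else 0) else 0) +
          (if j = i then (if aT a b W i then (1 : ℤ) else 0) else 0)) := by
          apply Finset.sum_le_sum
          intro j _
          rw [off_translate]
          by_cases h5 : aT a b W j ∧ off (sc q z k) (sc q z j) < g1 + 1
          · rw [if_pos h5]
            rcases hs j (by omega) with h6 | h6
            · subst h6
              rw [if_neg (fun h => hki h.symm), if_pos rfl, if_pos h5.1]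
              norm_num
            · subst h6
              rw [if_pos rfl, if_neg hki, if_pos h5.1]
              norm_num
          · rw [if_neg h5]
            split_ifs <;> norm_num
      _ = _ := by
          rw [Finset.sum_add_distrib, Finset.sum_ite_eq' Finset.univ k,
            Finset.sum_ite_eq' Finset.univ i, if_pos (Finset.mem_univ _),
            if_pos (Finset.mem_univ _)]
  have hB : ∑ j : ZMod p, (if aB b W j ∧ off (sc q z k + (a : ZMod (p * q)) * (q : ZMod (p * q))) (sc q z j) < g1 + 1
      then (1 : ℤ) else 0) =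
      ∑ j : ZMod p, (if aB b W j ∧ off (sc q z k + (a : ZMod (p * q)) * (q : ZMod (p * q))) (sc q z j) ≤ g1 then (1 : ℤ) else 0) := by
    apply Finset.sum_congr rfl
    intro j _
    have : (off (sc q z k + (a : ZMod (p * q)) * (q : ZMod (p * q))) (sc q z j) < g1 + 1) ↔
        (off (sc q z k + (a : ZMod (p * q)) * (q : ZMod (p * q))) (sc q z j) ≤ g1) := Nat.lt_succ_iff
    exact if_congr (and_congr Iff.rfl this) rfl rfl
  rw [hB] at h1
  linarith [h2.2, h3.1]

end

end Helper55.KE
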