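import Mathlib

set_option autoImplicit false

/-!
# Three gap inequality

`m φ = g2` is the first point above `0` and `k φ = - g1` the first point below `0` among the
points `n φ`, `0 < n < p`, of the circle `ZMod M`.  Then `p ≤ k + m` and `k g2 + m g1 ≤ M`.
-/

namespace Helper55.KE

section

variable {M : ℕ} [NeZero M] (φ : ZMod M) {p k m g1 g2 : ℕ}

theorem gap_sum (hk : k < p) (hm0 : 0 < m) (hm : m < p) (hpkm : p ≤ k + m) :
    ∑ j ∈ Finset.range p, ((if j < k then g2 else 0) + (if p - m ≤ j then g1 else 0)) =
      k * g2 + m * g1 := by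
  rw [Finset.sum_add_distrib]
  congr 1
  · rw [← Finset.sum_filter, Finset.sum_const, smul_eq_mul]
    congr 1
    have : (Finset.range p).filter (fun j => j < k) = Finset.range k := by
      ext j
      simp only [Finset.mem_filter, Finset.mem_range]
      omega
    rw [this, Finset.card_range]
  · rw [← Finset.sum_filter, Finset.sum_const, smul_eq_mul]
    congr 1
    have : (Finset.range p).filter (fun j => p - m ≤ j) = Finset.Ico (p - m) p := by
      ext j
      simp only [Finset.mem_filter, Finset.mem_range, Finset.mem_Ico]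
      omega
    rw [this, Nat.card_Ico]
    omega

/-- the arcs above the points are disjoint -/
theorem gap_key (hk0 : 0 < k) (hk : k < p) (hm0 : 0 < m) (hm : m < p)
    (hg1 : 0 < g1) (hg2 : 0 < g2) (hpkm : p ≤ k + m)
    (hmφ : (m : ZMod M) * φ = (g2 : ZMod M)) (hkφ : (k : ZMod M) * φ = -(g1 : ZMod M))
    (hno : ∀ n : ℕ, 0 < n → n < p → ∀ t : ℤ, (n : ZMod M) * φ = (t : ZMod M) →
      -(g1 : ℤ) < t → t < g2 → False)
    (i j d : ℕ) (hi : i < p) (hj : j < p)
    (hij : (i : ZMod M) * φ = (j : ZMod M) * φ + (d : ZMod M))
    (hd : d < (if j < k then g2 else 0) + (if p - m ≤ j then g1 else 0)) : i = j := by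
  by_contra hne
  rcases Nat.lt_or_gt_of_ne hne with h | h
  · -- i < j
    have h1 : ((j - i : ℕ) : ZMod M) * φ = ((-(d : ℤ) : ℤ) : ZMod M) := by
      rw [Nat.cast_sub h.le, sub_mul, hij]
      push_cast
      ring
    have h2 : (g1 : ℤ) ≤ d := by
      by_contra h3
      exact hno (j - i) (by omega) (by omega) _ h1 (by omega) (by omega)
    by_cases hjk : j < k
    · by_cases hjm : p - m ≤ j
      · rw [if_pos hjk, if_pos hjm] at hd
        have h4 : ((k - (j - i) : ℕ) : ZMod M) * φ = ((-(g1 : ℤ) + d : ℤ) : ZMod M) := by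
          rw [Nat.cast_sub (by omega), sub_mul, h1, hkφ]
          push_cast
          ring
        exact hno (k - (j - i)) (by omega) (by omega) _ h4 (by omega) (by omega)
      · rw [if_pos hjk, if_neg hjm] at hd
        have h4 : ((m + (j - i) : ℕ) : ZMod M) * φ = ((g2 - d : ℤ) : ZMod M) := by
          rw [Nat.cast_add, add_mul, h1, hmφ]
          push_cast
          ring
        exact hno (m + (j - i)) (by omega) (by omega) _ h4 (by omega) (by omega)
    · rw [if_neg hjk, if_pos (by omega)] at hd
      omega
  · -- j < i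
    have h1 : ((i - j : ℕ) : ZMod M) * φ = ((d : ℤ) : ZMod M) := by
      rw [Nat.cast_sub h.le, sub_mul, hij]
      push_cast
      ring
    have h2 : (g2 : ℤ) ≤ d := by
      by_contra h3
      exact hno (i - j) (by omega) (by omega) _ h1 (by omega) (by omega)
    by_cases hjk : j < k
    · by_cases hjm : p - m ≤ j
      · rw [if_pos hjk, if_pos hjm] at hd
        have h4 : ((m - (i - j) : ℕ) : ZMod M) * φ = ((g2 - d : ℤ) : ZMod M) := by
          rw [Nat.cast_sub (by omega), sub_mul, h1, hmφ]
          push_cast
          ring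
        exact hno (m - (i - j)) (by omega) (by omega) _ h4 (by omega) (by omega)
      · rw [if_pos hjk, if_neg hjm] at hd
        omega
    · rw [if_neg hjk, if_pos (by omega)] at hd
      have h4 : ((i - j + k : ℕ) : ZMod M) * φ = ((d - g1 : ℤ) : ZMod M) := by
        rw [Nat.cast_add, add_mul, h1, hkφ]
        push_cast
        ring
      exact hno (i - j + k) (by omega) (by omega) _ h4 (by omega) (by omega)

/-- the three gap inequality -/
theorem gap (hk0 : 0 < k) (hk : k < p) (hm0 : 0 < m) (hm : m < p)
    (hg1 : 0 < g1) (hg2 : 0 < g2) (hM : g1 + g2 ≤ M)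
    (hmφ : (m : ZMod M) * φ = (g2 : ZMod M)) (hkφ : (k : ZMod M) * φ = -(g1 : ZMod M))
    (hno : ∀ n : ℕ, 0 < n → n < p → ∀ t : ℤ, (n : ZMod M) * φ = (t : ZMod M) →
      -(g1 : ℤ) < t → t < g2 → False) :
    p ≤ k + m ∧ k * g2 + m * g1 ≤ M := by
  have hpkm : p ≤ k + m := by
    by_contra h
    have h4 : ((k + m : ℕ) : ZMod M) * φ = ((g2 - g1 : ℤ) : ZMod M) := by
      rw [Nat.cast_add, add_mul, hkφ, hmφ]
      push_cast
      ring
    exact hno (k + m) (by omega) (by omega) _ h4 (by omega) (by omega)
  refine ⟨hpkm, ?_⟩
  rw [← gap_sum (g1 := g1) (g2 := g2) hk hm0 hm hpkm]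
  have hkey := gap_key φ hk0 hk hm0 hm hg1 hg2 hpkm hmφ hkφ hno
  have hlt : ∀ j : ℕ, (if j < k then g2 else 0) + (if p - m ≤ j then g1 else 0) ≤ M := by
    intro j
    split_ifs <;> omega
  calc ∑ j ∈ Finset.range p, ((if j < k then g2 else 0) + (if p - m ≤ j then g1 else 0))
      = ((Finset.range p).sigma fun j =>
          Finset.range ((if j < k then g2 else 0) + (if p - m ≤ j then g1 else 0))).card := by
        rw [Finset.card_sigma]
        simp only [Finset.card_range]
    _ ≤ (Finset.univ : Finset (ZMod M)).card := by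
        apply Finset.card_le_card_of_injOn
          (fun x => (x.1 : ZMod M) * φ + (x.2 : ZMod M))
        · intro x _
          exact Finset.mem_coe.2 (Finset.mem_univ _)
        · rintro ⟨j, t⟩ hx ⟨i, t'⟩ hy hxy
          simp only [Finset.coe_sigma, Set.mem_sigma_iff, Finset.mem_coe, Finset.mem_range]
            at hx hy hxy
          obtain ⟨hj, ht⟩ := hx
          obtain ⟨hi, ht'⟩ := hy
          have hji : i = j := by
            rcases le_total t' t with h | h
            · refine hkey i j (t - t') hi hj ?_ (by omega)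
              rw [Nat.cast_sub h]
              linear_combination -hxy
            · refine (hkey j i (t' - t) hj hi ?_ (by omega)).symm
              rw [Nat.cast_sub h]
              linear_combination hxy
          subst hji
          have h5 : (t : ZMod M) = (t' : ZMod M) := add_left_cancel hxy
          have h6 : t = t' := by
            have h7 := (ZMod.natCast_eq_natCast_iff t t' M).1 h5
            have h8 := hlt i
            exact Nat.ModEq.eq_of_lt_of_lt h7 (by omega) (by omega)
          rw [h6]
    _ = M := by rw [Finset.card_univ, ZMod.card]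

end

end Helper55.KE
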