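import Pool.Agent.Helper55.KE.AP
import Pool.Agent.Helper55.KE.Gap
import Pool.Agent.Helper55.KE.Col

set_option autoImplicit false
set_option linter.unusedSectionVars false

/-!
# The corner triangle

A corner overlap (both differences negative, equal distance to the lower left corner) is
impossible: the up triangle at the lower left corner of the box contains two negative points.
-/

namespace Helper55.KE

open Helper11.N1

section

variable {p q a b : ℕ} [NeZero p] [NeZero q] {z : ZMod p → ZMod (p * q)} {i0 ρ : ZMod p}
  {θ : ZMod (p * q)}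

theorem lt_mul_of (hP : Par p q a b) : a * q < p * q ∧ b * q < p * q ∧ a * q + b * q + q ≤ p * q ∧
    2 * q ≤ a * q ∧ 2 * q ≤ b * q := by
  have h1 := hP.ha
  have h2 := hP.hb
  have h3 := hP.hab
  have h4 := hP.hq
  refine ⟨Nat.mul_lt_mul_of_pos_right (by omega) (by omega),
    Nat.mul_lt_mul_of_pos_right (by omega) (by omega), ?_, Nat.mul_le_mul_right q h1,
    Nat.mul_le_mul_right q h2⟩
  calc a * q + b * q + q = (a + b + 1) * q := by ring
    _ ≤ p * q := Nat.mul_le_mul_right q (by omega)

theorem e_ab (a : ℕ) : e p q (a : ZMod p) = (a : ZMod (p * q)) * (q : ZMod (p * q)) := by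
  rw [e_natCast]
  push_cast
  ring

/-- an integer congruent to zero and small is zero -/
theorem int_zero {M : ℕ} {t : ℤ} (h : ((t : ℤ) : ZMod M) = 0) (h1 : -(M : ℤ) < t)
    (h2 : t < M) : t = 0 := by
  have h3 := (ZMod.intCast_zmod_eq_zero_iff_dvd t M).1 h
  obtain ⟨c, hc⟩ := h3
  rcases lt_trichotomy c 0 with h4 | h4 | h4
  · nlinarith
  · rw [hc, h4, mul_zero]
  · nlinarith

theorem corner (hP : Par p q a b) (hG : Gen q z) (hAP : AP q z i0 ρ θ)
    (hF : ∀ X W S, |FF q a b z X W S| ≤ 1) (hL : L0 p q a b θ (θ + e p q ρ))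
    {k : ℕ} {x y : ℤ} (hK : KK p q a b θ (θ + e p q ρ) k x y) (hx : x < 0) (hy : y < 0)
    (hxy : x + b * q = y + a * q) : False := by
  classical
  obtain ⟨hk0, hk, hkx, hky, hxb, hya⟩ := hK
  obtain ⟨haq, hbq, habq, h2a, h2b⟩ := lt_mul_of hP
  have ha2 := hP.ha
  have hb2 := hP.hb
  have hab := hP.hab
  have hq1 := hP.hq
  rw [abs_lt] at hxb hya
  obtain ⟨w, hw⟩ : ∃ w : ℕ, (w : ℤ) = x + b * q := ⟨(x + b * q).toNat, by
    rw [Int.toNat_of_nonneg]; linarith [hxb.1]⟩
  have hhaq : ((a * q : ℕ) : ℤ) = (a : ℤ) * q := by push_cast; ring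
  have hhbq : ((b * q : ℕ) : ℤ) = (b : ℤ) * q := by push_cast; ring
  have hhpq : ((p * q : ℕ) : ℤ) = (p : ℤ) * q := by push_cast; ring
  have hw0 : 0 < w := by omega
  have hwb : w < b * q := by omega
  have hwa : w < a * q := by omega
  -- the corner of the triangle
  have hXe : (z i0 - (b : ZMod (p * q)) * (q : ZMod (p * q))) + e p q (i0 + (b : ZMod p)) = sc q z i0 := by
    unfold sc
    rw [e_add, e_ab]
    ring
  have hoff : off ((z i0 - (b : ZMod (p * q)) * (q : ZMod (p * q))) + e p q (i0 + (b : ZMod p)))
      (sc q z i0 + ((w + 1 : ℕ) : ZMod (p * q))) = w + 1 := by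
    rw [hXe, off_nat _ (by omega)]
  -- the row of the other box
  have hrow : (k : ZMod p) * ρ = (b : ZMod p) - (a : ZMod p) := by
    apply e_inj p q hq1
    have h1 : e p q ((k : ZMod p) * ρ) =
        (k : ZMod (p * q)) * (θ + e p q ρ) - (k : ZMod (p * q)) * θ := by
      rw [e_mul]
      ring
    rw [h1, hkx, hky, e_sub, e_ab, e_ab]
    have h2 : y - x = b * q - a * q := by linarith
    have h3 : ((y : ℤ) : ZMod (p * q)) - ((x : ℤ) : ZMod (p * q)) =
        ((y - x : ℤ) : ZMod (p * q)) := by push_cast; ring
    rw [h3, h2]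
    push_cast
    ring
  have hzk : z (i0 + (k : ZMod p) * ρ) = z i0 - (b : ZMod (p * q)) * q + (w : ZMod (p * q)) := by
    rw [hAP.2 k hk, hkx]
    have h3 : ((w : ℕ) : ZMod (p * q)) = ((x + b * q : ℤ) : ZMod (p * q)) := by
      rw [← hw, Int.cast_natCast]
    rw [h3]
    push_cast
    ring
  have hF0 := hF (z i0 - (b : ZMod (p * q)) * (q : ZMod (p * q))) (i0 + (b : ZMod p))
    (sc q z i0 + ((w + 1 : ℕ) : ZMod (p * q)))
  by_cases hex : ∃ j : ZMod p,
      tri q (z i0 - (b : ZMod (p * q)) * (q : ZMod (p * q))) (i0 + (b : ZMod p))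
        (sc q z i0 + ((w + 1 : ℕ) : ZMod (p * q))) (z j) j ∨
      tri q (z i0 - (b : ZMod (p * q)) * (q : ZMod (p * q))) (i0 + (b : ZMod p))
        (sc q z i0 + ((w + 1 : ℕ) : ZMod (p * q))) (z j - (b : ZMod (p * q)) * (q : ZMod (p * q)))
          (j + (a : ZMod p) + (b : ZMod p))
  · obtain ⟨j, hj⟩ := hex
    obtain ⟨n, hn, hjn⟩ := ap_row hAP j
    rcases hj with hj | hj
    · unfold tri at hj
      rw [hoff] at hj
      set u := off (z i0 - (b : ZMod (p * q)) * (q : ZMod (p * q))) (z j) with hu
      set v := (j - (i0 + (b : ZMod p))).val with hv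
      have hqv : ((q * v : ℕ) : ℤ) = (q : ℤ) * v := by push_cast; ring
      have hzj : z j = z i0 - (b : ZMod (p * q)) * q + (u : ZMod (p * q)) := (off_spec _ _).symm
      have hjv : j = i0 + (b : ZMod p) + (v : ZMod p) := by
        rw [hv, ZMod.natCast_zmod_val]
        ring
      have hscj : sc q z j = sc q z i0 + ((u + q * v : ℕ) : ZMod (p * q)) := by
        unfold sc
        rw [hzj]
        conv_lhs => rw [hjv]
        rw [e_add, e_add, e_ab, e_ab]
        push_cast
        ring
      have hn0 : 0 < n := by
        rcases Nat.eq_zero_or_pos n with h | h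
        · exfalso
          rw [h, Nat.cast_zero, zero_mul, add_zero] at hjn
          rw [hjn] at hzj
          have h1 : ((u - b * q : ℤ) : ZMod (p * q)) = 0 := by
            have : (0 : ZMod (p * q)) = -((b : ZMod (p * q)) * (q : ZMod (p * q))) + (u : ZMod (p * q)) := by
              linear_combination hzj
            rw [this]
            push_cast
            ring
          have h2 := int_zero h1 (by omega) (by omega)
          omega
        · exact h
      have hnθ : (n : ZMod (p * q)) * θ = ((-(b * q) + u : ℤ) : ZMod (p * q)) := by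
        have h1 := hAP.2 n hn
        rw [← hjn, hzj] at h1
        push_cast
        linear_combination -h1
      have hnφ : (n : ZMod (p * q)) * (θ + e p q ρ) = ((u + q * v : ℤ) : ZMod (p * q)) := by
        have h1 := ap_sc hAP hn
        rw [← hjn, hscj] at h1
        push_cast at h1 ⊢
        linear_combination -h1
      have hu0 : 0 < u := by
        rcases Nat.eq_zero_or_pos u with h | h
        · exfalso
          apply ap_ndvd' hAP hG hn0 hn hnθ
          rw [h]
          exact ⟨-(b : ℤ), by push_cast; ring⟩
        · exact h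
      have hKn : KK p q a b θ (θ + e p q ρ) n (-(b * q) + u) (u + q * v) := by
        refine ⟨hn0, hn, hnθ, hnφ, ?_, ?_⟩
        · rw [abs_lt]; constructor <;> omega
        · rw [abs_lt]; constructor <;> omega
      have hnk : n ≠ k := by
        rintro rfl
        rw [hky] at hnφ
        have h1 : ((y - (u + q * v) : ℤ) : ZMod (p * q)) = 0 := by
          rw [Int.cast_sub, hnφ, sub_self]
        have h2 := int_zero h1 (by omega) (by omega)
        omega
      rcases hL n _ _ hKn with ⟨h1, h2, h3⟩ | ⟨h1, h2, h3⟩ | ⟨h1, h2⟩
      · omega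
      · omega
      · have h3 := (h2 k hk0 hk hnk.symm y hky).2 (by omega)
        apply h3
        refine ⟨?_, by omega⟩
        by_contra h4
        have h5 : (u + q * v : ℤ) - y = a * q := by omega
        apply ap_ndvd_sub hAP hG hn hk hnk hnφ hky
        rw [h5]
        exact ⟨a, by ring⟩
    · unfold tri at hj
      rw [hoff] at hj
      set u := off (z i0 - (b : ZMod (p * q)) * (q : ZMod (p * q))) (z j - (b : ZMod (p * q)) * (q : ZMod (p * q))) with hu
      set v := (j + (a : ZMod p) + (b : ZMod p) - (i0 + (b : ZMod p))).val with hv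
      have hqv : ((q * v : ℕ) : ℤ) = (q : ℤ) * v := by push_cast; ring
      have hzj : z j = z i0 + (u : ZMod (p * q)) := by
        have h1 := off_spec (z i0 - (b : ZMod (p * q)) * (q : ZMod (p * q))) (z j - (b : ZMod (p * q)) * (q : ZMod (p * q)))
        rw [← hu] at h1
        linear_combination -h1
      have hjv : j = i0 + (v : ZMod p) - (a : ZMod p) := by
        rw [hv, ZMod.natCast_zmod_val]
        ring
      have hscj : sc q z j = sc q z i0 + (u : ZMod (p * q)) + (q : ZMod (p * q)) * v -
          (a : ZMod (p * q)) * q := by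
        unfold sc
        rw [hzj]
        conv_lhs => rw [hjv]
        rw [e_sub, e_add, e_ab, e_ab]
        push_cast
        ring
      have hn0 : 0 < n := by
        rcases Nat.eq_zero_or_pos n with h | h
        · exfalso
          rw [h, Nat.cast_zero, zero_mul, add_zero] at hjn
          rw [hjn] at hjv
          have h1 : (v : ZMod p) = (a : ZMod p) := by linear_combination -hjv
          have h2 := (ZMod.natCast_eq_natCast_iff v a p).1 h1
          have h3 : v = a := by
            refine Nat.ModEq.eq_of_lt_of_lt h2 ?_ (by omega)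
            rw [hv]
            exact ZMod.val_lt _
          rw [h3] at hj
          have : q * a = a * q := Nat.mul_comm _ _
          omega
        · exact h
      have hnθ : (n : ZMod (p * q)) * θ = ((u : ℤ) : ZMod (p * q)) := by
        have h1 := hAP.2 n hn
        rw [← hjn, hzj] at h1
        push_cast
        linear_combination -h1
      have hnφ : (n : ZMod (p * q)) * (θ + e p q ρ) =
          ((u + q * v - a * q : ℤ) : ZMod (p * q)) := by
        have h1 := ap_sc hAP hn
        rw [← hjn, hscj] at h1
        push_cast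
        linear_combination -h1
      have hu0 : 0 < u := by
        rcases Nat.eq_zero_or_pos u with h | h
        · exfalso
          apply ap_ndvd' hAP hG hn0 hn hnθ
          rw [h]
          exact ⟨0, by push_cast; ring⟩
        · exact h
      have hKn : KK p q a b θ (θ + e p q ρ) n u (u + q * v - a * q) := by
        refine ⟨hn0, hn, hnθ, hnφ, ?_, ?_⟩
        · rw [abs_lt]; constructor <;> omega
        · rw [abs_lt]; constructor <;> omega
      have hnk : n ≠ k := by
        rintro rfl
        rw [hkx] at hnθ
        have h1 : ((x - u : ℤ) : ZMod (p * q)) = 0 := by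
          rw [Int.cast_sub, hnθ, sub_self]
        have h2 := int_zero h1 (by omega) (by omega)
        omega
      rcases hL n _ _ hKn with ⟨h1, h2, h3⟩ | ⟨h1, h2, h3⟩ | ⟨h1, h2⟩
      · omega
      · omega
      · have h3 := (h2 k hk0 hk hnk.symm y hky).1 (by omega)
        apply h3
        refine ⟨?_, by omega⟩
        by_contra h4
        have h5 : (u + q * v - a * q : ℤ) - y = 0 := by omega
        apply ap_ndvd_sub hAP hG hn hk hnk hnφ hky
        rw [h5]
        exact ⟨0, by ring⟩
  · rw [not_exists] at hex
    have hR : tri q (z i0 - (b : ZMod (p * q)) * (q : ZMod (p * q))) (i0 + (b : ZMod p))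
        (sc q z i0 + ((w + 1 : ℕ) : ZMod (p * q))) (z (i0 + (k : ZMod p) * ρ))
          (i0 + (k : ZMod p) * ρ + (a : ZMod p)) := by
      unfold tri
      rw [hoff, hzk, off_nat _ (by omega)]
      have h1 : i0 + (k : ZMod p) * ρ + (a : ZMod p) - (i0 + (b : ZMod p)) = 0 := by
        rw [hrow]
        ring
      rw [h1, ZMod.val_zero]
      omega
    have hLL : tri q (z i0 - (b : ZMod (p * q)) * (q : ZMod (p * q))) (i0 + (b : ZMod p))
        (sc q z i0 + ((w + 1 : ℕ) : ZMod (p * q))) (z i0 - (b : ZMod (p * q)) * (q : ZMod (p * q)))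
          (i0 + (b : ZMod p)) := by
      unfold tri
      rw [hoff, off_self, sub_self, ZMod.val_zero]
      omega
    have hFle : FF q a b z (z i0 - (b : ZMod (p * q)) * (q : ZMod (p * q))) (i0 + (b : ZMod p))
        (sc q z i0 + ((w + 1 : ℕ) : ZMod (p * q))) ≤ -2 := by
      unfold FF
      calc _ ≤ ∑ j : ZMod p, (-(if j = i0 + (k : ZMod p) * ρ then (1 : ℤ) else 0) -
            (if j = i0 then (1 : ℤ) else 0)) := by
            apply Finset.sum_le_sum
            intro j _
            have h1 := hex j
            rw [not_or] at h1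
            rw [if_neg h1.1, if_neg h1.2]
            have h2 : (if j = i0 + (k : ZMod p) * ρ then (1 : ℤ) else 0) ≤
                (if tri q (z i0 - (b : ZMod (p * q)) * (q : ZMod (p * q))) (i0 + (b : ZMod p))
                  (sc q z i0 + ((w + 1 : ℕ) : ZMod (p * q))) (z j) (j + a) then 1 else 0) := by
              by_cases h3 : j = i0 + (k : ZMod p) * ρ
              · rw [if_pos h3]
                rw [h3, if_pos hR]
              · rw [if_neg h3]
                split_ifs <;> norm_num
            have h4 : (if j = i0 then (1 : ℤ) else 0) ≤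
                (if tri q (z i0 - (b : ZMod (p * q)) * (q : ZMod (p * q))) (i0 + (b : ZMod p))
                  (sc q z i0 + ((w + 1 : ℕ) : ZMod (p * q))) (z j - b * q) (j + b)
                    then 1 else 0) := by
              by_cases h3 : j = i0
              · rw [if_pos h3]
                rw [h3, if_pos hLL]
              · rw [if_neg h3]
                split_ifs <;> norm_num
            linarith
        _ = -2 := by
            rw [Finset.sum_sub_distrib, Finset.sum_neg_distrib,
              Finset.sum_ite_eq' Finset.univ, Finset.sum_ite_eq' Finset.univ,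
              if_pos (Finset.mem_univ _), if_pos (Finset.mem_univ _)]
            norm_num
    rw [abs_le] at hF0
    linarith [hF0.1]

end

end Helper55.KE
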