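import Pool.Agent.Helper55.KE.Move

set_option autoImplicit false
set_option linter.unusedSectionVars false

/-!
# The three jump rule, discrete form
-/

namespace Helper55.KE

open Helper11.N1
open Helper11.N1.DECaux (ind ite_ind ind_and ind_congr ind_pos ind_neg)

section

variable {p q a b : ℕ} [NeZero p] [NeZero q]

/-- translation of a configuration -/
theorem ff_translate (z : ZMod p → ZMod (p * q)) (ρ : ZMod p) (θ : ZMod (p * q))
    (X : ZMod (p * q)) (W : ZMod p) (S : ZMod (p * q)) :
    FF q a b (fun j => z (j - ρ) + θ) X W S =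
      FF q a b z (X - θ) (W - ρ) (S - θ - e p q ρ) := by
  classical
  have key : ∀ (x : ZMod (p * q)) (j : ZMod p),
      tri q X W S (x + θ) (j + ρ) ↔ tri q (X - θ) (W - ρ) (S - θ - e p q ρ) x j := by
    intro x j
    unfold tri
    have h1 : off (X - θ) x = off X (x + θ) := by
      rw [← off_translate (X - θ) x θ, sub_add_cancel]
    have h2 : j - (W - ρ) = j + ρ - W := by ring
    have h3 : off (X - θ + e p q (W - ρ)) (S - θ - e p q ρ) = off (X + e p q W) S := by
      rw [← off_translate_sub (X + e p q W) S (θ + e p q ρ)]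
      congr 1
      · rw [e_sub]
        ring
      · ring
    rw [h1, h2, h3]
  unfold FF
  rw [← Equiv.sum_comp (Equiv.addRight ρ)]
  apply Finset.sum_congr rfl
  intro j _
  simp only [Equiv.coe_addRight, add_sub_cancel_right]
  have e1 := key (z j) j
  have e2 := key (z j) (j + a)
  have e3 := key (z j - b * q) (j + b)
  have e4 := key (z j - b * q) (j + a + b)
  have f2 : j + (a : ZMod p) + ρ = j + ρ + a := by ring
  have f3 : z j - (b : ZMod (p * q)) * q + θ = z j + θ - b * q := by ring
  have f4 : j + (b : ZMod p) + ρ = j + ρ + b := by ring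
  have f5 : j + (a : ZMod p) + b + ρ = j + ρ + a + b := by ring
  rw [f2] at e2
  rw [f3, f4] at e3
  rw [f3, f5] at e4
  simp only [e1, e2, e3, e4]

/-- a sum with one contributing cluster -/
theorem sum_single {f : ZMod p → ℤ} (i : ZMod p) (h : ∀ j, j ≠ i → f j = 0) :
    ∑ j, f j = f i := by
  rw [Finset.sum_eq_single i]
  · intro j _ hj
    exact h j hj
  · intro h
    exact absurd (Finset.mem_univ _) h

theorem res_bq (c : ℕ) : res p q ((c : ZMod (p * q)) * (q : ZMod (p * q))) = 0 :=
  res_mul_q p q _

theorem nat_mul_ne (hP : Par p q a b) : ((a : ZMod (p * q)) * (q : ZMod (p * q))) ≠ 0 ∧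
    ((b : ZMod (p * q)) * (q : ZMod (p * q))) ≠ 0 := by
  obtain ⟨haq, hbq, habq, h2a, h2b⟩ := lt_mul_of hP
  have hq1 := hP.hq
  have key : ∀ c : ℕ, 0 < c * q → c * q < p * q →
      ((c : ZMod (p * q)) * (q : ZMod (p * q))) ≠ 0 := by
    intro c h0 h1 h2
    have h3 : ((c * q : ℕ) : ZMod (p * q)) = 0 := by
      push_cast
      exact h2
    have h4 := (ZMod.natCast_eq_zero_iff (c * q) (p * q)).1 h3
    exact absurd (Nat.le_of_dvd h0 h4) (by omega)
  exact ⟨key a (by omega) haq, key b (by omega) hbq⟩

/-- a vertical line: position `v`, arc `kv`, sign `sv` -/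
def VL (q a b : ℕ) (z : ZMod p → ZMod (p * q)) (j : ZMod p) (v : ZMod (p * q))
    (kv : ZMod p → Prop) (sv : ℤ) : Prop :=
  (v = z j ∧ kv = (fun W => aR a W j) ∧ sv = 1) ∨
    (v = z j - (b : ZMod (p * q)) * (q : ZMod (p * q)) ∧ kv = (fun W => aL a b W j) ∧ sv = -1)

/-- a diagonal line: position `d`, arc `kd`, sign `sd` -/
def DL (q a b : ℕ) (z : ZMod p → ZMod (p * q)) (j : ZMod p) (d : ZMod (p * q))
    (kd : ZMod p → Prop) (sd : ℤ) : Prop :=
  (d = sc q z j ∧ kd = (fun W => aB b W j) ∧ sd = -1) ∨
    (d = sc q z j + (a : ZMod (p * q)) * (q : ZMod (p * q)) ∧ kd = (fun W => aT a b W j) ∧ sd = 1)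

/-- the jump across a vertical line -/
theorem vjump (hP : Par p q a b) {z : ZMod p → ZMod (p * q)} (hG : Gen q z) {j : ZMod p}
    {v : ZMod (p * q)} {kv : ZMod p → Prop} {sv : ℤ} (hV : VL q a b z j v kv sv)
    (W : ZMod p) (S : ZMod (p * q)) :
    FF q a b z (v + 1) W S - FF q a b z v W S =
      sv * (ind (kv W) - ind (off (sc q z j + 1) S < a * q)) := by
  have hne := (nat_mul_ne hP).2
  rw [xstep hP]
  rcases hV with ⟨rfl, rfl, rfl⟩ | ⟨rfl, rfl, rfl⟩
  · rw [sum_single j]
    · have h1 : ¬ (z j - (b : ZMod (p * q)) * (q : ZMod (p * q)) = z j) := by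
        intro h
        apply hne
        linear_combination -h
      rw [ind_pos rfl, ind_neg h1]
      ring
    · intro i hi
      have h1 : ¬ (z i = z j) := fun h => hi (gen_res p q hG (by rw [h]))
      have h2 : ¬ (z i - (b : ZMod (p * q)) * (q : ZMod (p * q)) = z j) := by
        intro h
        apply hi
        apply gen_res p q hG
        rw [← h, map_sub, res_bq, sub_zero]
      rw [ind_neg h1, ind_neg h2]
      ring
  · rw [sum_single j]
    · have h1 : ¬ (z j = z j - (b : ZMod (p * q)) * (q : ZMod (p * q))) := by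
        intro h
        apply hne
        linear_combination h
      rw [ind_pos rfl, ind_neg h1]
      ring
    · intro i hi
      have h1 : ¬ (z i = z j - (b : ZMod (p * q)) * (q : ZMod (p * q))) := by
        intro h
        apply hi
        apply gen_res p q hG
        rw [h, map_sub, res_bq, sub_zero]
      have h2 : ¬ (z i - (b : ZMod (p * q)) * (q : ZMod (p * q)) =
          z j - (b : ZMod (p * q)) * (q : ZMod (p * q))) := by
        intro h
        apply hi
        have h3 : z i = z j := by linear_combination h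
        exact gen_res p q hG (by rw [h3])
      rw [ind_neg h1, ind_neg h2]
      ring

/-- the jump across a diagonal line -/
theorem djump (hP : Par p q a b) {z : ZMod p → ZMod (p * q)} (hG : Gen q z) {j : ZMod p}
    {d : ZMod (p * q)} {kd : ZMod p → Prop} {sd : ℤ} (hD : DL q a b z j d kd sd)
    (X : ZMod (p * q)) (W : ZMod p) :
    FF q a b z X W (d + 1) - FF q a b z X W d =
      sd * (ind (kd W) - ind (off X (z j) < b * q)) := by
  have hne := (nat_mul_ne hP).1
  have hsc : ∀ i, res p q (sc q z i) = res p q (z i) := res_sc p q z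
  rw [sstep hP]
  rcases hD with ⟨rfl, rfl, rfl⟩ | ⟨rfl, rfl, rfl⟩
  · rw [sum_single j]
    · have h1 : ¬ (sc q z j + (a : ZMod (p * q)) * (q : ZMod (p * q)) = sc q z j) := by
        intro h
        apply hne
        linear_combination h
      rw [ind_pos rfl, ind_neg h1]
      ring
    · intro i hi
      have h1 : ¬ (sc q z i = sc q z j) := by
        intro h
        apply hi
        apply gen_res p q hG
        rw [← hsc, ← hsc, h]
      have h2 : ¬ (sc q z i + (a : ZMod (p * q)) * (q : ZMod (p * q)) = sc q z j) := by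
        intro h
        apply hi
        apply gen_res p q hG
        rw [← hsc, ← hsc, ← h, map_add, res_bq, add_zero]
      rw [ind_neg h1, ind_neg h2]
      ring
  · rw [sum_single j]
    · have h1 : ¬ (sc q z j = sc q z j + (a : ZMod (p * q)) * (q : ZMod (p * q))) := by
        intro h
        apply hne
        linear_combination -h
      rw [ind_pos rfl, ind_neg h1]
      ring
    · intro i hi
      have h1 : ¬ (sc q z i = sc q z j + (a : ZMod (p * q)) * (q : ZMod (p * q))) := by
        intro h
        apply hi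
        apply gen_res p q hG
        rw [← hsc, ← hsc, h, map_add, res_bq, add_zero]
      have h2 : ¬ (sc q z i + (a : ZMod (p * q)) * (q : ZMod (p * q)) =
          sc q z j + (a : ZMod (p * q)) * (q : ZMod (p * q))) := by
        intro h
        apply hi
        have h3 : sc q z i = sc q z j := by linear_combination h
        apply gen_res p q hG
        rw [← hsc, ← hsc, h3]
      rw [ind_neg h1, ind_neg h2]
      ring

/-- position of a point below the line relative to an arc -/
theorem side_aux {c : ℕ} (hc : 1 ≤ c) (hcp : c < p) (X : ZMod (p * q)) (u : ZMod p) {r : ℕ}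
    (hr0 : 0 < r) (hr : r ≤ q) :
    off X (X + e p q u - (r : ZMod (p * q))) < c * q ↔ (u - 1).val < c := by
  have hq1 : 1 ≤ q := by omega
  have hcq : c * q + q ≤ p * q := by
    calc c * q + q = (c + 1) * q := by ring
      _ ≤ p * q := Nat.mul_le_mul_right q (by omega)
  have hc1 : 1 * q ≤ c * q := Nat.mul_le_mul_right q hc
  by_cases hu : u = 0
  · have h1 : off X (X + e p q u - (r : ZMod (p * q))) = p * q - r := by
      rw [off_eq_iff _ _ (by omega), Nat.cast_sub (by omega), hu, e_zero]
      have : ((p * q : ℕ) : ZMod (p * q)) = 0 := ZMod.natCast_self _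
      rw [this]
      ring
    have h2 : (u - 1).val = p - 1 := by
      have h3 : u - 1 = ((p - 1 : ℕ) : ZMod p) := by
        rw [hu, Nat.cast_sub (by omega), ZMod.natCast_self]
        push_cast
        ring
      rw [h3, ZMod.val_natCast, Nat.mod_eq_of_lt (by omega)]
    rw [h1, h2]
    omega
  · have h0 : 0 < u.val := by
      rcases Nat.eq_zero_or_pos u.val with h | h
      · exact absurd ((ZMod.val_eq_zero u).1 h) hu
      · exact h
    have hup := ZMod.val_lt u
    have h3 : q * 1 ≤ q * u.val := Nat.mul_le_mul_left q h0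
    have h4 : q * u.val + q ≤ p * q := by
      calc q * u.val + q = (u.val + 1) * q := by ring
        _ ≤ p * q := Nat.mul_le_mul_right q (by omega)
    have h1 : off X (X + e p q u - (r : ZMod (p * q))) = q * u.val - r := by
      rw [off_eq_iff _ _ (by omega), Nat.cast_sub (by omega)]
      have h5 : e p q u = ((q * u.val : ℕ) : ZMod (p * q)) := rfl
      rw [h5]
      ring
    have h2 : (u - 1).val = u.val - 1 := by
      have h5 : u - 1 = ((u.val - 1 : ℕ) : ZMod p) := by
        rw [Nat.cast_sub (by omega), ZMod.natCast_zmod_val]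
        push_cast
        ring
      conv_lhs => rw [h5]
      rw [ZMod.val_natCast, Nat.mod_eq_of_lt (by omega)]
    rw [h1, h2]
    constructor
    · intro h6
      by_contra h7
      have h8 : q * (c + 1) ≤ q * u.val := Nat.mul_le_mul_left q (by omega)
      have h9 : q * (c + 1) = c * q + q := by ring
      omega
    · intro h6
      have h8 : q * u.val ≤ q * c := Nat.mul_le_mul_left q (by omega)
      have h9 : q * c = c * q := by ring
      omega

/-- the crossing point lies in the range of the vertical line iff its arc contains the level -/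
theorem vside (hP : Par p q a b) {z : ZMod p → ZMod (p * q)} {j : ZMod p}
    {v : ZMod (p * q)} {kv : ZMod p → Prop} {sv : ℤ} (hV : VL q a b z j v kv sv)
    (d : ZMod (p * q)) (W0 : ZMod p) {r : ℕ} (hr : r < q)
    (hW : d + (r : ZMod (p * q)) = v + e p q W0) :
    off (sc q z j + 1) d < a * q ↔ kv W0 := by
  have ha := hP.ha
  have hab := hP.hab
  rcases hV with ⟨rfl, rfl, rfl⟩ | ⟨rfl, rfl, rfl⟩
  · have h1 := side_aux (q := q) (c := a) (by omega) (by omega) (sc q z j + 1) (W0 - j)
      (r := r + 1) (by omega) (by omega)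
    have h2 : sc q z j + 1 + e p q (W0 - j) - ((r + 1 : ℕ) : ZMod (p * q)) = d := by
      unfold sc
      rw [e_sub]
      push_cast
      linear_combination -hW
    rw [h2] at h1
    rw [h1]
    have h3 : W0 - 1 - j = W0 - j - 1 := by ring
    show _ ↔ (W0 - 1 - j).val < a
    rw [h3]
  · have h1 := side_aux (q := q) (c := a) (by omega) (by omega) (sc q z j + 1)
      (W0 - (b : ZMod p) - j) (r := r + 1) (by omega) (by omega)
    have h2 : sc q z j + 1 + e p q (W0 - (b : ZMod p) - j) - ((r + 1 : ℕ) : ZMod (p * q)) =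
        d := by
      unfold sc
      rw [e_sub, e_sub, e_ab]
      push_cast
      linear_combination -hW
    rw [h2] at h1
    rw [h1]
    have h3 : W0 - (b : ZMod p) - 1 - j = W0 - (b : ZMod p) - j - 1 := by ring
    show _ ↔ (W0 - (b : ZMod p) - 1 - j).val < a
    rw [h3]

theorem dside (hP : Par p q a b) {z : ZMod p → ZMod (p * q)} {j : ZMod p}
    {d : ZMod (p * q)} {kd : ZMod p → Prop} {sd : ℤ} (hD : DL q a b z j d kd sd)
    (v : ZMod (p * q)) (W0 : ZMod p) {r : ℕ} (hr0 : 0 < r) (hr : r < q)
    (hW : d + (r : ZMod (p * q)) = v + e p q W0) :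
    off v (z j) < b * q ↔ kd W0 := by
  have hb := hP.hb
  have hab := hP.hab
  rcases hD with ⟨rfl, rfl, rfl⟩ | ⟨rfl, rfl, rfl⟩
  · have h1 := side_aux (q := q) (c := b) (by omega) (by omega) v (W0 - j) (r := r) hr0 hr.le
    have h2 : v + e p q (W0 - j) - (r : ZMod (p * q)) = z j := by
      unfold sc at hW
      rw [e_sub]
      linear_combination -hW
    rw [h2] at h1
    rw [h1]
    have h3 : W0 - 1 - j = W0 - j - 1 := by ring
    show _ ↔ (W0 - 1 - j).val < b
    rw [h3]
  · have h1 := side_aux (q := q) (c := b) (by omega) (by omega) v (W0 - (a : ZMod p) - j)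
      (r := r) hr0 hr.le
    have h2 : v + e p q (W0 - (a : ZMod p) - j) - (r : ZMod (p * q)) = z j := by
      unfold sc at hW
      rw [e_sub, e_sub, e_ab]
      linear_combination -hW
    rw [h2] at h1
    rw [h1]
    have h3 : W0 - (a : ZMod p) - 1 - j = W0 - (a : ZMod p) - j - 1 := by ring
    show _ ↔ (W0 - (a : ZMod p) - 1 - j).val < b
    rw [h3]

theorem vl_res {z : ZMod p → ZMod (p * q)} {j : ZMod p}
    {v : ZMod (p * q)} {kv : ZMod p → Prop} {sv : ℤ} (hV : VL q a b z j v kv sv) :
    res p q v = res p q (z j) := by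
  rcases hV with ⟨rfl, rfl, rfl⟩ | ⟨rfl, rfl, rfl⟩
  · rfl
  · rw [map_sub, res_bq, sub_zero]

theorem dl_res {z : ZMod p → ZMod (p * q)} {j : ZMod p}
    {d : ZMod (p * q)} {kd : ZMod p → Prop} {sd : ℤ} (hD : DL q a b z j d kd sd) :
    res p q d = res p q (z j) := by
  rcases hD with ⟨rfl, rfl, rfl⟩ | ⟨rfl, rfl, rfl⟩
  · exact res_sc p q z j
  · rw [map_add, res_bq, add_zero]
    exact res_sc p q z j

/-- the value at a crossing of two active lines -/
theorem cross_val (hP : Par p q a b) {z : ZMod p → ZMod (p * q)} (hG : Gen q z)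
    (hF : ∀ X W S, |FF q a b z X W S| ≤ 1) {i j : ZMod p} (hij : i ≠ j)
    {v : ZMod (p * q)} {kv : ZMod p → Prop} {sv : ℤ} (hV : VL q a b z i v kv sv)
    {d : ZMod (p * q)} {kd : ZMod p → Prop} {sd : ℤ} (hD : DL q a b z j d kd sd)
    (W0 W : ZMod p) {r : ℕ} (hr : r < q) (hW0 : d + (r : ZMod (p * q)) = v + e p q W0)
    (hv : ¬ (kv W ↔ kv W0)) (hd : ¬ (kd W ↔ kd W0)) :
    2 * FF q a b z v W d = - sv * (ind (kv W) - ind (kv W0)) -
      sd * (ind (kd W) - ind (kd W0)) := by
  have hM := one_lt_mul hP
  obtain ⟨haq, hbq, habq, h2a, h2b⟩ := lt_mul_of hP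
  have hq1 := hP.hq
  have hres : res p q (z i) ≠ res p q (z j) := fun h => hij (gen_res p q hG h)
  have hr0 : 0 < r := by
    rcases Nat.eq_zero_or_pos r with h | h
    · exfalso
      apply hres
      rw [h, Nat.cast_zero, add_zero] at hW0
      rw [← vl_res hV, ← dl_res hD, hW0, map_add, res_e, add_zero]
    · exact h
  have h1 := vjump hP hG hV W d
  have h2 := vjump hP hG hV W (d + 1)
  have h3 := djump hP hG hD v W
  have e1 : ind (off (sc q z i + 1) (d + 1) < a * q) = ind (off (sc q z i + 1) d < a * q) := by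
    have h5 := arc_step hM (sc q z i) d (d := a * q) (by omega) haq
    have h6 : ¬ (sc q z i = d) := by
      intro h
      apply hres
      rw [← dl_res hD, ← h, res_sc]
    have h7 : ¬ (sc q z i + ((a * q : ℕ) : ZMod (p * q)) = d) := by
      intro h
      apply hres
      rw [← dl_res hD, ← h, map_add, res_sc]
      push_cast
      rw [res_bq, add_zero]
    rw [ind_neg h6, ind_neg h7] at h5
    linarith
  rw [e1, ind_congr (vside hP hV d W0 hr hW0)] at h2
  rw [ind_congr (vside hP hV d W0 hr hW0)] at h1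
  rw [ind_congr (dside hP hD v W0 hr0 hr hW0)] at h3
  have f1 := abs_le.1 (hF v W d)
  have f2 := abs_le.1 (hF (v + 1) W d)
  have f3 := abs_le.1 (hF v W (d + 1))
  have f4 := abs_le.1 (hF (v + 1) W (d + 1))
  have hsv : sv = 1 ∨ sv = -1 := by
    rcases hV with ⟨_, _, rfl⟩ | ⟨_, _, rfl⟩
    · left; rfl
    · right; rfl
  have hsd : sd = 1 ∨ sd = -1 := by
    rcases hD with ⟨_, _, rfl⟩ | ⟨_, _, rfl⟩
    · right; rfl
    · left; rfl
  have hkv : ind (kv W) - ind (kv W0) = 1 ∨ ind (kv W) - ind (kv W0) = -1 := by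
    by_cases c1 : kv W <;> by_cases c2 : kv W0
    · exact absurd ⟨fun _ => c2, fun _ => c1⟩ hv
    · left; rw [ind_pos c1, ind_neg c2]; norm_num
    · right; rw [ind_neg c1, ind_pos c2]; norm_num
    · exact absurd ⟨fun h => absurd h c1, fun h => absurd h c2⟩ hv
  have hkd : ind (kd W) - ind (kd W0) = 1 ∨ ind (kd W) - ind (kd W0) = -1 := by
    by_cases c1 : kd W <;> by_cases c2 : kd W0
    · exact absurd ⟨fun _ => c2, fun _ => c1⟩ hd
    · left; rw [ind_pos c1, ind_neg c2]; norm_num
    · right; rw [ind_neg c1, ind_pos c2]; norm_num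
    · exact absurd ⟨fun h => absurd h c1, fun h => absurd h c2⟩ hd
  rcases hsv with rfl | rfl <;> rcases hsd with rfl | rfl <;> rcases hkv with g1 | g1 <;>
    rcases hkd with g2 | g2 <;> rw [g1] at h1 h2 ⊢ <;> rw [g2] at h3 ⊢ <;> omega

end

end Helper55.KE
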