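import Pool.Agent.Helper11.N1.StA

set_option autoImplicit false

/-!
# Progressions and overlap vectors

`AP q z i0 ρ θ`: the clusters `z (i0 + n ρ) = z i0 + n θ`, `0 ≤ n < p`, form a progression.
`KK`: overlap vectors, `L0`: the possible overlap vectors.
-/

namespace Helper55.KE

open Helper11.N1

section

variable {p : ℕ} (q : ℕ)

/-- the configuration is an arithmetic progression starting at the row `i0` -/
def AP (z : ZMod p → ZMod (p * q)) (i0 ρ : ZMod p) (θ : ZMod (p * q)) : Prop :=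
  IsUnit ρ ∧ ∀ n : ℕ, n < p → z (i0 + (n : ZMod p) * ρ) = z i0 + (n : ZMod (p * q)) * θ

end

section

variable (p q a b : ℕ) (θ φ : ZMod (p * q))

/-- the boxes of the clusters `0` and `n` overlap; `x`, `y` is the difference -/
def KK (n : ℕ) (x y : ℤ) : Prop :=
  0 < n ∧ n < p ∧ (n : ZMod (p * q)) * θ = (x : ZMod (p * q)) ∧
    (n : ZMod (p * q)) * φ = (y : ZMod (p * q)) ∧ |x| < b * q ∧ |y| < a * q

/-- no cluster except `0` and `n` between the two ordinates which belong to `y` -/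
def Strip (n : ℕ) (y : ℤ) : Prop :=
  ∀ m : ℕ, 0 < m → m < p → m ≠ n → ∀ s : ℤ, (m : ZMod (p * q)) * φ = (s : ZMod (p * q)) →
    (y < 0 → ¬ (y < s ∧ s < y + a * q)) ∧ (0 < y → ¬ (y - a * q < s ∧ s < y))

/-- what the three jump rule gives for the overlap vectors -/
def L0 : Prop := ∀ (n : ℕ) (x y : ℤ), KK p q a b θ φ n x y →
  (x < 0 ∧ y < 0 ∧ x + b * q = y + a * q) ∨
  (0 < x ∧ 0 < y ∧ b * q - x = a * q - y) ∨
  ((q : ℤ) ≤ |y| ∧ Strip p q a φ n y)

end

end Helper55.KE
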