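import Pool.Agent.Helper55.KE.MReal

set_option autoImplicit false
set_option linter.unusedSectionVars false

/-!
# The block model: rules for progressions with merged sides
-/

namespace Helper55.KE

open Helper11.N1
open Helper11.N1.DECaux (ind ite_ind ind_and ind_congr ind_pos ind_neg)

/-- a progression which is flat at the block positions -/
structure MS (p q a b c : ℕ) [NeZero p] [NeZero q] (z : ZMod p → ZMod (p * q)) (i0 ρ : ZMod p)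
    (θ : ZMod (p * q)) (δ : ℕ) : Prop where
  hP : Par p q a b
  hG : Gen q z
  hB : Blk q b c z
  hAP : AP q z i0 ρ θ
  hF : ∀ X W S, rp p q X = 0 → |FF q a b z X W S| ≤ 1
  hδ0 : 0 < δ
  hδM : δ < p * q
  hδ : (δ : ZMod (p * q)) = (p : ZMod (p * q)) * θ

/-- coordinates of the cluster with index `n` -/
structure At {p q : ℕ} (ρ : ZMod p) (θ : ZMod (p * q)) (n : ℕ) (x r : ℤ) : Prop where
  hx : (n : ZMod (p * q)) * θ = (x : ZMod (p * q))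
  hr : (n : ZMod p) * ρ = (r : ZMod p)

/-- the right side of `n` and the left side of `m` lie in the same block -/
def Mg {p q : ℕ} (b c : ℕ) (θ : ZMod (p * q)) (n m : ℕ) : Prop :=
  (m : ZMod (p * q)) * θ = (n : ZMod (p * q)) * θ + (b : ZMod (p * q)) * (q : ZMod (p * q)) +
    ((1 - c : ℕ) : ZMod (p * q)) - (c : ZMod (p * q))

section

variable {p q a b c : ℕ} [NeZero p] [NeZero q] {z : ZMod p → ZMod (p * q)} {i0 ρ : ZMod p}
  {θ : ZMod (p * q)} {δ : ℕ}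

theorem MS.zn (h : MS p q a b c z i0 ρ θ δ) {n : ℕ} (hn : n < p) {x r : ℤ} (hA : At ρ θ n x r) :
    z (i0 + (n : ZMod p) * ρ) = z i0 + (x : ZMod (p * q)) := by
  rw [h.hAP.2 n hn, hA.hx]

theorem MS.sn (h : MS p q a b c z i0 ρ θ δ) {n : ℕ} (hn : n < p) {x r : ℤ} (hA : At ρ θ n x r) :
    sc q z (i0 + (n : ZMod p) * ρ) = sc q z i0 + ((x + r * q : ℤ) : ZMod (p * q)) := by
  rw [ap_sc h.hAP hn, mul_add, hA.hx, ← e_mul, hA.hr, e_int]
  push_cast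
  ring

theorem MS.dlB (h : MS p q a b c z i0 ρ θ δ) {n : ℕ} (hn : n < p) {x r : ℤ} (hA : At ρ θ n x r) :
    DL q a b z (i0 + (n : ZMod p) * ρ) (sc q z i0 + ((x + r * q : ℤ) : ZMod (p * q)))
      (fun W => aB b W (i0 + (n : ZMod p) * ρ)) (-1) := Or.inl ⟨(h.sn hn hA).symm, rfl, rfl⟩

theorem MS.dlT (h : MS p q a b c z i0 ρ θ δ) {n : ℕ} (hn : n < p) {x r : ℤ} (hA : At ρ θ n x r) :
    DL q a b z (i0 + (n : ZMod p) * ρ) (sc q z i0 + ((x + r * q + a * q : ℤ) : ZMod (p * q)))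
      (fun W => aT a b W (i0 + (n : ZMod p) * ρ)) 1 := by
  refine Or.inr ⟨?_, rfl, rfl⟩
  rw [h.sn hn hA]
  push_cast
  ring

theorem hkR {n : ℕ} {x r : ℤ} (hA : At ρ θ n x r) (i0 : ZMod p) (W : ℤ) :
    aR a (i0 + (W : ZMod p)) (i0 + (n : ZMod p) * ρ) ↔ ((W - r - 1 : ℤ) : ZMod p).val < a := by
  unfold aR
  have : i0 + (W : ZMod p) - 1 - (i0 + (n : ZMod p) * ρ) = ((W - r - 1 : ℤ) : ZMod p) := by
    rw [hA.hr]
    push_cast
    ring
  rw [this]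

theorem hkL' {r : ℤ} {i : ZMod p} {i0 : ZMod p} (hi : i + (b : ZMod p) = i0 + (r : ZMod p))
    (W : ℤ) :
    aL a b (i0 + (W : ZMod p)) i ↔ ((W - r - 1 : ℤ) : ZMod p).val < a := by
  unfold aL
  have : i0 + (W : ZMod p) - b - 1 - i = ((W - r - 1 : ℤ) : ZMod p) := by
    push_cast
    linear_combination -hi
  rw [this]

theorem hkB {n : ℕ} {x r : ℤ} (hA : At ρ θ n x r) (i0 : ZMod p) (W : ℤ) :
    aB b (i0 + (W : ZMod p)) (i0 + (n : ZMod p) * ρ) ↔ ((W - r - 1 : ℤ) : ZMod p).val < b := by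
  unfold aB
  have : i0 + (W : ZMod p) - 1 - (i0 + (n : ZMod p) * ρ) = ((W - r - 1 : ℤ) : ZMod p) := by
    rw [hA.hr]
    push_cast
    ring
  rw [this]

theorem hkT {n : ℕ} {x r : ℤ} (hA : At ρ θ n x r) (i0 : ZMod p) (W : ℤ) :
    aT a b (i0 + (W : ZMod p)) (i0 + (n : ZMod p) * ρ) ↔
      ((W - (r + a) - 1 : ℤ) : ZMod p).val < b := by
  unfold aT
  have : i0 + (W : ZMod p) - a - 1 - (i0 + (n : ZMod p) * ρ) =
      ((W - (r + a) - 1 : ℤ) : ZMod p) := by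
    rw [hA.hr]
    push_cast
    ring
  rw [this]

/-- equal positions -/
theorem MS.zinj (h : MS p q a b c z i0 ρ θ δ) {n m : ℕ} (hn : n < p) (hm : m < p)
    (hnm : n ≠ m) : z (i0 + (n : ZMod p) * ρ) ≠ z (i0 + (m : ZMod p) * ρ) := by
  intro h1
  exact ap_ne h.hAP hn hm hnm (gen_res p q h.hG (by rw [h1]))

/-- equal residues -/
theorem MS.rinj (h : MS p q a b c z i0 ρ θ δ) {n m : ℕ} (hn : n < p) (hm : m < p)
    (hnm : n ≠ m) : res p q (z (i0 + (n : ZMod p) * ρ)) ≠ res p q (z (i0 + (m : ZMod p) * ρ)) := by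
  intro h1
  exact ap_ne h.hAP hn hm hnm (gen_res p q h.hG h1)

/-- the moved cluster has a different residue than the static clusters -/
theorem MS.rmov (h : MS p q a b c z i0 ρ θ δ) {n : ℕ} (hn0 : 0 < n) (hn : n < p) :
    res p q (z i0 + (δ : ZMod (p * q))) ≠ res p q (z (i0 + (n : ZMod p) * ρ)) := by
  intro h1
  have hne : i0 + (n : ZMod p) * ρ ≠ i0 := by
    intro h2
    have := ap_ne h.hAP hn (by omega : 0 < p) (by omega)
    apply this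
    rw [h2, Nat.cast_zero, zero_mul, add_zero]
  have h3 := gen_res p q (gen_update h.hAP h.hG) (i := i0) (j := i0 + (n : ZMod p) * ρ) (by
    rw [Function.update_self, Function.update_of_ne hne, ← h.hδ]
    exact h1)
  exact hne h3.symm

theorem MS.mg (h : MS p q a b c z i0 ρ θ δ) {n m : ℕ} (hn : n < p) (hm : m < p)
    (hM : Mg b c θ n m) :
    byy q b c z (i0 + (m : ZMod p) * ρ) = bx q c z (i0 + (n : ZMod p) * ρ) := by
  unfold byy bx Mg at *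
  rw [h.hAP.2 m hm, h.hAP.2 n hn, hM]
  ring

theorem MS.mg_iff (h : MS p q a b c z i0 ρ θ δ) {n m : ℕ} (hn : n < p) (hm : m < p) :
    byy q b c z (i0 + (m : ZMod p) * ρ) = bx q c z (i0 + (n : ZMod p) * ρ) ↔ Mg b c θ n m := by
  refine ⟨fun h1 => ?_, h.mg hn hm⟩
  unfold byy bx Mg at *
  rw [h.hAP.2 m hm, h.hAP.2 n hn] at h1
  linear_combination h1

theorem MS.mgp_iff (h : MS p q a b c z i0 ρ θ δ) {n : ℕ} (hn : n < p) :
    byy q b c z i0 + (δ : ZMod (p * q)) = bx q c z (i0 + (n : ZMod p) * ρ) ↔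
      Mg b c θ n p := by
  unfold byy bx Mg at *
  rw [h.hAP.2 n hn, h.hδ]
  constructor <;> intro h1 <;> linear_combination h1

theorem MS.pmg_iff (h : MS p q a b c z i0 ρ θ δ) {m : ℕ} (hm : m < p) :
    bx q c z i0 + (δ : ZMod (p * q)) = byy q b c z (i0 + (m : ZMod p) * ρ) ↔
      Mg b c θ p m := by
  unfold byy bx Mg at *
  rw [h.hAP.2 m hm, h.hδ]
  constructor <;> intro h1 <;> linear_combination -h1

theorem MS.i0_eq (i0 ρ : ZMod p) : i0 + ((0 : ℕ) : ZMod p) * ρ = i0 := by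
  rw [Nat.cast_zero, zero_mul, add_zero]

theorem MS.ne0 (h : MS p q a b c z i0 ρ θ δ) {n : ℕ} (hn0 : 0 < n) (hn : n < p) :
    i0 + (n : ZMod p) * ρ ≠ i0 := by
  have h1 := ap_ne h.hAP hn (by omega : 0 < p) (by omega)
  rwa [MS.i0_eq] at h1

theorem MS.bxne (h : MS p q a b c z i0 ρ θ δ) {n m : ℕ} (hn : n < p) (hm : m < p)
    (hnm : n ≠ m) : bx q c z (i0 + (n : ZMod p) * ρ) ≠ bx q c z (i0 + (m : ZMod p) * ρ) := by
  intro h1
  apply h.zinj hn hm hnm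
  unfold bx at h1
  linear_combination h1

theorem MS.byne (h : MS p q a b c z i0 ρ θ δ) {n m : ℕ} (hn : n < p) (hm : m < p)
    (hnm : n ≠ m) : byy q b c z (i0 + (n : ZMod p) * ρ) ≠ byy q b c z (i0 + (m : ZMod p) * ρ) := by
  intro h1
  apply h.zinj hn hm hnm
  unfold byy at h1
  linear_combination h1

theorem MS.bxmov (h : MS p q a b c z i0 ρ θ δ) {n : ℕ} (hn0 : 0 < n) (hn : n < p) :
    bx q c z i0 + (δ : ZMod (p * q)) ≠ bx q c z (i0 + (n : ZMod p) * ρ) := by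
  intro h1
  apply h.rmov hn0 hn
  congr 1
  unfold bx at h1
  linear_combination h1

theorem MS.bymov (h : MS p q a b c z i0 ρ θ δ) {n : ℕ} (hn0 : 0 < n) (hn : n < p) :
    byy q b c z i0 + (δ : ZMod (p * q)) ≠ byy q b c z (i0 + (n : ZMod p) * ρ) := by
  intro h1
  apply h.rmov hn0 hn
  congr 1
  unfold byy at h1
  linear_combination h1

/-- a merged pair of static clusters: the block is free -/
theorem MS.free_mg (h : MS p q a b c z i0 ρ θ δ) {n m : ℕ} (hn0 : 0 < n) (hn : n < p)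
    (hm0 : 0 < m) (hm : m < p) (hM : Mg b c θ n m) :
    Free q b c z i0 (δ : ZMod (p * q)) (bx q c z (i0 + (n : ZMod p) * ρ)) := by
  have h1 := h.bxne (by omega : 0 < p) hn (by omega)
  have h2 := h.byne (by omega : 0 < p) hm (by omega)
  rw [MS.i0_eq] at h1 h2
  rw [h.mg hn hm hM] at h2
  refine ⟨h1, h2, h.bxmov hn0 hn, ?_⟩
  rw [← h.mg hn hm hM]
  exact h.bymov hm0 hm

/-- a right side which is not merged -/
theorem MS.free_R (h : MS p q a b c z i0 ρ θ δ) {n : ℕ} (hn0 : 0 < n) (hn : n < p)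
    (hU : ∀ m : ℕ, m ≤ p → ¬ Mg b c θ n m) :
    Free q b c z i0 (δ : ZMod (p * q)) (bx q c z (i0 + (n : ZMod p) * ρ)) := by
  have h1 := h.bxne (by omega : 0 < p) hn (by omega)
  have h2 := mt (h.mg_iff hn (by omega : 0 < p)).1 (hU 0 (by omega))
  rw [MS.i0_eq] at h1 h2
  exact ⟨h1, h2, h.bxmov hn0 hn, mt (h.mgp_iff hn).1 (hU p le_rfl)⟩

/-- a left side which is not merged -/
theorem MS.free_L (h : MS p q a b c z i0 ρ θ δ) {m : ℕ} (hm0 : 0 < m) (hm : m < p)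
    (hU : ∀ n : ℕ, n ≤ p → ¬ Mg b c θ n m) :
    Free q b c z i0 (δ : ZMod (p * q)) (byy q b c z (i0 + (m : ZMod p) * ρ)) := by
  have h1 := h.byne (by omega : 0 < p) hm (by omega)
  have h2 := mt (h.mg_iff (by omega : 0 < p) hm).1 (hU 0 (by omega))
  rw [MS.i0_eq] at h1 h2
  exact ⟨fun h3 => h2 h3.symm, h1, mt (h.pmg_iff hm).1 (hU p le_rfl), h.bymov hm0 hm⟩

/-- the rules for both diagonal lines of the cluster `f` -/
theorem MS.rq (h : MS p q a b c z i0 ρ θ δ) {f : ℕ} (hf0 : 0 < f) (hf : f < p) {x r : ℤ}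
    (hA : At ρ θ f x r) {vX : ℤ} {s : ℕ} (hs : s ≤ 1) {X : ZMod (p * q)}
    (hres : res p q (z i0 + (vX : ZMod (p * q))) ≠ res p q (z (i0 + (f : ZMod p) * ρ)))
    (hXe : z i0 + (vX : ZMod (p * q)) = X + (s : ZMod (p * q)))
    (hX : rp p q X = 0) (h1 : bx q c z (i0 + (f : ZMod p) * ρ) ≠ X)
    (h2 : byy q b c z (i0 + (f : ZMod p) * ρ) ≠ X)
    {hv hv' : ℝ → ℤ} (hv1 : ∀ W : ℤ, hv W = KV q a b c z X (i0 + (W : ZMod p)))
    (hv2 : ∀ t : ℝ, hv t = hv ((⌈t⌉ : ℤ) : ℝ))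
    (hv1' : ∀ W : ℤ, hv' W =
      KV q a b c (Function.update z i0 (z i0 + (δ : ZMod (p * q)))) X (i0 + (W : ZMod p)))
    (hv2' : ∀ t : ℝ, hv' t = hv' ((⌈t⌉ : ℤ) : ℝ))
    (hgg : ∀ d W, GG q a b z i0 δ (X + (s : ZMod (p * q))) d W = GG q a b z i0 δ X d W) :
    RUq p a b ((δ : ℝ) / q) hv hv' ((vX : ℝ) / q) ((x : ℝ) / q + r) r (-1) ∧
    RUq p a b ((δ : ℝ) / q) hv hv' ((vX : ℝ) / q) ((x : ℝ) / q + r + a) (r + a) 1 := by
  have hq0 : (q : ℝ) ≠ 0 := by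
    have := NeZero.ne q
    exact_mod_cast this
  have c2 : ((x + r * q : ℤ) : ℝ) / q = (x : ℝ) / q + r := by push_cast; field_simp
  have c3 : ((x + r * q + a * q : ℤ) : ℝ) / q = (x : ℝ) / q + r + a := by
    push_cast; field_simp
  have c5 : ((r + a : ℤ) : ℝ) = (r : ℝ) + a := by push_cast; ring
  constructor
  · have g := ruq h.hP h.hG h.hB h.hAP h.hF h.hδ0 h.hδM h.hδ (h.ne0 hf0 hf) hs hres hXe hX h1 h2
      (h.dlB hf hA) (hkB hA i0) hv1 hv2 hv1' hv2' hgg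
    rw [c2] at g
    exact g
  · have g := ruq h.hP h.hG h.hB h.hAP h.hF h.hδ0 h.hδM h.hδ (h.ne0 hf0 hf) hs hres hXe hX h1 h2
      (h.dlT hf hA) (hkT hA i0) hv1 hv2 hv1' hv2' hgg
    rw [c3, c5] at g
    exact g

theorem hh_ceil (a : ℕ) (kap k : ℤ) (t : ℝ) :
    hh (p : ℝ) a kap k t = hh (p : ℝ) a kap k ((⌈t⌉ : ℤ) : ℝ) := by
  unfold hh
  have h1 := hind_ceil (p := p) k a t
  have h2 := hind_ceil (p := p) (k + kap) a t
  rw [h1]
  rw [Int.cast_add] at h2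
  rw [h2]

/-- the level function of a merged pair in real form -/
theorem MS.hh_eq (h : MS p q a b c z i0 ρ θ δ) {n m : ℕ} (hn : n < p) (hm : m < p)
    (hM : Mg b c θ n m) {x r kap : ℤ} (hA : At ρ θ n x r)
    (hk : (m : ZMod p) * ρ + (b : ZMod p) = ((r + kap : ℤ) : ZMod p)) (W : ℤ) :
    hh p a kap r W = KV q a b c z (bx q c z (i0 + (n : ZMod p) * ρ)) (i0 + (W : ZMod p)) := by
  have hab := h.hP.hab
  rw [kv_merge h.hG (h.mg hn hm hM)]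
  unfold hh
  have g1 := hind_int (p := p) r W a (by omega)
  have g2 := hind_int (p := p) (r + kap) W a (by omega)
  rw [Int.cast_add] at g2
  rw [g1, g2, ind_congr (hkR hA i0 W), ind_congr (hkL' (r := r + kap) (i0 := i0) (by
    rw [← hk]
    ring) W)]

/-- static merged pair: the complete rule -/
theorem MS.rq_mg (h : MS p q a b c z i0 ρ θ δ) {n m f : ℕ} (hn0 : 0 < n) (hn : n < p)
    (hm0 : 0 < m) (hm : m < p) (hf0 : 0 < f) (hf : f < p) (hfn : f ≠ n) (hfm : f ≠ m)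
    (hM : Mg b c θ n m) {x1 r1 x2 r2 kap : ℤ} (hA1 : At ρ θ n x1 r1) (hA2 : At ρ θ f x2 r2)
    (hk : (m : ZMod p) * ρ + (b : ZMod p) = ((r1 + kap : ℤ) : ZMod p)) :
    RUq p a b ((δ : ℝ) / q) (hh p a kap r1) (hh p a kap r1) ((x1 : ℝ) / q)
      ((x2 : ℝ) / q + r2) r2 (-1) ∧
    RUq p a b ((δ : ℝ) / q) (hh p a kap r1) (hh p a kap r1) ((x1 : ℝ) / q)
      ((x2 : ℝ) / q + r2 + a) (r2 + a) 1 := by
  have hS := h.free_mg hn0 hn hm0 hm hM
  refine h.rq hf0 hf hA2 (s := c) h.hB.hc (X := bx q c z (i0 + (n : ZMod p) * ρ)) ?_ ?_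
    (bx_rp h.hB _) (h.bxne hf hn hfn) ?_ (h.hh_eq hn hm hM hA1 hk) (hh_ceil a kap r1) ?_
    (hh_ceil a kap r1) ?_
  · rw [← h.zn hn hA1]
    exact h.rinj hn hf (fun h1 => hfn h1.symm)
  · rw [← h.zn hn hA1]
    unfold bx
    ring
  · rw [← h.mg hn hm hM]
    exact h.byne hf hm hfm
  · intro W
    rw [kv_free hS]
    exact h.hh_eq hn hm hM hA1 hk W
  · intro d W
    exact gg_block h.hP h.hB h.hAP h.hδ0 h.hδM h.hδ (bx_rp h.hB _) hS h.hB.hc d W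

/-- static merged pair: three jump rule -/
theorem MS.fmc (h : MS p q a b c z i0 ρ θ δ) {n m f : ℕ} (hn0 : 0 < n) (hn : n < p)
    (hm0 : 0 < m) (hm : m < p) (hf0 : 0 < f) (hf : f < p) (hfn : f ≠ n) (hfm : f ≠ m)
    (hM : Mg b c θ n m) {x1 r1 x2 r2 kap : ℤ} (hA1 : At ρ θ n x1 r1) (hA2 : At ρ θ f x2 r2)
    (hk : (m : ZMod p) * ρ + (b : ZMod p) = ((r1 + kap : ℤ) : ZMod p)) :
    FMc p a b ((δ : ℝ) / q) kap ((x1 : ℝ) / q) r1 ((x2 : ℝ) / q) r2 := by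
  obtain ⟨h1, h2⟩ := h.rq_mg hn0 hn hm0 hm hf0 hf hfn hfm hM hA1 hA2 hk
  exact ⟨h1.fml (Or.inr rfl), h2.fml (Or.inl rfl)⟩

/-- merged pair in one window: jump two rule -/
theorem MS.j2c (h : MS p q a b c z i0 ρ θ δ) {n m f : ℕ} (hn : n < p) (hm : m < p) (hf : f < p)
    (hfn : f ≠ n) (hfm : f ≠ m)
    (hM : Mg b c θ n m) {x1 r1 x2 r2 kap : ℤ} (hA1 : At ρ θ n x1 r1) (hA2 : At ρ θ f x2 r2)
    (hk : (m : ZMod p) * ρ + (b : ZMod p) = ((r1 + kap : ℤ) : ZMod p)) :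
    J2c p a b kap ((x1 : ℝ) / q) r1 ((x2 : ℝ) / q) r2 := by
  have hq0 : (q : ℝ) ≠ 0 := by
    have := NeZero.ne q
    exact_mod_cast this
  have c2 : ((x2 + r2 * q : ℤ) : ℝ) / q = (x2 : ℝ) / q + r2 := by push_cast; field_simp
  have c3 : ((x2 + r2 * q + a * q : ℤ) : ℝ) / q = (x2 : ℝ) / q + r2 + a := by
    push_cast; field_simp
  have c5 : ((r2 + a : ℤ) : ℝ) = (r2 : ℝ) + a := by push_cast; ring
  have k1 : res p q (z i0 + (x1 : ZMod (p * q))) ≠ res p q (z (i0 + (f : ZMod p) * ρ)) := by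
    rw [← h.zn hn hA1]
    exact h.rinj hn hf (fun h1 => hfn h1.symm)
  have k2 : z i0 + (x1 : ZMod (p * q)) =
      bx q c z (i0 + (n : ZMod p) * ρ) + (c : ZMod (p * q)) := by
    rw [← h.zn hn hA1]
    unfold bx
    ring
  have k3 : byy q b c z (i0 + (f : ZMod p) * ρ) ≠ bx q c z (i0 + (n : ZMod p) * ρ) := by
    rw [← h.mg hn hm hM]
    exact h.byne hf hm hfm
  constructor
  · intro W hW
    have g := j2q h.hP h.hG h.hB h.hF h.hB.hc k1 k2 (bx_rp h.hB _) (h.bxne hf hn hfn) k3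
      (h.dlB hf hA2) (hkB hA2 i0) (h.hh_eq hn hm hM hA1 hk) (hh_ceil a kap r1) W
    rw [c2] at g
    exact g hW
  · intro W hW
    have g := j2q h.hP h.hG h.hB h.hF h.hB.hc k1 k2 (bx_rp h.hB _) (h.bxne hf hn hfn) k3
      (h.dlT hf hA2) (hkT hA2 i0) (h.hh_eq hn hm hM hA1 hk) (hh_ceil a kap r1) W
    rw [c3, c5] at g
    exact g hW

theorem ind_ceil' (a : ℕ) (s : ℤ) (k : ℤ) (t : ℝ) :
    s * Helper10.KE.ind (p : ℝ) (k : ℝ) (a : ℝ) t =
      s * Helper10.KE.ind (p : ℝ) (k : ℝ) (a : ℝ) ((⌈t⌉ : ℤ) : ℝ) := by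
  rw [hind_ceil]

/-- static right side which is not merged: the complete rule -/
theorem MS.rq_R (h : MS p q a b c z i0 ρ θ δ) {n f : ℕ} (hn0 : 0 < n) (hn : n < p)
    (hf0 : 0 < f) (hf : f < p) (hfn : f ≠ n)
    (hU : ∀ m : ℕ, m ≤ p → ¬ Mg b c θ n m) {x1 r1 x2 r2 : ℤ} (hA1 : At ρ θ n x1 r1)
    (hA2 : At ρ θ f x2 r2) :
    RUq p a b ((δ : ℝ) / q) (fun w => 1 * Helper10.KE.ind p r1 a w)
      (fun w => 1 * Helper10.KE.ind p r1 a w) ((x1 : ℝ) / q) ((x2 : ℝ) / q + r2) r2 (-1) ∧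
    RUq p a b ((δ : ℝ) / q) (fun w => 1 * Helper10.KE.ind p r1 a w)
      (fun w => 1 * Helper10.KE.ind p r1 a w) ((x1 : ℝ) / q)
      ((x2 : ℝ) / q + r2 + a) (r2 + a) 1 := by
  have hab := h.hP.hab
  have hS := h.free_R hn0 hn hU
  have hUz : ∀ m, byy q b c z m ≠ bx q c z (i0 + (n : ZMod p) * ρ) := by
    intro m h1
    obtain ⟨k, hk, rfl⟩ := ap_row h.hAP m
    exact hU k hk.le ((h.mg_iff hn hk).1 h1)
  have hkv : ∀ W : ℤ, 1 * Helper10.KE.ind (p : ℝ) (r1 : ℝ) (a : ℝ) (W : ℝ) =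
      KV q a b c z (bx q c z (i0 + (n : ZMod p) * ρ)) (i0 + (W : ZMod p)) := by
    intro W
    rw [kv_R h.hG hUz, hind_int (p := p) r1 W a (by omega), ind_congr (hkR hA1 i0 W), one_mul]
  refine h.rq hf0 hf hA2 (s := c) h.hB.hc (X := bx q c z (i0 + (n : ZMod p) * ρ)) ?_ ?_
    (bx_rp h.hB _) (h.bxne hf hn hfn) (hUz _) hkv (ind_ceil' a 1 r1) ?_
    (ind_ceil' a 1 r1) ?_
  · rw [← h.zn hn hA1]
    exact h.rinj hn hf (fun h1 => hfn h1.symm)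
  · rw [← h.zn hn hA1]
    unfold bx
    ring
  · intro W
    rw [kv_free hS]
    exact hkv W
  · intro d W
    exact gg_block h.hP h.hB h.hAP h.hδ0 h.hδM h.hδ (bx_rp h.hB _) hS h.hB.hc d W

/-- static left side which is not merged: the complete rule -/
theorem MS.rq_L (h : MS p q a b c z i0 ρ θ δ) {n f : ℕ} (hn0 : 0 < n) (hn : n < p)
    (hf0 : 0 < f) (hf : f < p) (hfn : f ≠ n)
    (hU : ∀ m : ℕ, m ≤ p → ¬ Mg b c θ m n) {x1 r1 x2 r2 : ℤ} (hA1 : At ρ θ n x1 r1)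
    (hA2 : At ρ θ f x2 r2) :
    RUq p a b ((δ : ℝ) / q) (fun w => (-1) * Helper10.KE.ind p (r1 + b) a w)
      (fun w => (-1) * Helper10.KE.ind p (r1 + b) a w) ((x1 : ℝ) / q - b)
      ((x2 : ℝ) / q + r2) r2 (-1) ∧
    RUq p a b ((δ : ℝ) / q) (fun w => (-1) * Helper10.KE.ind p (r1 + b) a w)
      (fun w => (-1) * Helper10.KE.ind p (r1 + b) a w) ((x1 : ℝ) / q - b)
      ((x2 : ℝ) / q + r2 + a) (r2 + a) 1 := by
  have hab := h.hP.hab
  have hq0 : (q : ℝ) ≠ 0 := by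
    have := NeZero.ne q
    exact_mod_cast this
  have c1 : ((x1 - b * q : ℤ) : ℝ) / q = (x1 : ℝ) / q - b := by push_cast; field_simp
  have c4 : ((r1 + b : ℤ) : ℝ) = (r1 : ℝ) + b := by push_cast; ring
  have hS := h.free_L hn0 hn hU
  have hUz : ∀ m, bx q c z m ≠ byy q b c z (i0 + (n : ZMod p) * ρ) := by
    intro m h1
    obtain ⟨k, hk, rfl⟩ := ap_row h.hAP m
    exact hU k hk.le ((h.mg_iff hk hn).1 h1.symm)
  have hkv : ∀ W : ℤ, (-1) * Helper10.KE.ind (p : ℝ) ((r1 + b : ℤ) : ℝ) (a : ℝ) (W : ℝ) =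
      KV q a b c z (byy q b c z (i0 + (n : ZMod p) * ρ)) (i0 + (W : ZMod p)) := by
    intro W
    rw [kv_L h.hG hUz, hind_int (p := p) (r1 + b) W a (by omega),
      ind_congr (hkL' (r := r1 + b) (i0 := i0) (by
        rw [hA1.hr]
        push_cast
        ring) W)]
    ring
  have g := h.rq hf0 hf hA2 (s := 1 - c) (by omega) (vX := x1 - b * q)
    (X := byy q b c z (i0 + (n : ZMod p) * ρ)) (hv := fun w => (-1) *
      Helper10.KE.ind (p : ℝ) ((r1 + b : ℤ) : ℝ) (a : ℝ) w) (hv' := fun w => (-1) *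
      Helper10.KE.ind (p : ℝ) ((r1 + b : ℤ) : ℝ) (a : ℝ) w) ?_ ?_
    (by_rp h.hB _) (hUz _) (h.byne hf hn hfn) hkv (ind_ceil' a (-1) (r1 + b)) ?_
    (ind_ceil' a (-1) (r1 + b)) ?_
  · rw [c1, c4] at g
    exact g
  · have e1 : z i0 + ((x1 - b * q : ℤ) : ZMod (p * q)) =
        z (i0 + (n : ZMod p) * ρ) - (b : ZMod (p * q)) * (q : ZMod (p * q)) := by
      rw [h.zn hn hA1]
      push_cast
      ring
    rw [e1, map_sub, res_bq, sub_zero]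
    exact h.rinj hn hf (fun h1 => hfn h1.symm)
  · unfold byy
    rw [h.zn hn hA1]
    push_cast
    ring
  · intro W
    rw [kv_free hS]
    exact hkv W
  · intro d W
    exact gg_block h.hP h.hB h.hAP h.hδ0 h.hδM h.hδ (by_rp h.hB _) hS (by omega) d W

/-- static right side which is not merged: usual rule -/
theorem MS.frR (h : MS p q a b c z i0 ρ θ δ) {n f : ℕ} (hn0 : 0 < n) (hn : n < p)
    (hf0 : 0 < f) (hf : f < p) (hfn : f ≠ n)
    (hU : ∀ m : ℕ, m ≤ p → ¬ Mg b c θ n m) {x1 r1 x2 r2 : ℤ} (hA1 : At ρ θ n x1 r1)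
    (hA2 : At ρ θ f x2 r2) :
    Helper10.KE.FRl p a b ((δ : ℝ) / q) ((x1 : ℝ) / q) r1 ((x2 : ℝ) / q + r2) r2 ∧
    Helper10.KE.FRl p a b ((δ : ℝ) / q) ((x1 : ℝ) / q) r1 ((x2 : ℝ) / q + r2 + a) (r2 + a) := by
  obtain ⟨h1, h2⟩ := h.rq_R hn0 hn hf0 hf hfn hU hA1 hA2
  exact ⟨h1.frl (Or.inl rfl) (Or.inr rfl), h2.frl (Or.inl rfl) (Or.inl rfl)⟩

/-- static left side which is not merged: usual rule -/
theorem MS.frL (h : MS p q a b c z i0 ρ θ δ) {n f : ℕ} (hn0 : 0 < n) (hn : n < p)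
    (hf0 : 0 < f) (hf : f < p) (hfn : f ≠ n)
    (hU : ∀ m : ℕ, m ≤ p → ¬ Mg b c θ m n) {x1 r1 x2 r2 : ℤ} (hA1 : At ρ θ n x1 r1)
    (hA2 : At ρ θ f x2 r2) :
    Helper10.KE.FRl p a b ((δ : ℝ) / q) ((x1 : ℝ) / q - b) (r1 + b) ((x2 : ℝ) / q + r2) r2 ∧
    Helper10.KE.FRl p a b ((δ : ℝ) / q) ((x1 : ℝ) / q - b) (r1 + b) ((x2 : ℝ) / q + r2 + a)
      (r2 + a) := by
  obtain ⟨h1, h2⟩ := h.rq_L hn0 hn hf0 hf hfn hU hA1 hA2
  exact ⟨h1.frl (Or.inr rfl) (Or.inr rfl), h2.frl (Or.inr rfl) (Or.inl rfl)⟩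

end

end Helper55.KE
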