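import Pool.Agent.Helper55.KE.FR

set_option autoImplicit false
set_option linter.unusedSectionVars false

/-!
# The block model

The right sides lie in positions `c` modulo `p` and the left sides in positions `1 - c`, so a block
`X`, `X + 1`, ..., `X + p - 1` with `p ∣ X.val` contains lines at its first two positions only.
We use the triangle count at block positions only.
-/

namespace Helper55.KE

open Helper11.N1
open Helper11.N1.DECaux (ind ite_ind ind_and ind_congr ind_pos ind_neg)

/-- reduction modulo `p` -/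
def rp (p q : ℕ) : ZMod (p * q) →+* ZMod p := ZMod.castHom (Dvd.intro q rfl) (ZMod p)

/-- the positions of the sides modulo `p` -/
structure Blk {p : ℕ} (q b c : ℕ) (z : ZMod p → ZMod (p * q)) : Prop where
  hc : c ≤ 1
  hx : ∀ j, rp p q (z j) = (c : ZMod p)
  hy : ∀ j, rp p q (z j - (b : ZMod (p * q)) * (q : ZMod (p * q))) = ((1 - c : ℕ) : ZMod p)

section

variable {p q a b c : ℕ} [NeZero p] [NeZero q]

theorem rp_zero_iff (X : ZMod (p * q)) : rp p q X = 0 ↔ p ∣ X.val := by
  have h : rp p q X = ((X.val : ℕ) : ZMod p) := by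
    conv_lhs => rw [← ZMod.natCast_zmod_val X]
    rw [map_natCast]
  rw [h, ZMod.natCast_eq_zero_iff]

/-- block position of the right side -/
def bx (q c : ℕ) (z : ZMod p → ZMod (p * q)) (j : ZMod p) : ZMod (p * q) := z j - (c : ZMod (p * q))

/-- block position of the left side -/
def byy (q b c : ℕ) (z : ZMod p → ZMod (p * q)) (j : ZMod p) : ZMod (p * q) :=
  z j - (b : ZMod (p * q)) * (q : ZMod (p * q)) - ((1 - c : ℕ) : ZMod (p * q))

theorem bx_rp {z : ZMod p → ZMod (p * q)} (hB : Blk q b c z) (j : ZMod p) :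
    rp p q (bx q c z j) = 0 := by
  unfold bx
  rw [map_sub, hB.hx, map_natCast, sub_self]

theorem by_rp {z : ZMod p → ZMod (p * q)} (hB : Blk q b c z) (j : ZMod p) :
    rp p q (byy q b c z j) = 0 := by
  unfold byy
  rw [map_sub, hB.hy, map_natCast, sub_self]

/-- level function of the lines at the block `X` -/
noncomputable def KV (q a b c : ℕ) (z : ZMod p → ZMod (p * q)) (X : ZMod (p * q)) (W : ZMod p) : ℤ :=
  ∑ j : ZMod p, (ind (bx q c z j = X) * ind (aR a W j) - ind (byy q b c z j = X) * ind (aL a b W j))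

/-- ordinate function of the lines at the block `X` -/
noncomputable def JV (q a b c : ℕ) (z : ZMod p → ZMod (p * q)) (X S : ZMod (p * q)) : ℤ :=
  ∑ j : ZMod p, (ind (bx q c z j = X) - ind (byy q b c z j = X)) *
    ind (off (sc q z j + 1) S < a * q)

theorem nat_ne {m n : ℕ} (hm : m < p) (hn : n < p) (h : (m : ZMod p) = (n : ZMod p)) : m = n :=
  Nat.ModEq.eq_of_lt_of_lt ((ZMod.natCast_eq_natCast_iff m n p).1 h) hm hn

/-- where the right sides are -/
theorem x_pos (hP : Par p q a b) {z : ZMod p → ZMod (p * q)} (hB : Blk q b c z) {X : ZMod (p * q)}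
    (hX : rp p q X = 0) {m : ℕ} (hm : m < p) (j : ZMod p) :
    z j = X + (m : ZMod (p * q)) ↔ m = c ∧ bx q c z j = X := by
  have hab := hP.hab
  have ha := hP.ha
  have hc := hB.hc
  constructor
  · intro h
    have h1 := hB.hx j
    rw [h, map_add, hX, map_natCast, zero_add] at h1
    have h2 := nat_ne hm (by omega) h1
    refine ⟨h2, ?_⟩
    unfold bx
    rw [h, h2]
    ring
  · rintro ⟨rfl, h⟩
    rw [← h]
    unfold bx
    ring

/-- where the left sides are -/
theorem y_pos (hP : Par p q a b) {z : ZMod p → ZMod (p * q)} (hB : Blk q b c z) {X : ZMod (p * q)}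
    (hX : rp p q X = 0) {m : ℕ} (hm : m < p) (j : ZMod p) :
    z j - (b : ZMod (p * q)) * (q : ZMod (p * q)) = X + (m : ZMod (p * q)) ↔
      m = 1 - c ∧ byy q b c z j = X := by
  have hab := hP.hab
  have ha := hP.ha
  have hc := hB.hc
  constructor
  · intro h
    have h1 := hB.hy j
    rw [h, map_add, hX, map_natCast, zero_add] at h1
    have h2 := nat_ne hm (by omega) h1
    refine ⟨h2, ?_⟩
    unfold byy
    rw [h, h2]
    ring
  · rintro ⟨rfl, h⟩
    rw [← h]
    unfold byy
    ring

/-- the step inside a block -/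
theorem bstep (hP : Par p q a b) {z : ZMod p → ZMod (p * q)} (hB : Blk q b c z)
    {X : ZMod (p * q)} (hX : rp p q X = 0) (W : ZMod p) (S : ZMod (p * q)) {m : ℕ} (hm : m < p) :
    FF q a b z (X + ((m + 1 : ℕ) : ZMod (p * q))) W S - FF q a b z (X + (m : ZMod (p * q))) W S =
      ind (m = c) * ∑ j : ZMod p, ind (bx q c z j = X) *
        (ind (aR a W j) - ind (off (sc q z j + 1) S < a * q)) +
      ind (m = 1 - c) * ∑ j : ZMod p, ind (byy q b c z j = X) *
        (ind (off (sc q z j + 1) S < a * q) - ind (aL a b W j)) := by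
  have h1 := xstep hP z (X + (m : ZMod (p * q))) W S
  have e1 : X + (m : ZMod (p * q)) + 1 = X + ((m + 1 : ℕ) : ZMod (p * q)) := by push_cast; ring
  rw [e1] at h1
  rw [h1, Finset.mul_sum, Finset.mul_sum, ← Finset.sum_add_distrib]
  apply Finset.sum_congr rfl
  intro j _
  rw [ind_congr (x_pos hP hB hX hm j), ind_congr (y_pos hP hB hX hm j), ind_and, ind_and]
  ring

/-- the jump over a block -/
theorem bjump (hP : Par p q a b) {z : ZMod p → ZMod (p * q)} (hB : Blk q b c z)
    {X : ZMod (p * q)} (hX : rp p q X = 0) (W : ZMod p) (S : ZMod (p * q)) :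
    FF q a b z (X + (p : ZMod (p * q))) W S - FF q a b z X W S =
      KV q a b c z X W - JV q a b c z X S := by
  have hab := hP.hab
  have ha := hP.ha
  have hc := hB.hc
  have h0 : ∀ m : ℕ, 2 ≤ m → m ≤ p → FF q a b z (X + (m : ZMod (p * q))) W S =
      FF q a b z (X + ((2 : ℕ) : ZMod (p * q))) W S := by
    intro m h2
    induction m, h2 using Nat.le_induction with
    | base => intro _; rfl
    | succ m hm ih =>
      intro hmp
      have h3 := bstep hP hB hX W S (m := m) (by omega)
      have h4 : ¬ (m = c) := by omega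
      have h5 : ¬ (m = 1 - c) := by omega
      rw [ind_neg h4, ind_neg h5] at h3
      rw [← ih (by omega)]
      linarith
  have h1 := bstep hP hB hX W S (m := 0) (by omega)
  have h2 := bstep hP hB hX W S (m := 1) (by omega)
  have h3 := h0 p (by omega) le_rfl
  rw [Nat.cast_zero, add_zero] at h1
  rw [h3]
  have e1 : ((0 + 1 : ℕ) : ZMod (p * q)) = ((1 : ℕ) : ZMod (p * q)) := rfl
  have e2 : ((1 + 1 : ℕ) : ZMod (p * q)) = ((2 : ℕ) : ZMod (p * q)) := rfl
  rw [e1] at h1
  rw [e2] at h2
  have h4 : KV q a b c z X W - JV q a b c z X S = (∑ j : ZMod p, ind (bx q c z j = X) *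
        (ind (aR a W j) - ind (off (sc q z j + 1) S < a * q))) +
      ∑ j : ZMod p, ind (byy q b c z j = X) *
        (ind (off (sc q z j + 1) S < a * q) - ind (aL a b W j)) := by
    unfold KV JV
    rw [← Finset.sum_sub_distrib, ← Finset.sum_add_distrib]
    apply Finset.sum_congr rfl
    intro j _
    ring
  rw [h4]
  rcases (by omega : c = 0 ∨ c = 1) with rfl | rfl
  · have f1 : ind ((0 : ℕ) = 0) = 1 := ind_pos rfl
    have f2 : ind ((0 : ℕ) = 1 - 0) = 0 := ind_neg (by omega)
    have f3 : ind ((1 : ℕ) = 0) = 0 := ind_neg (by omega)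
    have f4 : ind ((1 : ℕ) = 1 - 0) = 1 := ind_pos rfl
    rw [f1, f2] at h1
    rw [f3, f4] at h2
    linarith
  · have f1 : ind ((0 : ℕ) = 1) = 0 := ind_neg (by omega)
    have f2 : ind ((0 : ℕ) = 1 - 1) = 1 := ind_pos rfl
    have f3 : ind ((1 : ℕ) = 1) = 1 := ind_pos rfl
    have f4 : ind ((1 : ℕ) = 1 - 1) = 0 := ind_neg (by omega)
    rw [f1, f2] at h1
    rw [f3, f4] at h2
    linarith

/-- a cluster without line at the block: the block does not change its column -/
theorem same_col (hP : Par p q a b) {z : ZMod p → ZMod (p * q)} (hB : Blk q b c z)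
    {X : ZMod (p * q)} (hX : rp p q X = 0) {f : ZMod p} (h1 : bx q c z f ≠ X)
    (h2 : byy q b c z f ≠ X) :
    ∀ m : ℕ, m ≤ p → ind (off (X + (m : ZMod (p * q))) (z f) < b * q) =
      ind (off X (z f) < b * q) := by
  intro m
  induction m with
  | zero => intro _; rw [Nat.cast_zero, add_zero]
  | succ m ih =>
    intro hm
    have h3 := jstep hP (X + (m : ZMod (p * q))) (z f)
    have e1 : X + (m : ZMod (p * q)) + 1 = X + ((m + 1 : ℕ) : ZMod (p * q)) := by push_cast; ring
    have g1 : ¬ (m = c ∧ bx q c z f = X) := fun h => h1 h.2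
    have g2 : ¬ (m = 1 - c ∧ byy q b c z f = X) := fun h => h2 h.2
    rw [e1, ih (by omega), ind_congr (x_pos hP hB hX (by omega) f),
      ind_congr (y_pos hP hB hX (by omega) f), ind_neg g1, ind_neg g2] at h3
    linarith

/-- residues modulo `q` of the block positions of a line -/
theorem line_sc (hP : Par p q a b) {z : ZMod p → ZMod (p * q)} (hG : Gen q z) {j f : ZMod p}
    (hjf : j ≠ f) {d : ZMod (p * q)} (hd : res p q d = res p q (z f)) :
    ind (off (sc q z j + 1) (d + 1) < a * q) = ind (off (sc q z j + 1) d < a * q) := by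
  have hM := one_lt_mul hP
  obtain ⟨haq, hbq, habq, h2a, h2b⟩ := lt_mul_of hP
  have hq1 := hP.hq
  have h5 := arc_step hM (sc q z j) d (d := a * q) (by omega) haq
  have h6 : ¬ (sc q z j = d) := by
    intro h
    apply hjf
    apply gen_res p q hG
    rw [← hd, ← h, res_sc]
  have h7 : ¬ (sc q z j + ((a * q : ℕ) : ZMod (p * q)) = d) := by
    intro h
    apply hjf
    apply gen_res p q hG
    rw [← hd, ← h, map_add, res_sc]
    push_cast
    rw [res_bq, add_zero]
  rw [ind_neg h6, ind_neg h7] at h5
  linarith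

/-- the ordinate function is constant across the diagonal line of a cluster without line at the
block -/
theorem jv_succ (hP : Par p q a b) {z : ZMod p → ZMod (p * q)} (hG : Gen q z) {f : ZMod p}
    {X d : ZMod (p * q)} (hd : res p q d = res p q (z f)) (h1 : bx q c z f ≠ X)
    (h2 : byy q b c z f ≠ X) : JV q a b c z X (d + 1) = JV q a b c z X d := by
  unfold JV
  apply Finset.sum_congr rfl
  intro j _
  by_cases hj : j = f
  · rw [hj, ind_neg h1, ind_neg h2]
    ring
  · rw [line_sc hP hG hj hd]

/-- crossing of a vertical line: the side function -/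
theorem vside' (hP : Par p q a b) {z : ZMod p → ZMod (p * q)} (hG : Gen q z) {j f : ZMod p}
    (hjf : j ≠ f) {v : ZMod (p * q)} {kv : ZMod p → Prop} {sv : ℤ} (hV : VL q a b z j v kv sv)
    {d : ZMod (p * q)} (hd : res p q d = res p q (z f)) (W0 : ZMod p) {r : ℕ} (hr : r ≤ q)
    (hW : d + (r : ZMod (p * q)) = v + e p q W0) :
    off (sc q z j + 1) d < a * q ↔ kv W0 := by
  rcases Nat.lt_or_ge r q with h | h
  · exact vside hP hV d W0 h hW
  · exfalso
    have h1 : r = q := by omega
    apply hjf
    apply gen_res p q hG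
    have h2 := congrArg (res p q) hW
    rw [map_add, map_add, res_e, add_zero, vl_res hV, hd, h1, map_natCast, ZMod.natCast_self,
      add_zero] at h2
    exact h2.symm

/-- the value of the ordinate function is the value of the level function at the crossing level -/
theorem jv_cross (hP : Par p q a b) {z : ZMod p → ZMod (p * q)} (hG : Gen q z) (hB : Blk q b c z)
    {f : ZMod p} {X d : ZMod (p * q)} (hX : rp p q X = 0) (hd : res p q d = res p q (z f))
    (h1 : bx q c z f ≠ X) (h2 : byy q b c z f ≠ X) (W0 : ZMod p) {r : ℕ} (hr : r < q)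
    (hW : d + (r : ZMod (p * q)) = X + e p q W0) :
    JV q a b c z X d = KV q a b c z X W0 := by
  have hc := hB.hc
  have hab := hP.hab
  have ha := hP.ha
  unfold JV KV
  apply Finset.sum_congr rfl
  intro j _
  by_cases hj : j = f
  · rw [hj, ind_neg h1, ind_neg h2]
    ring
  · have e1 : ind (bx q c z j = X) * ind (off (sc q z j + 1) d < a * q) =
        ind (bx q c z j = X) * ind (aR a W0 j) := by
      by_cases h3 : bx q c z j = X
      · have h4 := (x_pos hP hB hX (m := c) (by omega) j).2 ⟨rfl, h3⟩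
        have h5 := vside' hP hG hj (v := z j) (kv := fun W => aR a W j) (sv := 1)
          (Or.inl ⟨rfl, rfl, rfl⟩) hd W0 (r := r + c) (by omega) (by
            rw [h4]
            push_cast
            linear_combination hW)
        rw [ind_congr h5]
      · rw [ind_neg h3]
        ring
    have e2 : ind (byy q b c z j = X) * ind (off (sc q z j + 1) d < a * q) =
        ind (byy q b c z j = X) * ind (aL a b W0 j) := by
      by_cases h3 : byy q b c z j = X
      · have h4 := (y_pos hP hB hX (m := 1 - c) (by omega) j).2 ⟨rfl, h3⟩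
        have h5 := vside' hP hG hj
          (v := z j - (b : ZMod (p * q)) * (q : ZMod (p * q))) (kv := fun W => aL a b W j)
          (sv := -1) (Or.inr ⟨rfl, rfl, rfl⟩) hd W0 (r := r + (1 - c)) (by omega) (by
            rw [h4]
            push_cast
            linear_combination hW)
        rw [ind_congr h5]
      · rw [ind_neg h3]
        ring
    rw [sub_mul, e1, e2]

/-- `dside` with `r ≤ q` -/
theorem dside' (hP : Par p q a b) {z : ZMod p → ZMod (p * q)} {j : ZMod p}
    {d : ZMod (p * q)} {kd : ZMod p → Prop} {sd : ℤ} (hD : DL q a b z j d kd sd)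
    (v : ZMod (p * q)) (W0 : ZMod p) {r : ℕ} (hr0 : 0 < r) (hr : r ≤ q)
    (hW : d + (r : ZMod (p * q)) = v + e p q W0) :
    off v (z j) < b * q ↔ kd W0 := by
  have hb := hP.hb
  have hab := hP.hab
  rcases hD with ⟨rfl, rfl, rfl⟩ | ⟨rfl, rfl, rfl⟩
  · have h1 := side_aux (q := q) (c := b) (by omega) (by omega) v (W0 - j) (r := r) hr0 hr
    have h2 : v + e p q (W0 - j) - (r : ZMod (p * q)) = z j := by
      unfold sc at hW
      rw [e_sub]
      linear_combination -hW
    rw [h2] at h1
    rw [h1]
    have h3 : W0 - 1 - j = W0 - j - 1 := by ring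
    show _ ↔ (W0 - 1 - j).val < b
    rw [h3]
  · have h1 := side_aux (q := q) (c := b) (by omega) (by omega) v (W0 - (a : ZMod p) - j)
      (r := r) hr0 hr
    have h2 : v + e p q (W0 - (a : ZMod p) - j) - (r : ZMod (p * q)) = z j := by
      unfold sc at hW
      rw [e_sub, e_sub, e_ab]
      linear_combination -hW
    rw [h2] at h1
    rw [h1]
    have h3 : W0 - (a : ZMod p) - 1 - j = W0 - (a : ZMod p) - j - 1 := by ring
    show _ ↔ (W0 - (a : ZMod p) - 1 - j).val < b
    rw [h3]

/-- the column of the cluster of the diagonal line at the crossing -/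
theorem d_cross (hP : Par p q a b) {z : ZMod p → ZMod (p * q)} (hB : Blk q b c z)
    {f : ZMod p} {X : ZMod (p * q)} (hX : rp p q X = 0)
    (h1 : bx q c z f ≠ X) (h2 : byy q b c z f ≠ X)
    {d : ZMod (p * q)} {kd : ZMod p → Prop} {sd : ℤ} (hD : DL q a b z f d kd sd)
    (W0 : ZMod p) {r : ℕ} (hr : r < q) (hW : d + (r : ZMod (p * q)) = X + e p q W0) :
    ind (off X (z f) < b * q) = ind (kd W0) := by
  have hab := hP.hab
  have ha := hP.ha
  rcases Nat.eq_zero_or_pos r with h | h
  · have h3 := same_col hP hB hX h1 h2 1 (by omega)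
    rw [← h3]
    apply ind_congr
    refine dside' hP hD _ W0 (r := 1) (by omega) (by omega) ?_
    rw [h, Nat.cast_zero, add_zero] at hW
    rw [hW]
    push_cast
    ring
  · exact ind_congr (dside' hP hD X W0 h hr.le hW)

/-- the four values at a crossing -/
theorem quad1 (hP : Par p q a b) {z : ZMod p → ZMod (p * q)} (hG : Gen q z) (hB : Blk q b c z)
    {f : ZMod p} {X : ZMod (p * q)} (hX : rp p q X = 0)
    (h1 : bx q c z f ≠ X) (h2 : byy q b c z f ≠ X)
    {d : ZMod (p * q)} {kd : ZMod p → Prop} {sd : ℤ} (hD : DL q a b z f d kd sd)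
    (W0 W : ZMod p) {r : ℕ} (hr : r < q) (hW : d + (r : ZMod (p * q)) = X + e p q W0) :
    FF q a b z (X + (p : ZMod (p * q))) W d =
      FF q a b z X W d + (KV q a b c z X W - KV q a b c z X W0) ∧
    FF q a b z X W (d + 1) = FF q a b z X W d + sd * (ind (kd W) - ind (kd W0)) ∧
    FF q a b z (X + (p : ZMod (p * q))) W (d + 1) =
      FF q a b z X W d + (KV q a b c z X W - KV q a b c z X W0) +
        sd * (ind (kd W) - ind (kd W0)) := by
  have g1 := bjump hP hB hX W d
  have g2 := bjump hP hB hX W (d + 1)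
  have g3 := djump hP hG hD X W
  rw [jv_succ hP hG (dl_res hD) h1 h2] at g2
  rw [jv_cross hP hG hB hX (dl_res hD) h1 h2 W0 hr hW] at g1 g2
  rw [d_cross hP hB hX h1 h2 hD W0 hr hW] at g3
  refine ⟨by linarith, by linarith, by linarith⟩

end

end Helper55.KE
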