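import Pool.Agent.Helper55.KE.ML

set_option autoImplicit false
set_option linter.unusedSectionVars false

/-!
# The length of the move is more than `1` if the tie index is at least `2`
-/

namespace Helper55.KE

open Helper11.N1

section

variable {p q a b c : ℕ} [NeZero p] [NeZero q] {z : ZMod p → ZMod (p * q)} {i0 ρ : ZMod p}
  {θ : ZMod (p * q)} {δ l : ℕ} {k : ℤ}

theorem small_aux {p q l d : ℕ} (hl2 : 2 ≤ l) (hl : l < p) (hpq : p < q) (hd : 0 < d)
    (hdq : p * d ≤ q) : ¬ (q : ℤ) ∣ l * d + 1 ∧ ¬ (q : ℤ) ∣ l * d - 1 := by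
  have h1 : l * d + d ≤ p * d := by
    calc l * d + d = (l + 1) * d := by ring
      _ ≤ p * d := Nat.mul_le_mul_right d hl
  have h2 : 2 * d ≤ l * d := Nat.mul_le_mul_right d hl2
  constructor
  · intro h
    have h3 : (q : ℤ) ∣ ((l * d + 1 : ℕ) : ℤ) := by exact_mod_cast h
    have h4 : q ∣ l * d + 1 := by exact_mod_cast h3
    have h5 := Nat.le_of_dvd (by omega) h4
    have h6 : d = 1 := by omega
    subst h6
    omega
  · intro h
    have h3 : (q : ℤ) ∣ ((l * d - 1 : ℕ) : ℤ) := by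
      rw [Nat.cast_sub (by omega)]
      exact_mod_cast h
    have h4 : q ∣ l * d - 1 := by exact_mod_cast h3
    have h5 := Nat.le_of_dvd (by omega) h4
    omega

theorem LS.big (h : LS p q a b c z i0 ρ θ δ l k) (hl2 : 2 ≤ l) : q < δ ∧ δ + q < p * q := by
  have hl := h.hl
  have hpq := h.hpq
  have hab := h.hP.hab
  have hδ0 := h.hδ0
  have hδM := h.hδM
  obtain ⟨d, hd⟩ := h.dvd
  have hd0 : 0 < d := by
    rcases Nat.eq_zero_or_pos d with h1 | h1
    · rw [h1, mul_zero] at hd
      omega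
    · exact h1
  have hp0 : 0 < p := by omega
  have hdq : d < q := by
    rw [hd] at hδM
    exact Nat.lt_of_mul_lt_mul_left hδM
  -- the residue of `θ`
  have hres : res p q θ = (d : ZMod q) := by
    have h1 := h.hδ
    have h2 : (((p * d : ℤ) - p * (θ.val : ℤ) : ℤ) : ZMod (p * q)) = 0 := by
      rw [hd] at h1
      push_cast at h1 ⊢
      rw [ZMod.natCast_zmod_val, h1]
      ring
    rw [ZMod.intCast_zmod_eq_zero_iff_dvd] at h2
    have h3 : (q : ℤ) ∣ (d : ℤ) - (θ.val : ℤ) := by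
      have h4 : (p : ℤ) * q ∣ p * ((d : ℤ) - (θ.val : ℤ)) := by
        have e1 : (p : ℤ) * ((d : ℤ) - (θ.val : ℤ)) = (p * d : ℤ) - p * (θ.val : ℤ) := by ring
        rw [e1]
        exact_mod_cast h2
      exact (mul_dvd_mul_iff_left (by exact_mod_cast hp0.ne')).1 h4
    have h5 : res p q θ = ((θ.val : ℕ) : ZMod q) := by
      conv_lhs => rw [← ZMod.natCast_zmod_val θ]
      rw [map_natCast]
    rw [h5]
    rw [← ZMod.intCast_zmod_eq_zero_iff_dvd] at h3
    push_cast at h3
    exact (sub_eq_zero.1 h3).symm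
  have hlθ := h.lθ
  rw [hres] at hlθ
  have hdv : (q : ℤ) ∣ l * d + (1 - 2 * c) := by
    rw [← ZMod.intCast_zmod_eq_zero_iff_dvd]
    push_cast at hlθ ⊢
    linear_combination hlθ
  constructor
  · by_contra hcon
    have h1 := small_aux hl2 hl hpq hd0 (by omega : p * d ≤ q)
    rcases h.eps with ⟨h2, _⟩ | ⟨h2, _⟩
    · rw [h2] at hdv
      exact h1.1 hdv
    · rw [h2] at hdv
      exact h1.2 hdv
  · by_contra hcon
    obtain ⟨e, he⟩ : ∃ e, q = d + e := ⟨q - d, by omega⟩
    have h0 : p * q = p * d + p * e := by rw [he, mul_add]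
    have h1 := small_aux (d := e) hl2 hl hpq (by omega) (by omega : p * e ≤ q)
    have h3 : (q : ℤ) ∣ l * e - (1 - 2 * c) := by
      have h4 : (q : ℤ) ∣ (l : ℤ) * q - (l * d + (1 - 2 * c)) := dvd_sub ⟨l, by ring⟩ hdv
      have e1 : (l : ℤ) * q - (l * d + (1 - 2 * c)) = l * e - (1 - 2 * c) := by
        have : (q : ℤ) = d + e := by exact_mod_cast he
        rw [this]
        ring
      rwa [e1] at h4
    rcases h.eps with ⟨h2, _⟩ | ⟨h2, _⟩
    · rw [h2] at h3
      exact h1.2 h3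
    · rw [h2] at h3
      exact h1.1 (by simpa using h3)

end

end Helper55.KE
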