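import Pool.Agent.Helper55.KE.MBlk

set_option autoImplicit false
set_option linter.unusedSectionVars false

/-!
# The block model: two windows
-/

namespace Helper55.KE

open Helper11.N1
open Helper11.N1.DECaux (ind ite_ind ind_and ind_congr ind_pos ind_neg)

section

variable {p q a b c : ℕ} [NeZero p] [NeZero q] {z : ZMod p → ZMod (p * q)} {i0 ρ : ZMod p}
  {θ : ZMod (p * q)}

theorem rp_e (W : ZMod p) : rp p q (e p q W) = (q : ZMod p) * W := by
  have h : e p q W = ((q * W.val : ℕ) : ZMod (p * q)) := rfl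
  rw [h, map_natCast]
  push_cast
  rw [ZMod.natCast_zmod_val]

/-- the step of the progression is a block position -/
theorem rp_theta (hP : Par p q a b) (hB : Blk q b c z) (hAP : AP q z i0 ρ θ) : rp p q θ = 0 := by
  have hab := hP.hab
  have ha := hP.ha
  have h1 := hAP.2 1 (by omega)
  have h2 := hB.hx (i0 + ((1 : ℕ) : ZMod p) * ρ)
  rw [h1, map_add, hB.hx i0, Nat.cast_one, one_mul] at h2
  linear_combination h2

theorem blk_shift (hB : Blk q b c z) {θ : ZMod (p * q)} (hθ : rp p q θ = 0) (ρ : ZMod p) :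
    Blk q b c (fun j => z (j - ρ) + θ) := by
  refine ⟨hB.hc, fun j => ?_, fun j => ?_⟩
  · rw [map_add, hB.hx, hθ, add_zero]
  · have h : z (j - ρ) + θ - (b : ZMod (p * q)) * (q : ZMod (p * q)) =
        z (j - ρ) - (b : ZMod (p * q)) * (q : ZMod (p * q)) + θ := by ring
    rw [h, map_add, hB.hy, hθ, add_zero]

theorem blk_update (hP : Par p q a b) (hB : Blk q b c z) (hAP : AP q z i0 ρ θ) :
    Blk q b c (Function.update z i0 (z i0 + (p : ZMod (p * q)) * θ)) := by
  rw [update_eq hAP]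
  exact blk_shift hB (rp_theta hP hB hAP) ρ

theorem bflat_update (hP : Par p q a b) (hB : Blk q b c z) (hAP : AP q z i0 ρ θ)
    (hF : ∀ X W S, rp p q X = 0 → |FF q a b z X W S| ≤ 1) :
    ∀ X W S, rp p q X = 0 →
      |FF q a b (Function.update z i0 (z i0 + (p : ZMod (p * q)) * θ)) X W S| ≤ 1 := by
  intro X W S hX
  rw [update_eq hAP, ff_translate]
  apply hF
  rw [map_sub, hX, rp_theta hP hB hAP, sub_self]

theorem bx_update {f : ZMod p} (hf : f ≠ i0) (u : ZMod (p * q)) :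
    bx q c (Function.update z i0 u) f = bx q c z f := by
  unfold bx
  rw [Function.update_of_ne hf]

theorem byy_update {f : ZMod p} (hf : f ≠ i0) (u : ZMod (p * q)) :
    byy q b c (Function.update z i0 u) f = byy q b c z f := by
  unfold byy
  rw [Function.update_of_ne hf]

/-- the level functions of the two windows -/
theorem kv_update (u : ZMod (p * q)) (X : ZMod (p * q)) (W : ZMod p) :
    KV q a b c (Function.update z i0 (z i0 + u)) X W - KV q a b c z X W =
      (ind (bx q c z i0 + u = X) - ind (bx q c z i0 = X)) * ind (aR a W i0) -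
        (ind (byy q b c z i0 + u = X) - ind (byy q b c z i0 = X)) * ind (aL a b W i0) := by
  unfold KV
  rw [← Finset.sum_sub_distrib, Finset.sum_eq_single i0]
  · have e1 : bx q c (Function.update z i0 (z i0 + u)) i0 = bx q c z i0 + u := by
      unfold bx
      rw [Function.update_self]
      ring
    have e2 : byy q b c (Function.update z i0 (z i0 + u)) i0 = byy q b c z i0 + u := by
      unfold byy
      rw [Function.update_self]
      ring
    rw [e1, e2]
    ring
  · intro j _ hj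
    rw [bx_update hj, byy_update hj, sub_self]
  · intro h
    exact absurd (Finset.mem_univ _) h

/-- the four values in both windows -/
theorem quad2 (hP : Par p q a b) (hG : Gen q z) (hB : Blk q b c z) (hAP : AP q z i0 ρ θ)
    (hF : ∀ X W S, rp p q X = 0 → |FF q a b z X W S| ≤ 1) {δ : ℕ} (hδ0 : 0 < δ) (hδM : δ < p * q)
    (hδ : (δ : ZMod (p * q)) = (p : ZMod (p * q)) * θ) {f : ZMod p} (hf : f ≠ i0)
    {X : ZMod (p * q)} (hX : rp p q X = 0) (h1 : bx q c z f ≠ X) (h2 : byy q b c z f ≠ X)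
    {d : ZMod (p * q)} {kd : ZMod p → Prop} {sd : ℤ} (hD : DL q a b z f d kd sd)
    (W0 W : ZMod p) {r : ℕ} (hr : r < q) (hW : d + (r : ZMod (p * q)) = X + e p q W0) :
    ∃ F F' J J' : ℤ, J = KV q a b c z X W - KV q a b c z X W0 ∧
      J' = KV q a b c (Function.update z i0 (z i0 + (δ : ZMod (p * q)))) X W -
        KV q a b c (Function.update z i0 (z i0 + (δ : ZMod (p * q)))) X W0 ∧
      F' - F = GG q a b z i0 δ X d W - GG q a b z i0 δ X d W0 ∧
      |F| ≤ 1 ∧ |F + J| ≤ 1 ∧ |F + sd * (ind (kd W) - ind (kd W0))| ≤ 1 ∧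
      |F + J + sd * (ind (kd W) - ind (kd W0))| ≤ 1 ∧
      |F'| ≤ 1 ∧ |F' + J'| ≤ 1 ∧ |F' + sd * (ind (kd W) - ind (kd W0))| ≤ 1 ∧
      |F' + J' + sd * (ind (kd W) - ind (kd W0))| ≤ 1 := by
  have hXp : rp p q (X + (p : ZMod (p * q))) = 0 := by
    rw [map_add, hX, map_natCast, ZMod.natCast_self, add_zero]
  have hG' := gen_update hAP hG
  have hB' := blk_update hP hB hAP
  have hF' := bflat_update hP hB hAP hF
  have h1' : bx q c (Function.update z i0 (z i0 + (p : ZMod (p * q)) * θ)) f ≠ X := by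
    rw [bx_update hf]
    exact h1
  have h2' : byy q b c (Function.update z i0 (z i0 + (p : ZMod (p * q)) * θ)) f ≠ X := by
    rw [byy_update hf]
    exact h2
  obtain ⟨g1, g2, g3⟩ := quad1 hP hG hB hX h1 h2 hD W0 W hr hW
  obtain ⟨g1', g2', g3'⟩ := quad1 hP hG' hB' hX h1' h2' (dl_update hf hD) W0 W hr hW
  have h3 := move hP z i0 hδ0 hδM X W d
  have h4 := move hP z i0 hδ0 hδM X W0 d
  rw [hδ] at h3 h4
  rw [band hP _ X W0 r hr d hW, band hP _ X W0 r hr d hW] at h4
  unfold RR at h3 h4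
  refine ⟨FF q a b z X W d,
    FF q a b (Function.update z i0 (z i0 + (p : ZMod (p * q)) * θ)) X W d, _, _, rfl, rfl, ?_,
    hF _ _ _ hX, ?_, ?_, ?_, hF' _ _ _ hX, ?_, ?_, ?_⟩
  · unfold GG
    linarith
  · rw [← g1]
    exact hF _ _ _ hXp
  · rw [← g2]
    exact hF _ _ _ hX
  · rw [← g3]
    exact hF _ _ _ hXp
  · rw [hδ, ← g1']
    exact hF' _ _ _ hXp
  · rw [← g2']
    exact hF' _ _ _ hX
  · rw [hδ, ← g3']
    exact hF' _ _ _ hXp

/-- one window: a vertical jump of `2` excludes active diagonal lines -/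
theorem jump_two (hP : Par p q a b) (hG : Gen q z) (hB : Blk q b c z)
    (hF : ∀ X W S, rp p q X = 0 → |FF q a b z X W S| ≤ 1) {f : ZMod p}
    {X : ZMod (p * q)} (hX : rp p q X = 0) (h1 : bx q c z f ≠ X) (h2 : byy q b c z f ≠ X)
    {d : ZMod (p * q)} {kd : ZMod p → Prop} {sd : ℤ} (hD : DL q a b z f d kd sd)
    (W0 W : ZMod p) {r : ℕ} (hr : r < q) (hW : d + (r : ZMod (p * q)) = X + e p q W0)
    (hk : ¬ (kd W ↔ kd W0)) : |KV q a b c z X W - KV q a b c z X W0| ≤ 1 := by
  have hXp : rp p q (X + (p : ZMod (p * q))) = 0 := by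
    rw [map_add, hX, map_natCast, ZMod.natCast_self, add_zero]
  obtain ⟨g1, g2, g3⟩ := quad1 hP hG hB hX h1 h2 hD W0 W hr hW
  have f1 := abs_le.1 (hF X W d hX)
  have f2 := abs_le.1 (hF _ W d hXp)
  have f3 := abs_le.1 (hF X W (d + 1) hX)
  have f4 := abs_le.1 (hF _ W (d + 1) hXp)
  have hkd : ind (kd W) - ind (kd W0) = 1 ∨ ind (kd W) - ind (kd W0) = -1 := by
    by_cases c1 : kd W <;> by_cases c2 : kd W0
    · exact absurd ⟨fun _ => c2, fun _ => c1⟩ hk
    · left; rw [ind_pos c1, ind_neg c2]; norm_num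
    · right; rw [ind_neg c1, ind_pos c2]; norm_num
    · exact absurd ⟨fun h => absurd h c1, fun h => absurd h c2⟩ hk
  have hsd : sd = 1 ∨ sd = -1 := by
    rcases hD with ⟨_, _, rfl⟩ | ⟨_, _, rfl⟩
    · right; rfl
    · left; rfl
  rw [abs_le]
  rcases hsd with rfl | rfl <;> rcases hkd with g4 | g4 <;> rw [g4] at g2 g3 <;>
    constructor <;> linarith

/-- two windows, the same level function, jump `± 1`: the three jump rule -/
theorem frb (hP : Par p q a b) (hG : Gen q z) (hB : Blk q b c z) (hAP : AP q z i0 ρ θ)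
    (hF : ∀ X W S, rp p q X = 0 → |FF q a b z X W S| ≤ 1) {δ : ℕ} (hδ0 : 0 < δ) (hδM : δ < p * q)
    (hδ : (δ : ZMod (p * q)) = (p : ZMod (p * q)) * θ) {f : ZMod p} (hf : f ≠ i0)
    {X : ZMod (p * q)} (hX : rp p q X = 0) (h1 : bx q c z f ≠ X) (h2 : byy q b c z f ≠ X)
    (hs : ∀ W, KV q a b c (Function.update z i0 (z i0 + (δ : ZMod (p * q)))) X W =
      KV q a b c z X W)
    {d : ZMod (p * q)} {kd : ZMod p → Prop} {sd : ℤ} (hD : DL q a b z f d kd sd)
    (W0 W : ZMod p) {r : ℕ} (hr : r < q) (hW : d + (r : ZMod (p * q)) = X + e p q W0)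
    (hk : ¬ (kd W ↔ kd W0)) (hJ : KV q a b c z X W - KV q a b c z X W0 = 1 ∨
      KV q a b c z X W - KV q a b c z X W0 = -1) :
    GG q a b z i0 δ X d W = GG q a b z i0 δ X d W0 := by
  obtain ⟨F, F', J, J', e1, e2, e3, f1, f2, f3, f4, f5, f6, f7, f8⟩ :=
    quad2 hP hG hB hAP hF hδ0 hδM hδ hf hX h1 h2 hD W0 W hr hW
  rw [hs, hs] at e2
  rw [← e1] at e2 hJ
  rw [abs_le] at f1 f2 f3 f4 f5 f6 f7 f8
  have hkd : ind (kd W) - ind (kd W0) = 1 ∨ ind (kd W) - ind (kd W0) = -1 := by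
    by_cases c1 : kd W <;> by_cases c2 : kd W0
    · exact absurd ⟨fun _ => c2, fun _ => c1⟩ hk
    · left; rw [ind_pos c1, ind_neg c2]; norm_num
    · right; rw [ind_neg c1, ind_pos c2]; norm_num
    · exact absurd ⟨fun h => absurd h c1, fun h => absurd h c2⟩ hk
  have hsd : sd = 1 ∨ sd = -1 := by
    rcases hD with ⟨_, _, rfl⟩ | ⟨_, _, rfl⟩
    · right; rfl
    · left; rfl
  rw [e2] at f6 f8
  rcases hsd with rfl | rfl <;> rcases hkd with g4 | g4 <;> rcases hJ with g5 | g5 <;>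
    rw [g4] at f3 f4 f7 f8 <;> rw [g5] at f2 f4 f6 f8 <;> omega

end

end Helper55.KE
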