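import Pool.Agent.Helper55.KE.MQuad

set_option autoImplicit false
set_option linter.unusedSectionVars false

/-!
# The block model: rules in real form
-/

namespace Helper55.KE

open Helper11.N1
open Helper11.N1.DECaux (ind ite_ind ind_and ind_congr ind_pos ind_neg)

section defs

/-- level function of a merged line: right side with arc `(k, k + a]`, left side with arc
`(k + kap, k + kap + a]` -/
noncomputable def hh (p a kap k w : ℝ) : ℤ :=
  Helper10.KE.ind p k a w - Helper10.KE.ind p (k + kap) a w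

/-- jump two rule for the merged line at `v` (right side with arc `(kv, kv + a]`) and a diagonal
line at `d` with arc `(kd, kd + b]` -/
def J2l (p a b kap v kv d kd : ℝ) : Prop :=
  ∀ W : ℤ, Helper10.KE.ind p kd b W + Helper10.KE.ind p kd b (d - v) = 1 →
    |hh p a kap kv W - hh p a kap kv (d - v)| ≤ 1

/-- three jump rule for a merged line -/
def FMl (p a b dl kap v kv d kd : ℝ) : Prop :=
  ∀ W : ℤ, Helper10.KE.ind p kd b W + Helper10.KE.ind p kd b (d - v) = 1 →
    (hh p a kap kv W - hh p a kap kv (d - v) = 1 ∨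
      hh p a kap kv W - hh p a kap kv (d - v) = -1) →
    Helper10.KE.gg p a b dl v d W = Helper10.KE.gg p a b dl v d (d - v)

/-- the four values at a crossing in both windows -/
def Q4 (J J' k G : ℤ) : Prop :=
  ∃ F : ℤ, |F| ≤ 1 ∧ |F + J| ≤ 1 ∧ |F + k| ≤ 1 ∧ |F + J + k| ≤ 1 ∧
    |F + G| ≤ 1 ∧ |F + G + J'| ≤ 1 ∧ |F + G + k| ≤ 1 ∧ |F + G + J' + k| ≤ 1

/-- the complete rule for a vertical line at `v` with level functions `hv`, `hv'` in the two windows
and a diagonal line at `d` with arc `(kd, kd + b]` and sign `sd` -/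
def RUq (p a b dl : ℝ) (hv hv' : ℝ → ℤ) (v d kd : ℝ) (sd : ℤ) : Prop :=
  ∀ W : ℤ, Q4 (hv W - hv (d - v)) (hv' W - hv' (d - v))
    (sd * (Helper10.KE.ind p kd b W - Helper10.KE.ind p kd b (d - v)))
    (Helper10.KE.gg p a b dl v d W - Helper10.KE.gg p a b dl v d (d - v))

/-- all merged line rules of the merged line of the cluster `(z₁, r₁)` against the diagonal lines of
the cluster `(z₂, r₂)` -/
structure J2c (p a b kap z₁ r₁ z₂ r₂ : ℝ) : Prop where
  mb : J2l p a b kap z₁ r₁ (z₂ + r₂) r₂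
  mt : J2l p a b kap z₁ r₁ (z₂ + r₂ + a) (r₂ + a)

structure FMc (p a b dl kap z₁ r₁ z₂ r₂ : ℝ) : Prop where
  mb : FMl p a b dl kap z₁ r₁ (z₂ + r₂) r₂
  mt : FMl p a b dl kap z₁ r₁ (z₂ + r₂ + a) (r₂ + a)

theorem ind_sum_one {p k L x y : ℝ} (h : Helper10.KE.ind p k L x + Helper10.KE.ind p k L y = 1) :
    Helper10.KE.ind p k L x - Helper10.KE.ind p k L y = 1 ∨
      Helper10.KE.ind p k L x - Helper10.KE.ind p k L y = -1 := by
  rcases Helper10.KE.ind01 p k L x with h1 | h1 <;>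
    rcases Helper10.KE.ind01 p k L y with h2 | h2 <;> omega

/-- the three jump rule for a merged line from the complete rule -/
theorem RUq.fml {p a b dl kap v kv d kd : ℝ} {sd : ℤ} (hsd : sd = 1 ∨ sd = -1)
    (h : RUq p a b dl (hh p a kap kv) (hh p a kap kv) v d kd sd) :
    FMl p a b dl kap v kv d kd := by
  intro W hk hJ
  obtain ⟨F, f1, f2, f3, f4, f5, f6, f7, f8⟩ := h W
  have hk' := ind_sum_one hk
  have key : Helper10.KE.gg p a b dl v d W - Helper10.KE.gg p a b dl v d (d - v) = 0 := by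
    rw [abs_le] at f1 f2 f3 f4 f5 f6 f7 f8
    generalize Helper10.KE.gg p a b dl v d W - Helper10.KE.gg p a b dl v d (d - v) = G at *
    rcases hsd with rfl | rfl <;> rcases hJ with g1 | g1 <;> rcases hk' with g2 | g2 <;>
      rw [g1] at f2 f4 f6 f8 <;> rw [g2] at f3 f4 f7 f8 <;> omega
  linarith

/-- the three jump rule for a usual line from the complete rule -/
theorem RUq.frl {p a b dl v kv d kd : ℝ} {sv sd : ℤ} (hsv : sv = 1 ∨ sv = -1)
    (hsd : sd = 1 ∨ sd = -1)
    (h : RUq p a b dl (fun w => sv * Helper10.KE.ind p kv a w)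
      (fun w => sv * Helper10.KE.ind p kv a w) v d kd sd) :
    Helper10.KE.FRl p a b dl v kv d kd := by
  intro W hv hk
  obtain ⟨F, f1, f2, f3, f4, f5, f6, f7, f8⟩ := h W
  have hk' := ind_sum_one hk
  have hv' := ind_sum_one hv
  have key : Helper10.KE.gg p a b dl v d W - Helper10.KE.gg p a b dl v d (d - v) = 0 := by
    simp only [← mul_sub] at f2 f4 f6 f8
    rw [abs_le] at f1 f2 f3 f4 f5 f6 f7 f8
    generalize Helper10.KE.gg p a b dl v d W - Helper10.KE.gg p a b dl v d (d - v) = G at *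
    rcases hsd with rfl | rfl <;> rcases hsv with rfl | rfl <;> rcases hv' with g1 | g1 <;>
      rcases hk' with g2 | g2 <;>
      rw [g1] at f2 f4 f6 f8 <;> rw [g2] at f3 f4 f7 f8 <;> omega
  linarith

end defs

section

variable {p q a b c : ℕ} [NeZero p] [NeZero q] {z : ZMod p → ZMod (p * q)} {i0 ρ : ZMod p}
  {θ : ZMod (p * q)}

theorem e_int (n : ℤ) : e p q (n : ZMod p) = ((n * q : ℤ) : ZMod (p * q)) := by
  obtain ⟨k, hk | hk⟩ := Int.eq_nat_or_neg n
  · rw [hk, Int.cast_natCast, e_ab]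
    push_cast
    ring
  · rw [hk, Int.cast_neg, Int.cast_natCast, e_neg, e_ab]
    push_cast
    ring

/-- the crossing level -/
theorem level_exists (z : ZMod p → ZMod (p * q)) (i0 : ZMod p) (vX dX : ℤ) :
    ∃ r : ℕ, r < q ∧ sc q z i0 + (dX : ZMod (p * q)) + (r : ZMod (p * q)) =
      z i0 + (vX : ZMod (p * q)) +
        e p q (i0 + ((⌈(dX : ℝ) / q - (vX : ℝ) / q⌉ : ℤ) : ZMod p)) := by
  have hq0 : (0 : ℝ) < q := by
    have := Nat.pos_of_ne_zero (NeZero.ne q)
    exact_mod_cast this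
  set t : ℝ := (dX : ℝ) / q - (vX : ℝ) / q with ht
  have ht' : t * q = dX - vX := by
    rw [ht]
    field_simp
  have h1 : (dX - vX : ℤ) ≤ ⌈t⌉ * q := by
    have h2 := Int.le_ceil t
    have h3 : t * q ≤ (⌈t⌉ : ℝ) * q := mul_le_mul_of_nonneg_right h2 hq0.le
    rw [ht'] at h3
    exact_mod_cast h3
  have h2 : ⌈t⌉ * q < (dX - vX : ℤ) + q := by
    have h3 := Int.ceil_lt_add_one t
    have h4 : (⌈t⌉ : ℝ) * q < (t + 1) * q := mul_lt_mul_of_pos_right h3 hq0
    have h5 : (t + 1) * q = dX - vX + q := by rw [add_mul, ht', one_mul]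
    rw [h5] at h4
    exact_mod_cast h4
  obtain ⟨r, hr⟩ : ∃ r : ℕ, (r : ℤ) = ⌈t⌉ * q - (dX - vX) :=
    ⟨(⌈t⌉ * q - (dX - vX)).toNat, Int.toNat_of_nonneg (by linarith)⟩
  have hrq : r < q := by
    have : (r : ℤ) < q := by linarith
    exact_mod_cast this
  refine ⟨r, hrq, ?_⟩
  have h3 : (r : ZMod (p * q)) = ((⌈t⌉ * q - (dX - vX) : ℤ) : ZMod (p * q)) := by
    rw [← hr, Int.cast_natCast]
  rw [h3, e_add, e_int]
  unfold sc
  push_cast
  ring

/-- the crossing level for the block position -/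
theorem level_block {f : ZMod p} {vX dX : ℤ} {s : ℕ} (hs : s ≤ 1)
    (hres : res p q (z i0 + (vX : ZMod (p * q))) ≠ res p q (z f))
    (hd : res p q (sc q z i0 + (dX : ZMod (p * q))) = res p q (z f)) :
    ∃ r : ℕ, r < q ∧ sc q z i0 + (dX : ZMod (p * q)) + (r : ZMod (p * q)) =
      z i0 + (vX : ZMod (p * q)) - (s : ZMod (p * q)) +
        e p q (i0 + ((⌈(dX : ℝ) / q - (vX : ℝ) / q⌉ : ℤ) : ZMod p)) := by
  obtain ⟨r, hr, h⟩ := level_exists z i0 vX dX
  have hr0 : 1 ≤ r := by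
    rcases Nat.eq_zero_or_pos r with h0 | h0
    · exfalso
      apply hres
      rw [h0, Nat.cast_zero, add_zero] at h
      have h1 := congrArg (res p q) h
      rw [hd, map_add (res p q) (z i0 + _), res_e, add_zero] at h1
      exact h1.symm
    · exact h0
  refine ⟨r - s, by omega, ?_⟩
  rw [Nat.cast_sub (by omega)]
  linear_combination h

/-- the level function of a merged line -/
theorem kv_merge (hG : Gen q z) {n m : ZMod p} (hM : byy q b c z m = bx q c z n) (W : ZMod p) :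
    KV q a b c z (bx q c z n) W = ind (aR a W n) - ind (aL a b W m) := by
  unfold KV
  rw [Finset.sum_sub_distrib, Finset.sum_eq_single n, Finset.sum_eq_single m]
  · rw [ind_pos rfl, ind_pos hM, one_mul, one_mul]
  · intro j _ hj
    rw [ind_neg, zero_mul]
    intro h
    apply hj
    apply gen_res p q hG
    have h1 : z j = z m := by
      have : byy q b c z j = byy q b c z m := by rw [h, hM]
      unfold byy at this
      linear_combination this
    rw [h1]
  · intro h
    exact absurd (Finset.mem_univ _) h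
  · intro j _ hj
    rw [ind_neg, zero_mul]
    intro h
    apply hj
    apply gen_res p q hG
    have h1 : z j = z n := by
      unfold bx at h
      linear_combination h
    rw [h1]
  · intro h
    exact absurd (Finset.mem_univ _) h

/-- the level function of a right side which is not merged -/
theorem kv_R (hG : Gen q z) {n : ZMod p} (hM : ∀ m, byy q b c z m ≠ bx q c z n) (W : ZMod p) :
    KV q a b c z (bx q c z n) W = ind (aR a W n) := by
  unfold KV
  rw [Finset.sum_eq_single n]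
  · rw [ind_pos rfl, ind_neg (hM n), one_mul, zero_mul, sub_zero]
  · intro j _ hj
    have h0 : ¬ (bx q c z j = bx q c z n) := by
      intro h
      apply hj
      apply gen_res p q hG
      have h1 : z j = z n := by
        unfold bx at h
        linear_combination h
      rw [h1]
    rw [ind_neg (hM j), ind_neg h0, zero_mul, zero_mul, sub_zero]
  · intro h
    exact absurd (Finset.mem_univ _) h

/-- the level function of a left side which is not merged -/
theorem kv_L (hG : Gen q z) {n : ZMod p} (hM : ∀ m, bx q c z m ≠ byy q b c z n) (W : ZMod p) :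
    KV q a b c z (byy q b c z n) W = - ind (aL a b W n) := by
  unfold KV
  rw [Finset.sum_eq_single n]
  · rw [ind_pos rfl, ind_neg (hM n), one_mul, zero_mul, zero_sub]
  · intro j _ hj
    have h0 : ¬ (byy q b c z j = byy q b c z n) := by
      intro h
      apply hj
      apply gen_res p q hG
      have h1 : z j = z n := by
        unfold byy at h
        linear_combination h
      rw [h1]
    rw [ind_neg (hM j), ind_neg h0, zero_mul, zero_mul, sub_zero]
  · intro h
    exact absurd (Finset.mem_univ _) h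

/-- an arc indicator does not change in a block without its ends -/
theorem arc_block (hP : Par p q a b) (u : ZMod (p * q)) (X : ZMod (p * q)) {d : ℕ} (hd0 : 0 < d)
    (hd : d < p * q) {s : ℕ} (h1 : ∀ m : ℕ, m < s → u ≠ X + (m : ZMod (p * q)))
    (h2 : ∀ m : ℕ, m < s → u + (d : ZMod (p * q)) ≠ X + (m : ZMod (p * q))) :
    ind (off (u + 1) (X + (s : ZMod (p * q))) < d) = ind (off (u + 1) X < d) := by
  have hM := one_lt_mul hP
  induction s with
  | zero => rw [Nat.cast_zero, add_zero]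
  | succ s ih =>
    have h3 := ih (fun m hm => h1 m (by omega)) (fun m hm => h2 m (by omega))
    have h4 := arc_step hM u (X + (s : ZMod (p * q))) hd0 hd
    have e1 : X + (s : ZMod (p * q)) + 1 = X + ((s + 1 : ℕ) : ZMod (p * q)) := by push_cast; ring
    rw [e1, h3, ind_neg (h1 s (by omega)), ind_neg (h2 s (by omega))] at h4
    linarith

/-- no line of the moved cluster lies in the block `X` -/
def Free (q b c : ℕ) (z : ZMod p → ZMod (p * q)) (i0 : ZMod p) (δ X : ZMod (p * q)) : Prop :=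
  bx q c z i0 ≠ X ∧ byy q b c z i0 ≠ X ∧ bx q c z i0 + δ ≠ X ∧ byy q b c z i0 + δ ≠ X

/-- the zone function at the block position -/
theorem gg_block (hP : Par p q a b) (hB : Blk q b c z) (hAP : AP q z i0 ρ θ) {δ : ℕ}
    (hδ0 : 0 < δ) (hδM : δ < p * q) (hδ : (δ : ZMod (p * q)) = (p : ZMod (p * q)) * θ)
    {X : ZMod (p * q)} (hX : rp p q X = 0) (hS : Free q b c z i0 (δ : ZMod (p * q)) X)
    {s : ℕ} (hs : s ≤ 1) (d : ZMod (p * q)) (W : ZMod p) :
    GG q a b z i0 δ (X + (s : ZMod (p * q))) d W = GG q a b z i0 δ X d W := by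
  have hab := hP.hab
  have ha := hP.ha
  obtain ⟨s1, s2, s3, s4⟩ := hS
  have hrδ : rp p q (δ : ZMod (p * q)) = 0 := by
    rw [hδ, map_mul, rp_theta hP hB hAP, mul_zero]
  have hB' := blk_shift hB hrδ 0
  have key1 : ∀ m : ℕ, m < s → z i0 ≠ X + (m : ZMod (p * q)) := by
    intro m hm h
    exact s1 ((x_pos hP hB hX (by omega) i0).1 h).2
  have key2 : ∀ m : ℕ, m < s → z i0 + (δ : ZMod (p * q)) ≠ X + (m : ZMod (p * q)) := by
    intro m hm h
    have h1 := ((x_pos hP hB' hX (m := m) (by omega) i0).1 (by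
      show z (i0 - 0) + (δ : ZMod (p * q)) = _
      rw [sub_zero, h])).2
    apply s3
    unfold bx at h1 ⊢
    simp only [sub_zero] at h1
    linear_combination h1
  have key3 : ∀ m : ℕ, m < s →
      z i0 - (b : ZMod (p * q)) * (q : ZMod (p * q)) ≠ X + (m : ZMod (p * q)) := by
    intro m hm h
    exact s2 ((y_pos hP hB hX (by omega) i0).1 h).2
  have key4 : ∀ m : ℕ, m < s → z i0 - (b : ZMod (p * q)) * (q : ZMod (p * q)) +
      (δ : ZMod (p * q)) ≠ X + (m : ZMod (p * q)) := by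
    intro m hm h
    have h1 := ((y_pos hP hB' hX (m := m) (by omega) i0).1 (by
      show z (i0 - 0) + (δ : ZMod (p * q)) - _ = _
      rw [sub_zero, ← h]
      ring)).2
    apply s4
    unfold byy at h1 ⊢
    simp only [sub_zero] at h1
    linear_combination h1
  unfold GG
  rw [arc_block hP (z i0) X hδ0 hδM key1 key2, arc_block hP _ X hδ0 hδM key3 key4]

theorem kv_free {δ X : ZMod (p * q)} (hS : Free q b c z i0 δ X) (W : ZMod p) :
    KV q a b c (Function.update z i0 (z i0 + δ)) X W = KV q a b c z X W := by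
  have h := kv_update (a := a) (b := b) (c := c) (z := z) (i0 := i0) δ X W
  obtain ⟨s1, s2, s3, s4⟩ := hS
  rw [ind_neg s1, ind_neg s2, ind_neg s3, ind_neg s4] at h
  linarith

/-- the complete rule, real form -/
theorem ruq (hP : Par p q a b) (hG : Gen q z) (hB : Blk q b c z) (hAP : AP q z i0 ρ θ)
    (hF : ∀ X W S, rp p q X = 0 → |FF q a b z X W S| ≤ 1) {δ : ℕ} (hδ0 : 0 < δ) (hδM : δ < p * q)
    (hδ : (δ : ZMod (p * q)) = (p : ZMod (p * q)) * θ) {f : ZMod p} (hf : f ≠ i0)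
    {vX dX kdI : ℤ} {s : ℕ} (hs : s ≤ 1)
    (hres : res p q (z i0 + (vX : ZMod (p * q))) ≠ res p q (z f)) {X : ZMod (p * q)}
    (hXe : z i0 + (vX : ZMod (p * q)) = X + (s : ZMod (p * q)))
    (hX : rp p q X = 0) (h1 : bx q c z f ≠ X) (h2 : byy q b c z f ≠ X)
    {kd : ZMod p → Prop} {sd : ℤ} (hD : DL q a b z f (sc q z i0 + (dX : ZMod (p * q))) kd sd)
    (hkd : ∀ W : ℤ, kd (i0 + (W : ZMod p)) ↔ ((W - kdI - 1 : ℤ) : ZMod p).val < b)
    {hv hv' : ℝ → ℤ} (hv1 : ∀ W : ℤ, hv W = KV q a b c z X (i0 + (W : ZMod p)))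
    (hv2 : ∀ t : ℝ, hv t = hv ((⌈t⌉ : ℤ) : ℝ))
    (hv1' : ∀ W : ℤ, hv' W =
      KV q a b c (Function.update z i0 (z i0 + (δ : ZMod (p * q)))) X (i0 + (W : ZMod p)))
    (hv2' : ∀ t : ℝ, hv' t = hv' ((⌈t⌉ : ℤ) : ℝ))
    (hgg : ∀ d W, GG q a b z i0 δ (X + (s : ZMod (p * q))) d W = GG q a b z i0 δ X d W) :
    RUq p a b ((δ : ℝ) / q) hv hv' ((vX : ℝ) / q) ((dX : ℝ) / q) kdI sd := by
  have hab := hP.hab
  intro W
  set t : ℝ := (dX : ℝ) / q - (vX : ℝ) / q with ht
  obtain ⟨r, hr, hW⟩ := level_block hs hres (dl_res hD)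
  have hW' : sc q z i0 + (dX : ZMod (p * q)) + (r : ZMod (p * q)) =
      X + e p q (i0 + ((⌈t⌉ : ℤ) : ZMod p)) := by
    rw [hW, hXe]
    ring
  obtain ⟨F, F', J, J', e1, e2, e3, f⟩ :=
    quad2 hP hG hB hAP hF hδ0 hδM hδ hf hX h1 h2 hD (i0 + ((⌈t⌉ : ℤ) : ZMod p))
      (i0 + (W : ZMod p)) hr hW'
  have g1 : hv W - hv t = J := by rw [hv2 t, hv1, hv1, e1]
  have g2 : hv' W - hv' t = J' := by rw [hv2' t, hv1', hv1', e2]
  have g3 : Helper10.KE.ind p kdI b W - Helper10.KE.ind p kdI b t =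
      ind (kd (i0 + (W : ZMod p))) - ind (kd (i0 + ((⌈t⌉ : ℤ) : ZMod p))) := by
    rw [hind_ceil kdI b t, hind_int kdI W b (by omega), hind_int kdI ⌈t⌉ b (by omega),
      ind_congr (hkd W), ind_congr (hkd ⌈t⌉)]
  have g4 : Helper10.KE.gg p a b ((δ : ℝ) / q) ((vX : ℝ) / q) ((dX : ℝ) / q) W -
      Helper10.KE.gg p a b ((δ : ℝ) / q) ((vX : ℝ) / q) ((dX : ℝ) / q) t = F' - F := by
    rw [e3, gg_ceil a b _ _ _ t, gg_eq hP z i0 hδM vX dX W, gg_eq hP z i0 hδM vX dX ⌈t⌉, hXe,
      hgg, hgg]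
  rw [g1, g2, g3, g4]
  obtain ⟨f1, f2, f3, f4, f5, f6, f7, f8⟩ := f
  have hFF : F + (F' - F) = F' := by ring
  refine ⟨F, f1, f2, f3, f4, ?_, ?_, ?_, ?_⟩ <;> rw [hFF] <;> assumption

/-- one window: the jump two rule in real form, general level function -/
theorem j2q (hP : Par p q a b) (hG : Gen q z) (hB : Blk q b c z)
    (hF : ∀ X W S, rp p q X = 0 → |FF q a b z X W S| ≤ 1) {f : ZMod p}
    {vX dX kdI : ℤ} {s : ℕ} (hs : s ≤ 1)
    (hres : res p q (z i0 + (vX : ZMod (p * q))) ≠ res p q (z f)) {X : ZMod (p * q)}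
    (hXe : z i0 + (vX : ZMod (p * q)) = X + (s : ZMod (p * q)))
    (hX : rp p q X = 0) (h1 : bx q c z f ≠ X) (h2 : byy q b c z f ≠ X)
    {kd : ZMod p → Prop} {sd : ℤ} (hD : DL q a b z f (sc q z i0 + (dX : ZMod (p * q))) kd sd)
    (hkd : ∀ W : ℤ, kd (i0 + (W : ZMod p)) ↔ ((W - kdI - 1 : ℤ) : ZMod p).val < b)
    {hv : ℝ → ℤ} (hv1 : ∀ W : ℤ, hv W = KV q a b c z X (i0 + (W : ZMod p)))
    (hv2 : ∀ t : ℝ, hv t = hv ((⌈t⌉ : ℤ) : ℝ)) (W : ℤ)
    (hk : Helper10.KE.ind p kdI b W +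
      Helper10.KE.ind p kdI b ((dX : ℝ) / q - (vX : ℝ) / q) = 1) :
    |hv W - hv ((dX : ℝ) / q - (vX : ℝ) / q)| ≤ 1 := by
  have hab := hP.hab
  set t : ℝ := (dX : ℝ) / q - (vX : ℝ) / q with ht
  obtain ⟨r, hr, hW⟩ := level_block hs hres (dl_res hD)
  have hW' : sc q z i0 + (dX : ZMod (p * q)) + (r : ZMod (p * q)) =
      X + e p q (i0 + ((⌈t⌉ : ℤ) : ZMod p)) := by
    rw [hW, hXe]
    ring
  rw [hv2 t, hv1, hv1]
  refine jump_two hP hG hB hF hX h1 h2 hD _ _ hr hW' ?_
  rw [hkd, hkd]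
  rw [hind_ceil kdI b t, hind_int kdI W b (by omega), hind_int kdI ⌈t⌉ b (by omega)] at hk
  intro h'
  rw [ind_congr h'] at hk
  omega

end

end Helper55.KE
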