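import Pool.Agent.Helper55.KE.MAP

set_option autoImplicit false
set_option linter.unusedSectionVars false

/-!
# The block model: sides merged with a side of the moved cluster
-/

namespace Helper55.KE

open Helper11.N1
open Helper11.N1.DECaux (ind ite_ind ind_and ind_congr ind_pos ind_neg)

section

variable {p q a b c : ℕ} [NeZero p] [NeZero q] {z : ZMod p → ZMod (p * q)} {i0 ρ : ZMod p}
  {θ : ZMod (p * q)} {δ : ℕ}

/-- the length of the move is a multiple of `p` -/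
theorem MS.dvd (h : MS p q a b c z i0 ρ θ δ) : p ∣ δ := by
  have h1 : rp p q (δ : ZMod (p * q)) = 0 := by
    rw [h.hδ, map_mul, rp_theta h.hP h.hB h.hAP, mul_zero]
  rwa [map_natCast, ZMod.natCast_eq_zero_iff] at h1

theorem MS.two_le (h : MS p q a b c z i0 ρ θ δ) : 2 ≤ δ ∧ δ + 2 ≤ p * q := by
  have hab := h.hP.hab
  have ha := h.hP.ha
  obtain ⟨k, hk⟩ := h.dvd
  have h0 := h.hδ0
  have hM := h.hδM
  have hk0 : 1 ≤ k := by
    rcases Nat.eq_zero_or_pos k with h1 | h1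
    · rw [h1, mul_zero] at hk
      omega
    · exact h1
  have hkq : k + 1 ≤ q := by
    by_contra hcon
    have h1 : q ≤ k := by omega
    have h2 : p * q ≤ p * k := Nat.mul_le_mul_left p h1
    omega
  have h1 : p * 1 ≤ p * k := Nat.mul_le_mul_left p hk0
  have h2 : p * (k + 1) ≤ p * q := Nat.mul_le_mul_left p hkq
  rw [mul_add, mul_one] at h2
  omega

/-- at the end of the arc -/
theorem arc_end (h : MS p q a b c z i0 ρ θ δ) (u : ZMod (p * q)) {X : ZMod (p * q)} {s : ℕ}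
    (hs : s ≤ 1) (hX : X + (s : ZMod (p * q)) = u + (δ : ZMod (p * q))) :
    ind (off (u + 1) (X + (s : ZMod (p * q))) < δ) = ind (off (u + 1) X < δ) := by
  obtain ⟨h1, h2⟩ := h.two_le
  have e1 : off (u + 1) (X + (s : ZMod (p * q))) = δ - 1 := by
    rw [off_eq_iff _ _ (by omega), hX, Nat.cast_sub (by omega)]
    push_cast
    ring
  have e2 : off (u + 1) X = δ - 1 - s := by
    rw [off_eq_iff _ _ (by omega), Nat.cast_sub (by omega), Nat.cast_sub (by omega)]
    push_cast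
    linear_combination hX
  rw [e1, e2, ind_pos (by omega), ind_pos (by omega)]

/-- at the beginning of the arc -/
theorem arc_beg (h : MS p q a b c z i0 ρ θ δ) (u : ZMod (p * q)) {X : ZMod (p * q)} {s : ℕ}
    (hs : s ≤ 1) (hX : X + (s : ZMod (p * q)) = u) :
    ind (off (u + 1) (X + (s : ZMod (p * q))) < δ) = ind (off (u + 1) X < δ) := by
  obtain ⟨h1, h2⟩ := h.two_le
  have h0 : ((p * q : ℕ) : ZMod (p * q)) = 0 := ZMod.natCast_self _
  have e1 : off (u + 1) (X + (s : ZMod (p * q))) = p * q - 1 := by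
    rw [off_eq_iff _ _ (by omega), hX, Nat.cast_sub (by omega), h0]
    push_cast
    ring
  have e2 : off (u + 1) X = p * q - 1 - s := by
    rw [off_eq_iff _ _ (by omega), Nat.cast_sub (by omega), Nat.cast_sub (by omega), h0]
    push_cast
    linear_combination hX
  rw [e1, e2, ind_neg (by omega), ind_neg (by omega)]

/-- the ends of the arcs of the moved cluster in a block -/
theorem MS.arcR (h : MS p q a b c z i0 ρ θ δ) {X : ZMod (p * q)} (hX : rp p q X = 0)
    (h1 : bx q c z i0 ≠ X) (h2 : bx q c z i0 + (δ : ZMod (p * q)) ≠ X) {s : ℕ} (hs : s ≤ 1) :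
    ind (off (z i0 + 1) (X + (s : ZMod (p * q))) < δ) = ind (off (z i0 + 1) X < δ) := by
  have hab := h.hP.hab
  have ha := h.hP.ha
  have hrδ : rp p q (δ : ZMod (p * q)) = 0 := by
    rw [h.hδ, map_mul, rp_theta h.hP h.hB h.hAP, mul_zero]
  have hB' := blk_shift h.hB hrδ 0
  refine arc_block h.hP (z i0) X h.hδ0 h.hδM ?_ ?_
  · intro m hm h3
    exact h1 ((x_pos h.hP h.hB hX (by omega) i0).1 h3).2
  · intro m hm h3
    have h4 := ((x_pos h.hP hB' hX (m := m) (by omega) i0).1 (by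
      show z (i0 - 0) + (δ : ZMod (p * q)) = _
      rw [sub_zero, h3])).2
    apply h2
    unfold bx at h4 ⊢
    simp only [sub_zero] at h4
    linear_combination h4

theorem MS.arcL (h : MS p q a b c z i0 ρ θ δ) {X : ZMod (p * q)} (hX : rp p q X = 0)
    (h1 : byy q b c z i0 ≠ X) (h2 : byy q b c z i0 + (δ : ZMod (p * q)) ≠ X) {s : ℕ}
    (hs : s ≤ 1) :
    ind (off (z i0 - (b : ZMod (p * q)) * (q : ZMod (p * q)) + 1) (X + (s : ZMod (p * q))) < δ) =
      ind (off (z i0 - (b : ZMod (p * q)) * (q : ZMod (p * q)) + 1) X < δ) := by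
  have hab := h.hP.hab
  have ha := h.hP.ha
  have hrδ : rp p q (δ : ZMod (p * q)) = 0 := by
    rw [h.hδ, map_mul, rp_theta h.hP h.hB h.hAP, mul_zero]
  have hB' := blk_shift h.hB hrδ 0
  refine arc_block h.hP _ X h.hδ0 h.hδM ?_ ?_
  · intro m hm h3
    exact h1 ((y_pos h.hP h.hB hX (by omega) i0).1 h3).2
  · intro m hm h3
    have h4 := ((y_pos h.hP hB' hX (m := m) (by omega) i0).1 (by
      show z (i0 - 0) + (δ : ZMod (p * q)) - _ = _
      rw [sub_zero, ← h3]
      ring)).2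
    apply h2
    unfold byy at h4 ⊢
    simp only [sub_zero] at h4
    linear_combination h4

theorem MS.b0 (h : MS p q a b c z i0 ρ θ δ) {n : ℕ} (hn0 : 0 < n) (hn : n < p) :
    bx q c z i0 ≠ bx q c z (i0 + (n : ZMod p) * ρ) ∧
      byy q b c z i0 ≠ byy q b c z (i0 + (n : ZMod p) * ρ) := by
  have h1 := h.bxne (by omega : 0 < p) hn (by omega)
  have h2 := h.byne (by omega : 0 < p) hn (by omega)
  rw [MS.i0_eq] at h1 h2
  exact ⟨h1, h2⟩

theorem MS.dne (h : MS p q a b c z i0 ρ θ δ) : (δ : ZMod (p * q)) ≠ 0 := by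
  intro h1
  rw [ZMod.natCast_eq_zero_iff] at h1
  exact absurd (Nat.le_of_dvd h.hδ0 h1) (by have := h.hδM; omega)

/-- static right side merged with the left side of the moved cluster after the move -/
theorem MS.rq_Rp (h : MS p q a b c z i0 ρ θ δ) {n f : ℕ} (hn0 : 0 < n) (hn : n < p)
    (hf0 : 0 < f) (hf : f < p) (hfn : f ≠ n)
    (hM : Mg b c θ n p) {x1 r1 x2 r2 kap : ℤ} (hA1 : At ρ θ n x1 r1)
    (hA2 : At ρ θ f x2 r2) (hk : (b : ZMod p) = ((r1 + kap : ℤ) : ZMod p)) :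
    RUq p a b ((δ : ℝ) / q) (fun w => 1 * Helper10.KE.ind p r1 a w) (hh p a kap r1)
      ((δ : ℝ) / q - b) ((x2 : ℝ) / q + r2) r2 (-1) ∧
    RUq p a b ((δ : ℝ) / q) (fun w => 1 * Helper10.KE.ind p r1 a w) (hh p a kap r1)
      ((δ : ℝ) / q - b) ((x2 : ℝ) / q + r2 + a) (r2 + a) 1 := by
  have hab := h.hP.hab
  have hq0 : (q : ℝ) ≠ 0 := by
    have := NeZero.ne q
    exact_mod_cast this
  have c1 : ((δ - b * q : ℤ) : ℝ) / q = (δ : ℝ) / q - b := by push_cast; field_simp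
  have hXp := (h.mgp_iff hn).2 hM
  obtain ⟨k1, _⟩ := h.b0 hn0 hn
  have k2 : byy q b c z i0 ≠ bx q c z (i0 + (n : ZMod p) * ρ) := by
    intro h1
    apply h.dne
    rw [← hXp] at h1
    linear_combination -h1
  have k3 := h.bxmov hn0 hn
  have hUz : ∀ m, byy q b c z m ≠ bx q c z (i0 + (n : ZMod p) * ρ) := by
    intro m h1
    obtain ⟨k, hk, rfl⟩ := ap_row h.hAP m
    rcases Nat.eq_zero_or_pos k with h2 | h2
    · rw [h2, MS.i0_eq] at h1
      exact k2 h1
    · exact h.bymov h2 hk (by rw [hXp, h1])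
  have hkv : ∀ W : ℤ, 1 * Helper10.KE.ind (p : ℝ) (r1 : ℝ) (a : ℝ) (W : ℝ) =
      KV q a b c z (bx q c z (i0 + (n : ZMod p) * ρ)) (i0 + (W : ZMod p)) := by
    intro W
    rw [kv_R h.hG hUz, hind_int (p := p) r1 W a (by omega), ind_congr (hkR hA1 i0 W), one_mul]
  have g := h.rq hf0 hf hA2 (s := 1 - c) (by omega) (vX := δ - b * q)
    (X := bx q c z (i0 + (n : ZMod p) * ρ)) (hv := fun w => 1 *
      Helper10.KE.ind (p : ℝ) (r1 : ℝ) (a : ℝ) w) (hv' := hh p a kap r1) ?_ ?_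
    (bx_rp h.hB _) (h.bxne hf hn hfn) (hUz _) hkv (ind_ceil' a 1 r1) ?_
    (hh_ceil a kap r1) ?_
  · rw [c1] at g
    exact g
  · have e1 : z i0 + ((δ - b * q : ℤ) : ZMod (p * q)) =
        z i0 + (δ : ZMod (p * q)) - (b : ZMod (p * q)) * (q : ZMod (p * q)) := by
      push_cast
      ring
    rw [e1, map_sub, res_bq, sub_zero]
    exact h.rmov hf0 hf
  · rw [← hXp]
    unfold byy
    push_cast
    ring
  · intro W
    have e := kv_update (a := a) (b := b) (c := c) (z := z) (i0 := i0) (δ : ZMod (p * q))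
      (bx q c z (i0 + (n : ZMod p) * ρ)) (i0 + (W : ZMod p))
    rw [ind_neg k1, ind_neg k2, ind_neg k3, ind_pos hXp, ← hkv W] at e
    unfold hh
    have g1 := hind_int (p := p) r1 W a (by omega)
    have g2 := hind_int (p := p) (r1 + kap) W a (by omega)
    rw [Int.cast_add] at g2
    have g3 := ind_congr (hkL' (a := a) (r := r1 + kap) (i0 := i0) (i := i0) (b := b) (by
      rw [hk]) W)
    rw [g3] at e
    rw [g1] at e ⊢
    rw [g2]
    linarith
  · intro d W
    unfold GG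
    rw [h.arcR (bx_rp h.hB _) k1 k3 (by omega : 1 - c ≤ 1), arc_end h _ (by omega : 1 - c ≤ 1)]
    rw [← hXp]
    unfold byy
    ring

/-- static right side merged with the left side of the moved cluster before the move -/
theorem MS.rq_R0 (h : MS p q a b c z i0 ρ θ δ) {n f : ℕ} (hn0 : 0 < n) (hn : n < p)
    (hf0 : 0 < f) (hf : f < p) (hfn : f ≠ n)
    (hM : Mg b c θ n 0) {x1 r1 x2 r2 kap : ℤ} (hA1 : At ρ θ n x1 r1)
    (hA2 : At ρ θ f x2 r2) (hk : (b : ZMod p) = ((r1 + kap : ℤ) : ZMod p)) :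
    RUq p a b ((δ : ℝ) / q) (hh p a kap r1) (fun w => 1 * Helper10.KE.ind p r1 a w)
      (-b) ((x2 : ℝ) / q + r2) r2 (-1) ∧
    RUq p a b ((δ : ℝ) / q) (hh p a kap r1) (fun w => 1 * Helper10.KE.ind p r1 a w)
      (-b) ((x2 : ℝ) / q + r2 + a) (r2 + a) 1 := by
  have hab := h.hP.hab
  have hq0 : (q : ℝ) ≠ 0 := by
    have := NeZero.ne q
    exact_mod_cast this
  have c1 : ((-(b * q) : ℤ) : ℝ) / q = -b := by push_cast; field_simp
  have hX0 := (h.mg_iff hn (by omega : 0 < p)).2 hM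
  obtain ⟨k1, _⟩ := h.b0 hn0 hn
  have k3 := h.bxmov hn0 hn
  have hkv : ∀ W : ℤ, hh p a kap r1 W =
      KV q a b c z (bx q c z (i0 + (n : ZMod p) * ρ)) (i0 + (W : ZMod p)) :=
    h.hh_eq hn (by omega : 0 < p) hM hA1 (by rw [Nat.cast_zero, zero_mul, zero_add, hk])
  have k5 : byy q b c z (i0 + (f : ZMod p) * ρ) ≠ bx q c z (i0 + (n : ZMod p) * ρ) := by
    rw [← hX0]
    exact h.byne hf (by omega) (by omega)
  rw [MS.i0_eq] at hX0
  have k4 : byy q b c z i0 + (δ : ZMod (p * q)) ≠ bx q c z (i0 + (n : ZMod p) * ρ) := by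
    intro h1
    apply h.dne
    rw [← hX0] at h1
    linear_combination h1
  have g := h.rq hf0 hf hA2 (s := 1 - c) (by omega) (vX := -(b * q))
    (X := bx q c z (i0 + (n : ZMod p) * ρ)) (hv := hh p a kap r1) (hv' := fun w => 1 *
      Helper10.KE.ind (p : ℝ) (r1 : ℝ) (a : ℝ) w) ?_ ?_
    (bx_rp h.hB _) (h.bxne hf hn hfn) k5 hkv (hh_ceil a kap r1) ?_ (ind_ceil' a 1 r1) ?_
  · rw [c1] at g
    exact g
  · have e1 : z i0 + ((-(b * q) : ℤ) : ZMod (p * q)) =
        z i0 - (b : ZMod (p * q)) * (q : ZMod (p * q)) := by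
      push_cast
      ring
    rw [e1, map_sub, res_bq, sub_zero]
    have := h.rinj (by omega : 0 < p) hf (by omega)
    rwa [MS.i0_eq] at this
  · rw [← hX0]
    unfold byy
    push_cast
    ring
  · intro W
    have e := kv_update (a := a) (b := b) (c := c) (z := z) (i0 := i0) (δ : ZMod (p * q))
      (bx q c z (i0 + (n : ZMod p) * ρ)) (i0 + (W : ZMod p))
    rw [ind_neg k1, ind_pos hX0, ind_neg k3, ind_neg k4, ← hkv W] at e
    unfold hh at e
    have g1 := hind_int (p := p) r1 W a (by omega)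
    have g2 := hind_int (p := p) (r1 + kap) W a (by omega)
    rw [Int.cast_add] at g2
    have g3 := ind_congr (hkL' (a := a) (r := r1 + kap) (i0 := i0) (i := i0) (b := b) (by
      rw [hk]) W)
    rw [g3] at e
    rw [g1, g2] at e
    show 1 * Helper10.KE.ind (p : ℝ) (r1 : ℝ) (a : ℝ) (W : ℝ) = _
    rw [g1]
    linarith
  · intro d W
    unfold GG
    rw [h.arcR (bx_rp h.hB _) k1 k3 (by omega : 1 - c ≤ 1), arc_beg h _ (by omega : 1 - c ≤ 1)]
    rw [← hX0]
    unfold byy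
    ring

/-- static left side merged with the right side of the moved cluster before the move -/
theorem MS.rq_L0 (h : MS p q a b c z i0 ρ θ δ) {n f : ℕ} (hn0 : 0 < n) (hn : n < p)
    (hf0 : 0 < f) (hf : f < p) (hfn : f ≠ n)
    (hM : Mg b c θ 0 n) {x1 r1 x2 r2 kap : ℤ} (hA1 : At ρ θ n x1 r1)
    (hA2 : At ρ θ f x2 r2) (hk : ((r1 + b : ℤ) : ZMod p) = (kap : ZMod p)) :
    RUq p a b ((δ : ℝ) / q) (hh p a kap 0) (fun w => (-1) * Helper10.KE.ind p kap a w)
      0 ((x2 : ℝ) / q + r2) r2 (-1) ∧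
    RUq p a b ((δ : ℝ) / q) (hh p a kap 0) (fun w => (-1) * Helper10.KE.ind p kap a w)
      0 ((x2 : ℝ) / q + r2 + a) (r2 + a) 1 := by
  have hab := h.hP.hab
  have hX0 := (h.mg_iff (by omega : 0 < p) hn).2 hM
  obtain ⟨_, k1⟩ := h.b0 hn0 hn
  have k3 := h.bymov hn0 hn
  have hA0 : At ρ θ 0 0 0 := ⟨by push_cast; ring, by push_cast; ring⟩
  have hkv : ∀ W : ℤ, hh p a kap ((0 : ℤ) : ℝ) W =
      KV q a b c z (bx q c z i0) (i0 + (W : ZMod p)) := by
    have := h.hh_eq (by omega : 0 < p) hn hM hA0 (kap := kap) (by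
      rw [hA1.hr, zero_add, ← hk]
      push_cast
      ring)
    rwa [MS.i0_eq] at this
  rw [MS.i0_eq] at hX0
  have k5 : bx q c z i0 + (δ : ZMod (p * q)) ≠ bx q c z i0 := by
    intro h1
    apply h.dne
    linear_combination h1
  rw [hX0] at k1 k3
  have g := h.rq hf0 hf hA2 (s := c) h.hB.hc (vX := 0)
    (X := bx q c z i0) (hv := hh p a kap ((0 : ℤ) : ℝ)) (hv' := fun w => (-1) *
      Helper10.KE.ind (p : ℝ) (kap : ℝ) (a : ℝ) w) ?_ ?_
    (bx_rp h.hB _) (fun h1 => (h.b0 hf0 hf).1 h1.symm) ?_ hkv (hh_ceil a kap 0) ?_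
    (ind_ceil' a (-1) kap) ?_
  · rw [Int.cast_zero, zero_div] at g
    exact g
  · rw [Int.cast_zero, add_zero]
    have := h.rinj (by omega : 0 < p) hf (by omega)
    rwa [MS.i0_eq] at this
  · unfold bx
    rw [Int.cast_zero]
    ring
  · rw [← hX0]
    exact h.byne hf hn hfn
  · intro W
    have e := kv_update (a := a) (b := b) (c := c) (z := z) (i0 := i0) (δ : ZMod (p * q))
      (bx q c z i0) (i0 + (W : ZMod p))
    rw [ind_pos rfl, ind_neg k1, ind_neg k5, ind_neg k3, ← hkv W] at e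
    unfold hh at e
    have g1 := hind_int (p := p) 0 W a (by omega)
    have g2 := hind_int (p := p) kap W a (by omega)
    rw [Int.cast_zero, zero_add, g2] at e
    rw [Int.cast_zero] at g1
    rw [g1] at e
    have g3 : ind (aR a (i0 + (W : ZMod p)) i0) = ind (((W - 0 - 1 : ℤ) : ZMod p).val < a) := by
      have := ind_congr (hkR (a := a) hA0 i0 W)
      rwa [MS.i0_eq] at this
    rw [g3] at e
    show (-1) * Helper10.KE.ind (p : ℝ) (kap : ℝ) (a : ℝ) (W : ℝ) = _
    rw [g2]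
    linarith
  · intro d W
    unfold GG
    rw [h.arcL (bx_rp h.hB _) k1 k3 h.hB.hc, arc_beg h _ h.hB.hc]
    unfold bx
    ring

/-- static left side merged with the right side of the moved cluster after the move -/
theorem MS.rq_Lp (h : MS p q a b c z i0 ρ θ δ) {n f : ℕ} (hn0 : 0 < n) (hn : n < p)
    (hf0 : 0 < f) (hf : f < p) (hfn : f ≠ n)
    (hM : Mg b c θ p n) {x1 r1 x2 r2 kap : ℤ} (hA1 : At ρ θ n x1 r1)
    (hA2 : At ρ θ f x2 r2) (hk : ((r1 + b : ℤ) : ZMod p) = (kap : ZMod p)) :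
    RUq p a b ((δ : ℝ) / q) (fun w => (-1) * Helper10.KE.ind p kap a w) (hh p a kap 0)
      ((δ : ℝ) / q) ((x2 : ℝ) / q + r2) r2 (-1) ∧
    RUq p a b ((δ : ℝ) / q) (fun w => (-1) * Helper10.KE.ind p kap a w) (hh p a kap 0)
      ((δ : ℝ) / q) ((x2 : ℝ) / q + r2 + a) (r2 + a) 1 := by
  have hab := h.hP.hab
  have hXp := (h.pmg_iff hn).2 hM
  obtain ⟨_, k1⟩ := h.b0 hn0 hn
  have k3 := h.bymov hn0 hn
  have hA0 : At ρ θ 0 0 0 := ⟨by push_cast; ring, by push_cast; ring⟩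
  have k5 : bx q c z i0 ≠ byy q b c z (i0 + (n : ZMod p) * ρ) := by
    intro h1
    apply h.dne
    rw [← h1] at hXp
    linear_combination hXp
  have hUz : ∀ m, bx q c z m ≠ byy q b c z (i0 + (n : ZMod p) * ρ) := by
    intro m h1
    obtain ⟨k, hk, rfl⟩ := ap_row h.hAP m
    rcases Nat.eq_zero_or_pos k with h2 | h2
    · rw [h2, MS.i0_eq] at h1
      exact k5 h1
    · exact h.bxmov h2 hk (by rw [hXp, h1])
  have hkv : ∀ W : ℤ, (-1) * Helper10.KE.ind (p : ℝ) (kap : ℝ) (a : ℝ) (W : ℝ) =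
      KV q a b c z (byy q b c z (i0 + (n : ZMod p) * ρ)) (i0 + (W : ZMod p)) := by
    intro W
    rw [kv_L h.hG hUz, hind_int (p := p) kap W a (by omega),
      ind_congr (hkL' (r := kap) (i0 := i0) (by
        rw [hA1.hr, ← hk]
        push_cast
        ring) W)]
    ring
  have g := h.rq hf0 hf hA2 (s := c) h.hB.hc (vX := δ)
    (X := byy q b c z (i0 + (n : ZMod p) * ρ)) (hv := fun w => (-1) *
      Helper10.KE.ind (p : ℝ) (kap : ℝ) (a : ℝ) w) (hv' := hh p a kap ((0 : ℤ) : ℝ)) ?_ ?_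
    (by_rp h.hB _) (hUz _) (h.byne hf hn hfn) hkv (ind_ceil' a (-1) kap) ?_
    (hh_ceil a kap 0) ?_
  · rw [Int.cast_zero, Int.cast_natCast] at g
    exact g
  · rw [Int.cast_natCast]
    exact h.rmov hf0 hf
  · rw [← hXp]
    unfold bx
    push_cast
    ring
  · intro W
    have e := kv_update (a := a) (b := b) (c := c) (z := z) (i0 := i0) (δ : ZMod (p * q))
      (byy q b c z (i0 + (n : ZMod p) * ρ)) (i0 + (W : ZMod p))
    rw [ind_neg k1, ind_neg k5, ind_neg k3, ind_pos hXp, ← hkv W] at e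
    unfold hh
    have g1 := hind_int (p := p) 0 W a (by omega)
    have g2 := hind_int (p := p) kap W a (by omega)
    have g3 : ind (aR a (i0 + (W : ZMod p)) i0) = ind (((W - 0 - 1 : ℤ) : ZMod p).val < a) := by
      have := ind_congr (hkR (a := a) hA0 i0 W)
      rwa [MS.i0_eq] at this
    rw [g3, ← g1] at e
    rw [Int.cast_zero] at e ⊢
    rw [zero_add]
    linarith
  · intro d W
    unfold GG
    rw [h.arcL (by_rp h.hB _) k1 k3 h.hB.hc, arc_end h _ h.hB.hc]
    rw [← hXp]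
    unfold bx
    ring

end

end Helper55.KE
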