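import Pool.Agent.Helper55.KE.MD
import Pool.Agent.Helper25.FLT.G1d

set_option autoImplicit false
set_option linter.unusedSectionVars false

/-!
# The merge part from the statement on harmful ties

`StLS`: no block flat progression with a harmful tie vector.  `stmerge : StL0 → StLS → StMerge`.
-/

namespace Helper55.KE

open Helper11.N1 Pool.Agent.Helper55.FT
open Helper11.N1.DECaux (ind ite_ind ind_and ind_congr ind_pos ind_neg)
open Helper25.FLT (StL0 StMerge Flat NU Conf exists_res exists_b idx idx_lt zap_eq rq rq_zap ap_zap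
  cop_sub flat_neg nu_neg)
open Helper25.FLT

/-- no block flat progression with a harmful tie vector of index `l ≥ 2`; `-k` is the class of the
tie -/
def StLS : Prop := ∀ (p q a b c : ℕ) [NeZero p] [NeZero q] (z : ZMod p → ZMod (p * q))
  (i0 ρ : ZMod p) (θ : ZMod (p * q)) (δ l : ℕ) (k : ℤ), LS p q a b c z i0 ρ θ δ l k →
  2 * a < p → 2 * b < p → a.Coprime p → b.Coprime p →
  (ρ = (a : ZMod p) * b ∨ ρ = -((a : ZMod p) * b)) → 2 ≤ l → k ≠ 0 → |k| ≤ a → False

section

variable {p q a b c : ℕ} [NeZero p] [NeZero q]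

theorem cast_eps {p q c : ℕ} (hc : c ≤ 1) :
    (((1 - 2 * (c : ℤ) : ℤ)) : ZMod (p * q)) = ((1 - c : ℕ) : ZMod (p * q)) - (c : ZMod (p * q)) := by
  have : c = 0 ∨ c = 1 := by omega
  rcases this with rfl | rfl <;> norm_num

/-- the differences of a progression are units modulo `q` -/
theorem delta_pos {z : ZMod p → ZMod (p * q)} {i0 ρ : ZMod p} {θ : ZMod (p * q)} (hp : 2 < p)
    (hG : Gen q z) (hAP : AP q z i0 ρ θ) : 0 < ((p : ZMod (p * q)) * θ).val := by
  rcases Nat.eq_zero_or_pos ((p : ZMod (p * q)) * θ).val with h1 | h1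
  · exfalso
    rw [ZMod.val_eq_zero] at h1
    have h3 : ((1 : ℕ) : ZMod (p * q)) * θ = (((θ.val : ℕ) : ℤ) : ZMod (p * q)) := by
      rw [Nat.cast_one, one_mul]
      push_cast
      rw [ZMod.natCast_zmod_val]
    refine ap_ndvd' hAP hG (n := 1) (by omega) (by omega) h3 ?_
    have h4 : ((p * θ.val : ℕ) : ZMod (p * q)) = 0 := by
      push_cast
      rw [ZMod.natCast_zmod_val, h1]
    rw [ZMod.natCast_eq_zero_iff] at h4
    have h5 : q ∣ θ.val := Nat.dvd_of_mul_dvd_mul_left (by omega) h4
    exact_mod_cast h5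
  · exact h1

/-- a harmful pair with index difference in the right direction -/
theorem of_pair1 (hS : StLS) {z : ZMod p → ZMod (p * q)} {i0 ρ : ZMod p} {θ : ZMod (p * q)}
    (hθ : res p q θ ≠ 1 ∧ res p q θ ≠ -1) (hP : Par p q a b) (hpq : p < q) (ha : 2 * a < p) (hb : 2 * b < p) (hap : a.Coprime p)
    (hbp : b.Coprime p) (hG : Gen q z) (hB : Blk q b c z) (hAP : AP q z i0 ρ θ)
    (hρ : ρ = (a : ZMod p) * b ∨ ρ = -((a : ZMod p) * b))
    (hF : ∀ X W S, rp p q X = 0 → |FF q a b z X W S| ≤ 1) {n m : ℕ} (hn : n < p) (hmn : m < n)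
    (hM : z (i0 + (m : ZMod p) * ρ) - b * q =
      z (i0 + (n : ZMod p) * ρ) + ((1 - 2 * (c : ℤ) : ℤ) : ZMod (p * q)))
    {k : ℤ} (hk : (i0 + (n : ZMod p) * ρ) - (i0 + (m : ZMod p) * ρ) - b = (k : ZMod p))
    (hk0 : k ≠ 0) (hka : |k| ≤ a) : False := by
  have hab := hP.hab
  have hp2 : 2 < p := by
    have := hP.ha
    omega
  have hδ0 := delta_pos hp2 hG hAP
  refine hS p q a b c z i0 ρ θ ((p : ZMod (p * q)) * θ).val (n - m) k
    { hP := hP, hG := hG, hB := hB, hAP := hAP, hF := hF, hδ0 := hδ0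
      hδM := ZMod.val_lt _, hδ := ZMod.natCast_zmod_val _, hl0 := by omega, hl := by omega
      hpq := hpq, hxl := ?_, hrl := ?_ } ha hb hap hbp hρ ?_ hk0 hka
  · rw [hAP.2 m (by omega), hAP.2 n hn] at hM
    rw [Nat.cast_sub hmn.le]
    push_cast at hM ⊢
    linear_combination -hM
  · rw [Nat.cast_sub hmn.le]
    push_cast
    linear_combination hk
  · by_contra hcon
    have h1 : n = m + 1 := by omega
    subst h1
    rw [hAP.2 m (by omega), hAP.2 (m + 1) hn] at hM
    have h2 := congrArg (res p q) hM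
    rw [map_sub, map_add, map_add, map_add, map_mul, map_mul, map_mul, map_natCast, map_natCast,
      map_natCast, map_natCast, ZMod.natCast_self, mul_zero, sub_zero, res_int] at h2
    have hc := hB.hc
    have : c = 0 ∨ c = 1 := by omega
    rcases this with rfl | rfl
    · apply hθ.2
      push_cast at h2
      linear_combination -h2
    · apply hθ.1
      push_cast at h2
      linear_combination -h2

/-- a harmful pair -/
theorem of_pair (hS : StLS) {z : ZMod p → ZMod (p * q)} {i0 ρ : ZMod p} {θ : ZMod (p * q)}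
    (hθ : res p q θ ≠ 1 ∧ res p q θ ≠ -1) (hP : Par p q a b) (hpq : p < q) (ha : 2 * a < p) (hb : 2 * b < p) (hap : a.Coprime p)
    (hbp : b.Coprime p) (hG : Gen q z) (hB : Blk q b c z) (hAP : AP q z i0 ρ θ)
    (hρ : ρ = (a : ZMod p) * b ∨ ρ = -((a : ZMod p) * b))
    (hF : ∀ X W S, rp p q X = 0 → |FF q a b z X W S| ≤ 1) {n m : ZMod p}
    (hM : z m - b * q = z n + ((1 - 2 * (c : ℤ) : ℤ) : ZMod (p * q)))
    {k : ℤ} (hk : n - m - b = (k : ZMod p)) (hk0 : k ≠ 0) (hka : |k| ≤ a) : False := by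
  obtain ⟨n', hn', rfl⟩ := ap_row hAP n
  obtain ⟨m', hm', rfl⟩ := ap_row hAP m
  rcases lt_trichotomy m' n' with h1 | h1 | h1
  · exact of_pair1 hS hθ hP hpq ha hb hap hbp hG hB hAP hρ hF hn' h1 hM hk hk0 hka
  · subst h1
    have h2 := congrArg (res p q) hM
    have hc := hB.hc
    rw [map_sub, map_add, map_mul, map_natCast, map_natCast, ZMod.natCast_self, mul_zero, sub_zero,
      res_int, left_eq_add] at h2
    rw [ZMod.intCast_zmod_eq_zero_iff_dvd] at h2
    have h3 : (q : ℤ) ∣ 1 := by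
      have : c = 0 ∨ c = 1 := by omega
      rcases this with rfl | rfl
      · simpa using h2
      · exact (dvd_neg (a := (q : ℤ))).1 (by simpa using h2)
    have h4 := Int.le_of_dvd one_pos h3
    have := hP.hq
    have := hP.ha
    have := hP.hab
    omega
  · have hr : ∀ i : ℕ, i < p → i0 - ρ + ((p - 1 - i : ℕ) : ZMod p) * -ρ =
        i0 + (i : ZMod p) * ρ := by
      intro i hi
      rw [Nat.cast_sub (by omega), Nat.cast_sub (by omega), ZMod.natCast_self]
      push_cast
      ring
    refine of_pair1 hS (by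
      rw [map_neg]
      exact ⟨fun h => hθ.2 (by rw [← h, neg_neg]), fun h => hθ.1 (neg_inj.1 h)⟩)
      hP hpq ha hb hap hbp hG hB (ap_rev hAP) ?_ hF (n := p - 1 - n')
      (m := p - 1 - m') (by omega) (by omega) (k := k) ?_ ?_ hk0 hka
    · rcases hρ with h2 | h2
      · exact Or.inr (by rw [h2])
      · exact Or.inl (by rw [h2, neg_neg])
    · rw [hr m' hm', hr n' hn']
      exact hM
    · rw [hr m' hm', hr n' hn']
      exact hk

/-- the class of a harmful tie -/
theorem class_of {κ a p : ℕ} (hκ : κ < p) (h0 : κ ≠ 0) (hh : κ ≤ a ∨ p ≤ κ + a) :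
    ∃ k : ℤ, ((k : ℤ) : ZMod p) = -(κ : ZMod p) ∧ k ≠ 0 ∧ |k| ≤ a := by
  rcases hh with hh | hh
  · refine ⟨-(κ : ℤ), by push_cast; ring, by omega, ?_⟩
    rw [abs_neg, Nat.abs_cast]
    exact_mod_cast hh
  · refine ⟨(p : ℤ) - κ, by push_cast; rw [ZMod.natCast_self]; ring, by omega, ?_⟩
    rw [abs_of_pos (by omega)]
    omega

/-- an index equation gives `D h ≡ ± 1` -/
theorem noh {D : ℤ} (hpq : p < q)
    (hNh : ∀ h : ℤ, 0 < h → h < p → ¬ (((p * q : ℕ) : ℤ) ∣ D * h - 1) ∧
      ¬ (((p * q : ℕ) : ℤ) ∣ D * h + 1)) {i j : ℕ} (hi : i < p) (hj : j < p)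
    (h : ((i : ZMod (p * q)) - j) * (D : ZMod (p * q)) = 1 ∨
      ((i : ZMod (p * q)) - j) * (D : ZMod (p * q)) = -1) : False := by
  have hp0 : 0 < p := by omega
  have hM : 1 < p * q := by
    calc 1 < q := by omega
      _ ≤ p * q := Nat.le_mul_of_pos_left q hp0
  have h1 : ((p * q : ℕ) : ℤ) ∣ D * ((i : ℤ) - j) - 1 ∨
      ((p * q : ℕ) : ℤ) ∣ D * ((i : ℤ) - j) + 1 := by
    rcases h with h | h
    · left
      rw [← ZMod.intCast_zmod_eq_zero_iff_dvd]
      push_cast at h ⊢
      linear_combination h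
    · right
      rw [← ZMod.intCast_zmod_eq_zero_iff_dvd]
      push_cast at h ⊢
      linear_combination h
  have hneg : ∀ x : ℤ, ((p * q : ℕ) : ℤ) ∣ x → ((p * q : ℕ) : ℤ) ∣ -x := fun x hx =>
    (dvd_neg (a := ((p * q : ℕ) : ℤ))).2 hx
  rcases lt_trichotomy i j with h2 | h2 | h2
  · obtain ⟨h3, h4⟩ := hNh ((j : ℤ) - i) (by omega) (by omega)
    rcases h1 with h1 | h1
    · apply h4
      have := hneg _ h1
      have e1 : -(D * ((i : ℤ) - j) - 1) = D * ((j : ℤ) - i) + 1 := by ring
      rwa [e1] at this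
    · apply h3
      have := hneg _ h1
      have e1 : -(D * ((i : ℤ) - j) + 1) = D * ((j : ℤ) - i) - 1 := by ring
      rwa [e1] at this
  · subst h2
    have h3 : ((p * q : ℕ) : ℤ) ∣ 1 := by
      rcases h1 with h1 | h1
      · have := hneg _ h1
        simpa using this
      · simpa using h1
    have := Int.le_of_dvd one_pos h3
    omega
  · obtain ⟨h3, h4⟩ := hNh ((i : ℤ) - j) (by omega) (by omega)
    rcases h1 with h1 | h1
    · exact h3 h1
    · exact h4 h1

/-- the row of an index -/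
theorem idx_row {a b : ℕ} (hab : (a * b).Coprime p) (j : ZMod p) :
    ((idx a b j : ℕ) : ZMod p) * ((a * b : ℕ) : ZMod p) = j := by
  have hu : IsUnit ((a * b : ℕ) : ZMod p) := (ZMod.isUnit_iff_coprime _ p).2 hab
  unfold idx
  rw [ZMod.natCast_zmod_val, mul_assoc, ZMod.inv_mul_of_unit _ hu, mul_one]

/-- the scaled position of the row `j` -/
theorem idx_sc {a b : ℕ} (hab : (a * b).Coprime p) (D : ℤ) (j : ZMod p) :
    zap q a b D j + e p q j = ((idx a b j : ℕ) : ZMod (p * q)) * (D : ZMod (p * q)) := by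
  have h1 : e p q j = ((idx a b j * (a * b) * q : ℕ) : ZMod (p * q)) := by
    rw [← e_natCast]
    congr 1
    rw [Nat.cast_mul, idx_row hab]
  rw [zap_eq, h1]
  push_cast
  ring

theorem mconf1 (hS : StLS) {a : ℕ} {D : ℤ} (hpq : p < q) (hc : p.Coprime q)
    (hDq : IsCoprime D (q : ℤ)) (hF : Flat p q D) (hq : NU p q) (ha : 2 ≤ a) (ha2 : 2 * a < p)
    (hac : a.Coprime p) (haD : (p : ℤ) ∣ D + a)
    (hDu : ¬ ((q : ℤ) ∣ D - 1) ∧ ¬ ((q : ℤ) ∣ D + 1))
    (hNh : ∀ h : ℤ, 0 < h → h < p → ¬ (((p * q : ℕ) : ℤ) ∣ D * h - 1) ∧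
      ¬ (((p * q : ℕ) : ℤ) ∣ D * h + 1)) : Conf p q := by
  obtain ⟨b, hb1, hb2, hb3, hb4, hbc⟩ := exists_b (by omega) hc hq
  have habc : (a * b).Coprime p := Nat.Coprime.mul_left hac hbc
  obtain ⟨hz1, hz2, hz3⟩ := aLK2 p q a b hb1 habc D haD (by omega)
  have hG : Gen q (zap (p := p) q a b D) := genap p q a b hpq.le habc D hDq
  have hAP := ap_zap (q := q) habc D
  have hbd : ∀ (X : ZMod (p * q)) W S, p ∣ X.val → |FF q a b (zap q a b D) X W S| ≤ 1 := by
    intro X W S hX
    rcases hz3 X W S hX with h | ⟨N, k, h0, h1, h⟩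
    · rw [h]; norm_num
    · rw [h]; exact hF N k h0 h1
  have hθ : res p q ((D - a * b * q : ℤ) : ZMod (p * q)) ≠ 1 ∧
      res p q ((D - a * b * q : ℤ) : ZMod (p * q)) ≠ -1 := by
    have e1 : res p q ((D - a * b * q : ℤ) : ZMod (p * q)) = ((D : ℤ) : ZMod q) := by
      rw [res_int]
      push_cast
      rw [ZMod.natCast_self]
      ring
    rw [e1]
    refine ⟨fun h => hDu.1 ?_, fun h => hDu.2 ?_⟩
    · rw [← ZMod.intCast_zmod_eq_zero_iff_dvd]
      push_cast
      rw [h]
      ring
    · rw [← ZMod.intCast_zmod_eq_zero_iff_dvd]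
      push_cast
      rw [h]
      ring
  have hrz : ∀ j, rp p q (zap q a b D j) = 0 := fun j => (rp_zero_iff _).2 (hz1 j)
  have hbq1 : ((b : ZMod p)) * (q : ZMod p) = -1 := by
    have h1 := (ZMod.natCast_eq_zero_iff (b * q + 1) p).2 hb1
    push_cast at h1
    linear_combination h1
  rcases Nat.lt_or_ge (2 * b) p with hb | hb
  · have hP : Par p q a b := ⟨ha, hb2, by omega, by omega⟩
    have hB : Blk q b 0 (zap (p := p) q a b D) := by
      refine ⟨by omega, fun j => by rw [hrz, Nat.cast_zero], fun j => ?_⟩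
      rw [map_sub, hrz, map_mul, map_natCast, map_natCast, zero_sub, hbq1]
      norm_num
    refine ⟨a, b, inferInstance, inferInstance, hP, ha2, hb, hac, hbc, _, _, _, _,
      Or.inl (by push_cast; ring), hG, hAP, ?_⟩
    refine aLK3 p q a b hP hb1 _ ?_ hz1 ?_ hbd
    · intro i j hij
      refine hG i j ?_
      rw [hij, sub_self, ZMod.val_zero]
      exact dvd_zero _
    · intro n m h
      by_contra hcon
      have h0 : (m + b - n).val ≠ 0 := by
        intro h1
        rw [ZMod.val_eq_zero, sub_eq_zero] at h1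
        -- `D (i_m - i_n) = 1`
        refine noh hpq hNh (idx_lt a b m) (idx_lt a b n) (Or.inl ?_)
        have h2 := idx_sc (q := q) habc D m
        have h3 := idx_sc (q := q) habc D n
        have h4 : e p q n = e p q m + b * q := by
          rw [← h1, e_add, e_natCast, Nat.cast_mul]
        rw [h4] at h3
        linear_combination -h2 + h3 + h
      obtain ⟨k, hk1, hk2, hk3⟩ := class_of (a := a) (ZMod.val_lt (m + (b : ZMod p) - n)) h0
        (by omega)
      refine of_pair hS hθ hP hpq ha2 hb hac hbc hG hB hAP (Or.inl (by push_cast; ring))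
        (fun X W S hX => hbd X W S ((rp_zero_iff X).1 hX)) (n := n) (m := m) ?_ ?_ hk2 hk3
      · rw [h]
        norm_num
      · rw [hk1, ZMod.natCast_zmod_val]
        ring
  · have hP : Par p q a (p - b) := ⟨ha, by omega, by omega, by omega⟩
    have hbc' : (p - b).Coprime p := cop_sub (by omega) hbc
    have hm := mir p q a b (zap (p := p) q a b D)
    have hcast : ((p - b : ℕ) : ZMod (p * q)) * q = - (b * q) := by
      rw [Nat.cast_sub (by omega), sub_mul, ← Nat.cast_mul, ZMod.natCast_self, zero_sub]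
    have hcastp : ((p - b : ℕ) : ZMod p) = - b := by
      rw [Nat.cast_sub (by omega), ZMod.natCast_self, zero_sub]
    have hrw : ∀ X : ZMod (p * q), ∀ j : ZMod p, X = zap q a b D (j - (b : ZMod p)) - b * q →
        rp p q X = 1 := by
      rintro X j rfl
      rw [map_sub, hrz, map_mul, map_natCast, map_natCast, hbq1]
      ring
    have hB : Blk q (p - b) 1
        (fun j : ZMod p => zap (p := p) q a b D (j - (b : ZMod p)) - b * q) := by
      refine ⟨le_rfl, fun j => ?_, fun j => ?_⟩
      · rw [hrw _ j rfl, Nat.cast_one]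
      · rw [hcast]
        simp only [sub_neg_eq_add, sub_add_cancel, hrz, Nat.sub_self, Nat.cast_zero]
    have hG' := hm.2.2.2 hG
    have hAP' := ap_translate hAP (b : ZMod p) (b * q)
    have hF' : ∀ X W S, p ∣ X.val → |FF q a (p - b)
        (fun j : ZMod p => zap q a b D (j - (b : ZMod p)) - b * q) X W S| ≤ 1 := by
      intro X W S hX
      rw [hm.2.1 (by omega) X W S, abs_neg]
      exact hbd X W S hX
    refine ⟨a, p - b, inferInstance, inferInstance, hP, ha2, by omega, hac, hbc',
      (fun j : ZMod p => zap q a b D (j - (b : ZMod p)) - b * q), _, _, _, Or.inr ?_,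
      hm.2.2.2 hG, ap_translate hAP (b : ZMod p) _, ?_⟩
    · rw [Nat.cast_sub (by omega), ZMod.natCast_self]
      push_cast
      ring
    obtain ⟨c, hc1⟩ := hb1
    have hcq : c ≤ q := by
      by_contra hcon
      have h1 : q + 1 ≤ c := by omega
      have h2 : p * (q + 1) ≤ p * c := Nat.mul_le_mul_left p h1
      have h3 : b * q + q ≤ p * q := by
        have : (b + 1) * q ≤ p * q := Nat.mul_le_mul_right q (by omega)
        rw [add_mul, one_mul] at this
        exact this
      rw [mul_add, mul_one] at h2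
      omega
    have hbq : (p - b) * q = p * (q - c) + 1 := by
      rw [Nat.sub_mul, Nat.mul_sub]
      have h3 : b * q + q ≤ p * q := by
        have : (b + 1) * q ≤ p * q := Nat.mul_le_mul_right q (by omega)
        rw [add_mul, one_mul] at this
        exact this
      have h4 : p * c ≤ p * q := Nat.mul_le_mul_left p hcq
      omega
    refine aLK3B p q a (p - b) hP ⟨q - c, hbq⟩ _ ?_ ?_ ?_ hF'
    · intro i j hij
      refine hG' i j ?_
      rw [hij, sub_self, ZMod.val_zero]
      exact dvd_zero _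
    · intro j
      -- the positions are `1` modulo `p`
      obtain ⟨t, ht⟩ := hz1 (j - (b : ZMod p))
      have h1 : zap q a b D (j - (b : ZMod p)) - b * q =
          ((p * t + (p * (q - c) + 1) : ℕ) : ZMod (p * q)) := by
        rw [← hbq, Nat.cast_add, ← ht, ZMod.natCast_zmod_val, Nat.cast_mul, hcast]
        ring
      rw [h1, ZMod.val_natCast, Nat.mod_mul_right_mod]
      have h2 : p * t + (p * (q - c) + 1) = 1 + p * (t + (q - c)) := by ring
      rw [h2, Nat.add_mul_mod_self_left]
      exact Nat.mod_eq_of_lt (by omega)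
    · intro n m h
      by_contra hcon
      have h0 : (m + ((p - b : ℕ) : ZMod p) - n).val ≠ 0 := by
        intro h1
        rw [ZMod.val_eq_zero, sub_eq_zero, hcastp] at h1
        refine noh hpq hNh (idx_lt a b (n - (b : ZMod p))) (idx_lt a b (m - (b : ZMod p)))
          (Or.inl ?_)
        have h2 := idx_sc (q := q) habc D (m - (b : ZMod p))
        have h3 := idx_sc (q := q) habc D (n - (b : ZMod p))
        have h4 : e p q (m - (b : ZMod p)) = e p q (n - (b : ZMod p)) + b * q := by
          have : m - (b : ZMod p) = n - (b : ZMod p) + (b : ZMod p) := by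
            rw [← h1]
            ring
          rw [this, e_add, e_natCast, Nat.cast_mul]
        rw [h4] at h2
        simp only [hcast] at h
        linear_combination h2 - h3 - h
      obtain ⟨k, hk1, hk2, hk3⟩ := class_of (a := a)
        (ZMod.val_lt (m + ((p - b : ℕ) : ZMod p) - n)) h0 (by omega)
      refine of_pair hS hθ hP hpq ha2 (by omega) hac hbc' hG' hB hAP' (Or.inr ?_)
        (fun X W S hX => hF' X W S ((rp_zero_iff X).1 hX)) (n := n) (m := m) ?_ ?_ hk2 hk3
      · rw [hcastp]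
        push_cast
        ring
      · rw [← h]
        push_cast
        ring
      · rw [hk1, ZMod.natCast_zmod_val]
        ring

end

/-- merges from harmful ties -/
theorem stmerge (h0 : StL0) (hS : StLS) : StMerge := by
  intro p q D g hp hpq hc hD hF hq hDp hNh _ _ _
  have h1 : NeZero p := ⟨by omega⟩
  have h2 : NeZero q := ⟨by omega⟩
  push_cast at hD
  have hDp' : IsCoprime D (p : ℤ) := hD.of_mul_right_left
  have hDq : IsCoprime D (q : ℤ) := hD.of_mul_right_right
  by_cases hDu : (q : ℤ) ∣ D - 1 ∨ (q : ℤ) ∣ D + 1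
  · exact Helper25.FLT.merge_one h0 hp hpq hc (by push_cast; exact hD) hF hq hDp hDu
  push Not at hDu
  refine Helper25.FLT.no_conf h0 (p := p) (q := q) ?_
  obtain ⟨a, ha, ha2, ha3, ha4, hac⟩ := exists_res hp hDp' hDp
  rcases Nat.lt_or_ge (2 * a) p with h | h
  · exact mconf1 hS hpq hc hDq hF hq ha2 h hac ha hDu hNh
  · have hac' : (p - a).Coprime p := cop_sub (by omega) hac
    refine mconf1 hS (a := p - a) (D := -D) hpq hc hDq.neg_left (flat_neg hF) hq (by omega)
      (by omega) hac' ?_ ?_ ?_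
    · obtain ⟨w, hw⟩ := ha
      refine ⟨1 - w, ?_⟩
      rw [Nat.cast_sub (by omega)]
      linarith
    · refine ⟨fun h7 => hDu.2 ?_, fun h7 => hDu.1 ?_⟩
      · have := (dvd_neg (a := (q : ℤ))).2 h7
        have e1 : -(-D - 1) = D + 1 := by ring
        rwa [e1] at this
      · have := (dvd_neg (a := (q : ℤ))).2 h7
        have e1 : -(-D + 1) = D - 1 := by ring
        rwa [e1] at this
    · intro h h3 h4
      obtain ⟨h5, h6⟩ := hNh h h3 h4
      have hneg : ∀ x : ℤ, ((p * q : ℕ) : ℤ) ∣ x → ((p * q : ℕ) : ℤ) ∣ -x := fun x hx =>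
        (dvd_neg (a := ((p * q : ℕ) : ℤ))).2 hx
      refine ⟨fun h7 => h6 ?_, fun h7 => h5 ?_⟩
      · have := hneg _ h7
        have e1 : -(-D * h - 1) = D * h + 1 := by ring
        rwa [e1] at this
      · have := hneg _ h7
        have e1 : -(-D * h + 1) = D * h - 1 := by ring
        rwa [e1] at this

end Helper55.KE
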