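import Pool.Agent.Helper55.KE.MSp

set_option autoImplicit false
set_option linter.unusedSectionVars false

/-!
# Transfer of the rules to nearby positions
-/

namespace Helper55.KE

open Helper11.N1
open Helper11.N1.DECaux (ind ite_ind ind_and ind_congr ind_pos ind_neg)

/-- `t` lies between `x` and `y` (both included) -/
def Btw (x y t : ℤ) : Prop := (x ≤ t ∧ t ≤ y) ∨ (y ≤ t ∧ t ≤ x)

theorem Btw.symm {x y t : ℤ} (h : Btw x y t) : Btw y x t := Or.symm h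

section

variable {p q a b : ℕ} [NeZero p] [NeZero q]

theorem ceil_le_of {x y : ℤ} (hxy : x ≤ y) (h : ∀ t : ℤ, Btw x y t → ¬ (q : ℤ) ∣ t) :
    ⌈(y : ℝ) / q⌉ = ⌈(x : ℝ) / q⌉ := by
  have hq0 : (0 : ℝ) < q := by
    have := Nat.pos_of_ne_zero (NeZero.ne q)
    exact_mod_cast this
  apply le_antisymm
  · rw [Int.ceil_le, div_le_iff₀ hq0]
    set n := ⌈(x : ℝ) / q⌉ with hn
    have h1 : (x : ℝ) / q ≤ n := Int.le_ceil _
    rw [div_le_iff₀ hq0] at h1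
    have h2 : x ≤ n * q := by exact_mod_cast h1
    by_contra hcon
    push Not at hcon
    have h3 : n * q < y := by exact_mod_cast hcon
    exact h (n * q) (Or.inl ⟨h2, h3.le⟩) ⟨n, by ring⟩
  · apply Int.ceil_mono
    apply div_le_div_of_nonneg_right _ hq0.le
    exact_mod_cast hxy

theorem ceil_eq_of {x y : ℤ} (h : ∀ t : ℤ, Btw x y t → ¬ (q : ℤ) ∣ t) :
    ⌈(y : ℝ) / q⌉ = ⌈(x : ℝ) / q⌉ := by
  rcases le_total x y with h1 | h1
  · exact ceil_le_of h1 h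
  · exact (ceil_le_of h1 (fun t ht => h t ht.symm)).symm

/-- arc indicators -/
theorem hind_le_of {x y k : ℤ} {L : ℕ} (hL : L ≤ p * q) (hxy : x ≤ y)
    (h1 : ∀ t : ℤ, Btw x y t → ¬ ((p * q : ℕ) : ℤ) ∣ t - k)
    (h2 : ∀ t : ℤ, Btw x y t → ¬ ((p * q : ℕ) : ℤ) ∣ t - k - L) :
    Helper10.KE.ind p ((k : ℝ) / q) ((L : ℝ) / q) ((y : ℝ) / q) =
      Helper10.KE.ind p ((k : ℝ) / q) ((L : ℝ) / q) ((x : ℝ) / q) := by
  rw [hind_q k y L hL, hind_q k x L hL]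
  apply ind_congr
  rw [val_lt_iff y k L hL, val_lt_iff x k L hL]
  constructor
  · rintro ⟨m, h3, h4⟩
    refine ⟨m, ?_, by linarith⟩
    by_contra hcon
    push Not at hcon
    refine h1 (k - m * ((p * q : ℕ) : ℤ)) (Or.inl ⟨by linarith, by linarith⟩) ⟨-m, by ring⟩
  · rintro ⟨m, h3, h4⟩
    refine ⟨m, by linarith, ?_⟩
    by_contra hcon
    push Not at hcon
    refine h2 (k + L - m * ((p * q : ℕ) : ℤ)) (Or.inl ⟨by linarith, by linarith⟩)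
      ⟨-m, by ring⟩

theorem hind_eq_of {x y k : ℤ} {L : ℕ} (hL : L ≤ p * q)
    (h1 : ∀ t : ℤ, Btw x y t → ¬ ((p * q : ℕ) : ℤ) ∣ t - k)
    (h2 : ∀ t : ℤ, Btw x y t → ¬ ((p * q : ℕ) : ℤ) ∣ t - k - L) :
    Helper10.KE.ind p ((k : ℝ) / q) ((L : ℝ) / q) ((y : ℝ) / q) =
      Helper10.KE.ind p ((k : ℝ) / q) ((L : ℝ) / q) ((x : ℝ) / q) := by
  rcases le_total x y with h | h
  · exact hind_le_of hL h h1 h2
  · exact (hind_le_of hL h (fun t ht => h1 t ht.symm) (fun t ht => h2 t ht.symm)).symm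

/-- a level function depends on the ceiling only -/
def CI (h : ℝ → ℤ) : Prop := ∀ t : ℝ, h t = h ((⌈t⌉ : ℤ) : ℝ)

theorem CI.eq {h : ℝ → ℤ} (hh : CI h) {s t : ℝ} (hst : ⌈s⌉ = ⌈t⌉) : h s = h t := by
  rw [hh s, hh t, hst]

/-- the zone conditions for a diagonal position moved from `x` to `y` -/
def ZD (p q a δ : ℕ) (x y : ℤ) : Prop := ∀ t : ℤ, Btw x y t →
  ¬ ((p * q : ℕ) : ℤ) ∣ t ∧ ¬ ((p * q : ℕ) : ℤ) ∣ t - δ ∧
    ¬ ((p * q : ℕ) : ℤ) ∣ t - a * q ∧ ¬ ((p * q : ℕ) : ℤ) ∣ t - a * q - δ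

/-- the zone conditions for a vertical position moved from `x` to `y` -/
def ZV (p q b δ : ℕ) (x y : ℤ) : Prop := ∀ t : ℤ, Btw x y t →
  ¬ ((p * q : ℕ) : ℤ) ∣ t ∧ ¬ ((p * q : ℕ) : ℤ) ∣ t - δ ∧
    ¬ ((p * q : ℕ) : ℤ) ∣ t + b * q ∧ ¬ ((p * q : ℕ) : ℤ) ∣ t + b * q - δ

/-- the four indicators of the jump function at positions -/
def EqD (p q a δ : ℕ) (x y : ℤ) : Prop :=
  Helper10.KE.ind p 0 ((δ : ℝ) / q) ((y : ℝ) / q) =
      Helper10.KE.ind p 0 ((δ : ℝ) / q) ((x : ℝ) / q) ∧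
    Helper10.KE.ind p a ((δ : ℝ) / q) ((y : ℝ) / q) =
      Helper10.KE.ind p a ((δ : ℝ) / q) ((x : ℝ) / q)

def EqV (p q b δ : ℕ) (x y : ℤ) : Prop :=
  Helper10.KE.ind p 0 ((δ : ℝ) / q) ((y : ℝ) / q) =
      Helper10.KE.ind p 0 ((δ : ℝ) / q) ((x : ℝ) / q) ∧
    Helper10.KE.ind p (-b) ((δ : ℝ) / q) ((y : ℝ) / q) =
      Helper10.KE.ind p (-b) ((δ : ℝ) / q) ((x : ℝ) / q)

theorem eqD_of {δ : ℕ} (hδ : δ ≤ p * q) {x y : ℤ} (h : ZD p q a δ x y) : EqD p q a δ x y := by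
  have hq0 : (q : ℝ) ≠ 0 := by
    have := NeZero.ne q
    exact_mod_cast this
  constructor
  · have g := hind_eq_of (p := p) (q := q) (x := x) (y := y) (k := 0) (L := δ) hδ
      (fun t ht => by rw [sub_zero]; exact (h t ht).1)
      (fun t ht => by rw [sub_zero]; exact (h t ht).2.1)
    rw [Int.cast_zero, zero_div] at g
    exact g
  · have g := hind_eq_of (p := p) (q := q) (x := x) (y := y) (k := a * q) (L := δ) hδ
      (fun t ht => (h t ht).2.2.1) (fun t ht => (h t ht).2.2.2)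
    have e1 : (((a * q : ℤ) : ℝ)) / q = a := by push_cast; field_simp
    rw [e1] at g
    exact g

theorem eqV_of {δ : ℕ} (hδ : δ ≤ p * q) {x y : ℤ} (h : ZV p q b δ x y) : EqV p q b δ x y := by
  have hq0 : (q : ℝ) ≠ 0 := by
    have := NeZero.ne q
    exact_mod_cast this
  constructor
  · have g := hind_eq_of (p := p) (q := q) (x := x) (y := y) (k := 0) (L := δ) hδ
      (fun t ht => by rw [sub_zero]; exact (h t ht).1)
      (fun t ht => by rw [sub_zero]; exact (h t ht).2.1)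
    rw [Int.cast_zero, zero_div] at g
    exact g
  · have g := hind_eq_of (p := p) (q := q) (x := x) (y := y) (k := -(b * q)) (L := δ) hδ
      (fun t ht => by rw [sub_neg_eq_add]; exact (h t ht).2.2.1)
      (fun t ht => by rw [sub_neg_eq_add]; exact (h t ht).2.2.2)
    have e1 : (((-(b * q) : ℤ) : ℝ)) / q = -b := by push_cast; field_simp
    rw [e1] at g
    exact g

theorem eqV_refl (δ : ℕ) (x : ℤ) : EqV p q b δ x x := ⟨rfl, rfl⟩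

theorem eqD_refl (δ : ℕ) (x : ℤ) : EqD p q a δ x x := ⟨rfl, rfl⟩

/-- transfer of the complete rule -/
theorem RUq.tr {δ : ℕ} {hv hv' : ℝ → ℤ} {vX vY dX dY kd sd : ℤ}
    (c1 : CI hv) (c2 : CI hv')
    (h : RUq p a b ((δ : ℝ) / q) hv hv' ((vX : ℝ) / q) ((dX : ℝ) / q) kd sd)
    (hN : ∀ t : ℤ, Btw (dX - vX) (dY - vY) t → ¬ (q : ℤ) ∣ t)
    (hV : EqV p q b δ vX vY) (hD : EqD p q a δ dX dY) :
    RUq p a b ((δ : ℝ) / q) hv hv' ((vY : ℝ) / q) ((dY : ℝ) / q) kd sd := by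
  have hce : ⌈(dY : ℝ) / q - (vY : ℝ) / q⌉ = ⌈(dX : ℝ) / q - (vX : ℝ) / q⌉ := by
    have g := ceil_eq_of (q := q) hN
    have e1 : ((dY - vY : ℤ) : ℝ) / q = (dY : ℝ) / q - (vY : ℝ) / q := by push_cast; ring
    have e2 : ((dX - vX : ℤ) : ℝ) / q = (dX : ℝ) / q - (vX : ℝ) / q := by push_cast; ring
    rw [e1, e2] at g
    exact g
  intro W
  have hW := h W
  have g1 := c1.eq hce
  have g2 := c2.eq hce
  have g3 : Helper10.KE.ind (p : ℝ) (kd : ℝ) (b : ℝ) ((dY : ℝ) / q - (vY : ℝ) / q) =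
      Helper10.KE.ind (p : ℝ) (kd : ℝ) (b : ℝ) ((dX : ℝ) / q - (vX : ℝ) / q) := by
    rw [hind_ceil kd b, hce, ← hind_ceil kd b]
  have g4 : ∀ w : ℝ, Helper10.KE.gg p a b ((δ : ℝ) / q) ((vY : ℝ) / q) ((dY : ℝ) / q) w =
      Helper10.KE.gg p a b ((δ : ℝ) / q) ((vX : ℝ) / q) ((dX : ℝ) / q) w := by
    intro w
    unfold Helper10.KE.gg
    rw [hV.1, hV.2, hD.1, hD.2]
  have g5 : Helper10.KE.gg p a b ((δ : ℝ) / q) ((vX : ℝ) / q) ((dX : ℝ) / q)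
      ((dY : ℝ) / q - (vY : ℝ) / q) =
      Helper10.KE.gg p a b ((δ : ℝ) / q) ((vX : ℝ) / q) ((dX : ℝ) / q)
        ((dX : ℝ) / q - (vX : ℝ) / q) := by
    rw [gg_ceil a b _ _ _ ((dY : ℝ) / q - (vY : ℝ) / q), hce, ← gg_ceil a b]
  rw [g1, g2, g3, g4, g4, g5]
  exact hW

/-- transfer of the jump two rule -/
theorem J2l.tr {kap kv : ℤ} {vX vY dX dY kd : ℤ}
    (h : J2l p a b kap ((vX : ℝ) / q) kv ((dX : ℝ) / q) kd)
    (hN : ∀ t : ℤ, Btw (dX - vX) (dY - vY) t → ¬ (q : ℤ) ∣ t) :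
    J2l p a b kap ((vY : ℝ) / q) kv ((dY : ℝ) / q) kd := by
  have hce : ⌈(dY : ℝ) / q - (vY : ℝ) / q⌉ = ⌈(dX : ℝ) / q - (vX : ℝ) / q⌉ := by
    have g := ceil_eq_of (q := q) hN
    have e1 : ((dY - vY : ℤ) : ℝ) / q = (dY : ℝ) / q - (vY : ℝ) / q := by push_cast; ring
    have e2 : ((dX - vX : ℤ) : ℝ) / q = (dX : ℝ) / q - (vX : ℝ) / q := by push_cast; ring
    rw [e1, e2] at g
    exact g
  intro W hW
  have g3 : Helper10.KE.ind (p : ℝ) (kd : ℝ) (b : ℝ) ((dY : ℝ) / q - (vY : ℝ) / q) =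
      Helper10.KE.ind (p : ℝ) (kd : ℝ) (b : ℝ) ((dX : ℝ) / q - (vX : ℝ) / q) := by
    rw [hind_ceil kd b, hce, ← hind_ceil kd b]
  rw [g3] at hW
  have g1 : hh (p : ℝ) a kap kv ((dY : ℝ) / q - (vY : ℝ) / q) =
      hh (p : ℝ) a kap kv ((dX : ℝ) / q - (vX : ℝ) / q) := by
    rw [hh_ceil a kap kv, hce, ← hh_ceil a kap kv]
  rw [g1]
  exact h W hW

end

end Helper55.KE
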