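import Pool.Agent.Helper57.KE.St2

/-!
# Module POC of project KF: the critical inequality
-/

set_option autoImplicit false

namespace Pool.Agent.Helper55.KE

open Pool.Agent.Helper57.KE Pool.Agent.Helper57.KR Pool.Agent.Helper65.RG

private lemma inv_bound (r t : ℝ) (ht : 0 ≤ t) (h1 : -(2 * t) ≤ r) (h2 : 4 * t ≤ 1) :
    1 / (1 + r) ≤ 1 - r + r ^ 2 + 16 * t ^ 3 := by
  have hp : 0 < 1 + r := by linarith
  rw [div_le_iff₀ hp]
  have h3 : -(8 * t ^ 3) ≤ r ^ 3 := by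
    have h4 : 0 ≤ r + 2 * t := by linarith
    have h5 : 0 ≤ r ^ 2 - 2 * r * t + 4 * t ^ 2 := by nlinarith [sq_nonneg (r - t)]
    nlinarith [mul_nonneg h4 h5]
  have h6 : 1 / 2 ≤ 1 + r := by linarith
  have h7 : 0 ≤ t ^ 3 := by positivity
  nlinarith [mul_le_mul_of_nonneg_right h6 h7]

/-- lower bound for the difference term -/
private lemma diff_bound (p α β w u D K : ℝ) (hp0 : 0 < p) (hp1 : p < 1) (hα : 0 ≤ α)
    (hβ : 0 ≤ β) (hK : 1 + α + β ≤ K) (hw : 0 < w) (hw1 : w ≤ 1) (hD : 0 < D)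
    (hu : u * (1 + w) = w) :
    p * w ^ 2 + (-p * w ^ 3 + 2 * α * w ^ 3 + (p + β) * D * w ^ 2) - 3 * K * (w + D) ^ 4 ≤
      (1 + D) * (w * u * (p + α * (w + u) + β * D)) := by
  have hu0 : 0 < u := by
    by_contra h
    push Not at h
    nlinarith
  have e1 : u = w - w * u := by linarith
  have e2 : w - w ^ 2 ≤ u := by
    have : u ≤ w := by nlinarith [mul_pos hw hu0]
    nlinarith [mul_le_mul_of_nonneg_left this hw.le]
  have e3 : w ^ 2 - w ^ 3 ≤ w * u := by nlinarith [mul_le_mul_of_nonneg_left e2 hw.le]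
  have e4 : 0 ≤ w ^ 2 - w ^ 3 := by nlinarith [sq_nonneg w, mul_nonneg (sq_nonneg w) (sub_nonneg.2 hw1)]
  have e5 : 2 * w - w ^ 2 ≤ w + u := by linarith
  have e6 : 2 * w ^ 3 - 3 * w ^ 4 ≤ w * u * (w + u) := by
    have h1 : (w ^ 2 - w ^ 3) * (2 * w - w ^ 2) ≤ w * u * (w + u) :=
      mul_le_mul e3 e5 (by nlinarith) (by positivity)
    have h2 : 0 ≤ w ^ 5 := by positivity
    nlinarith
  have hwu : 0 < w * u := mul_pos hw hu0
  have f1 : p * (w ^ 2 - w ^ 3) ≤ p * (w * u) := mul_le_mul_of_nonneg_left e3 hp0.le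
  have f2 : D * (p * (w ^ 2 - w ^ 3)) ≤ D * (p * (w * u)) := mul_le_mul_of_nonneg_left f1 hD.le
  have f3 : α * (2 * w ^ 3 - 3 * w ^ 4) ≤ α * (w * u * (w + u)) := mul_le_mul_of_nonneg_left e6 hα
  have f4 : β * D * (w ^ 2 - w ^ 3) ≤ β * D * (w * u) :=
    mul_le_mul_of_nonneg_left e3 (by positivity)
  have f5 : 0 ≤ D * (α * (w * u * (w + u)) + β * D * (w * u)) := by positivity
  have g1 : w ^ 4 ≤ (w + D) ^ 4 := pow_le_pow_left₀ hw.le (by linarith) 4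
  have g2 : D * w ^ 3 ≤ (w + D) ^ 4 := by
    have : (w + D) ^ 4 - D * w ^ 3 = w ^ 4 + 3 * w ^ 3 * D + 6 * w ^ 2 * D ^ 2 + 4 * w * D ^ 3 + D ^ 4 := by
      ring
    have h : 0 ≤ w ^ 4 + 3 * w ^ 3 * D + 6 * w ^ 2 * D ^ 2 + 4 * w * D ^ 3 + D ^ 4 := by positivity
    linarith
  have g3 : 0 ≤ (w + D) ^ 4 := by positivity
  have k1 : p * (D * w ^ 3) ≤ 1 * (w + D) ^ 4 := mul_le_mul hp1.le g2 (by positivity) (by norm_num)
  have k2 : α * w ^ 4 ≤ α * (w + D) ^ 4 := mul_le_mul_of_nonneg_left g1 hα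
  have k3 : β * (D * w ^ 3) ≤ β * (w + D) ^ 4 := mul_le_mul_of_nonneg_left g2 hβ
  have k4 : (1 + 3 * α + β) * (w + D) ^ 4 ≤ 3 * K * (w + D) ^ 4 :=
    mul_le_mul_of_nonneg_right (by linarith) g3
  have main : (1 + D) * (w * u * (p + α * (w + u) + β * D)) =
      p * (w * u) + D * (p * (w * u)) + α * (w * u * (w + u)) + β * D * (w * u) +
        D * (α * (w * u * (w + u)) + β * D * (w * u)) := by ring
  rw [main]
  nlinarith

/-- upper bound for the last term -/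
private lemma last_bound (s p α β γ w u D K : ℝ) (hs0 : 0 < s) (hp0 : 0 < p) (hp1 : p < 1)
    (hα : 0 ≤ α) (hβ : 0 ≤ β) (hγ : 0 ≤ γ) (hK : 1 + α + β + γ ≤ K) (hw : 0 < w) (hw1 : w ≤ 1)
    (hD : 0 < D) (hu : u * (1 + w) = w) :
    (1 - p) * w * ((1 + D) * (p * u - s * D + α * u ^ 2 + β * D * u + γ * D ^ 2)) ≤
      (1 - p) * w * ((p * w - s * D) - p * w ^ 2 + (α * w ^ 2 + β * D * w + γ * D ^ 2) +
        D * (p * w - s * D)) + 2 * K * (w + D) ^ 4 := by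
  have hu0 : 0 < u := by
    by_contra h
    push Not at h
    nlinarith
  have hK1 : 1 ≤ K := by linarith
  have huw : u ≤ w := by nlinarith [mul_pos hw hu0]
  have e2 : u ≤ w - w ^ 2 + w ^ 3 := by
    have h1 : w - w ^ 2 ≤ u := by nlinarith [mul_le_mul_of_nonneg_left huw hw.le]
    have h2 : w * (w - w ^ 2) ≤ w * u := mul_le_mul_of_nonneg_left h1 hw.le
    nlinarith
  have e3 : u ^ 2 ≤ w ^ 2 := pow_le_pow_left₀ hu0.le huw 2
  set ρ2 := α * w ^ 2 + β * D * w + γ * D ^ 2 with hρ2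
  have hρ20 : 0 ≤ ρ2 := by positivity
  have f1 : p * u - s * D + α * u ^ 2 + β * D * u + γ * D ^ 2 ≤
      p * (w - w ^ 2 + w ^ 3) - s * D + ρ2 := by
    have h1 : p * u ≤ p * (w - w ^ 2 + w ^ 3) := mul_le_mul_of_nonneg_left e2 hp0.le
    have h2 : α * u ^ 2 ≤ α * w ^ 2 := mul_le_mul_of_nonneg_left e3 hα
    have h3 : β * D * u ≤ β * D * w := mul_le_mul_of_nonneg_left huw (by positivity)
    rw [hρ2]
    linarith
  have f2 : (1 + D) * (p * u - s * D + α * u ^ 2 + β * D * u + γ * D ^ 2) ≤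
      (1 + D) * (p * (w - w ^ 2 + w ^ 3) - s * D + ρ2) :=
    mul_le_mul_of_nonneg_left f1 (by linarith)
  have hT : 0 ≤ w + D := by linarith
  have f3 : ρ2 ≤ (K - 1) * (w + D) ^ 2 := by
    have h1 : w ^ 2 ≤ (w + D) ^ 2 := pow_le_pow_left₀ hw.le (by linarith) 2
    have h2 : D * w ≤ (w + D) ^ 2 := by nlinarith [mul_pos hw hD, sq_nonneg w, sq_nonneg D]
    have h3 : D ^ 2 ≤ (w + D) ^ 2 := pow_le_pow_left₀ hD.le (by linarith) 2
    have h4 : α * w ^ 2 ≤ α * (w + D) ^ 2 := mul_le_mul_of_nonneg_left h1 hα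
    have h5 : β * (D * w) ≤ β * (w + D) ^ 2 := mul_le_mul_of_nonneg_left h2 hβ
    have h6 : γ * D ^ 2 ≤ γ * (w + D) ^ 2 := mul_le_mul_of_nonneg_left h3 hγ
    have h7 : (α + β + γ) * (w + D) ^ 2 ≤ (K - 1) * (w + D) ^ 2 :=
      mul_le_mul_of_nonneg_right (by linarith) (by positivity)
    rw [hρ2]
    nlinarith
  have f4 : p * w ^ 3 + D * ρ2 ≤ 2 * K * (w + D) ^ 3 := by
    have h1 : w ^ 3 ≤ (w + D) ^ 3 := pow_le_pow_left₀ hw.le (by linarith) 3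
    have h2 : p * w ^ 3 ≤ 1 * (w + D) ^ 3 := mul_le_mul hp1.le h1 (by positivity) (by norm_num)
    have h3 : D * ρ2 ≤ (w + D) * ((K - 1) * (w + D) ^ 2) :=
      mul_le_mul (by linarith) f3 hρ20 (by linarith)
    have h4 : (w + D) * ((K - 1) * (w + D) ^ 2) = (K - 1) * (w + D) ^ 3 := by ring
    have h5 : 0 ≤ (w + D) ^ 3 := by positivity
    nlinarith
  have f5 : (1 + D) * (p * (w - w ^ 2 + w ^ 3) - s * D + ρ2) ≤
      ((p * w - s * D) - p * w ^ 2 + ρ2 + D * (p * w - s * D)) + 2 * K * (w + D) ^ 3 := by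
    have h1 : 0 ≤ D * p * (w ^ 2 - w ^ 3) := by
      have : 0 ≤ w ^ 2 - w ^ 3 := by nlinarith [mul_nonneg (sq_nonneg w) (sub_nonneg.2 hw1)]
      positivity
    nlinarith
  have hpw : 0 ≤ (1 - p) * w := mul_nonneg (by linarith) hw.le
  have f6 := mul_le_mul_of_nonneg_left (f2.trans f5) hpw
  have f7 : (1 - p) * w * (2 * K * (w + D) ^ 3) ≤ (w + D) * (2 * K * (w + D) ^ 3) := by
    apply mul_le_mul_of_nonneg_right _ (by positivity)
    nlinarith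
  nlinarith

private lemma crit (s p α β γ w u D K : ℝ) (hs0 : 0 < s) (hs1 : s < 1) (hp0 : 0 < p)
    (hp1 : p < 1) (hps : (1 + s) * p = 1 - s) (hα : 0 ≤ α) (hβ : 0 ≤ β) (hγ : 8 ≤ γ)
    (hK : K = 1 + α + β + γ)
    (c1 : 200 ≤ (1 - p) * α - p ^ 2) (c2 : 200 ≤ 2 * s * α - p * β)
    (c3 : 200 ≤ 2 * s * β - (1 + p) * γ + (1 + p) * s) (c4 : 200 ≤ 2 * s * γ - s ^ 2)
    (hw : 0 < w) (hD : 0 < D) (hu : u * (1 + w) = w) (hwK : 4 * K ^ 2 * w ≤ 1)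
    (hDK : 4 * K ^ 2 * D ≤ 1) :
    D ^ 2 * (1 - s ^ 2) ≤
      (1 + D) ^ 2 - (1 + D) / (1 + (p * w - s * D + α * w ^ 2 + β * D * w + γ * D ^ 2)) -
        (1 + (1 - p) * w) *
          ((1 + D) * (1 + (p * u - s * D + α * u ^ 2 + β * D * u + γ * D ^ 2)) - 1) := by
  have hK9 : 9 ≤ K := by rw [hK]; linarith
  obtain ⟨t, ht⟩ : ∃ t, t = w + D := ⟨_, rfl⟩
  have ht0 : 0 < t := by rw [ht]; linarith
  have htK : 2 * K ^ 2 * t ≤ 1 := by rw [ht]; nlinarith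
  have hKt : K * t ≤ 1 / 18 := by
    have : 9 * (K * t) ≤ K * (K * t) := mul_le_mul_of_nonneg_right hK9 (by positivity)
    nlinarith
  have ht1 : t ≤ 1 / 100 := by
    have : 9 * t ≤ K * t := mul_le_mul_of_nonneg_right hK9 ht0.le
    nlinarith
  have hw1 : w ≤ 1 := by linarith
  have hD1 : D ≤ 1 := by linarith
  obtain ⟨ρ1, hρ1⟩ : ∃ ρ1, ρ1 = p * w - s * D := ⟨_, rfl⟩
  obtain ⟨ρ2, hρ2⟩ : ∃ ρ2, ρ2 = α * w ^ 2 + β * D * w + γ * D ^ 2 := ⟨_, rfl⟩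
  have hρ20 : 0 ≤ ρ2 := by rw [hρ2]; positivity
  have hwt : w ≤ t := by linarith
  have hDt : D ≤ t := by linarith
  have hρ2K : ρ2 ≤ K * t ^ 2 := by
    have h1 : w ^ 2 ≤ t ^ 2 := pow_le_pow_left₀ hw.le hwt 2
    have h2 : D * w ≤ t ^ 2 := by nlinarith [mul_le_mul hDt hwt hw.le ht0.le]
    have h3 : D ^ 2 ≤ t ^ 2 := pow_le_pow_left₀ hD.le hDt 2
    have h4 : α * w ^ 2 ≤ α * t ^ 2 := mul_le_mul_of_nonneg_left h1 hα
    have h5 : β * (D * w) ≤ β * t ^ 2 := mul_le_mul_of_nonneg_left h2 hβ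
    have h6 : γ * D ^ 2 ≤ γ * t ^ 2 := mul_le_mul_of_nonneg_left h3 (by linarith)
    have h7 : 0 ≤ t ^ 2 := by positivity
    rw [hρ2, hK]
    nlinarith
  have hρ1a : ρ1 ≤ t := by
    have : p * w ≤ 1 * w := mul_le_mul_of_nonneg_right hp1.le hw.le
    have h2 : 0 ≤ s * D := by positivity
    rw [hρ1]; linarith
  have hρ1b : -t ≤ ρ1 := by
    have : s * D ≤ 1 * D := mul_le_mul_of_nonneg_right hs1.le hD.le
    have h2 : 0 ≤ p * w := by positivity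
    rw [hρ1]; linarith
  have hsplit : p * w - s * D + α * w ^ 2 + β * D * w + γ * D ^ 2 = ρ1 + ρ2 := by
    rw [hρ1, hρ2]; ring
  rw [hsplit]
  have hinv := inv_bound (ρ1 + ρ2) t ht0.le (by linarith) (by linarith)
  have hinv2 : (1 + D) / (1 + (ρ1 + ρ2)) ≤
      (1 + D) * (1 - (ρ1 + ρ2) + (ρ1 + ρ2) ^ 2 + 16 * t ^ 3) := by
    rw [div_eq_mul_one_div]
    exact mul_le_mul_of_nonneg_left hinv (by linarith)
  have hdiff := diff_bound p α β w u D K hp0 hp1 hα hβ (by rw [hK]; linarith) hw hw1 hD hu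
  have hlast := last_bound s p α β γ w u D K hs0 hp0 hp1 hα hβ (by linarith) (by rw [hK]) hw hw1
    hD hu
  rw [← ht] at hdiff hlast
  rw [← hρ1, ← hρ2] at hlast
  -- quadratic terms
  have hquad : (1 + D) * (ρ1 + ρ2) ^ 2 ≤
      ρ1 ^ 2 + D * ρ1 ^ 2 + 2 * ρ1 * ρ2 + 4 * K ^ 2 * t ^ 4 := by
    have h1 : 2 * D * (ρ1 * ρ2) ≤ 2 * t * (t * (K * t ^ 2)) := by
      have h2 : ρ1 * ρ2 ≤ t * (K * t ^ 2) := mul_le_mul hρ1a hρ2K hρ20 ht0.le
      have h3 : 0 ≤ t * (K * t ^ 2) := by positivity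
      calc 2 * D * (ρ1 * ρ2) ≤ 2 * D * (t * (K * t ^ 2)) :=
            mul_le_mul_of_nonneg_left h2 (by positivity)
        _ ≤ 2 * t * (t * (K * t ^ 2)) := mul_le_mul_of_nonneg_right (by linarith) h3
    have h4 : ρ2 ^ 2 ≤ (K * t ^ 2) ^ 2 := pow_le_pow_left₀ hρ20 hρ2K 2
    have h5 : (1 + D) * ρ2 ^ 2 ≤ 2 * (K * t ^ 2) ^ 2 :=
      mul_le_mul (by linarith) h4 (sq_nonneg _) (by norm_num)
    have h6 : K * t ^ 4 ≤ K ^ 2 * t ^ 4 := by
      apply mul_le_mul_of_nonneg_right _ (by positivity)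
      nlinarith
    nlinarith
  have hDt3 : (1 + D) * (16 * t ^ 3) ≤ 32 * t ^ 3 := by
    have : 0 ≤ t ^ 3 := by positivity
    nlinarith
  -- cubic terms
  have hcub : 200 * (w ^ 3 + w ^ 2 * D + w * D ^ 2 + D ^ 3) ≤
      (-p * w ^ 3 + 2 * α * w ^ 3 + (p + β) * D * w ^ 2) - D * ρ1 ^ 2 - 2 * ρ1 * ρ2 -
        (1 - p) * w * (-(p * w ^ 2) + ρ2 + D * ρ1) := by
    have e : (-p * w ^ 3 + 2 * α * w ^ 3 + (p + β) * D * w ^ 2) - D * ρ1 ^ 2 - 2 * ρ1 * ρ2 -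
        (1 - p) * w * (-(p * w ^ 2) + ρ2 + D * ρ1) =
        ((1 - p) * α - p ^ 2) * w ^ 3 + (2 * s * α - p * β) * (w ^ 2 * D) +
          (2 * s * β - (1 + p) * γ + (1 + p) * s) * (w * D ^ 2) + (2 * s * γ - s ^ 2) * D ^ 3 := by
      rw [hρ1, hρ2]; ring
    rw [e]
    have a1 := mul_le_mul_of_nonneg_right c1 (show 0 ≤ w ^ 3 by positivity)
    have a2 := mul_le_mul_of_nonneg_right c2 (show 0 ≤ w ^ 2 * D by positivity)
    have a3 := mul_le_mul_of_nonneg_right c3 (show 0 ≤ w * D ^ 2 by positivity)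
    have a4 := mul_le_mul_of_nonneg_right c4 (show 0 ≤ D ^ 3 by positivity)
    linarith
  have ht3 : t ^ 3 ≤ 3 * (w ^ 3 + w ^ 2 * D + w * D ^ 2 + D ^ 3) := by
    have h1 : 0 ≤ w ^ 3 := by positivity
    have h2 : 0 ≤ D ^ 3 := by positivity
    have h3 : t ^ 3 = w ^ 3 + 3 * (w ^ 2 * D) + 3 * (w * D ^ 2) + D ^ 3 := by rw [ht]; ring
    linarith
  -- terms of order two cancel
  have hzero : s ^ 2 * D ^ 2 + p * w ^ 2 - ρ1 ^ 2 - (1 - p) * w * D - (1 - p) * w * ρ1 = 0 := by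
    have e : s ^ 2 * D ^ 2 + p * w ^ 2 - ρ1 ^ 2 - (1 - p) * w * D - (1 - p) * w * ρ1 =
        w * D * ((1 + s) * p - (1 - s)) := by rw [hρ1]; ring
    rw [e, hps]; ring
  -- order four
  have h4 : 5 * K * t ^ 4 + 4 * K ^ 2 * t ^ 4 ≤ 5 * t ^ 3 := by
    have h5 : 0 < t ^ 3 := by positivity
    have h6 : K ^ 2 * t ^ 4 = (K ^ 2 * t) * t ^ 3 := by ring
    have h7 : K * t ^ 4 = (K * t) * t ^ 3 := by ring
    have h8 : (K ^ 2 * t) * t ^ 3 ≤ 1 / 2 * t ^ 3 :=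
      mul_le_mul_of_nonneg_right (by linarith) h5.le
    have h9 : (K * t) * t ^ 3 ≤ 1 / 18 * t ^ 3 := mul_le_mul_of_nonneg_right hKt h5.le
    nlinarith
  have h5 : 0 < t ^ 3 := by positivity
  -- difference of the values
  have hdiffeq : (ρ1 + ρ2) - (p * u - s * D + α * u ^ 2 + β * D * u + γ * D ^ 2) =
      w * u * (p + α * (w + u) + β * D) := by
    have hwu : w - u = w * u := by linarith
    have : (ρ1 + ρ2) - (p * u - s * D + α * u ^ 2 + β * D * u + γ * D ^ 2) =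
        (w - u) * (p + α * (w + u) + β * D) := by rw [hρ1, hρ2]; ring
    rw [this, hwu]
  obtain ⟨ρ', hρ'⟩ : ∃ ρ', ρ' = p * u - s * D + α * u ^ 2 + β * D * u + γ * D ^ 2 := ⟨_, rfl⟩
  rw [← hρ'] at hdiffeq hlast ⊢
  rw [← hdiffeq] at hdiff
  have hfin : (1 + D) ^ 2 - (1 + D) * (1 - (ρ1 + ρ2) + (ρ1 + ρ2) ^ 2 + 16 * t ^ 3) -
        (1 + (1 - p) * w) * ((1 + D) * (1 + ρ') - 1) - D ^ 2 * (1 - s ^ 2) =
      s ^ 2 * D ^ 2 + (1 + D) * ((ρ1 + ρ2) - ρ') - (1 + D) * (ρ1 + ρ2) ^ 2 -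
        (1 + D) * (16 * t ^ 3) - (1 - p) * w * D - (1 - p) * w * ((1 + D) * ρ') := by ring
  nlinarith

private lemma crit4 (s p α β γ w D K : ℝ) (hs0 : 0 < s) (hs1 : s < 1) (hp0 : 0 < p)
    (hp1 : p < 1) (hα : 0 ≤ α) (hβ : 0 ≤ β) (hγ : 8 ≤ γ)
    (hK : K = 1 + α + β + γ) (hw : 0 < w) (hD : 0 < D) (hD2 : 2 * K * D ≤ s)
    (hwD : 2 * w ≤ s * D) :
    D ^ 2 * (1 - s ^ 2) + s * p * D * w ≤
      (1 + D) ^ 2 - (1 + D) / (1 + (p * w - s * D + α * w ^ 2 + β * D * w + γ * D ^ 2)) -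
          ((1 + D) * (1 + (p * w - s * D + α * w ^ 2 + β * D * w + γ * D ^ 2)) - 1) := by
  have hK9 : 9 ≤ K := by rw [hK]; linarith
  have hD1 : D ≤ 1 / 18 := by
    have : 9 * D ≤ K * D := mul_le_mul_of_nonneg_right hK9 hD.le
    nlinarith
  obtain ⟨A, hA⟩ : ∃ A, A = s * D - p * w := ⟨_, rfl⟩
  obtain ⟨e, he⟩ : ∃ e, e = α * w ^ 2 + β * D * w + γ * D ^ 2 := ⟨_, rfl⟩
  have hsD : s * D ≤ D := by nlinarith
  have hwD' : w ≤ D := by linarith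
  have hpw : p * w ≤ w := by nlinarith
  have hpw0 : 0 < p * w := by positivity
  have hA1 : s * D / 2 ≤ A := by rw [hA]; linarith
  have hA2 : A ≤ s * D := by rw [hA]; linarith
  have heγ : γ * D ^ 2 ≤ e := by
    have : 0 ≤ α * w ^ 2 + β * D * w := by positivity
    rw [he]; linarith
  have he0 : 0 ≤ e := le_trans (by positivity) heγ
  have heK : e ≤ K * D ^ 2 := by
    have h1 : w ^ 2 ≤ D ^ 2 := pow_le_pow_left₀ hw.le hwD' 2
    have h2 : D * w ≤ D ^ 2 := by nlinarith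
    have h4 : α * w ^ 2 ≤ α * D ^ 2 := mul_le_mul_of_nonneg_left h1 hα
    have h5 : β * (D * w) ≤ β * D ^ 2 := mul_le_mul_of_nonneg_left h2 hβ
    have h7 : 0 ≤ D ^ 2 := by positivity
    rw [he, hK]
    nlinarith
  have heA : e ≤ A := by
    have : K * D ^ 2 ≤ s * D / 2 := by nlinarith
    linarith
  have hρ : p * w - s * D + α * w ^ 2 + β * D * w + γ * D ^ 2 = -(A - e) := by
    rw [hA, he]; ring
  rw [hρ]
  have hpos : 0 < 1 + -(A - e) := by linarith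
  have hfac : (1 + D) ≤ (1 + 4 * D) * (1 + -(A - e)) := by
    have : 1 - D ≤ 1 + -(A - e) := by linarith
    have h2 : (1 + 4 * D) * (1 - D) ≤ (1 + 4 * D) * (1 + -(A - e)) :=
      mul_le_mul_of_nonneg_left this (by linarith)
    nlinarith
  have hkey : (1 + D) / (1 + -(A - e)) =
      (1 + D) * (1 + (A - e)) + (1 + D) / (1 + -(A - e)) * (A - e) ^ 2 := by
    field_simp
    ring
  have hfac2 : (1 + D) / (1 + -(A - e)) ≤ 1 + 4 * D := by
    rw [div_le_iff₀ hpos]; exact hfac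
  have hsq : (A - e) ^ 2 ≤ A ^ 2 - s * γ * D ^ 3 / 2 := by
    have h1 : A * e ≥ s * D / 2 * (γ * D ^ 2) :=
      mul_le_mul hA1 heγ (by positivity) (by linarith [mul_pos hs0 hD])
    have h2 : e * e ≤ A * e := mul_le_mul_of_nonneg_right heA he0
    nlinarith
  have hAsq : A ^ 2 ≤ s ^ 2 * D ^ 2 - s * p * D * w := by
    have h1 : (p * w) * (p * w) ≤ (p * w) * (s * D) :=
      mul_le_mul_of_nonneg_left (by linarith) hpw0.le
    rw [hA]
    nlinarith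
  have hAsq2 : A ^ 2 ≤ s ^ 2 * D ^ 2 := by
    have : 0 ≤ s * p * D * w := by positivity
    linarith
  have hprod : (1 + D) / (1 + -(A - e)) * (A - e) ^ 2 ≤ (1 + 4 * D) * (A - e) ^ 2 :=
    mul_le_mul_of_nonneg_right hfac2 (sq_nonneg _)
  have h4D : 4 * D * (A - e) ^ 2 ≤ s * γ * D ^ 3 / 2 := by
    have h1 : (A - e) ^ 2 ≤ s ^ 2 * D ^ 2 := by
      have : 0 ≤ s * γ * D ^ 3 / 2 := by positivity
      linarith
    have h2 : 4 * D * (A - e) ^ 2 ≤ 4 * D * (s ^ 2 * D ^ 2) :=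
      mul_le_mul_of_nonneg_left h1 (by positivity)
    have h3 : 8 * s ≤ γ := by linarith
    have h4 : 8 * s * (s * D ^ 3 / 2) ≤ γ * (s * D ^ 3 / 2) :=
      mul_le_mul_of_nonneg_right h3 (by positivity)
    nlinarith
  rw [hkey]
  nlinarith

theorem hPOC : StPOC := by
  intro c hc
  obtain ⟨s, hs⟩ : ∃ s, s = ss c := ⟨_, rfl⟩
  obtain ⟨p, hp⟩ : ∃ p, p = pp c := ⟨_, rfl⟩
  have hc2 : 1 / c ^ 2 < 1 := by
    rw [div_lt_one (by positivity)]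
    nlinarith
  have hc3 : 0 < 1 / c ^ 2 := by positivity
  have hsq : s ^ 2 = 1 - 1 / c ^ 2 := by
    rw [hs, ss, Real.sq_sqrt (by linarith)]
  have hs0 : 0 < s := by rw [hs, ss]; exact Real.sqrt_pos.2 (by linarith)
  have hs1 : s < 1 := by nlinarith
  have hpe : p = (1 - s) / (1 + s) := by rw [hp, pp, ← hs]
  have hps : (1 + s) * p = 1 - s := by rw [hpe]; field_simp
  have hp0 : 0 < p := by rw [hpe]; exact div_pos (by linarith) (by linarith)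
  have hp1 : p < 1 := by rw [hpe, div_lt_one (by linarith)]; linarith
  obtain ⟨γ, hγ⟩ : ∃ γ, γ = (200 + s ^ 2) / (2 * s) + 8 := ⟨_, rfl⟩
  have hγ8 : 8 ≤ γ := by
    have : 0 ≤ (200 + s ^ 2) / (2 * s) := by positivity
    linarith
  obtain ⟨β, hβ⟩ : ∃ β, β = (200 + (1 + p) * γ) / (2 * s) := ⟨_, rfl⟩
  have hβ0 : 0 ≤ β := by rw [hβ]; positivity
  obtain ⟨α, hα⟩ : ∃ α, α = (200 + p * β) / (2 * s) + (200 + p ^ 2) / (1 - p) := ⟨_, rfl⟩
  have h1p : 0 < 1 - p := by linarith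
  have hα0 : 0 ≤ α := by rw [hα]; positivity
  have c4 : 200 ≤ 2 * s * γ - s ^ 2 := by
    have : 2 * s * ((200 + s ^ 2) / (2 * s)) = 200 + s ^ 2 := by field_simp
    rw [hγ]; nlinarith
  have c3 : 200 ≤ 2 * s * β - (1 + p) * γ + (1 + p) * s := by
    have : 2 * s * ((200 + (1 + p) * γ) / (2 * s)) = 200 + (1 + p) * γ := by field_simp
    rw [hβ]; nlinarith
  have c2 : 200 ≤ 2 * s * α - p * β := by
    have h1 : 2 * s * ((200 + p * β) / (2 * s)) = 200 + p * β := by field_simp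
    have h2 : 0 ≤ 2 * s * ((200 + p ^ 2) / (1 - p)) := by positivity
    rw [hα]; nlinarith
  have c1 : 200 ≤ (1 - p) * α - p ^ 2 := by
    have h1 : (1 - p) * ((200 + p ^ 2) / (1 - p)) = 200 + p ^ 2 := by field_simp
    have h2 : 0 ≤ (1 - p) * ((200 + p * β) / (2 * s)) := by positivity
    rw [hα]; nlinarith
  obtain ⟨K, hK⟩ : ∃ K, K = 1 + α + β + γ := ⟨_, rfl⟩
  have hK9 : 9 ≤ K := by rw [hK]; linarith
  have hK0 : 0 < K := by linarith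
  refine ⟨α, β, γ, s / (4 * K ^ 2), ⌈4 * K ^ 2⌉₊ + 2, hα0, hβ0, by linarith, by positivity, ?_,
    by omega, ?_⟩
  · rw [div_le_one (by positivity)]
    nlinarith
  intro x δ hx hδ hδ1
  rw [← hs, ← hp]
  have hx4 : 4 * K ^ 2 ≤ x := by
    have h1 : 4 * K ^ 2 ≤ (⌈4 * K ^ 2⌉₊ : ℝ) := Nat.le_ceil _
    push_cast at hx
    linarith
  have hx0 : 0 < x := by nlinarith
  have hδs : 4 * K ^ 2 * δ ≤ s := by
    rw [le_div_iff₀ (by positivity)] at hδ1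
    linarith
  have hδK : 4 * K ^ 2 * δ ≤ 1 := by linarith
  obtain ⟨w, hw⟩ : ∃ w, w = 1 / x := ⟨_, rfl⟩
  have hw0 : 0 < w := by rw [hw]; positivity
  have hwK : 4 * K ^ 2 * w ≤ 1 := by
    rw [hw, mul_one_div, div_le_one hx0]; exact hx4
  obtain ⟨u, hu⟩ : ∃ u, u = 1 / (x + 1) := ⟨_, rfl⟩
  have huw : u * (1 + w) = w := by
    rw [hu, hw]; field_simp
  have hrr : rr s p α β γ δ x =
      1 + (p * w - s * δ + α * w ^ 2 + β * δ * w + γ * δ ^ 2) := by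
    rw [rr, hw]; field_simp; ring
  have hrr' : rr s p α β γ δ (x + 1) =
      1 + (p * u - s * δ + α * u ^ 2 + β * δ * u + γ * δ ^ 2) := by
    rw [rr, hu]; field_simp; ring
  have hcc : δ ^ 2 / c ^ 2 = δ ^ 2 * (1 - s ^ 2) := by rw [hsq]; ring
  have hδ1' : δ ≤ 1 := by nlinarith
  have hsδ : s * δ < 1 := by nlinarith
  have hrest : 0 ≤ p * w + α * w ^ 2 + β * δ * w := by positivity
  refine ⟨?_, ?_, ?_, ?_⟩
  · rw [hrr]
    have : 0 ≤ γ * δ ^ 2 := by positivity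
    linarith
  · rw [hrr]
    have h1 : (1 + δ) * (1 - s * δ + γ * δ ^ 2) ≤
        (1 + δ) * (1 + (p * w - s * δ + α * w ^ 2 + β * δ * w + γ * δ ^ 2)) :=
      mul_le_mul_of_nonneg_left (by linarith) (by linarith)
    have h2 : 0 ≤ (γ - s) * δ ^ 2 := mul_nonneg (by linarith) (sq_nonneg _)
    have h3 : 0 ≤ γ * δ ^ 3 := by positivity
    nlinarith
  · rw [hcc, hrr, hrr']
    have h := crit s p α β γ w u δ K hs0 hs1 hp0 hp1 hps hα0 hβ0 hγ8 hK c1 c2 c3 c4 hw0 hδ huw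
      hwK hδK
    have hxw : (1 - p) / x = (1 - p) * w := by rw [hw]; ring
    rw [hxw]
    exact h
  · intro hxs
    have hwD : 2 * w ≤ s * δ := by
      have : 2 / (s * x) = 2 * w / s := by rw [hw]; field_simp
      rw [this, div_le_iff₀ hs0] at hxs
      linarith
    have hKδ : 2 * K * δ ≤ s := by nlinarith [mul_pos hK0 hδ]
    have h := crit4 s p α β γ w δ K hs0 hs1 hp0 hp1 hα0 hβ0 hγ8 hK hw0 hδ hKδ hwD
    have hxw : s * p * δ / x = s * p * δ * w := by rw [hw]; ring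
    rw [hcc, hrr, hxw]
    exact h

end Pool.Agent.Helper55.KE
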