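import Pool.Agent.Helper55.KE.Step

set_option autoImplicit false
set_option linter.unusedSectionVars false

/-!
# Moving one cluster
-/

namespace Helper55.KE

open Helper11.N1
open Helper11.N1.DECaux (ind ite_ind ind_and ind_congr ind_pos ind_neg)

section

variable {p q a b : ℕ} [NeZero p] [NeZero q]

theorem sum_update (f : ZMod (p * q) → ZMod p → ℤ) (z : ZMod p → ZMod (p * q)) (i0 : ZMod p)
    (c : ZMod (p * q)) :
    ∑ j, f (Function.update z i0 c j) j - ∑ j, f (z j) j = f c i0 - f (z i0) i0 := by
  rw [← Finset.sum_sub_distrib, Finset.sum_eq_single i0]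
  · rw [Function.update_self]
  · intro j _ hj
    rw [Function.update_of_ne hj, sub_self]
  · intro h
    exact absurd (Finset.mem_univ _) h

theorem lev_id (hP : Par p q a b) (W j : ZMod p) :
    ind (aB b W j) + ind (aL a b W j) = ind (aR a W j) + ind (aT a b W j) := by
  have hab := hP.hab
  have key : ∀ c : ℕ, c < p → (c ≤ (W - 1 - j).val ∧
      (W - c - 1 - j).val = (W - 1 - j).val - c) ∨
      ((W - 1 - j).val < c ∧ (W - c - 1 - j).val = (W - 1 - j).val + p - c) := by
    intro c hc
    have h1 := ZMod.val_lt (W - 1 - j)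
    rcases Nat.lt_or_ge (W - 1 - j).val c with h | h
    · right
      refine ⟨h, ?_⟩
      have h2 : W - c - 1 - j = (((W - 1 - j).val + p - c : ℕ) : ZMod p) := by
        rw [Nat.cast_sub (by omega), Nat.cast_add, ZMod.natCast_zmod_val, ZMod.natCast_self]
        ring
      conv_lhs => rw [h2]
      rw [ZMod.val_natCast, Nat.mod_eq_of_lt (by omega)]
    · left
      refine ⟨h, ?_⟩
      have h2 : W - c - 1 - j = (((W - 1 - j).val - c : ℕ) : ZMod p) := by
        rw [Nat.cast_sub (by omega), ZMod.natCast_zmod_val]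
        ring
      conv_lhs => rw [h2]
      rw [ZMod.val_natCast, Nat.mod_eq_of_lt (by omega)]
  have ha := key a (by omega)
  have hb := key b (by omega)
  have h1 := ZMod.val_lt (W - 1 - j)
  have h2 := ZMod.val_lt (W - (a : ZMod p) - 1 - j)
  have h3 := ZMod.val_lt (W - (b : ZMod p) - 1 - j)
  unfold aB aL aR aT
  generalize (W - 1 - j).val = v at *
  generalize (W - (a : ZMod p) - 1 - j).val = va at *
  generalize (W - (b : ZMod p) - 1 - j).val = vb at *
  rw [← ite_ind (v < b), ← ite_ind (vb < a), ← ite_ind (v < a), ← ite_ind (va < b)]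
  split_ifs <;> omega

/-- the value of the moved triangle count -/
noncomputable def RR (q a b : ℕ) (z : ZMod p → ZMod (p * q)) (i0 : ZMod p) (d : ℕ)
    (X : ZMod (p * q)) (W : ZMod p) (S : ZMod (p * q)) : ℤ :=
  ind (off X (z i0 + (d : ZMod (p * q))) < b * q) *
      ind (off (z i0 + (d : ZMod (p * q)) + e p q i0 + 1) S < a * q) -
    ind (off X (z i0) < b * q) * ind (off (z i0 + e p q i0 + 1) S < a * q) +
    ind (off (sc q z i0 + 1) S < d) * ind (aB b W i0) -
    ind (off (sc q z i0 + (a : ZMod (p * q)) * (q : ZMod (p * q)) + 1) S < d) *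
      ind (aT a b W i0) -
    ind (off (z i0 + 1) X < d) * ind (aR a W i0) +
    ind (off (z i0 - (b : ZMod (p * q)) * (q : ZMod (p * q)) + 1) X < d) * ind (aL a b W i0)

theorem ind_eq_comm {α : Type*} (x y : α) : ind (x = y) = ind (y = x) := ind_congr eq_comm

/-- an interval indicator in the first coordinate -/
theorem jstep (hP : Par p q a b) (X c : ZMod (p * q)) :
    ind (off (X + 1) c < b * q) - ind (off X c < b * q) =
      ind (c - (b : ZMod (p * q)) * (q : ZMod (p * q)) = X) - ind (c = X) := by
  have hM := one_lt_mul hP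
  obtain ⟨haq, hbq, habq, h2a, h2b⟩ := lt_mul_of hP
  have hq1 := hP.hq
  have h1 : (c - (b : ZMod (p * q)) * (q : ZMod (p * q)) = X) ↔ off X c = b * q := by
    rw [off_eq_iff _ _ (by omega)]
    push_cast
    rw [sub_eq_iff_eq_add]
  have h2 : (c = X) ↔ off X c = 0 := by
    rw [off_eq_zero]
    exact eq_comm
  have h4 : off X (X + 1) = 1 := by
    have := off_nat X (n := 1) hM
    rwa [Nat.cast_one] at this
  have h5 := off_add X (X + 1) c
  have h6 := off_lt X c
  have h7 := off_lt (X + 1) c
  rw [ind_congr h1, ind_congr h2]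
  rw [h4] at h5
  generalize off X c = o at *
  generalize off (X + 1) c = o' at *
  rw [← ite_ind (o' < b * q), ← ite_ind (o < b * q), ← ite_ind (o = b * q), ← ite_ind (o = 0)]
  split_ifs <;> omega

theorem move_x (hP : Par p q a b) (z : ZMod p → ZMod (p * q)) (i0 : ZMod p) {d : ℕ}
    (hd0 : 0 < d) (hd : d < p * q) (X : ZMod (p * q)) (W : ZMod p) (S : ZMod (p * q)) :
    (FF q a b (Function.update z i0 (z i0 + (d : ZMod (p * q)))) (X + 1) W S -
      FF q a b z (X + 1) W S - RR q a b z i0 d (X + 1) W S) =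
    (FF q a b (Function.update z i0 (z i0 + (d : ZMod (p * q)))) X W S -
      FF q a b z X W S - RR q a b z i0 d X W S) := by
  have hM := one_lt_mul hP
  have h1 := xstep hP z X W S
  have h2 := xstep hP (Function.update z i0 (z i0 + (d : ZMod (p * q)))) X W S
  have h3 := sum_update (fun c j => (ind (c = X) *
      (ind (aR a W j) - ind (off (c + e p q j + 1) S < a * q)) +
        ind (c - b * q = X) * (ind (off (c + e p q j + 1) S < a * q) - ind (aL a b W j))))
      z i0 (z i0 + (d : ZMod (p * q)))
  unfold sc at h1 h2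
  rw [← h1, ← h2] at h3
  have h4 := jstep hP X (z i0)
  have h5 := jstep hP X (z i0 + (d : ZMod (p * q)))
  have h6 := arc_step hM (z i0) X hd0 hd
  have h7 := arc_step hM (z i0 - (b : ZMod (p * q)) * (q : ZMod (p * q))) X hd0 hd
  have e1 : z i0 - (b : ZMod (p * q)) * (q : ZMod (p * q)) + (d : ZMod (p * q)) =
      z i0 + (d : ZMod (p * q)) - (b : ZMod (p * q)) * (q : ZMod (p * q)) := by ring
  rw [e1] at h7
  unfold RR
  generalize ind (off (z i0 + (d : ZMod (p * q)) + e p q i0 + 1) S < a * q) = I1 at *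
  generalize ind (off (z i0 + e p q i0 + 1) S < a * q) = I0 at *
  generalize ind (aR a W i0) = r at *
  generalize ind (aL a b W i0) = l at *
  linear_combination h3 - I1 * h5 + I0 * h4 + r * h6 - l * h7

theorem move_s (hP : Par p q a b) (z : ZMod p → ZMod (p * q)) (i0 : ZMod p) {d : ℕ}
    (hd0 : 0 < d) (hd : d < p * q) (X : ZMod (p * q)) (W : ZMod p) (S : ZMod (p * q)) :
    (FF q a b (Function.update z i0 (z i0 + (d : ZMod (p * q)))) X W (S + 1) -
      FF q a b z X W (S + 1) - RR q a b z i0 d X W (S + 1)) =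
    (FF q a b (Function.update z i0 (z i0 + (d : ZMod (p * q)))) X W S -
      FF q a b z X W S - RR q a b z i0 d X W S) := by
  have hM := one_lt_mul hP
  obtain ⟨haq, hbq, habq, h2a, h2b⟩ := lt_mul_of hP
  have hq1 := hP.hq
  have h1 := sstep hP z X W S
  have h2 := sstep hP (Function.update z i0 (z i0 + (d : ZMod (p * q)))) X W S
  have h3 := sum_update (fun c j => (ind (c + e p q j = S) *
      (ind (off X c < b * q) - ind (aB b W j)) +
        ind (c + e p q j + a * q = S) * (ind (aT a b W j) - ind (off X c < b * q))))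
      z i0 (z i0 + (d : ZMod (p * q)))
  unfold sc at h1 h2
  rw [← h1, ← h2] at h3
  have h4 := arc_step hM (z i0 + e p q i0) S (d := a * q) (by omega) haq
  have h5 := arc_step hM (z i0 + (d : ZMod (p * q)) + e p q i0) S (d := a * q) (by omega) haq
  have h6 := arc_step hM (sc q z i0) S hd0 hd
  have h7 := arc_step hM (sc q z i0 + (a : ZMod (p * q)) * (q : ZMod (p * q))) S hd0 hd
  push_cast at h4 h5
  unfold sc at h6 h7
  have e1 : z i0 + e p q i0 + (d : ZMod (p * q)) = z i0 + (d : ZMod (p * q)) + e p q i0 := by ring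
  have e2 : z i0 + e p q i0 + (a : ZMod (p * q)) * (q : ZMod (p * q)) + (d : ZMod (p * q)) =
      z i0 + (d : ZMod (p * q)) + e p q i0 + (a : ZMod (p * q)) * (q : ZMod (p * q)) := by ring
  rw [e1] at h6
  rw [e2] at h7
  unfold RR sc
  generalize ind (off X (z i0 + (d : ZMod (p * q))) < b * q) = J1 at *
  generalize ind (off X (z i0) < b * q) = J0 at *
  generalize ind (aB b W i0) = r at *
  generalize ind (aT a b W i0) = l at *
  linear_combination h3 - J1 * h5 + J0 * h4 - r * h6 + l * h7

theorem rr_sum (hP : Par p q a b) (z : ZMod p → ZMod (p * q)) (i0 : ZMod p) {d : ℕ}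
    (hd : d < p * q) (W : ZMod p) :
    ∑ X : ZMod (p * q), RR q a b z i0 d X W (X + e p q W) = 0 := by
  have h1 := fun (x : ZMod (p * q)) => sum_arc x (e p q W) hd.le
  have h2 := fun (x : ZMod (p * q)) => sum_arc x 0 hd.le
  simp only [add_zero] at h2
  have h3 : ∑ X : ZMod (p * q), ind (off X (z i0 + (d : ZMod (p * q))) < b * q) *
      ind (off (z i0 + (d : ZMod (p * q)) + e p q i0 + 1) (X + e p q W) < a * q) =
      ∑ X : ZMod (p * q), ind (off X (z i0) < b * q) *
        ind (off (z i0 + e p q i0 + 1) (X + e p q W) < a * q) := by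
    rw [← Equiv.sum_comp (Equiv.addRight (d : ZMod (p * q)))]
    apply Finset.sum_congr rfl
    intro X _
    rw [Equiv.coe_addRight]
    have e1 : off (X + (d : ZMod (p * q))) (z i0 + (d : ZMod (p * q))) = off X (z i0) :=
      off_translate _ _ _
    have e2 : off (z i0 + (d : ZMod (p * q)) + e p q i0 + 1)
        (X + (d : ZMod (p * q)) + e p q W) = off (z i0 + e p q i0 + 1) (X + e p q W) := by
      rw [← off_translate (z i0 + e p q i0 + 1) (X + e p q W) (d : ZMod (p * q))]
      congr 1 <;> ring
    rw [e1, e2]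
  have h4 := lev_id hP W i0
  unfold RR
  rw [Finset.sum_add_distrib, Finset.sum_sub_distrib, Finset.sum_sub_distrib,
    Finset.sum_add_distrib, Finset.sum_sub_distrib, h3, ← Finset.sum_mul, ← Finset.sum_mul,
    ← Finset.sum_mul, ← Finset.sum_mul, h1, h1, h2, h2]
  linear_combination (d : ℤ) * h4

/-- the effect of moving one cluster -/
theorem move (hP : Par p q a b) (z : ZMod p → ZMod (p * q)) (i0 : ZMod p) {d : ℕ}
    (hd0 : 0 < d) (hd : d < p * q) (X : ZMod (p * q)) (W : ZMod p) (S : ZMod (p * q)) :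
    FF q a b (Function.update z i0 (z i0 + (d : ZMod (p * q)))) X W S - FF q a b z X W S =
      RR q a b z i0 d X W S := by
  set z' := Function.update z i0 (z i0 + (d : ZMod (p * q))) with hz'
  have hc : ∀ X S X' S', (FF q a b z' X W S - FF q a b z X W S - RR q a b z i0 d X W S) =
      (FF q a b z' X' W S' - FF q a b z X' W S' - RR q a b z i0 d X' W S') := by
    intro X S X' S'
    rw [const_of_step (fun X => FF q a b z' X W S - FF q a b z X W S - RR q a b z i0 d X W S)
      (fun X => move_x hP z i0 hd0 hd X W S) X X']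
    exact const_of_step (fun S => FF q a b z' X' W S - FF q a b z X' W S -
      RR q a b z i0 d X' W S) (fun S => move_s hP z i0 hd0 hd X' W S) S S'
  have h1 : ∑ Y : ZMod (p * q), (FF q a b z' Y W (Y + e p q W) - FF q a b z Y W (Y + e p q W) -
      RR q a b z i0 d Y W (Y + e p q W)) = 0 := by
    rw [Finset.sum_sub_distrib, rr_sum hP z i0 hd W, sub_zero]
    apply Finset.sum_eq_zero
    intro Y _
    have hq1 := hP.hq
    rw [band hP z' Y W 0 (by omega) _ (by rw [Nat.cast_zero, add_zero]),
      band hP z Y W 0 (by omega) _ (by rw [Nat.cast_zero, add_zero])]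
    ring
  rw [Finset.sum_congr rfl (fun Y _ => hc Y (Y + e p q W) X S), Finset.sum_const,
    Finset.card_univ, ZMod.card, nsmul_eq_mul] at h1
  rcases mul_eq_zero.1 h1 with h2 | h2
  · exfalso
    have : (p * q : ℕ) = 0 := by exact_mod_cast h2
    omega
  · linarith

end

end Helper55.KE
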