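import Pool.Agent.Helper55.KE.Half
import Pool.Agent.Helper25.FLT.G2

set_option autoImplicit false
set_option linter.unusedSectionVars false

/-!
# The field `half`
-/

namespace Helper55.KE

open Helper11.N1 Helper10.KE Helper25.FLT

theorem stHalf : StHalf := by
  intro p q a b _ _ hP hab hb z i0 ρ θ hG hAP dl hdl0 hdlM hdl k x r hC h1 hS
  obtain ⟨hk0, hk, X, rfl, hX, hr⟩ := hC
  obtain ⟨n, rfl⟩ := Int.eq_ofNat_of_zero_le hk0.le
  have hn0 : 0 < n := by exact_mod_cast hk0
  have hn : n < p := by exact_mod_cast hk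
  rw [Int.cast_natCast] at hX hr
  have key := half_real hP hG hAP hn0 hn hX hr h1 (by
    intro m hm0 hm hmk x' r' hx' hr'
    have h2 := hS (m : ℤ) ((x' : ℝ) / q) r' ⟨by exact_mod_cast hm0, by exact_mod_cast hm, x', rfl,
      by rw [Int.cast_natCast]; exact hx', by rw [Int.cast_natCast]; exact hr'⟩ (by
        intro h
        exact hmk (by exact_mod_cast h))
    rw [Int.cast_natCast] at h2
    exact h2)
  exact_mod_cast key

end Helper55.KE
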