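import Pool.Agent.Helper55.KE.Corner
import Pool.Agent.Helper11.N1.M_VJ
import Pool.Agent.Helper11.N1.M_BL

set_option autoImplicit false
set_option linter.unusedSectionVars false

/-!
# Steps of the triangle count, the band where it vanishes, and moving one cluster
-/

namespace Helper55.KE

open Helper11.N1
open Helper11.N1.DECaux (ind ite_ind ind_and ind_congr ind_pos ind_neg)

section circle

variable {M : ℕ} [NeZero M]

/-- one step of an arc indicator -/
theorem arc_step (hM : 1 < M) (x S : ZMod M) {d : ℕ} (hd0 : 0 < d) (hd : d < M) :
    ind (off (x + 1) (S + 1) < d) - ind (off (x + 1) S < d) =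
      ind (x = S) - ind (x + (d : ZMod M) = S) := by
  have h1 : off (x + 1) (S + 1) = off x S := off_translate x S 1
  have h2 : (x = S) ↔ off x S = 0 := off_eq_zero.symm
  have h3 : (x + (d : ZMod M) = S) ↔ off x S = d := by
    rw [off_eq_iff x S hd]
    exact eq_comm
  have h4 : off x (x + 1) = 1 := by
    have := off_nat x (n := 1) hM
    rwa [Nat.cast_one] at this
  have h5 := off_add x (x + 1) S
  have h6 := off_lt x S
  have h7 := off_lt (x + 1) S
  rw [h1, ind_congr h2, ind_congr h3]
  generalize off x S = o at *
  generalize off (x + 1) S = o' at *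
  rw [← ite_ind (o < d), ← ite_ind (o' < d), ← ite_ind (o = 0), ← ite_ind (o = d)]
  split_ifs <;> omega

/-- a function on the circle with zero steps is constant -/
theorem const_of_step (f : ZMod M → ℤ) (h : ∀ X, f (X + 1) = f X) (X Y : ZMod M) : f X = f Y := by
  have h1 : ∀ n : ℕ, f (Y + (n : ZMod M)) = f Y := by
    intro n
    induction n with
    | zero => rw [Nat.cast_zero, add_zero]
    | succ n ih =>
      have : Y + ((n + 1 : ℕ) : ZMod M) = Y + (n : ZMod M) + 1 := by push_cast; ring
      rw [this, h, ih]
  have h2 := h1 (off Y X)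
  rw [off_spec] at h2
  exact h2

/-- an arc of length `d` has `d` points -/
theorem sum_arc (x c : ZMod M) {d : ℕ} (hd : d ≤ M) :
    ∑ X : ZMod M, ind (off x (X + c) < d) = d := by
  classical
  have h1 : ∑ X : ZMod M, ind (off x (X + c) < d) =
      ∑ v : ZMod M, (if v.val < d then (1 : ℤ) else 0) := by
    refine Fintype.sum_equiv (Equiv.addRight (c - x)) _ _ fun X => ?_
    rw [ite_ind]
    apply ind_congr
    rw [Equiv.coe_addRight]
    unfold off
    have : X + c - x = X + (c - x) := by ring
    rw [this]
  rw [h1, Finset.sum_boole]
  have h : (Finset.univ.filter fun v : ZMod M => v.val < d).card = (Finset.range d).card := by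
    symm
    refine Finset.card_bij (s := Finset.range d) (fun (n : ℕ) _ => ((n : ℕ) : ZMod M)) ?_ ?_ ?_
    · intro n hn
      rw [Finset.mem_range] at hn
      rw [Finset.mem_filter]
      refine ⟨Finset.mem_univ _, ?_⟩
      rw [ZMod.val_natCast, Nat.mod_eq_of_lt (by omega)]
      exact hn
    · intro n hn m hm hnm
      rw [Finset.mem_range] at hn hm
      exact Nat.ModEq.eq_of_lt_of_lt ((ZMod.natCast_eq_natCast_iff n m M).1 hnm)
        (by omega) (by omega)
    · intro v hv
      rw [Finset.mem_filter] at hv
      exact ⟨v.val, Finset.mem_range.2 hv.2, ZMod.natCast_zmod_val v⟩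
  rw [h, Finset.card_range]

end circle

section

variable {p q a b : ℕ} [NeZero p] [NeZero q]

theorem ite_mul_ind (P : Prop) [Decidable P] (A : ℤ) : (if P then A else 0) = ind P * A := by
  by_cases h : P
  · rw [if_pos h, ind_pos h, one_mul]
  · rw [if_neg h, ind_neg h, zero_mul]

/-- a vertical step -/
theorem xstep (hP : Par p q a b) (z : ZMod p → ZMod (p * q)) (X : ZMod (p * q)) (W : ZMod p)
    (S : ZMod (p * q)) :
    FF q a b z (X + 1) W S - FF q a b z X W S = ∑ j : ZMod p,
      (ind (z j = X) * (ind (aR a W j) - ind (off (sc q z j + 1) S < a * q)) +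
        ind (z j - b * q = X) * (ind (off (sc q z j + 1) S < a * q) - ind (aL a b W j))) := by
  classical
  rw [vj (lj bl) dec p q a b hP z X W S]
  apply Finset.sum_congr rfl
  intro j _
  simp only [ite_mul_ind]
  ring

/-- a horizontal step -/
theorem sstep (hP : Par p q a b) (z : ZMod p → ZMod (p * q)) (X : ZMod (p * q)) (W : ZMod p)
    (S : ZMod (p * q)) :
    FF q a b z X W (S + 1) - FF q a b z X W S = ∑ j : ZMod p,
      (ind (sc q z j = S) * (ind (off X (z j) < b * q) - ind (aB b W j)) +
        ind (sc q z j + a * q = S) * (ind (aT a b W j) - ind (off X (z j) < b * q))) := by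
  classical
  have hM := one_lt_mul hP
  obtain ⟨haq, hbq, habq, h2a, h2b⟩ := lt_mul_of hP
  have hq1 := hP.hq
  have h1 := LDXaux.rj (a := a) (b := b) hM z W S
  have h2 : NN q a b z X (S + 1) - NN q a b z X S = ∑ j : ZMod p,
      (ind (off X (z j) < b * q) * (ind (sc q z j = S) - ind (sc q z j + a * q = S))) := by
    unfold NN
    rw [← Finset.sum_sub_distrib]
    apply Finset.sum_congr rfl
    intro j _
    unfold box
    rw [ite_ind, ite_ind, ind_and, ind_and, ← mul_sub]
    congr 1
    have h3 := arc_step hM (sc q z j) S (d := a * q) (by omega) haq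
    push_cast at h3
    exact h3
  rw [dec p q a b hP z X W (S + 1), dec p q a b hP z X W S]
  have h3 : NN q a b z X (S + 1) - NN q a b z X (X + e p q W) + rhoS q a b z W (S + 1) -
      rhoS q a b z W (X + e p q W) - (NN q a b z X S - NN q a b z X (X + e p q W) +
        rhoS q a b z W S - rhoS q a b z W (X + e p q W)) =
      (NN q a b z X (S + 1) - NN q a b z X S) + (rhoS q a b z W (S + 1) - rhoS q a b z W S) := by
    ring
  rw [h3, h2, h1, ← Finset.sum_sub_distrib, ← Finset.sum_add_distrib]
  apply Finset.sum_congr rfl
  intro j _
  rw [ite_ind, ite_ind, ind_and, ind_and]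
  ring

/-- on which side of an active level a point near the line lies -/
theorem band_aux (hP : Par p q a b) (X : ZMod (p * q)) (u : ZMod p) {r : ℕ} (hr0 : 0 < r)
    (hr : r < q) : off X (X + e p q u - (r : ZMod (p * q))) < b * q ↔ (u - 1).val < b := by
  obtain ⟨haq, hbq, habq, h2a, h2b⟩ := lt_mul_of hP
  have hq1 := hP.hq
  have hp := hP.hab
  by_cases hu : u = 0
  · have h1 : off X (X + e p q u - (r : ZMod (p * q))) = p * q - r := by
      rw [off_eq_iff _ _ (by omega), Nat.cast_sub (by omega), hu, e_zero]
      have : ((p * q : ℕ) : ZMod (p * q)) = 0 := ZMod.natCast_self _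
      rw [this]
      ring
    have h2 : (u - 1).val = p - 1 := by
      have h3 : u - 1 = ((p - 1 : ℕ) : ZMod p) := by
        rw [hu, Nat.cast_sub (by omega), ZMod.natCast_self]
        push_cast
        ring
      rw [h3, ZMod.val_natCast, Nat.mod_eq_of_lt (by omega)]
    rw [h1, h2]
    omega
  · have h0 : 0 < u.val := by
      rcases Nat.eq_zero_or_pos u.val with h | h
      · exact absurd ((ZMod.val_eq_zero u).1 h) hu
      · exact h
    have hup := ZMod.val_lt u
    have h3 : q * 1 ≤ q * u.val := Nat.mul_le_mul_left q h0
    have h4 : q * u.val + q ≤ p * q := by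
      calc q * u.val + q = (u.val + 1) * q := by ring
        _ ≤ p * q := Nat.mul_le_mul_right q (by omega)
    have h1 : off X (X + e p q u - (r : ZMod (p * q))) = q * u.val - r := by
      rw [off_eq_iff _ _ (by omega), Nat.cast_sub (by omega)]
      have h5 : e p q u = ((q * u.val : ℕ) : ZMod (p * q)) := rfl
      rw [h5]
      ring
    have h2 : (u - 1).val = u.val - 1 := by
      have h5 : u - 1 = ((u.val - 1 : ℕ) : ZMod p) := by
        rw [Nat.cast_sub (by omega), ZMod.natCast_zmod_val]
        push_cast
        ring
      conv_lhs => rw [h5]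
      rw [ZMod.val_natCast, Nat.mod_eq_of_lt (by omega)]
    rw [h1, h2]
    constructor
    · intro h6
      by_contra h7
      have h8 : q * (b + 1) ≤ q * u.val := Nat.mul_le_mul_left q (by omega)
      have h9 : q * (b + 1) = b * q + q := by ring
      omega
    · intro h6
      have h8 : q * u.val ≤ q * b := Nat.mul_le_mul_left q (by omega)
      have h9 : q * b = b * q := by ring
      omega

/-- the triangle count vanishes in the band below the line -/
theorem band (hP : Par p q a b) (z : ZMod p → ZMod (p * q)) (X : ZMod (p * q)) (W : ZMod p) :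
    ∀ (r : ℕ), r < q → ∀ S : ZMod (p * q), S + (r : ZMod (p * q)) = X + e p q W →
      FF q a b z X W S = 0 := by
  intro r
  induction r with
  | zero =>
    intro _ S hS
    rw [Nat.cast_zero, add_zero] at hS
    rw [dec p q a b hP z X W S, hS]
    ring
  | succ r ih =>
    intro hr S hS
    have h1 := ih (by omega) (S + 1) (by
      rw [← hS]
      push_cast
      ring)
    have h2 := sstep hP z X W S
    rw [h1] at h2
    have h3 : ∑ j : ZMod p,
        (ind (sc q z j = S) * (ind (off X (z j) < b * q) - ind (aB b W j)) +
          ind (sc q z j + a * q = S) * (ind (aT a b W j) - ind (off X (z j) < b * q))) = 0 := by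
      apply Finset.sum_eq_zero
      intro j _
      have h4 : ind (sc q z j = S) * (ind (off X (z j) < b * q) - ind (aB b W j)) = 0 := by
        by_cases h5 : sc q z j = S
        · have h6 : z j = X + e p q (W - j) - ((r + 1 : ℕ) : ZMod (p * q)) := by
            have h7 : z j = sc q z j - e p q j := by unfold sc; ring
            rw [h7, h5, e_sub]
            linear_combination hS
          have h7 := band_aux hP X (W - j) (r := r + 1) (by omega) hr
          rw [← h6] at h7
          have h8 : aB b W j ↔ (W - j - 1).val < b := by
            unfold aB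
            have : W - 1 - j = W - j - 1 := by ring
            rw [this]
          rw [ind_congr (h7.trans h8.symm), sub_self, mul_zero]
        · rw [ind_neg h5, zero_mul]
      have h9 : ind (sc q z j + a * q = S) *
          (ind (aT a b W j) - ind (off X (z j) < b * q)) = 0 := by
        by_cases h5 : sc q z j + a * q = S
        · have h6 : z j = X + e p q (W - a - j) - ((r + 1 : ℕ) : ZMod (p * q)) := by
            have h7 : z j = sc q z j - e p q j := by unfold sc; ring
            rw [h7, e_sub, e_sub, e_ab]
            linear_combination h5 + hS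
          have h7 := band_aux hP X (W - a - j) (r := r + 1) (by omega) hr
          rw [← h6] at h7
          have h8 : aT a b W j ↔ (W - a - j - 1).val < b := by
            unfold aT
            have : W - a - 1 - j = W - a - j - 1 := by ring
            rw [this]
          rw [ind_congr (h7.trans h8.symm), sub_self, mul_zero]
        · rw [ind_neg h5, zero_mul]
      rw [h4, h9, add_zero]
    rw [h3] at h2
    linarith

end

end Helper55.KE
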